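import Mathlib

/-!
Bernstein-Markov inequality for Gaussian space, part 1: the function class.
-/

set_option linter.unusedVariables false

namespace H88BM

open MvPolynomial MeasureTheory

/-- polynomials in `z` (`Sum.inl`) and `conj z` (`Sum.inr`) -/
abbrev RR (n : ℕ) := MvPolynomial (Fin n ⊕ Fin n) ℂ

variable {n : ℕ}

/-- the evaluation point -/
noncomputable def pt (z : Fin n → ℂ) : Fin n ⊕ Fin n → ℂ :=
  Sum.elim z (fun j => (starRingEnd ℂ) (z j))

noncomputable def ev (z : Fin n → ℂ) (P : RR n) : ℂ := eval (pt z) P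

noncomputable def hol (F : MvPolynomial (Fin n) ℂ) : RR n := rename Sum.inl F

noncomputable def anti (F : MvPolynomial (Fin n) ℂ) : RR n :=
  rename Sum.inr (MvPolynomial.map (starRingEnd ℂ) F)

noncomputable def AA (F : MvPolynomial (Fin n) ℂ) (ε : ℝ) : RR n :=
  hol F * anti F + C (ε : ℂ)

lemma ev_hol (z : Fin n → ℂ) (F : MvPolynomial (Fin n) ℂ) : ev z (hol F) = eval z F := by
  unfold ev hol
  rw [eval_rename]
  congr 1

lemma ev_anti (z : Fin n → ℂ) (F : MvPolynomial (Fin n) ℂ) :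
    ev z (anti F) = (starRingEnd ℂ) (eval z F) := by
  unfold ev anti
  rw [eval_rename]
  have : (pt z ∘ Sum.inr) = (starRingEnd ℂ) ∘ z := by
    funext j; simp [pt]
  rw [this, eval_map]
  rw [← MvPolynomial.eval₂_id, MvPolynomial.hom_eval₂]
  simp [Function.comp_def]

lemma ev_mul (z : Fin n → ℂ) (P Q : RR n) : ev z (P * Q) = ev z P * ev z Q := by
  simp [ev]

lemma ev_add (z : Fin n → ℂ) (P Q : RR n) : ev z (P + Q) = ev z P + ev z Q := by
  simp [ev]

lemma ev_C (z : Fin n → ℂ) (c : ℂ) : ev z (C c) = c := by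
  simp [ev]

lemma ev_sum {ι : Type*} (s : Finset ι) (z : Fin n → ℂ) (P : ι → RR n) :
    ev z (∑ i ∈ s, P i) = ∑ i ∈ s, ev z (P i) := by
  simp [ev]

/-- the real function `|F(z)|^2 + ε` -/
noncomputable def Ar (F : MvPolynomial (Fin n) ℂ) (ε : ℝ) (z : Fin n → ℂ) : ℝ :=
  ‖eval z F‖ ^ 2 + ε

lemma ev_AA (z : Fin n → ℂ) (F : MvPolynomial (Fin n) ℂ) (ε : ℝ) :
    ev z (AA F ε) = (Ar F ε z : ℂ) := by
  unfold AA Ar
  rw [ev_add, ev_mul, ev_hol, ev_anti, ev_C, Complex.mul_conj, Complex.normSq_eq_norm_sq]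
  push_cast
  ring

lemma Ar_pos (F : MvPolynomial (Fin n) ℂ) {ε : ℝ} (hε : 0 < ε) (z : Fin n → ℂ) :
    0 < Ar F ε z := by
  unfold Ar; positivity

lemma Ar_ge (F : MvPolynomial (Fin n) ℂ) (ε : ℝ) (z : Fin n → ℂ) :
    ε ≤ Ar F ε z := by
  unfold Ar
  have : 0 ≤ ‖eval z F‖ ^ 2 := by positivity
  linarith

/-- the basic function class -/
noncomputable def Phi (F : MvPolynomial (Fin n) ℂ) (ε r : ℝ) (P : RR n) (z : Fin n → ℂ) : ℂ :=
  ((Ar F ε z ^ r : ℝ) : ℂ) * ev z P

/-- the formal holomorphic derivative of `A^r P` is `A^(r-1) * Lh P` -/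
noncomputable def Lh (F : MvPolynomial (Fin n) ℂ) (ε r : ℝ) (j : Fin n) (P : RR n) : RR n :=
  C (r : ℂ) * pderiv (Sum.inl j) (AA F ε) * P + AA F ε * pderiv (Sum.inl j) P

/-- the formal antiholomorphic derivative of `A^r P` is `A^(r-1) * La P` -/
noncomputable def La (F : MvPolynomial (Fin n) ℂ) (ε r : ℝ) (j : Fin n) (P : RR n) : RR n :=
  C (r : ℂ) * pderiv (Sum.inr j) (AA F ε) * P + AA F ε * pderiv (Sum.inr j) P

lemma Phi_add (F : MvPolynomial (Fin n) ℂ) (ε r : ℝ) (P Q : RR n) (z : Fin n → ℂ) :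
    Phi F ε r (P + Q) z = Phi F ε r P z + Phi F ε r Q z := by
  unfold Phi; rw [ev_add]; ring

lemma Phi_Cmul (F : MvPolynomial (Fin n) ℂ) (ε r : ℝ) (c : ℂ) (P : RR n) (z : Fin n → ℂ) :
    Phi F ε r (C c * P) z = c * Phi F ε r P z := by
  unfold Phi; rw [ev_mul, ev_C]; ring

lemma Phi_AA (F : MvPolynomial (Fin n) ℂ) {ε : ℝ} (hε : 0 < ε) (r : ℝ) (P : RR n)
    (z : Fin n → ℂ) :
    Phi F ε r (AA F ε * P) z = Phi F ε (r + 1) P z := by
  unfold Phi
  rw [ev_mul, ev_AA, Real.rpow_add_one (Ar_pos F hε z).ne']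
  push_cast
  ring

lemma Phi_zl (F : MvPolynomial (Fin n) ℂ) (ε r : ℝ) (j : Fin n) (P : RR n) (z : Fin n → ℂ) :
    Phi F ε r (X (Sum.inl j) * P) z = z j * Phi F ε r P z := by
  unfold Phi
  rw [ev_mul]
  have : ev z (X (Sum.inl j)) = z j := by simp [ev, pt]
  rw [this]; ring

lemma Phi_zr (F : MvPolynomial (Fin n) ℂ) (ε r : ℝ) (j : Fin n) (P : RR n) (z : Fin n → ℂ) :
    Phi F ε r (X (Sum.inr j) * P) z = (starRingEnd ℂ) (z j) * Phi F ε r P z := by
  unfold Phi
  rw [ev_mul]
  have : ev z (X (Sum.inr j)) = (starRingEnd ℂ) (z j) := by simp [ev, pt]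
  rw [this]; ring

/-! ### derivative along curves -/

lemma hasDerivAt_ev_curve (P : RR n) (c : ℝ → Fin n → ℂ) (c' : Fin n → ℂ) (t : ℝ)
    (hc : ∀ j, HasDerivAt (fun u => c u j) (c' j) t) :
    HasDerivAt (fun u => ev (c u) P)
      (∑ j, (c' j * ev (c t) (pderiv (Sum.inl j) P)
        + (starRingEnd ℂ) (c' j) * ev (c t) (pderiv (Sum.inr j) P))) t := by
  induction P using MvPolynomial.induction_on with
  | C a =>
    simp only [ev, eval_C, pderiv_C, map_zero, mul_zero, add_zero, Finset.sum_const_zero]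
    exact hasDerivAt_const t a
  | add P Q hP hQ =>
    have e : (fun u => ev (c u) (P + Q)) = (fun u => ev (c u) P) + fun u => ev (c u) Q := by
      funext u; simp [ev_add]
    rw [e]
    refine (hP.add hQ).congr_deriv ?_
    rw [← Finset.sum_add_distrib]
    refine Finset.sum_congr rfl fun j _ => ?_
    simp only [map_add, ev_add]
    ring
  | mul_X P i hP =>
    have hX : HasDerivAt (fun u => ev (c u) (X i : RR n))
        (∑ j, (c' j * ev (c t) (pderiv (Sum.inl j) (X i : RR n))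
          + (starRingEnd ℂ) (c' j) * ev (c t) (pderiv (Sum.inr j) (X i : RR n)))) t := by
      rcases i with i | i
      · have h1 : (fun u => ev (c u) (X (Sum.inl i) : RR n)) = fun u => c u i := by
          funext u; simp [ev, pt]
        rw [h1]
        refine (hc i).congr_deriv ?_
        rw [Finset.sum_eq_single i]
        · simp [pderiv_X, ev]
        · intro b _ hb
          simp [pderiv_X, ev, Ne.symm hb]
        · simp
      · have h1 : (fun u => ev (c u) (X (Sum.inr i) : RR n))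
            = fun u => (starRingEnd ℂ) (c u i) := by
          funext u; simp [ev, pt]
        rw [h1]
        have h2 : HasDerivAt (fun u => (starRingEnd ℂ) (c u i)) ((starRingEnd ℂ) (c' i)) t := by
          have := (hc i).star
          simpa using this
        refine h2.congr_deriv ?_
        rw [Finset.sum_eq_single i]
        · simp [pderiv_X, ev]
        · intro b _ hb
          simp [pderiv_X, ev, Ne.symm hb]
        · simp
    have e : (fun u => ev (c u) (P * X i)) = (fun u => ev (c u) P) * fun u => ev (c u) (X i) := by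
      funext u; simp [ev_mul]
    rw [e]
    refine (hP.mul hX).congr_deriv ?_
    rw [Finset.sum_mul, Finset.mul_sum, ← Finset.sum_add_distrib]
    refine Finset.sum_congr rfl fun j _ => ?_
    rw [Derivation.leibniz, Derivation.leibniz]
    simp only [smul_eq_mul, ev_add, ev_mul]
    ring

lemma hasDerivAt_Phi_curve (F : MvPolynomial (Fin n) ℂ) {ε : ℝ} (hε : 0 < ε) (r : ℝ) (P : RR n)
    (c : ℝ → Fin n → ℂ) (c' : Fin n → ℂ) (t : ℝ)
    (hc : ∀ j, HasDerivAt (fun u => c u j) (c' j) t) :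
    HasDerivAt (fun u => Phi F ε r P (c u))
      (∑ j, (c' j * Phi F ε (r - 1) (Lh F ε r j P) (c t)
        + (starRingEnd ℂ) (c' j) * Phi F ε (r - 1) (La F ε r j P) (c t))) t := by
  set D : ℂ := ∑ j, (c' j * ev (c t) (pderiv (Sum.inl j) (AA F ε))
        + (starRingEnd ℂ) (c' j) * ev (c t) (pderiv (Sum.inr j) (AA F ε))) with hD
  have hA : HasDerivAt (fun u => ev (c u) (AA F ε)) D t := hasDerivAt_ev_curve (AA F ε) c c' t hc
  have hA2 : HasDerivAt (fun u => ((Ar F ε (c u) : ℝ) : ℂ)) D t := by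
    have : (fun u => ev (c u) (AA F ε)) = fun u => ((Ar F ε (c u) : ℝ) : ℂ) := by
      funext u; exact ev_AA _ _ _
    rw [← this]; exact hA
  have hAr : HasDerivAt (fun u => Ar F ε (c u)) D.re t := by
    have h1 := (Complex.reCLM.hasFDerivAt.comp_hasDerivAt t hA2)
    simpa [Function.comp_def] using h1
  have hDre : D = (D.re : ℂ) := hA2.unique hAr.ofReal_comp
  have hpos := Ar_pos F hε (c t)
  have hrpow : HasDerivAt (fun u => Ar F ε (c u) ^ r) (D.re * r * Ar F ε (c t) ^ (r - 1)) t :=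
    hAr.rpow_const (Or.inl hpos.ne')
  have h2 := hrpow.ofReal_comp.mul (hasDerivAt_ev_curve P c c' t hc)
  refine h2.congr_deriv ?_
  have e1 : Ar F ε (c t) ^ r = Ar F ε (c t) ^ (r - 1) * Ar F ε (c t) := by
    rw [← Real.rpow_add_one hpos.ne']; ring_nf
  rw [e1]
  push_cast
  rw [← hDre, hD, Finset.mul_sum, Finset.sum_mul, Finset.sum_mul, Finset.sum_mul,
    ← Finset.sum_add_distrib]
  refine Finset.sum_congr rfl fun j _ => ?_
  unfold Phi Lh La
  simp only [ev_add, ev_mul, ev_C, ev_AA]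
  push_cast
  ring

end H88BM
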