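import Mathlib
import Pool.Agent.H88.BMBasic

/-!
Bernstein-Markov inequality for Gaussian space, part 2: growth, integrability.
-/

set_option linter.unusedVariables false
set_option linter.unusedTactic false

namespace H88BM

open MvPolynomial MeasureTheory

variable {n : ℕ}

lemma ev_growth (P : RR n) : ∃ C : ℝ, ∃ k : ℕ, 0 ≤ C ∧ ∀ z, ‖ev z P‖ ≤ C * (1 + ‖z‖) ^ k := by
  induction P using MvPolynomial.induction_on with
  | C a =>
    refine ⟨‖a‖, 0, norm_nonneg _, fun z => ?_⟩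
    simp [ev_C]
  | add P Q hP hQ =>
    obtain ⟨C1, k1, hC1, h1⟩ := hP
    obtain ⟨C2, k2, hC2, h2⟩ := hQ
    refine ⟨C1 + C2, k1 + k2, by positivity, fun z => ?_⟩
    rw [ev_add]
    have hb : (1:ℝ) ≤ 1 + ‖z‖ := by have := norm_nonneg z; linarith
    have e1 : (1 + ‖z‖) ^ k1 ≤ (1 + ‖z‖) ^ (k1 + k2) := pow_le_pow_right₀ hb (by omega)
    have e2 : (1 + ‖z‖) ^ k2 ≤ (1 + ‖z‖) ^ (k1 + k2) := pow_le_pow_right₀ hb (by omega)
    calc ‖ev z P + ev z Q‖ ≤ ‖ev z P‖ + ‖ev z Q‖ := norm_add_le _ _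
      _ ≤ C1 * (1 + ‖z‖) ^ k1 + C2 * (1 + ‖z‖) ^ k2 := add_le_add (h1 z) (h2 z)
      _ ≤ C1 * (1 + ‖z‖) ^ (k1 + k2) + C2 * (1 + ‖z‖) ^ (k1 + k2) := by gcongr
      _ = (C1 + C2) * (1 + ‖z‖) ^ (k1 + k2) := by ring
  | mul_X P i hP =>
    obtain ⟨C1, k1, hC1, h1⟩ := hP
    refine ⟨C1, k1 + 1, hC1, fun z => ?_⟩
    rw [ev_mul, norm_mul]
    have hX : ‖ev z (X i : RR n)‖ ≤ 1 + ‖z‖ := by
      rcases i with i | i
      · have : ev z (X (Sum.inl i) : RR n) = z i := by simp [ev, pt]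
        rw [this]
        have := norm_le_pi_norm z i
        linarith
      · have : ev z (X (Sum.inr i) : RR n) = (starRingEnd ℂ) (z i) := by simp [ev, pt]
        rw [this, RCLike.norm_conj]
        have := norm_le_pi_norm z i
        linarith
    calc ‖ev z P‖ * ‖ev z (X i : RR n)‖ ≤ (C1 * (1 + ‖z‖) ^ k1) * (1 + ‖z‖) := by
          gcongr
          exact h1 z
      _ = C1 * (1 + ‖z‖) ^ (k1 + 1) := by ring

lemma Ar_rpow_growth (F : MvPolynomial (Fin n) ℂ) {ε : ℝ} (hε : 0 < ε) (r : ℝ) :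
    ∃ C : ℝ, ∃ k : ℕ, 0 ≤ C ∧ ∀ z, Ar F ε z ^ r ≤ C * (1 + ‖z‖) ^ k := by
  rcases le_or_gt 0 r with hr | hr
  · obtain ⟨C1, k1, hC1, h1⟩ := ev_growth (AA F ε)
    refine ⟨C1 ^ r, k1 * ⌈r⌉₊, Real.rpow_nonneg hC1 _, fun z => ?_⟩
    have hb : (1:ℝ) ≤ 1 + ‖z‖ := by have := norm_nonneg z; linarith
    have hA : Ar F ε z ≤ C1 * (1 + ‖z‖) ^ k1 := by
      have := h1 z
      rw [ev_AA, Complex.norm_real, Real.norm_of_nonneg (Ar_pos F hε z).le] at this
      exact this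
    calc Ar F ε z ^ r ≤ (C1 * (1 + ‖z‖) ^ k1) ^ r :=
          Real.rpow_le_rpow (Ar_pos F hε z).le hA hr
      _ = C1 ^ r * ((1 + ‖z‖) ^ k1) ^ r := by
          rw [Real.mul_rpow hC1 (by positivity)]
      _ ≤ C1 ^ r * ((1 + ‖z‖) ^ k1) ^ ((⌈r⌉₊ : ℕ) : ℝ) := by
          gcongr
          · exact one_le_pow₀ hb
          · exact Nat.le_ceil r
      _ = C1 ^ r * (1 + ‖z‖) ^ (k1 * ⌈r⌉₊) := by
          rw [Real.rpow_natCast, pow_mul]
  · refine ⟨ε ^ r, 0, Real.rpow_nonneg hε.le _, fun z => ?_⟩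
    rw [pow_zero, mul_one]
    exact Real.rpow_le_rpow_of_nonpos hε (Ar_ge F ε z) hr.le

lemma Phi_growth (F : MvPolynomial (Fin n) ℂ) {ε : ℝ} (hε : 0 < ε) (r : ℝ) (P : RR n) :
    ∃ C : ℝ, ∃ k : ℕ, 0 ≤ C ∧ ∀ z, ‖Phi F ε r P z‖ ≤ C * (1 + ‖z‖) ^ k := by
  obtain ⟨C1, k1, hC1, h1⟩ := Ar_rpow_growth F hε r
  obtain ⟨C2, k2, hC2, h2⟩ := ev_growth P
  refine ⟨C1 * C2, k1 + k2, by positivity, fun z => ?_⟩
  unfold Phi
  rw [norm_mul, Complex.norm_real,
    Real.norm_of_nonneg (Real.rpow_nonneg (Ar_pos F hε z).le _)]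
  calc Ar F ε z ^ r * ‖ev z P‖ ≤ (C1 * (1 + ‖z‖) ^ k1) * (C2 * (1 + ‖z‖) ^ k2) := by
        gcongr
        · exact h1 z
        · exact h2 z
    _ = C1 * C2 * (1 + ‖z‖) ^ (k1 + k2) := by ring

lemma continuous_pt : Continuous (pt : (Fin n → ℂ) → _) := by
  refine continuous_pi fun i => ?_
  rcases i with i | i
  · simp only [pt, Sum.elim_inl]; exact continuous_apply i
  · simp only [pt, Sum.elim_inr]; exact Complex.continuous_conj.comp (continuous_apply i)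

lemma continuous_ev (P : RR n) : Continuous (fun z => ev z P) := by
  unfold ev
  exact (MvPolynomial.continuous_eval P).comp continuous_pt

lemma continuous_Ar (F : MvPolynomial (Fin n) ℂ) (ε : ℝ) : Continuous (Ar F ε) := by
  unfold Ar
  exact ((MvPolynomial.continuous_eval F).norm.pow 2).add continuous_const

lemma continuous_Phi (F : MvPolynomial (Fin n) ℂ) {ε : ℝ} (hε : 0 < ε) (r : ℝ) (P : RR n) :
    Continuous (Phi F ε r P) := by
  unfold Phi
  refine Continuous.mul (Complex.continuous_ofReal.comp ?_) (continuous_ev P)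
  exact (continuous_Ar F ε).rpow_const fun z => Or.inl (Ar_pos F hε z).ne'

/-! ### the space, the weight and the map -/

/-- the real space -/
abbrev VV (n : ℕ) := (Fin n → ℝ) × (Fin n → ℝ)

/-- unnormalised Gaussian weight -/
noncomputable def wt (v : VV n) : ℝ :=
  Real.exp (-(∑ j, (v.1 j) ^ 2 + ∑ j, (v.2 j) ^ 2) / 2)

/-- the point `z = cosh τ x + i sinh τ y` -/
noncomputable def zeta (τ : ℝ) (v : VV n) (j : Fin n) : ℂ :=
  ((Real.cosh τ * v.1 j : ℝ) : ℂ) + ((Real.sinh τ * v.2 j : ℝ) : ℂ) * Complex.I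

lemma wt_pos (v : VV n) : 0 < wt v := Real.exp_pos _

lemma continuous_wt : Continuous (wt : VV n → ℝ) := by
  unfold wt
  refine Real.continuous_exp.comp ?_
  fun_prop

lemma continuous_zeta : Continuous (fun q : ℝ × VV n => zeta q.1 q.2) := by
  refine continuous_pi fun j => ?_
  unfold zeta
  have h1 : Continuous (fun q : ℝ × VV n => Real.cosh q.1 * q.2.1 j) := by
    refine (Real.continuous_cosh.comp continuous_fst).mul ?_
    fun_prop
  have h2 : Continuous (fun q : ℝ × VV n => Real.sinh q.1 * q.2.2 j) := by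
    refine (Real.continuous_sinh.comp continuous_fst).mul ?_
    fun_prop
  exact (Complex.continuous_ofReal.comp h1).add
    ((Complex.continuous_ofReal.comp h2).mul continuous_const)

lemma continuous_zeta' (τ : ℝ) : Continuous (fun v : VV n => zeta τ v) :=
  continuous_zeta.comp (Continuous.prodMk continuous_const continuous_id)

lemma norm_zeta_le (τ : ℝ) (v : VV n) : ‖zeta τ v‖ ≤ 2 * Real.cosh τ * ‖v‖ := by
  have hc : 0 < Real.cosh τ := Real.cosh_pos τ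
  refine (pi_norm_le_iff_of_nonneg (by positivity)).2 fun j => ?_
  unfold zeta
  have h1 : |v.1 j| ≤ ‖v‖ := by
    have := norm_le_pi_norm v.1 j
    exact le_trans this (norm_fst_le v)
  have h2 : |v.2 j| ≤ ‖v‖ := by
    have := norm_le_pi_norm v.2 j
    exact le_trans this (norm_snd_le v)
  have hs : |Real.sinh τ| ≤ Real.cosh τ := by
    rw [abs_le]
    constructor
    · have := Real.cosh_add_sinh τ
      have h := Real.exp_pos τ
      linarith
    · have := Real.cosh_sub_sinh τ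
      have h := Real.exp_pos (-τ)
      linarith
  calc ‖((Real.cosh τ * v.1 j : ℝ) : ℂ) + ((Real.sinh τ * v.2 j : ℝ) : ℂ) * Complex.I‖
      ≤ ‖((Real.cosh τ * v.1 j : ℝ) : ℂ)‖ + ‖((Real.sinh τ * v.2 j : ℝ) : ℂ) * Complex.I‖ :=
        norm_add_le _ _
    _ = Real.cosh τ * |v.1 j| + |Real.sinh τ| * |v.2 j| := by
        rw [norm_mul, Complex.norm_I, Complex.norm_real, Complex.norm_real, mul_one,
          Real.norm_eq_abs, Real.norm_eq_abs, abs_mul, abs_mul, abs_of_pos hc]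
    _ ≤ Real.cosh τ * ‖v‖ + Real.cosh τ * ‖v‖ := by gcongr
    _ = 2 * Real.cosh τ * ‖v‖ := by ring

lemma one_add_norm_zeta_le (τ : ℝ) (v : VV n) :
    1 + ‖zeta τ v‖ ≤ 2 * Real.cosh τ * (1 + ‖v‖) := by
  have := norm_zeta_le τ v
  have hc : 1 ≤ Real.cosh τ := Real.one_le_cosh τ
  have := norm_nonneg v
  nlinarith

lemma norm_sq_le (v : VV n) : ‖v‖ ^ 2 ≤ ∑ j, (v.1 j) ^ 2 + ∑ j, (v.2 j) ^ 2 := by
  have key : ∀ x : Fin n → ℝ, ‖x‖ ^ 2 ≤ ∑ j, (x j) ^ 2 := by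
    intro x
    have h : ‖x‖ ≤ Real.sqrt (∑ j, (x j) ^ 2) := by
      refine (pi_norm_le_iff_of_nonneg (Real.sqrt_nonneg _)).2 fun j => ?_
      rw [Real.norm_eq_abs, ← Real.sqrt_sq_eq_abs]
      refine Real.sqrt_le_sqrt ?_
      exact Finset.single_le_sum (f := fun j => (x j) ^ 2) (fun i _ => sq_nonneg _)
        (Finset.mem_univ j)
    calc ‖x‖ ^ 2 ≤ (Real.sqrt (∑ j, (x j) ^ 2)) ^ 2 := by gcongr
      _ = _ := Real.sq_sqrt (Finset.sum_nonneg fun i _ => sq_nonneg _)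
  have h1 := key v.1
  have h2 := key v.2
  have p1 : 0 ≤ ∑ j, (v.1 j) ^ 2 := Finset.sum_nonneg fun i _ => sq_nonneg _
  have p2 : 0 ≤ ∑ j, (v.2 j) ^ 2 := Finset.sum_nonneg fun i _ => sq_nonneg _
  rw [Prod.norm_def]
  rcases max_cases ‖v.1‖ ‖v.2‖ with ⟨h, _⟩ | ⟨h, _⟩ <;> rw [h] <;> linarith

lemma wt_decay (k : ℕ) : ∃ C : ℝ, 0 ≤ C ∧ ∀ v : VV n, wt v * (1 + ‖v‖) ^ k ≤ C := by
  refine ⟨(k.factorial : ℝ) * Real.exp (3 / 2), by positivity, fun v => ?_⟩
  have h1 : wt v ≤ Real.exp (1 / 2 - ‖v‖) := by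
    unfold wt
    refine Real.exp_le_exp.2 ?_
    have := norm_sq_le v
    nlinarith [sq_nonneg (‖v‖ - 1)]
  have hv := norm_nonneg v
  have h2 : (1 + ‖v‖) ^ k ≤ (k.factorial : ℝ) * Real.exp (1 + ‖v‖) := by
    have := Real.pow_div_factorial_le_exp (1 + ‖v‖) (by positivity) k
    rw [div_le_iff₀ (by positivity)] at this
    linarith
  calc wt v * (1 + ‖v‖) ^ k
      ≤ Real.exp (1 / 2 - ‖v‖) * ((k.factorial : ℝ) * Real.exp (1 + ‖v‖)) := by
        gcongr
    _ = (k.factorial : ℝ) * (Real.exp (1 / 2 - ‖v‖) * Real.exp (1 + ‖v‖)) := by ring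
    _ = (k.factorial : ℝ) * Real.exp (3 / 2) := by
        rw [← Real.exp_add]; ring_nf

instance instHaarVV : (volume : Measure (VV n)).IsAddHaarMeasure :=
  Measure.prod.instIsAddHaarMeasure (volume : Measure (Fin n → ℝ)) (volume : Measure (Fin n → ℝ))

lemma integrable_wt_pow (k : ℕ) :
    Integrable (fun v : VV n => wt v * (1 + ‖v‖) ^ k) := by
  have hfin : (Module.finrank ℝ (VV n) : ℝ) < ((2 * n + 1 : ℕ) : ℝ) := by
    have : Module.finrank ℝ (VV n) = 2 * n := by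
      simp [Module.finrank_prod]; ring
    rw [this]
    push_cast
    linarith
  obtain ⟨C, hC, h⟩ := wt_decay (n := n) (k + (2 * n + 1))
  have hI := (integrable_one_add_norm (μ := (volume : Measure (VV n))) hfin).const_mul C
  refine hI.mono' ?_ ?_
  · refine Continuous.aestronglyMeasurable ?_
    have := continuous_wt (n := n)
    fun_prop
  · refine Filter.Eventually.of_forall fun v => ?_
    have hb : 0 < 1 + ‖v‖ := by have := norm_nonneg v; linarith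
    rw [Real.norm_of_nonneg (mul_nonneg (wt_pos v).le (by positivity))]
    have h' := h v
    rw [Real.rpow_neg hb.le, Real.rpow_natCast, ← div_eq_mul_inv, le_div_iff₀ (by positivity)]
    calc wt v * (1 + ‖v‖) ^ k * (1 + ‖v‖) ^ (2 * n + 1)
        = wt v * (1 + ‖v‖) ^ (k + (2 * n + 1)) := by ring
      _ ≤ C := h'

end H88BM
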