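import Mathlib
import Pool.Agent.H88.BMInt

/-!
Bernstein-Markov inequality for Gaussian space, part 3: integration by parts and the
derivative of the functional in `τ`.
-/

set_option linter.unusedVariables false
set_option linter.unusedTactic false

namespace H88BM

open MvPolynomial MeasureTheory

variable {n : ℕ}

lemma integrable_wt_mul {G : VV n → ℂ} (hG : Continuous G) {C : ℝ} {k : ℕ}
    (hb : ∀ v, ‖G v‖ ≤ C * (1 + ‖v‖) ^ k) :
    Integrable (fun v : VV n => (wt v : ℂ) * G v) := by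
  refine ((integrable_wt_pow (n := n) k).const_mul C).mono' ?_ ?_
  · exact ((Complex.continuous_ofReal.comp continuous_wt).mul hG).aestronglyMeasurable
  · refine Filter.Eventually.of_forall fun v => ?_
    rw [norm_mul, Complex.norm_real, Real.norm_of_nonneg (wt_pos v).le]
    calc wt v * ‖G v‖ ≤ wt v * (C * (1 + ‖v‖) ^ k) := by
          have := wt_pos v
          gcongr
          exact hb v
      _ = C * (wt v * (1 + ‖v‖) ^ k) := by ring

lemma Phi_zeta_growth (F : MvPolynomial (Fin n) ℂ) {ε : ℝ} (hε : 0 < ε) (r : ℝ) (P : RR n) :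
    ∃ C : ℝ, ∃ k : ℕ, 0 ≤ C ∧ ∀ τ v, ‖Phi F ε r P (zeta τ v)‖
      ≤ C * (2 * Real.cosh τ) ^ k * (1 + ‖v‖) ^ k := by
  obtain ⟨C, k, hC, h⟩ := Phi_growth F hε r P
  refine ⟨C, k, hC, fun τ v => ?_⟩
  have hc : 0 < Real.cosh τ := Real.cosh_pos τ
  calc ‖Phi F ε r P (zeta τ v)‖ ≤ C * (1 + ‖zeta τ v‖) ^ k := h _
    _ ≤ C * (2 * Real.cosh τ * (1 + ‖v‖)) ^ k := by
        gcongr
        exact one_add_norm_zeta_le τ v
    _ = C * (2 * Real.cosh τ) ^ k * (1 + ‖v‖) ^ k := by rw [mul_pow]; ring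

lemma continuous_Phi_zeta (F : MvPolynomial (Fin n) ℂ) {ε : ℝ} (hε : 0 < ε) (r : ℝ) (P : RR n)
    (τ : ℝ) : Continuous (fun v : VV n => Phi F ε r P (zeta τ v)) :=
  (continuous_Phi F hε r P).comp (continuous_zeta' τ)

lemma integrable_mul_Phi (F : MvPolynomial (Fin n) ℂ) {ε : ℝ} (hε : 0 < ε) (r : ℝ) (P : RR n)
    (τ : ℝ) {m : VV n → ℂ} (hm : Continuous m) (hmb : ∀ v, ‖m v‖ ≤ 1 + ‖v‖) :
    Integrable (fun v : VV n => (wt v : ℂ) * (m v * Phi F ε r P (zeta τ v))) := by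
  obtain ⟨C, k, hC, h⟩ := Phi_zeta_growth F hε r P
  have hc : 0 < Real.cosh τ := Real.cosh_pos τ
  refine integrable_wt_mul (C := C * (2 * Real.cosh τ) ^ k) (k := k + 1)
    (hm.mul (continuous_Phi_zeta F hε r P τ)) fun v => ?_
  have hv : 0 ≤ ‖v‖ := norm_nonneg v
  rw [norm_mul]
  calc ‖m v‖ * ‖Phi F ε r P (zeta τ v)‖
      ≤ (1 + ‖v‖) * (C * (2 * Real.cosh τ) ^ k * (1 + ‖v‖) ^ k) := by
        gcongr
        · exact hmb v
        · exact h τ v
    _ = _ := by ring

lemma integrable_Phi (F : MvPolynomial (Fin n) ℂ) {ε : ℝ} (hε : 0 < ε) (r : ℝ) (P : RR n)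
    (τ : ℝ) :
    Integrable (fun v : VV n => (wt v : ℂ) * Phi F ε r P (zeta τ v)) := by
  have := integrable_mul_Phi F hε r P τ (m := fun _ => 1) continuous_const (fun v => by
    have := norm_nonneg v
    simp)
  simpa using this

lemma coord1_bound (j : Fin n) (v : VV n) : ‖((v.1 j : ℝ) : ℂ)‖ ≤ 1 + ‖v‖ := by
  rw [Complex.norm_real]
  have h1 : ‖v.1 j‖ ≤ ‖v‖ := (norm_le_pi_norm v.1 j).trans (norm_fst_le v)
  linarith

lemma coord2_bound (j : Fin n) (v : VV n) : ‖((v.2 j : ℝ) : ℂ)‖ ≤ 1 + ‖v‖ := by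
  rw [Complex.norm_real]
  have h1 : ‖v.2 j‖ ≤ ‖v‖ := (norm_le_pi_norm v.2 j).trans (norm_snd_le v)
  linarith

lemma coord1_cont (j : Fin n) : Continuous (fun v : VV n => ((v.1 j : ℝ) : ℂ)) :=
  Complex.continuous_ofReal.comp (by fun_prop)

lemma coord2_cont (j : Fin n) : Continuous (fun v : VV n => ((v.2 j : ℝ) : ℂ)) :=
  Complex.continuous_ofReal.comp (by fun_prop)

/-- the functional -/
noncomputable def EE (F : MvPolynomial (Fin n) ℂ) (ε r τ : ℝ) (P : RR n) : ℂ :=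
  ∫ v : VV n, (wt v : ℂ) * Phi F ε r P (zeta τ v)

noncomputable def EX (F : MvPolynomial (Fin n) ℂ) (ε r τ : ℝ) (j : Fin n) (P : RR n) : ℂ :=
  ∫ v : VV n, (wt v : ℂ) * (((v.1 j : ℝ) : ℂ) * Phi F ε r P (zeta τ v))

noncomputable def EY (F : MvPolynomial (Fin n) ℂ) (ε r τ : ℝ) (j : Fin n) (P : RR n) : ℂ :=
  ∫ v : VV n, (wt v : ℂ) * (((v.2 j : ℝ) : ℂ) * Phi F ε r P (zeta τ v))

lemma EE_add (F : MvPolynomial (Fin n) ℂ) {ε : ℝ} (hε : 0 < ε) (r τ : ℝ) (P Q : RR n) :
    EE F ε r τ (P + Q) = EE F ε r τ P + EE F ε r τ Q := by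
  unfold EE
  rw [← integral_add (integrable_Phi F hε r P τ) (integrable_Phi F hε r Q τ)]
  congr 1; funext v; rw [Phi_add]; ring

lemma EE_Cmul (F : MvPolynomial (Fin n) ℂ) (ε r τ : ℝ) (c : ℂ) (P : RR n) :
    EE F ε r τ (C c * P) = c * EE F ε r τ P := by
  unfold EE
  rw [← integral_const_mul]
  congr 1; funext v; rw [Phi_Cmul]; ring

/-- the functional as a linear map -/
noncomputable def EL (F : MvPolynomial (Fin n) ℂ) {ε : ℝ} (hε : 0 < ε) (r τ : ℝ) :
    RR n →ₗ[ℂ] ℂ where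
  toFun := EE F ε r τ
  map_add' := EE_add F hε r τ
  map_smul' c P := by
    rw [MvPolynomial.smul_eq_C_mul, EE_Cmul]; rfl

lemma EL_apply (F : MvPolynomial (Fin n) ℂ) {ε : ℝ} (hε : 0 < ε) (r τ : ℝ) (P : RR n) :
    EL F hε r τ P = EE F ε r τ P := rfl

lemma EL_AA (F : MvPolynomial (Fin n) ℂ) {ε : ℝ} (hε : 0 < ε) (r τ : ℝ) (P : RR n) :
    EL F hε r τ (AA F ε * P) = EL F hε (r + 1) τ P := by
  simp only [EL_apply, EE]
  congr 1; funext v; rw [Phi_AA F hε]

lemma hasDerivAt_zeta_x (τ : ℝ) (x : VV n) (j k : Fin n) :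
    HasDerivAt (fun t : ℝ => zeta τ (x + t • ((Pi.single j 1, 0) : VV n)) k)
      ((Real.cosh τ * (Pi.single j 1 : Fin n → ℝ) k : ℝ) : ℂ) 0 := by
  have h1 : HasDerivAt (fun t : ℝ => Real.cosh τ * (x.1 k + t * (Pi.single j 1 : Fin n → ℝ) k))
      (Real.cosh τ * (Pi.single j 1 : Fin n → ℝ) k) 0 := by
    have := (((hasDerivAt_id (0:ℝ)).mul_const ((Pi.single j 1 : Fin n → ℝ) k)).const_add
      (x.1 k)).const_mul (Real.cosh τ)
    simpa using this
  have h2 := h1.ofReal_comp.add_const (((Real.sinh τ * x.2 k : ℝ) : ℂ) * Complex.I)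
  have e : (fun t : ℝ => zeta τ (x + t • ((Pi.single j 1, 0) : VV n)) k)
      = fun t : ℝ => ((Real.cosh τ * (x.1 k + t * (Pi.single j 1 : Fin n → ℝ) k) : ℝ) : ℂ)
        + ((Real.sinh τ * x.2 k : ℝ) : ℂ) * Complex.I := by
    funext t
    simp [zeta]
  rw [e]
  exact h2

lemma hasDerivAt_zeta_y (τ : ℝ) (x : VV n) (j k : Fin n) :
    HasDerivAt (fun t : ℝ => zeta τ (x + t • ((0, Pi.single j 1) : VV n)) k)
      (((Real.sinh τ * (Pi.single j 1 : Fin n → ℝ) k : ℝ) : ℂ) * Complex.I) 0 := by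
  have h1 : HasDerivAt (fun t : ℝ => Real.sinh τ * (x.2 k + t * (Pi.single j 1 : Fin n → ℝ) k))
      (Real.sinh τ * (Pi.single j 1 : Fin n → ℝ) k) 0 := by
    have := (((hasDerivAt_id (0:ℝ)).mul_const ((Pi.single j 1 : Fin n → ℝ) k)).const_add
      (x.2 k)).const_mul (Real.sinh τ)
    simpa using this
  have h2 := (h1.ofReal_comp.mul_const Complex.I).const_add ((Real.cosh τ * x.1 k : ℝ) : ℂ)
  have e : (fun t : ℝ => zeta τ (x + t • ((0, Pi.single j 1) : VV n)) k)
      = fun t : ℝ => ((Real.cosh τ * x.1 k : ℝ) : ℂ) +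
        ((Real.sinh τ * (x.2 k + t * (Pi.single j 1 : Fin n → ℝ) k) : ℝ) : ℂ) * Complex.I := by
    funext t
    simp [zeta]
  rw [e]
  exact h2

lemma hasDerivAt_zeta_tau (τ : ℝ) (x : VV n) (k : Fin n) :
    HasDerivAt (fun t : ℝ => zeta t x k)
      (((Real.sinh τ * x.1 k : ℝ) : ℂ) + ((Real.cosh τ * x.2 k : ℝ) : ℂ) * Complex.I) τ := by
  unfold zeta
  exact (((Real.hasDerivAt_cosh τ).mul_const (x.1 k)).ofReal_comp).add
    ((((Real.hasDerivAt_sinh τ).mul_const (x.2 k)).ofReal_comp).mul_const Complex.I)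

lemma hasDerivAt_wt_x (x : VV n) (j : Fin n) :
    HasDerivAt (fun t : ℝ => wt (x + t • ((Pi.single j 1, 0) : VV n)))
      (-(x.1 j) * wt x) 0 := by
  have h1 : HasDerivAt (fun t : ℝ => -(∑ k, (x.1 k + t * (Pi.single j 1 : Fin n → ℝ) k) ^ 2
      + ∑ k, (x.2 k) ^ 2) / 2) (-(x.1 j)) 0 := by
    have hk : ∀ k ∈ (Finset.univ : Finset (Fin n)), HasDerivAt
        (fun t : ℝ => (x.1 k + t * (Pi.single j 1 : Fin n → ℝ) k) ^ 2)
        (2 * x.1 k * (Pi.single j 1 : Fin n → ℝ) k) 0 := by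
      intro k _
      have := (((hasDerivAt_id (0:ℝ)).mul_const ((Pi.single j 1 : Fin n → ℝ) k)).const_add
        (x.1 k)).fun_pow 2
      refine HasDerivAt.congr_deriv this ?_
      simp
    have := (((HasDerivAt.fun_sum hk).add_const (∑ k, (x.2 k) ^ 2)).neg).div_const 2
    refine this.congr_deriv ?_
    rw [Finset.sum_eq_single j]
    · simp; ring
    · intro b _ hb; simp [hb]
    · simp
  have e : (fun t : ℝ => wt (x + t • ((Pi.single j 1, 0) : VV n)))
      = fun t : ℝ => Real.exp (-(∑ k, (x.1 k + t * (Pi.single j 1 : Fin n → ℝ) k) ^ 2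
      + ∑ k, (x.2 k) ^ 2) / 2) := by
    funext t
    simp [wt]
  rw [e]
  refine h1.exp.congr_deriv ?_
  simp [wt]
  ring

lemma hasDerivAt_wt_y (x : VV n) (j : Fin n) :
    HasDerivAt (fun t : ℝ => wt (x + t • ((0, Pi.single j 1) : VV n)))
      (-(x.2 j) * wt x) 0 := by
  have h1 : HasDerivAt (fun t : ℝ => -(∑ k, (x.1 k) ^ 2 +
      ∑ k, (x.2 k + t * (Pi.single j 1 : Fin n → ℝ) k) ^ 2) / 2) (-(x.2 j)) 0 := by
    have hk : ∀ k ∈ (Finset.univ : Finset (Fin n)), HasDerivAt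
        (fun t : ℝ => (x.2 k + t * (Pi.single j 1 : Fin n → ℝ) k) ^ 2)
        (2 * x.2 k * (Pi.single j 1 : Fin n → ℝ) k) 0 := by
      intro k _
      have := (((hasDerivAt_id (0:ℝ)).mul_const ((Pi.single j 1 : Fin n → ℝ) k)).const_add
        (x.2 k)).fun_pow 2
      refine HasDerivAt.congr_deriv this ?_
      simp
    have := (((HasDerivAt.fun_sum hk).const_add (∑ k, (x.1 k) ^ 2)).neg).div_const 2
    refine this.congr_deriv ?_
    rw [Finset.sum_eq_single j]
    · simp; ring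
    · intro b _ hb; simp [hb]
    · simp
  have e : (fun t : ℝ => wt (x + t • ((0, Pi.single j 1) : VV n)))
      = fun t : ℝ => Real.exp (-(∑ k, (x.1 k) ^ 2 +
      ∑ k, (x.2 k + t * (Pi.single j 1 : Fin n → ℝ) k) ^ 2) / 2) := by
    funext t
    simp [wt]
  rw [e]
  refine h1.exp.congr_deriv ?_
  simp [wt]
  ring

lemma EX_eq (F : MvPolynomial (Fin n) ℂ) {ε : ℝ} (hε : 0 < ε) (r τ : ℝ) (j : Fin n) (P : RR n) :
    EX F ε r τ j P = (Real.cosh τ : ℂ) * (EE F ε (r - 1) τ (Lh F ε r j P)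
      + EE F ε (r - 1) τ (La F ε r j P)) := by
  have hI1 := integrable_mul_Phi F hε r P τ (coord1_cont j) (coord1_bound j)
  have hIl := integrable_Phi F hε (r - 1) (Lh F ε r j P) τ
  have hIa := integrable_Phi F hε (r - 1) (La F ε r j P) τ
  have key := integral_bilinear_hasLineDerivAt_right_eq_neg_left_of_integrable
    (μ := (volume : Measure (VV n))) (B := ContinuousLinearMap.mul ℝ ℂ)
    (f := fun v : VV n => (wt v : ℂ)) (f' := fun v : VV n => ((-(v.1 j) * wt v : ℝ) : ℂ))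
    (g := fun v : VV n => Phi F ε r P (zeta τ v))
    (g' := fun v : VV n => (Real.cosh τ : ℂ) * (Phi F ε (r - 1) (Lh F ε r j P) (zeta τ v)
      + Phi F ε (r - 1) (La F ε r j P) (zeta τ v)))
    (v := ((Pi.single j 1, 0) : VV n)) ?_ ?_ ?_ ?_ ?_
  · simp only [ContinuousLinearMap.mul_apply'] at key
    have e1 : (∫ v : VV n, (wt v : ℂ) * ((Real.cosh τ : ℂ) *
        (Phi F ε (r - 1) (Lh F ε r j P) (zeta τ v)
        + Phi F ε (r - 1) (La F ε r j P) (zeta τ v))))
        = (Real.cosh τ : ℂ) * (EE F ε (r - 1) τ (Lh F ε r j P)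
          + EE F ε (r - 1) τ (La F ε r j P)) := by
      unfold EE
      rw [← integral_add hIl hIa, ← integral_const_mul]
      congr 1; funext v; ring
    rw [← e1, key, ← integral_neg]
    unfold EX
    congr 1; funext v
    push_cast; ring
  · simp only [ContinuousLinearMap.mul_apply']
    refine hI1.neg.congr (Filter.Eventually.of_forall fun v => ?_)
    simp only [Pi.neg_apply]
    push_cast; ring
  · simp only [ContinuousLinearMap.mul_apply']
    refine ((hIl.add hIa).const_mul (Real.cosh τ : ℂ)).congr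
      (Filter.Eventually.of_forall fun v => ?_)
    simp only [Pi.add_apply]
    ring
  · simp only [ContinuousLinearMap.mul_apply']
    exact integrable_Phi F hε r P τ
  · intro x _
    exact (hasDerivAt_wt_x x j).ofReal_comp
  · intro x _
    have := hasDerivAt_Phi_curve F hε r P
      (fun t : ℝ => zeta τ (x + t • ((Pi.single j 1, 0) : VV n)))
      (fun k => ((Real.cosh τ * (Pi.single j 1 : Fin n → ℝ) k : ℝ) : ℂ)) 0
      (fun k => hasDerivAt_zeta_x τ x j k)
    refine HasDerivAt.congr_deriv this ?_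
    rw [Finset.sum_eq_single j]
    · simp only [Pi.single_eq_same, mul_one, Complex.conj_ofReal, zero_smul, add_zero]
      ring
    · intro b _ hb
      simp [hb]
    · simp

lemma EY_eq (F : MvPolynomial (Fin n) ℂ) {ε : ℝ} (hε : 0 < ε) (r τ : ℝ) (j : Fin n) (P : RR n) :
    EY F ε r τ j P = (Real.sinh τ : ℂ) * Complex.I * (EE F ε (r - 1) τ (Lh F ε r j P)
      - EE F ε (r - 1) τ (La F ε r j P)) := by
  have hI1 := integrable_mul_Phi F hε r P τ (coord2_cont j) (coord2_bound j)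
  have hIl := integrable_Phi F hε (r - 1) (Lh F ε r j P) τ
  have hIa := integrable_Phi F hε (r - 1) (La F ε r j P) τ
  have key := integral_bilinear_hasLineDerivAt_right_eq_neg_left_of_integrable
    (μ := (volume : Measure (VV n))) (B := ContinuousLinearMap.mul ℝ ℂ)
    (f := fun v : VV n => (wt v : ℂ)) (f' := fun v : VV n => ((-(v.2 j) * wt v : ℝ) : ℂ))
    (g := fun v : VV n => Phi F ε r P (zeta τ v))
    (g' := fun v : VV n => (Real.sinh τ : ℂ) * Complex.I *
      (Phi F ε (r - 1) (Lh F ε r j P) (zeta τ v)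
      - Phi F ε (r - 1) (La F ε r j P) (zeta τ v)))
    (v := ((0, Pi.single j 1) : VV n)) ?_ ?_ ?_ ?_ ?_
  · simp only [ContinuousLinearMap.mul_apply'] at key
    have e1 : (∫ v : VV n, (wt v : ℂ) * ((Real.sinh τ : ℂ) * Complex.I *
        (Phi F ε (r - 1) (Lh F ε r j P) (zeta τ v)
        - Phi F ε (r - 1) (La F ε r j P) (zeta τ v))))
        = (Real.sinh τ : ℂ) * Complex.I * (EE F ε (r - 1) τ (Lh F ε r j P)
          - EE F ε (r - 1) τ (La F ε r j P)) := by
      unfold EE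
      rw [← integral_sub hIl hIa, ← integral_const_mul]
      congr 1; funext v; ring
    rw [← e1, key, ← integral_neg]
    unfold EY
    congr 1; funext v
    push_cast; ring
  · simp only [ContinuousLinearMap.mul_apply']
    refine hI1.neg.congr (Filter.Eventually.of_forall fun v => ?_)
    simp only [Pi.neg_apply]
    push_cast; ring
  · simp only [ContinuousLinearMap.mul_apply']
    refine ((hIl.sub hIa).const_mul ((Real.sinh τ : ℂ) * Complex.I)).congr
      (Filter.Eventually.of_forall fun v => ?_)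
    simp only [Pi.sub_apply]
    ring
  · simp only [ContinuousLinearMap.mul_apply']
    exact integrable_Phi F hε r P τ
  · intro x _
    exact (hasDerivAt_wt_y x j).ofReal_comp
  · intro x _
    have := hasDerivAt_Phi_curve F hε r P
      (fun t : ℝ => zeta τ (x + t • ((0, Pi.single j 1) : VV n)))
      (fun k => ((Real.sinh τ * (Pi.single j 1 : Fin n → ℝ) k : ℝ) : ℂ) * Complex.I) 0
      (fun k => hasDerivAt_zeta_y τ x j k)
    refine HasDerivAt.congr_deriv this ?_
    rw [Finset.sum_eq_single j]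
    · simp only [Pi.single_eq_same, mul_one, map_mul, Complex.conj_ofReal, Complex.conj_I,
        zero_smul, add_zero]
      ring
    · intro b _ hb
      simp [hb]
    · simp

end H88BM
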