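import Mathlib
import Pool.Agent.H88.BMIbp

/-!
Bernstein-Markov inequality for Gaussian space, part 4: the rules (I1), (I2), (I3).
-/

set_option linter.unusedVariables false
set_option linter.unusedTactic false

namespace H88BM

open MvPolynomial MeasureTheory

variable {n : ℕ}

lemma EE_zl (F : MvPolynomial (Fin n) ℂ) {ε : ℝ} (hε : 0 < ε) (r τ : ℝ) (j : Fin n) (P : RR n) :
    EE F ε r τ (X (Sum.inl j) * P) = (Real.cosh τ : ℂ) * EX F ε r τ j P
      + (Real.sinh τ : ℂ) * Complex.I * EY F ε r τ j P := by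
  have hI1 := integrable_mul_Phi F hε r P τ (coord1_cont j) (coord1_bound j)
  have hI2 := integrable_mul_Phi F hε r P τ (coord2_cont j) (coord2_bound j)
  unfold EE EX EY
  rw [← integral_const_mul, ← integral_const_mul,
    ← integral_add (hI1.const_mul _) (hI2.const_mul _)]
  congr 1; funext v
  rw [Phi_zl]
  simp only [zeta]
  push_cast
  ring

lemma EE_zr (F : MvPolynomial (Fin n) ℂ) {ε : ℝ} (hε : 0 < ε) (r τ : ℝ) (j : Fin n) (P : RR n) :
    EE F ε r τ (X (Sum.inr j) * P) = (Real.cosh τ : ℂ) * EX F ε r τ j P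
      - (Real.sinh τ : ℂ) * Complex.I * EY F ε r τ j P := by
  have hI1 := integrable_mul_Phi F hε r P τ (coord1_cont j) (coord1_bound j)
  have hI2 := integrable_mul_Phi F hε r P τ (coord2_cont j) (coord2_bound j)
  unfold EE EX EY
  rw [← integral_const_mul, ← integral_const_mul,
    ← integral_sub (hI1.const_mul _) (hI2.const_mul _)]
  congr 1; funext v
  rw [Phi_zr]
  simp only [zeta, map_add, map_mul, Complex.conj_ofReal, Complex.conj_I]
  push_cast
  ring

/-- (I1) -/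
lemma EE_I1 (F : MvPolynomial (Fin n) ℂ) {ε : ℝ} (hε : 0 < ε) (r τ : ℝ) (j : Fin n) (P : RR n) :
    EE F ε r τ (X (Sum.inl j) * P) = EE F ε (r - 1) τ (Lh F ε r j P)
      + (Real.cosh (2 * τ) : ℂ) * EE F ε (r - 1) τ (La F ε r j P) := by
  rw [EE_zl F hε, EX_eq F hε, EY_eq F hε, Real.cosh_two_mul]
  have h1 : (Real.cosh τ : ℂ) ^ 2 - (Real.sinh τ : ℂ) ^ 2 = 1 := by
    have := Real.cosh_sq_sub_sinh_sq τ
    exact_mod_cast this
  have hI : Complex.I * Complex.I = -1 := Complex.I_mul_I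
  push_cast at h1 ⊢
  linear_combination (EE F ε (r - 1) τ (Lh F ε r j P)) * h1
    + (Complex.sinh (τ:ℂ)) ^ 2 * (EE F ε (r - 1) τ (Lh F ε r j P)
      - EE F ε (r - 1) τ (La F ε r j P)) * hI

/-- (I2) -/
lemma EE_I2 (F : MvPolynomial (Fin n) ℂ) {ε : ℝ} (hε : 0 < ε) (r τ : ℝ) (j : Fin n) (P : RR n) :
    EE F ε r τ (X (Sum.inr j) * P) = (Real.cosh (2 * τ) : ℂ) * EE F ε (r - 1) τ (Lh F ε r j P)
      + EE F ε (r - 1) τ (La F ε r j P) := by
  rw [EE_zr F hε, EX_eq F hε, EY_eq F hε, Real.cosh_two_mul]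
  have h1 : (Real.cosh τ : ℂ) ^ 2 - (Real.sinh τ : ℂ) ^ 2 = 1 := by
    have := Real.cosh_sq_sub_sinh_sq τ
    exact_mod_cast this
  have hI : Complex.I * Complex.I = -1 := Complex.I_mul_I
  push_cast at h1 ⊢
  linear_combination (EE F ε (r - 1) τ (La F ε r j P)) * h1
    - (Complex.sinh (τ:ℂ)) ^ 2 * (EE F ε (r - 1) τ (Lh F ε r j P)
      - EE F ε (r - 1) τ (La F ε r j P)) * hI

/-! ### derivative in τ -/

/-- growth class, locally uniform in `t` -/
def Gr (f : ℝ → VV n → ℂ) : Prop :=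
  ∃ C : ℝ, ∃ k : ℕ, 0 ≤ C ∧ ∀ t v, ‖f t v‖ ≤ C * (2 * Real.cosh t * (1 + ‖v‖)) ^ k

lemma base_ge_one (t : ℝ) (v : VV n) : 1 ≤ 2 * Real.cosh t * (1 + ‖v‖) := by
  have hc : 1 ≤ Real.cosh t := Real.one_le_cosh t
  have := norm_nonneg v
  nlinarith

lemma Gr.add {f g : ℝ → VV n → ℂ} (hf : Gr f) (hg : Gr g) : Gr (fun t v => f t v + g t v) := by
  obtain ⟨C1, k1, hC1, h1⟩ := hf
  obtain ⟨C2, k2, hC2, h2⟩ := hg
  refine ⟨C1 + C2, k1 + k2, by positivity, fun t v => ?_⟩
  have hb := base_ge_one t v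
  set b := 2 * Real.cosh t * (1 + ‖v‖)
  have e1 : b ^ k1 ≤ b ^ (k1 + k2) := pow_le_pow_right₀ hb (by omega)
  have e2 : b ^ k2 ≤ b ^ (k1 + k2) := pow_le_pow_right₀ hb (by omega)
  calc ‖f t v + g t v‖ ≤ ‖f t v‖ + ‖g t v‖ := norm_add_le _ _
    _ ≤ C1 * b ^ k1 + C2 * b ^ k2 := add_le_add (h1 t v) (h2 t v)
    _ ≤ C1 * b ^ (k1 + k2) + C2 * b ^ (k1 + k2) := by gcongr
    _ = _ := by ring

lemma Gr.mul {f g : ℝ → VV n → ℂ} (hf : Gr f) (hg : Gr g) : Gr (fun t v => f t v * g t v) := by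
  obtain ⟨C1, k1, hC1, h1⟩ := hf
  obtain ⟨C2, k2, hC2, h2⟩ := hg
  refine ⟨C1 * C2, k1 + k2, by positivity, fun t v => ?_⟩
  have hb := base_ge_one t v
  set b := 2 * Real.cosh t * (1 + ‖v‖)
  calc ‖f t v * g t v‖ = ‖f t v‖ * ‖g t v‖ := norm_mul _ _
    _ ≤ (C1 * b ^ k1) * (C2 * b ^ k2) := by
        gcongr
        · exact h1 t v
        · exact h2 t v
    _ = _ := by ring

lemma Gr.zero : Gr (fun (_ : ℝ) (_ : VV n) => (0 : ℂ)) :=
  ⟨0, 0, le_refl _, fun t v => by simp⟩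

lemma Gr.sum {ι : Type*} (s : Finset ι) {f : ι → ℝ → VV n → ℂ} (hf : ∀ i, Gr (f i)) :
    Gr (fun t v => ∑ i ∈ s, f i t v) := by
  classical
  induction s using Finset.induction_on with
  | empty => simpa using Gr.zero
  | insert a s ha ih =>
    have := (hf a).add ih
    simpa [Finset.sum_insert ha] using this

lemma Gr_Phi (F : MvPolynomial (Fin n) ℂ) {ε : ℝ} (hε : 0 < ε) (r : ℝ) (P : RR n) :
    Gr (fun t v => Phi F ε r P (zeta t v)) := by
  obtain ⟨C, k, hC, h⟩ := Phi_growth F hε r P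
  refine ⟨C, k, hC, fun τ v => ?_⟩
  calc ‖Phi F ε r P (zeta τ v)‖ ≤ C * (1 + ‖zeta τ v‖) ^ k := h _
    _ ≤ C * (2 * Real.cosh τ * (1 + ‖v‖)) ^ k := by
        gcongr
        exact one_add_norm_zeta_le τ v

/-- the velocity -/
noncomputable def zdot (τ : ℝ) (v : VV n) (j : Fin n) : ℂ :=
  ((Real.sinh τ * v.1 j : ℝ) : ℂ) + ((Real.cosh τ * v.2 j : ℝ) : ℂ) * Complex.I

lemma abs_sinh_le_cosh (τ : ℝ) : |Real.sinh τ| ≤ Real.cosh τ := by
  rw [abs_le]
  constructor
  · have := Real.cosh_add_sinh τ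
    have h := Real.exp_pos τ
    linarith
  · have := Real.cosh_sub_sinh τ
    have h := Real.exp_pos (-τ)
    linarith

lemma Gr_zdot (j : Fin n) : Gr (fun t v => zdot t v j) := by
  refine ⟨1, 1, zero_le_one, fun t v => ?_⟩
  have hc : 0 < Real.cosh t := Real.cosh_pos t
  have h1 : |v.1 j| ≤ ‖v‖ := (norm_le_pi_norm v.1 j).trans (norm_fst_le v)
  have h2 : |v.2 j| ≤ ‖v‖ := (norm_le_pi_norm v.2 j).trans (norm_snd_le v)
  have hs := abs_sinh_le_cosh t
  unfold zdot
  calc ‖((Real.sinh t * v.1 j : ℝ) : ℂ) + ((Real.cosh t * v.2 j : ℝ) : ℂ) * Complex.I‖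
      ≤ ‖((Real.sinh t * v.1 j : ℝ) : ℂ)‖ + ‖((Real.cosh t * v.2 j : ℝ) : ℂ) * Complex.I‖ :=
        norm_add_le _ _
    _ = |Real.sinh t| * |v.1 j| + Real.cosh t * |v.2 j| := by
        rw [norm_mul, Complex.norm_I, Complex.norm_real, Complex.norm_real, mul_one,
          Real.norm_eq_abs, Real.norm_eq_abs, abs_mul, abs_mul, abs_of_pos hc]
    _ ≤ Real.cosh t * ‖v‖ + Real.cosh t * ‖v‖ := by gcongr
    _ ≤ 1 * (2 * Real.cosh t * (1 + ‖v‖)) ^ 1 := by nlinarith [norm_nonneg v]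

lemma Gr_zdot' (j : Fin n) : Gr (fun t v => (starRingEnd ℂ) (zdot (n := n) t v j)) := by
  obtain ⟨C, k, hC, h⟩ := Gr_zdot (n := n) j
  refine ⟨C, k, hC, fun t v => ?_⟩
  rw [RCLike.norm_conj]
  exact h t v

/-- the pointwise `τ`-derivative -/
noncomputable def DD (F : MvPolynomial (Fin n) ℂ) (ε r : ℝ) (P : RR n) (t : ℝ) (v : VV n) : ℂ :=
  ∑ j, (zdot t v j * Phi F ε (r - 1) (Lh F ε r j P) (zeta t v)
        + (starRingEnd ℂ) (zdot t v j) * Phi F ε (r - 1) (La F ε r j P) (zeta t v))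

lemma Gr_DD (F : MvPolynomial (Fin n) ℂ) {ε : ℝ} (hε : 0 < ε) (r : ℝ) (P : RR n) :
    Gr (DD F ε r P) := by
  unfold DD
  exact Gr.sum Finset.univ fun j => ((Gr_zdot j).mul (Gr_Phi F hε _ _)).add
    ((Gr_zdot' j).mul (Gr_Phi F hε _ _))

lemma continuous_zdot (t : ℝ) (j : Fin n) : Continuous (fun v : VV n => zdot t v j) := by
  unfold zdot
  have h1 : Continuous (fun q : VV n => Real.sinh t * q.1 j) := by fun_prop
  have h2 : Continuous (fun q : VV n => Real.cosh t * q.2 j) := by fun_prop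
  exact (Complex.continuous_ofReal.comp h1).add
    ((Complex.continuous_ofReal.comp h2).mul continuous_const)

lemma continuous_DD (F : MvPolynomial (Fin n) ℂ) {ε : ℝ} (hε : 0 < ε) (r : ℝ) (P : RR n) (t : ℝ) :
    Continuous (DD F ε r P t) := by
  unfold DD
  refine continuous_finsetSum _ fun j _ => ?_
  exact ((continuous_zdot t j).mul (continuous_Phi_zeta F hε _ _ t)).add
    ((Complex.continuous_conj.comp (continuous_zdot t j)).mul (continuous_Phi_zeta F hε _ _ t))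

lemma hasDerivAt_EE_aux (F : MvPolynomial (Fin n) ℂ) {ε : ℝ} (hε : 0 < ε) (r : ℝ) (P : RR n)
    (τ : ℝ) :
    HasDerivAt (fun t => EE F ε r t P) (∫ v : VV n, (wt v : ℂ) * DD F ε r P τ v) τ := by
  obtain ⟨C, k, hC, h⟩ := Gr_DD F hε r P
  set K := Real.cosh (|τ| + 1) with hK
  have hKpos : 0 < K := Real.cosh_pos _
  have hle : ∀ t ∈ Metric.ball τ 1, Real.cosh t ≤ K := by
    intro t ht
    rw [hK, Real.cosh_le_cosh]
    rw [Metric.mem_ball, Real.dist_eq] at ht
    have h1 : |t| ≤ |τ| + 1 := by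
      have := abs_sub_abs_le_abs_sub t τ
      linarith
    exact h1.trans (le_abs_self _)
  have key := hasDerivAt_integral_of_dominated_loc_of_deriv_le (μ := (volume : Measure (VV n)))
    (F := fun t v => (wt v : ℂ) * Phi F ε r P (zeta t v))
    (F' := fun t v => (wt v : ℂ) * DD F ε r P t v)
    (bound := fun v => (C * (2 * K) ^ k) * (wt v * (1 + ‖v‖) ^ k))
    (s := Metric.ball τ 1) (x₀ := τ) (Metric.ball_mem_nhds τ one_pos) ?_ ?_ ?_ ?_ ?_ ?_
  · exact key.2
  · refine Filter.Eventually.of_forall fun t => ?_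
    exact ((Complex.continuous_ofReal.comp continuous_wt).mul
      (continuous_Phi_zeta F hε r P t)).aestronglyMeasurable
  · exact integrable_Phi F hε r P τ
  · exact ((Complex.continuous_ofReal.comp continuous_wt).mul
      (continuous_DD F hε r P τ)).aestronglyMeasurable
  · refine Filter.Eventually.of_forall fun v t ht => ?_
    rw [norm_mul, Complex.norm_real, Real.norm_of_nonneg (wt_pos v).le]
    have hw := wt_pos v
    have hv := norm_nonneg v
    have hct : 0 < Real.cosh t := Real.cosh_pos t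
    calc wt v * ‖DD F ε r P t v‖ ≤ wt v * (C * (2 * Real.cosh t * (1 + ‖v‖)) ^ k) := by
          gcongr
          exact h t v
      _ ≤ wt v * (C * (2 * K * (1 + ‖v‖)) ^ k) := by
          gcongr
          exact hle t ht
      _ = _ := by rw [mul_pow]; ring
  · exact (integrable_wt_pow k).const_mul _
  · refine Filter.Eventually.of_forall fun v t ht => ?_
    refine HasDerivAt.const_mul _ ?_
    exact hasDerivAt_Phi_curve F hε r P (fun t => zeta t v) (zdot t v) t
      (fun j => hasDerivAt_zeta_tau t v j)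

lemma int_DD (F : MvPolynomial (Fin n) ℂ) {ε : ℝ} (hε : 0 < ε) (r : ℝ) (P : RR n)
    (τ : ℝ) : (∫ v : VV n, (wt v : ℂ) * DD F ε r P τ v)
      = ∑ j, ((Real.sinh τ : ℂ) * EX F ε (r - 1) τ j (Lh F ε r j P)
        + (Real.cosh τ : ℂ) * Complex.I * EY F ε (r - 1) τ j (Lh F ε r j P)
        + ((Real.sinh τ : ℂ) * EX F ε (r - 1) τ j (La F ε r j P)
        - (Real.cosh τ : ℂ) * Complex.I * EY F ε (r - 1) τ j (La F ε r j P))) := by
  have hX : ∀ (j : Fin n) (Q : RR n), Integrable (fun v : VV n =>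
      (wt v : ℂ) * (((v.1 j : ℝ) : ℂ) * Phi F ε (r - 1) Q (zeta τ v))) := fun j Q =>
    integrable_mul_Phi F hε (r - 1) Q τ (coord1_cont j) (coord1_bound j)
  have hY : ∀ (j : Fin n) (Q : RR n), Integrable (fun v : VV n =>
      (wt v : ℂ) * (((v.2 j : ℝ) : ℂ) * Phi F ε (r - 1) Q (zeta τ v))) := fun j Q =>
    integrable_mul_Phi F hε (r - 1) Q τ (coord2_cont j) (coord2_bound j)
  have e : (fun v : VV n => (wt v : ℂ) * DD F ε r P τ v) = fun v => ∑ j,
      (((Real.sinh τ : ℂ) * ((wt v : ℂ) *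
          (((v.1 j : ℝ) : ℂ) * Phi F ε (r - 1) (Lh F ε r j P) (zeta τ v)))
        + (Real.cosh τ : ℂ) * Complex.I * ((wt v : ℂ) *
          (((v.2 j : ℝ) : ℂ) * Phi F ε (r - 1) (Lh F ε r j P) (zeta τ v))))
        + ((Real.sinh τ : ℂ) * ((wt v : ℂ) *
          (((v.1 j : ℝ) : ℂ) * Phi F ε (r - 1) (La F ε r j P) (zeta τ v)))
        - (Real.cosh τ : ℂ) * Complex.I * ((wt v : ℂ) *
          (((v.2 j : ℝ) : ℂ) * Phi F ε (r - 1) (La F ε r j P) (zeta τ v))))) := by
    funext v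
    unfold DD zdot
    rw [Finset.mul_sum]
    refine Finset.sum_congr rfl fun j _ => ?_
    simp only [map_add, map_mul, Complex.conj_ofReal, Complex.conj_I]
    push_cast
    ring
  rw [e, integral_finsetSum]
  · refine Finset.sum_congr rfl fun j _ => ?_
    rw [integral_add, integral_add, integral_sub]
    · simp only [integral_const_mul]
      rfl
    · exact (hX j _).const_mul _
    · exact (hY j _).const_mul _
    · exact (hX j _).const_mul _
    · exact (hY j _).const_mul _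
    · exact ((hX j _).const_mul _).add ((hY j _).const_mul _)
    · exact ((hX j _).const_mul _).sub ((hY j _).const_mul _)
  · intro j _
    exact (((hX j _).const_mul _).add ((hY j _).const_mul _)).add
      (((hX j _).const_mul _).sub ((hY j _).const_mul _))

lemma pderiv_comm' {σ : Type*} (i j : σ) (Q : MvPolynomial σ ℂ) :
    pderiv i (pderiv j Q) = pderiv j (pderiv i Q) := by
  classical
  let D1 : Derivation ℂ (MvPolynomial σ ℂ) (MvPolynomial σ ℂ) := pderiv i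
  let D2 : Derivation ℂ (MvPolynomial σ ℂ) (MvPolynomial σ ℂ) := pderiv j
  have h : ⁅D1, D2⁆ = 0 := by
    refine MvPolynomial.derivation_ext fun k => ?_
    rw [Derivation.commutator_apply]
    simp only [D1, D2, pderiv_X, Derivation.coe_zero, Pi.zero_apply]
    have h1 : ∀ (a b : σ), (pderiv a : Derivation ℂ (MvPolynomial σ ℂ) (MvPolynomial σ ℂ))
        ((Pi.single b 1 : σ → MvPolynomial σ ℂ) k) = 0 := by
      intro a b
      rcases eq_or_ne k b with h | h
      · subst h; simp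
      · simp [h]
    rw [h1, h1, sub_zero]
  have := congrArg (fun D : Derivation ℂ (MvPolynomial σ ℂ) (MvPolynomial σ ℂ) => D Q) h
  simp only [Derivation.commutator_apply, Derivation.coe_zero, Pi.zero_apply] at this
  exact sub_eq_zero.1 this

lemma La_Lh_comm (F : MvPolynomial (Fin n) ℂ) (ε r : ℝ) (j : Fin n) (P : RR n) :
    Lh F ε (r - 1) j (La F ε r j P) = La F ε (r - 1) j (Lh F ε r j P) := by
  unfold Lh La
  simp only [map_add, Derivation.leibniz, smul_eq_mul, pderiv_C]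
  have hc : ∀ Q : RR n, pderiv (Sum.inl j) (pderiv (Sum.inr j) Q)
      = pderiv (Sum.inr j) (pderiv (Sum.inl j) Q) := fun Q =>
    pderiv_comm' _ _ Q
  rw [hc, hc]
  push_cast
  simp only [map_sub, map_one]
  ring

/-- (I3) -/
lemma hasDerivAt_EE (F : MvPolynomial (Fin n) ℂ) {ε : ℝ} (hε : 0 < ε) (r : ℝ) (P : RR n)
    (τ : ℝ) :
    HasDerivAt (fun t => EE F ε r t P)
      ((2 * Real.sinh (2 * τ) : ℝ) * ∑ j, EE F ε (r - 2) τ (La F ε (r - 1) j (Lh F ε r j P))) τ := by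
  refine (hasDerivAt_EE_aux F hε r P τ).congr_deriv ?_
  rw [int_DD F hε, Finset.mul_sum]
  refine Finset.sum_congr rfl fun j _ => ?_
  rw [EX_eq F hε, EX_eq F hε, EY_eq F hε, EY_eq F hε, La_Lh_comm, Real.sinh_two_mul]
  have e2 : r - 1 - 1 = r - 2 := by ring
  rw [e2]
  have hI : Complex.I * Complex.I = -1 := Complex.I_mul_I
  push_cast
  linear_combination (Complex.cosh (τ:ℂ) * Complex.sinh (τ:ℂ)) *
    (EE F ε (r - 2) τ (Lh F ε (r - 1) j (Lh F ε r j P))
      - 2 * EE F ε (r - 2) τ (La F ε (r - 1) j (Lh F ε r j P))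
      + EE F ε (r - 2) τ (La F ε (r - 1) j (La F ε r j P))) * hI

end H88BM
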