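import Mathlib
import Pool.Agent.H88.BMTau

/-!
Bernstein-Markov inequality for Gaussian space, part 5: the algebraic identities.
-/

set_option linter.unusedVariables false
set_option linter.unusedTactic false
set_option linter.unusedSimpArgs false

namespace H88BM

open MvPolynomial MeasureTheory

variable {n : ℕ}

lemma pderiv_inl_hol (j : Fin n) (F : MvPolynomial (Fin n) ℂ) :
    pderiv (Sum.inl j) (hol F) = hol (pderiv j F) := by
  unfold hol
  exact pderiv_rename Sum.inl_injective j F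

lemma pderiv_inr_anti (j : Fin n) (F : MvPolynomial (Fin n) ℂ) :
    pderiv (Sum.inr j) (anti F) = anti (pderiv j F) := by
  unfold anti
  rw [pderiv_rename Sum.inr_injective, pderiv_map]

lemma pderiv_inr_hol (j : Fin n) (F : MvPolynomial (Fin n) ℂ) :
    pderiv (Sum.inr j) (hol F) = 0 := by
  classical
  refine pderiv_eq_zero_of_notMem_vars ?_
  unfold hol
  intro h
  have := vars_rename Sum.inl F h
  simp at this

lemma pderiv_inl_anti (j : Fin n) (F : MvPolynomial (Fin n) ℂ) :
    pderiv (Sum.inl j) (anti F) = 0 := by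
  classical
  refine pderiv_eq_zero_of_notMem_vars ?_
  unfold anti
  intro h
  have := vars_rename Sum.inr _ h
  simp at this

lemma pderiv_inl_AA (j : Fin n) (F : MvPolynomial (Fin n) ℂ) (ε : ℝ) :
    pderiv (Sum.inl j) (AA F ε) = hol (pderiv j F) * anti F := by
  unfold AA
  rw [map_add, Derivation.leibniz, pderiv_inl_hol, pderiv_inl_anti, pderiv_C]
  simp only [smul_eq_mul, mul_zero, zero_add, add_zero]
  ring

lemma pderiv_inr_AA (j : Fin n) (F : MvPolynomial (Fin n) ℂ) (ε : ℝ) :
    pderiv (Sum.inr j) (AA F ε) = hol F * anti (pderiv j F) := by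
  unfold AA
  rw [map_add, Derivation.leibniz, pderiv_inr_hol, pderiv_inr_anti, pderiv_C]
  simp only [smul_eq_mul, mul_zero, add_zero]

/-- `𝒜 B_{jk}` -/
noncomputable def bb (F : MvPolynomial (Fin n) ℂ) (ε s : ℝ) (j k : Fin n) : RR n :=
  AA F ε * hol (pderiv k (pderiv j F)) + C (s : ℂ) * anti F * hol (pderiv j F) * hol (pderiv k F)

/-- `𝒜 conj B_{jk}` -/
noncomputable def cc (F : MvPolynomial (Fin n) ℂ) (ε s : ℝ) (j k : Fin n) : RR n :=
  AA F ε * anti (pderiv k (pderiv j F)) + C (s : ℂ) * hol F * anti (pderiv j F) * anti (pderiv k F)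

/-- `𝒜 H` -/
noncomputable def hh (F : MvPolynomial (Fin n) ℂ) (ε s : ℝ) : RR n :=
  ∑ j, (X (Sum.inl j) * AA F ε * hol (pderiv j F) - bb F ε s j j)

/-- `𝒜 conj H` -/
noncomputable def kk (F : MvPolynomial (Fin n) ℂ) (ε s : ℝ) : RR n :=
  ∑ k, (X (Sum.inr k) * AA F ε * anti (pderiv k F) - cc F ε s k k)

/-- `Σ |f_j|²` -/
noncomputable def gradsq (F : MvPolynomial (Fin n) ℂ) : RR n :=
  ∑ j, hol (pderiv j F) * anti (pderiv j F)

lemma AA_def' (F : MvPolynomial (Fin n) ℂ) (ε : ℝ) : AA F ε = hol F * anti F + C (ε : ℂ) := rfl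

lemma U1_alg (F : MvPolynomial (Fin n) ℂ) (ε s : ℝ) (j : Fin n) :
    La F ε s j (Lh F ε (s + 1) j 1)
      = C ((s + 1 : ℝ) : ℂ) * (hol (pderiv j F) * anti (pderiv j F)
        * (C (s : ℂ) * (hol F * anti F) + AA F ε)) := by
  unfold La Lh
  simp only [map_add, Derivation.leibniz, smul_eq_mul, pderiv_C, pderiv_inl_AA, pderiv_inr_AA,
    pderiv_inr_hol, pderiv_inr_anti, pderiv_one, map_zero, Complex.ofReal_add, Complex.ofReal_one, map_one]
  ring

lemma D1_alg (F : MvPolynomial (Fin n) ℂ) (ε s : ℝ) (j k : Fin n) :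
    La F ε (s - 1) j (Lh F ε s j (hol (pderiv k F) * anti (pderiv k F)))
      = bb F ε s k j * cc F ε s k j
        + C ((s * ε : ℝ) : ℂ) * ((hol (pderiv j F) * anti (pderiv j F))
          * (hol (pderiv k F) * anti (pderiv k F))) := by
  unfold La Lh bb cc
  simp only [map_add, Derivation.leibniz, smul_eq_mul, pderiv_C, pderiv_inl_AA, pderiv_inr_AA,
    pderiv_inr_hol, pderiv_inr_anti, pderiv_inl_hol, pderiv_inl_anti, pderiv_one,
    Complex.ofReal_sub, Complex.ofReal_one, map_one, map_sub, Complex.ofReal_mul, map_mul,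
    map_zero, AA_def']
  ring

lemma Lh_add (F : MvPolynomial (Fin n) ℂ) (ε r : ℝ) (j : Fin n) (P Q : RR n) :
    Lh F ε r j (P + Q) = Lh F ε r j P + Lh F ε r j Q := by
  unfold Lh; rw [map_add]; ring

lemma La_add (F : MvPolynomial (Fin n) ℂ) (ε r : ℝ) (j : Fin n) (P Q : RR n) :
    La F ε r j (P + Q) = La F ε r j P + La F ε r j Q := by
  unfold La; rw [map_add]; ring

lemma Lh_zero (F : MvPolynomial (Fin n) ℂ) (ε r : ℝ) (j : Fin n) :
    Lh F ε r j 0 = 0 := by
  unfold Lh; simp

lemma La_zero (F : MvPolynomial (Fin n) ℂ) (ε r : ℝ) (j : Fin n) :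
    La F ε r j 0 = 0 := by
  unfold La; simp

lemma Lh_sum (F : MvPolynomial (Fin n) ℂ) (ε r : ℝ) (j : Fin n) {ι : Type*} (s : Finset ι)
    (P : ι → RR n) : Lh F ε r j (∑ i ∈ s, P i) = ∑ i ∈ s, Lh F ε r j (P i) := by
  classical
  induction s using Finset.induction_on with
  | empty => simp [Lh_zero]
  | insert a s ha ih => rw [Finset.sum_insert ha, Finset.sum_insert ha, Lh_add, ih]

lemma La_sum (F : MvPolynomial (Fin n) ℂ) (ε r : ℝ) (j : Fin n) {ι : Type*} (s : Finset ι)
    (P : ι → RR n) : La F ε r j (∑ i ∈ s, P i) = ∑ i ∈ s, La F ε r j (P i) := by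
  classical
  induction s using Finset.induction_on with
  | empty => simp [La_zero]
  | insert a s ha ih => rw [Finset.sum_insert ha, Finset.sum_insert ha, La_add, ih]

/-- P1 -/
lemma P1_alg (F : MvPolynomial (Fin n) ℂ) (ε s : ℝ) (j : Fin n) :
    Lh F ε (s - 1) j (hol (pderiv j F) * kk F ε s) - bb F ε s j j * kk F ε s
      = - (C ((s * ε : ℝ) : ℂ) * (hol (pderiv j F) ^ 2 * ∑ k, anti (pderiv k F) ^ 2)) := by
  have hd : pderiv (Sum.inl j) (kk F ε s) = ∑ k, (X (Sum.inr k) * (hol (pderiv j F) * anti F)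
      * anti (pderiv k F) - ((hol (pderiv j F) * anti F) * anti (pderiv k (pderiv k F))
        + C (s : ℂ) * hol (pderiv j F) * anti (pderiv k F) * anti (pderiv k F))) := by
    unfold kk cc
    rw [map_sum]
    refine Finset.sum_congr rfl fun k _ => ?_
    simp only [map_add, map_sub, Derivation.leibniz, smul_eq_mul, pderiv_C, pderiv_inl_AA,
      pderiv_inl_hol, pderiv_inl_anti, pderiv_X]
    simp
    ring
  have h1 : Lh F ε (s - 1) j (hol (pderiv j F) * kk F ε s) - bb F ε s j j * kk F ε s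
      = - (anti F * hol (pderiv j F) ^ 2) * kk F ε s
        + AA F ε * hol (pderiv j F) * pderiv (Sum.inl j) (kk F ε s) := by
    unfold Lh bb
    simp only [Derivation.leibniz, smul_eq_mul, pderiv_inl_AA, pderiv_inl_hol,
      Complex.ofReal_sub, Complex.ofReal_one, map_one, map_sub]
    ring
  rw [h1, hd]
  unfold kk
  rw [Finset.mul_sum, Finset.mul_sum, ← Finset.sum_add_distrib, Finset.mul_sum, Finset.mul_sum,
    ← Finset.sum_neg_distrib]
  refine Finset.sum_congr rfl fun k _ => ?_
  unfold cc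
  simp only [AA_def', Complex.ofReal_mul, map_mul]
  ring

/-- the common quantity of the symmetry identity -/
noncomputable def QQ (F : MvPolynomial (Fin n) ℂ) (ε s : ℝ) (j k : Fin n) : RR n :=
  C ((s - 1 : ℝ) : ℂ) * (hol F * anti (pderiv j F)) * cc F ε s k k
    + AA F ε * pderiv (Sum.inr j) (cc F ε s k k)

/-- P2 -/
lemma P2_alg (F : MvPolynomial (Fin n) ℂ) (ε s : ℝ) (j : Fin n) :
    La F ε (s - 1) j (hol (pderiv j F) * kk F ε s)
      = AA F ε * (AA F ε * (hol (pderiv j F) * anti (pderiv j F)))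
        + ∑ k, X (Sum.inr k) * (AA F ε * (hol (pderiv j F) * cc F ε s j k))
        - ∑ k, hol (pderiv j F) * QQ F ε s j k := by
  classical
  have hd : pderiv (Sum.inr j) (kk F ε s) = AA F ε * anti (pderiv j F) +
      ∑ k, (X (Sum.inr k) * (hol F * anti (pderiv j F)) * anti (pderiv k F)
        + X (Sum.inr k) * AA F ε * anti (pderiv j (pderiv k F))
        - pderiv (Sum.inr j) (cc F ε s k k)) := by
    have e : AA F ε * anti (pderiv j F) = ∑ k, (if k = j then AA F ε * anti (pderiv k F) else 0) := by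
      simp
    rw [e, ← Finset.sum_add_distrib]
    unfold kk
    rw [map_sum]
    refine Finset.sum_congr rfl fun k _ => ?_
    simp only [map_sub, Derivation.leibniz, smul_eq_mul, pderiv_inr_AA,
      pderiv_inr_anti, pderiv_X]
    rcases eq_or_ne k j with h | h
    · subst h
      simp
      ring
    · simp [h, Ne.symm h]
      ring
  have h1 : La F ε (s - 1) j (hol (pderiv j F) * kk F ε s)
      = C ((s - 1 : ℝ) : ℂ) * (hol F * anti (pderiv j F)) * hol (pderiv j F) * kk F ε s
        + AA F ε * hol (pderiv j F) * pderiv (Sum.inr j) (kk F ε s) := by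
    unfold La
    simp only [Derivation.leibniz, smul_eq_mul, pderiv_inr_AA, pderiv_inr_hol]
    ring
  have e2 : ∀ k, cc F ε s j k = AA F ε * anti (pderiv j (pderiv k F))
      + C (s : ℂ) * hol F * anti (pderiv j F) * anti (pderiv k F) := by
    intro k
    unfold cc; rw [pderiv_comm' k j]
  have hs : C ((s - 1 : ℝ) : ℂ) * (hol F * anti (pderiv j F)) * hol (pderiv j F) * kk F ε s
      + AA F ε * hol (pderiv j F) *
      ∑ k, (X (Sum.inr k) * (hol F * anti (pderiv j F)) * anti (pderiv k F)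
        + X (Sum.inr k) * AA F ε * anti (pderiv j (pderiv k F))
        - pderiv (Sum.inr j) (cc F ε s k k))
      = ∑ k, X (Sum.inr k) * (AA F ε * (hol (pderiv j F) * cc F ε s j k))
        - ∑ k, hol (pderiv j F) * QQ F ε s j k := by
    unfold kk QQ
    rw [Finset.mul_sum, Finset.mul_sum, ← Finset.sum_add_distrib, ← Finset.sum_sub_distrib]
    refine Finset.sum_congr rfl fun k _ => ?_
    rw [e2]
    generalize pderiv (Sum.inr j) (cc F ε s k k) = w
    generalize cc F ε s k k = w2
    simp only [Complex.ofReal_sub, Complex.ofReal_one, map_one, map_sub]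
    ring
  rw [h1, hd]
  generalize (∑ k, (X (Sum.inr k) * (hol F * anti (pderiv j F)) * anti (pderiv k F)
        + X (Sum.inr k) * AA F ε * anti (pderiv j (pderiv k F))
        - pderiv (Sum.inr j) (cc F ε s k k))) = w1 at hs ⊢
  generalize (∑ k, X (Sum.inr k) * (AA F ε * (hol (pderiv j F) * cc F ε s j k))) = w2 at hs ⊢
  generalize (∑ k, hol (pderiv j F) * QQ F ε s j k) = w3 at hs ⊢
  linear_combination hs

/-- P3 -/
lemma P3_alg (F : MvPolynomial (Fin n) ℂ) (ε s : ℝ) (j k : Fin n) :
    Lh F ε (s - 1) k (hol (pderiv j F) * cc F ε s j k)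
      = bb F ε s j k * cc F ε s j k
        + C ((s * ε : ℝ) : ℂ) * ((hol (pderiv k F) * anti (pderiv k F))
          * (hol (pderiv j F) * anti (pderiv j F))) := by
  unfold Lh bb cc
  simp only [map_add, Derivation.leibniz, smul_eq_mul, pderiv_C, pderiv_inl_AA, pderiv_inr_AA,
    pderiv_inr_hol, pderiv_inr_anti, pderiv_inl_hol, pderiv_inl_anti, pderiv_one,
    Complex.ofReal_sub, Complex.ofReal_one, map_one, map_sub, Complex.ofReal_mul, map_mul,
    map_zero, AA_def']
  ring

/-- P4 + P5 -/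
lemma P4_alg (F : MvPolynomial (Fin n) ℂ) (ε s : ℝ) (j k : Fin n) :
    La F ε (s - 1) k (hol (pderiv j F) * cc F ε s j k) = hol (pderiv j F) * QQ F ε s j k := by
  unfold La QQ cc
  simp only [map_add, Derivation.leibniz, smul_eq_mul, pderiv_C, pderiv_inl_AA, pderiv_inr_AA,
    pderiv_inr_hol, pderiv_inr_anti, pderiv_inl_hol, pderiv_inl_anti, pderiv_one,
    Complex.ofReal_sub, Complex.ofReal_one, map_one, map_sub, Complex.ofReal_mul, map_mul,
    map_zero, AA_def']
  rw [pderiv_comm' k j F, pderiv_comm' k j (pderiv k F)]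
  ring

end H88BM
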