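import Mathlib
import Pool.Agent.H88.BMAlg

/-!
Bernstein-Markov inequality for Gaussian space, part 6: the integral identities (a), (b).
-/

set_option linter.unusedVariables false
set_option linter.unusedTactic false
set_option linter.unusedSimpArgs false

namespace H88BM

open MvPolynomial MeasureTheory

variable {n : ℕ}

lemma EE_sum (F : MvPolynomial (Fin n) ℂ) {ε : ℝ} (hε : 0 < ε) (r τ : ℝ) {ι : Type*}
    (s : Finset ι) (P : ι → RR n) :
    EE F ε r τ (∑ i ∈ s, P i) = ∑ i ∈ s, EE F ε r τ (P i) := by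
  have := map_sum (EL F hε r τ) P s
  simp only [EL_apply] at this
  exact this

lemma EE_sub (F : MvPolynomial (Fin n) ℂ) {ε : ℝ} (hε : 0 < ε) (r τ : ℝ) (P Q : RR n) :
    EE F ε r τ (P - Q) = EE F ε r τ P - EE F ε r τ Q := by
  have := map_sub (EL F hε r τ) P Q
  simpa [EL_apply] using this

lemma EE_neg (F : MvPolynomial (Fin n) ℂ) {ε : ℝ} (hε : 0 < ε) (r τ : ℝ) (P : RR n) :
    EE F ε r τ (-P) = - EE F ε r τ P := by
  have := map_neg (EL F hε r τ) P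
  simpa [EL_apply] using this

lemma EE_AA (F : MvPolynomial (Fin n) ℂ) {ε : ℝ} (hε : 0 < ε) (r τ : ℝ) (P : RR n) :
    EE F ε r τ (AA F ε * P) = EE F ε (r + 1) τ P := EL_AA F hε r τ P

/-- `U1` polynomial -/
noncomputable def U1p (F : MvPolynomial (Fin n) ℂ) (ε s : ℝ) : RR n :=
  ∑ j, C ((s + 1 : ℝ) : ℂ) * (hol (pderiv j F) * anti (pderiv j F)
        * (C (s : ℂ) * (hol F * anti F) + AA F ε))

/-- `D1` polynomial -/
noncomputable def D1p (F : MvPolynomial (Fin n) ℂ) (ε s : ℝ) : RR n :=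
  ∑ j, ∑ k, (bb F ε s j k * cc F ε s j k
        + C ((s * ε : ℝ) : ℂ) * ((hol (pderiv k F) * anti (pderiv k F))
          * (hol (pderiv j F) * anti (pderiv j F))))

lemma hasDerivAt_u (F : MvPolynomial (Fin n) ℂ) {ε : ℝ} (hε : 0 < ε) (s τ : ℝ) :
    HasDerivAt (fun t => EE F ε (s + 1) t 1)
      ((2 * Real.sinh (2 * τ) : ℝ) * EE F ε (s - 1) τ (U1p F ε s)) τ := by
  refine (hasDerivAt_EE F hε (s + 1) 1 τ).congr_deriv ?_
  unfold U1p
  rw [EE_sum F hε]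
  have e1 : s + 1 - 2 = s - 1 := by ring
  have e2 : s + 1 - 1 = s := by ring
  rw [e1, e2]
  congr 1
  refine Finset.sum_congr rfl fun j _ => ?_
  rw [U1_alg]

lemma hasDerivAt_D (F : MvPolynomial (Fin n) ℂ) {ε : ℝ} (hε : 0 < ε) (s τ : ℝ) :
    HasDerivAt (fun t => EE F ε s t (gradsq F))
      ((2 * Real.sinh (2 * τ) : ℝ) * EE F ε (s - 2) τ (D1p F ε s)) τ := by
  refine (hasDerivAt_EE F hε s (gradsq F) τ).congr_deriv ?_
  congr 1
  unfold D1p gradsq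
  rw [EE_sum F hε]
  simp_rw [Lh_sum, La_sum, D1_alg, EE_sum F hε]
  rw [Finset.sum_comm]

/-- (a) -/
lemma ident_a (F : MvPolynomial (Fin n) ℂ) {ε : ℝ} (hε : 0 < ε) (s τ : ℝ) :
    ((s + 1 : ℝ) : ℂ) * EE F ε (s - 1) τ (anti F * hh F ε s)
      = (Real.cosh (2 * τ) : ℂ) * EE F ε (s - 1) τ (U1p F ε s) := by
  unfold hh U1p
  rw [Finset.mul_sum, EE_sum F hε, EE_sum F hε, Finset.mul_sum, Finset.mul_sum]
  refine Finset.sum_congr rfl fun j _ => ?_
  have e1 : anti F * (X (Sum.inl j) * AA F ε * hol (pderiv j F) - bb F ε s j j)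
      = AA F ε * (X (Sum.inl j) * (anti F * hol (pderiv j F))) - anti F * bb F ε s j j := by
    ring
  rw [e1, EE_sub F hε, EE_AA F hε, EE_I1 F hε]
  have e2 : s - 1 + 1 - 1 = s - 1 := by ring
  have e3 : Lh F ε (s - 1 + 1) j (anti F * hol (pderiv j F)) = anti F * bb F ε s j j := by
    unfold Lh bb
    simp only [Derivation.leibniz, smul_eq_mul, pderiv_inl_AA, pderiv_inl_hol, pderiv_inl_anti,
      sub_add_cancel]
    ring
  have e4 : La F ε (s - 1 + 1) j (anti F * hol (pderiv j F))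
      = hol (pderiv j F) * anti (pderiv j F) * (C (s : ℂ) * (hol F * anti F) + AA F ε) := by
    unfold La
    simp only [Derivation.leibniz, smul_eq_mul, pderiv_inr_AA, pderiv_inr_hol, pderiv_inr_anti,
      sub_add_cancel]
    ring
  rw [e2, e3, e4, EE_Cmul]
  ring

/-- (b) -/
lemma ident_b (F : MvPolynomial (Fin n) ℂ) {ε : ℝ} (hε : 0 < ε) (s τ : ℝ) :
    EE F ε (s - 2) τ (hh F ε s * kk F ε s)
      = (Real.cosh (2 * τ) : ℂ) * EE F ε s τ (gradsq F)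
        + (Real.cosh (2 * τ) : ℂ) ^ 2 * EE F ε (s - 2) τ (D1p F ε s)
        - ((s * ε : ℝ) : ℂ) * EE F ε (s - 2) τ
          ((∑ j, hol (pderiv j F) ^ 2) * ∑ k, anti (pderiv k F) ^ 2) := by
  have hstep : ∀ j : Fin n,
      EE F ε (s - 2) τ ((X (Sum.inl j) * AA F ε * hol (pderiv j F) - bb F ε s j j) * kk F ε s)
      = (Real.cosh (2 * τ) : ℂ) * EE F ε s τ (hol (pderiv j F) * anti (pderiv j F))
        + (Real.cosh (2 * τ) : ℂ) ^ 2 * ∑ k, EE F ε (s - 2) τ (bb F ε s j k * cc F ε s j k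
        + C ((s * ε : ℝ) : ℂ) * ((hol (pderiv k F) * anti (pderiv k F))
          * (hol (pderiv j F) * anti (pderiv j F))))
        - ((s * ε : ℝ) : ℂ) * EE F ε (s - 2) τ
          (hol (pderiv j F) ^ 2 * ∑ k, anti (pderiv k F) ^ 2) := by
    intro j
    have e1 : (X (Sum.inl j) * AA F ε * hol (pderiv j F) - bb F ε s j j) * kk F ε s
        = AA F ε * (X (Sum.inl j) * (hol (pderiv j F) * kk F ε s))
          - bb F ε s j j * kk F ε s := by ring
    have e2 : s - 2 + 1 = s - 1 := by ring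
    have e3 : s - 1 - 1 = s - 2 := by ring
    have hP1 := congrArg (EE F ε (s - 2) τ) (P1_alg F ε s j)
    rw [EE_sub F hε, EE_neg F hε, EE_Cmul] at hP1
    have hP2 := congrArg (EE F ε (s - 2) τ) (P2_alg F ε s j)
    rw [EE_sub F hε, EE_add F hε, EE_AA F hε, EE_AA F hε, EE_sum F hε, EE_sum F hε] at hP2
    have e4 : s - 2 + 1 + 1 = s := by ring
    rw [e4] at hP2
    have hB : ∀ k : Fin n, EE F ε (s - 2) τ (X (Sum.inr k) *
        (AA F ε * (hol (pderiv j F) * cc F ε s j k)))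
        = (Real.cosh (2 * τ) : ℂ) * EE F ε (s - 2) τ (bb F ε s j k * cc F ε s j k
        + C ((s * ε : ℝ) : ℂ) * ((hol (pderiv k F) * anti (pderiv k F))
          * (hol (pderiv j F) * anti (pderiv j F))))
          + EE F ε (s - 2) τ (hol (pderiv j F) * QQ F ε s j k) := by
      intro k
      have e5 : X (Sum.inr k) * (AA F ε * (hol (pderiv j F) * cc F ε s j k))
          = AA F ε * (X (Sum.inr k) * (hol (pderiv j F) * cc F ε s j k)) := by ring
      rw [e5, EE_AA F hε, e2, EE_I2 F hε, e3, P3_alg, P4_alg]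
    simp_rw [hB] at hP2
    rw [Finset.sum_add_distrib, ← Finset.mul_sum] at hP2
    rw [e1, EE_sub F hε, EE_AA F hε, e2, EE_I1 F hε, e3, hP2]
    linear_combination hP1
  have e0 : hh F ε s * kk F ε s = ∑ j, (X (Sum.inl j) * AA F ε * hol (pderiv j F)
      - bb F ε s j j) * kk F ε s := by
    unfold hh
    rw [Finset.sum_mul]
  rw [e0, EE_sum F hε]
  simp_rw [hstep]
  rw [Finset.sum_sub_distrib, Finset.sum_add_distrib, ← Finset.mul_sum, ← Finset.mul_sum,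
    ← Finset.mul_sum]
  have e6 : EE F ε s τ (gradsq F) = ∑ j, EE F ε s τ (hol (pderiv j F) * anti (pderiv j F)) := by
    unfold gradsq; rw [EE_sum F hε]
  have e7 : EE F ε (s - 2) τ (D1p F ε s) = ∑ j, ∑ k, EE F ε (s - 2) τ
      (bb F ε s j k * cc F ε s j k
        + C ((s * ε : ℝ) : ℂ) * ((hol (pderiv k F) * anti (pderiv k F))
          * (hol (pderiv j F) * anti (pderiv j F)))) := by
    unfold D1p; rw [EE_sum F hε]
    refine Finset.sum_congr rfl fun j _ => ?_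
    rw [EE_sum F hε]
  have e8 : EE F ε (s - 2) τ ((∑ j, hol (pderiv j F) ^ 2) * ∑ k, anti (pderiv k F) ^ 2)
      = ∑ j, EE F ε (s - 2) τ (hol (pderiv j F) ^ 2 * ∑ k, anti (pderiv k F) ^ 2) := by
    rw [Finset.sum_mul, EE_sum F hε]
  rw [e6, e7, e8]

/-! ### real forms -/

lemma EE_real (F : MvPolynomial (Fin n) ℂ) (ε r τ : ℝ) (P : RR n)
    (q : (Fin n → ℂ) → ℝ) (hq : ∀ z, ev z P = (q z : ℂ)) :
    EE F ε r τ P = ((∫ v : VV n, wt v * (Ar F ε (zeta τ v) ^ r * q (zeta τ v)) : ℝ) : ℂ) := by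
  unfold EE
  rw [← integral_complex_ofReal]
  congr 1; funext v
  unfold Phi
  rw [hq]
  push_cast
  ring

lemma integrable_real (F : MvPolynomial (Fin n) ℂ) {ε : ℝ} (hε : 0 < ε) (r τ : ℝ) (P : RR n)
    (q : (Fin n → ℂ) → ℝ) (hq : ∀ z, ev z P = (q z : ℂ)) :
    Integrable (fun v : VV n => wt v * (Ar F ε (zeta τ v) ^ r * q (zeta τ v))) := by
  have := (integrable_Phi F hε r P τ).re
  refine this.congr (Filter.Eventually.of_forall fun v => ?_)
  show RCLike.re ((wt v : ℂ) * Phi F ε r P (zeta τ v))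
    = wt v * (Ar F ε (zeta τ v) ^ r * q (zeta τ v))
  unfold Phi
  rw [hq]
  have : (wt v : ℂ) * (((Ar F ε (zeta τ v) ^ r : ℝ) : ℂ) * (q (zeta τ v) : ℂ))
      = ((wt v * (Ar F ε (zeta τ v) ^ r * q (zeta τ v)) : ℝ) : ℂ) := by push_cast; ring
  rw [this]
  exact Complex.ofReal_re _

/-- squared gradient norm -/
noncomputable def gs (F : MvPolynomial (Fin n) ℂ) (z : Fin n → ℂ) : ℝ :=
  ∑ j, ‖eval z (pderiv j F)‖ ^ 2

lemma gs_nonneg (F : MvPolynomial (Fin n) ℂ) (z : Fin n → ℂ) : 0 ≤ gs F z :=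
  Finset.sum_nonneg fun j _ => by positivity

lemma ev_hol_mul_anti (z : Fin n → ℂ) (F : MvPolynomial (Fin n) ℂ) :
    ev z (hol F * anti F) = ((‖eval z F‖ ^ 2 : ℝ) : ℂ) := by
  rw [ev_mul, ev_hol, ev_anti, Complex.mul_conj, Complex.normSq_eq_norm_sq]

lemma ev_one (z : Fin n → ℂ) : ev z (1 : RR n) = ((1 : ℝ) : ℂ) := by
  simp [ev]

lemma ev_gradsq (z : Fin n → ℂ) (F : MvPolynomial (Fin n) ℂ) :
    ev z (gradsq F) = (gs F z : ℂ) := by
  unfold gradsq gs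
  rw [ev_sum]
  simp_rw [ev_hol_mul_anti]
  push_cast
  rfl

lemma ev_U1p (z : Fin n → ℂ) (F : MvPolynomial (Fin n) ℂ) (ε s : ℝ) :
    ev z (U1p F ε s) = (((s + 1) * gs F z * (s * ‖eval z F‖ ^ 2 + Ar F ε z) : ℝ) : ℂ) := by
  unfold U1p gs
  rw [ev_sum]
  have : ∀ j : Fin n, ev z (C ((s + 1 : ℝ) : ℂ) * (hol (pderiv j F) * anti (pderiv j F)
        * (C (s : ℂ) * (hol F * anti F) + AA F ε)))
      = (((s + 1) * ‖eval z (pderiv j F)‖ ^ 2 * (s * ‖eval z F‖ ^ 2 + Ar F ε z) : ℝ) : ℂ) := by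
    intro j
    rw [ev_mul, ev_C, ev_mul, ev_hol_mul_anti, ev_add, ev_mul, ev_C, ev_hol_mul_anti, ev_AA]
    push_cast
    ring
  simp_rw [this]
  rw [← Complex.ofReal_sum]
  congr 1
  rw [Finset.mul_sum, Finset.sum_mul]

lemma ev_bb_conj (z : Fin n → ℂ) (F : MvPolynomial (Fin n) ℂ) (ε s : ℝ) (j k : Fin n) :
    ev z (cc F ε s j k) = (starRingEnd ℂ) (ev z (bb F ε s j k)) := by
  unfold cc bb
  simp only [ev_add, ev_mul, ev_AA, ev_hol, ev_anti, ev_C, map_add, map_mul,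
    Complex.conj_ofReal, Complex.conj_conj]

lemma ev_kk (z : Fin n → ℂ) (F : MvPolynomial (Fin n) ℂ) (ε s : ℝ) :
    ev z (kk F ε s) = (starRingEnd ℂ) (ev z (hh F ε s)) := by
  unfold kk hh
  rw [ev_sum, ev_sum, map_sum]
  refine Finset.sum_congr rfl fun k _ => ?_
  have e : ∀ P Q : RR n, ev z (P - Q) = ev z P - ev z Q := fun P Q => by simp [ev]
  have e2 : ev z (X (Sum.inr k)) = (starRingEnd ℂ) (z k) := by simp [ev, pt]
  have e3 : ev z (X (Sum.inl k)) = z k := by simp [ev, pt]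
  rw [e, e, map_sub, ev_bb_conj]
  simp only [ev_mul, e2, e3, ev_AA, ev_hol, ev_anti, map_mul, Complex.conj_ofReal]

/-- real `D1` density times `A^2` -/
noncomputable def dd (F : MvPolynomial (Fin n) ℂ) (ε s : ℝ) (z : Fin n → ℂ) : ℝ :=
  ∑ j, ∑ k, (‖ev z (bb F ε s j k)‖ ^ 2 + s * ε * (‖eval z (pderiv k F)‖ ^ 2
    * ‖eval z (pderiv j F)‖ ^ 2))

lemma ev_D1p (z : Fin n → ℂ) (F : MvPolynomial (Fin n) ℂ) (ε s : ℝ) :
    ev z (D1p F ε s) = (dd F ε s z : ℂ) := by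
  unfold D1p dd
  rw [ev_sum, Complex.ofReal_sum]
  refine Finset.sum_congr rfl fun j _ => ?_
  rw [ev_sum, Complex.ofReal_sum]
  refine Finset.sum_congr rfl fun k _ => ?_
  rw [ev_add, ev_mul, ev_bb_conj, Complex.mul_conj, Complex.normSq_eq_norm_sq, ev_mul, ev_C,
    ev_mul, ev_hol_mul_anti, ev_hol_mul_anti]
  push_cast
  ring

lemma ev_hhkk (z : Fin n → ℂ) (F : MvPolynomial (Fin n) ℂ) (ε s : ℝ) :
    ev z (hh F ε s * kk F ε s) = ((‖ev z (hh F ε s)‖ ^ 2 : ℝ) : ℂ) := by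
  rw [ev_mul, ev_kk, Complex.mul_conj, Complex.normSq_eq_norm_sq]

lemma ev_sqsq (z : Fin n → ℂ) (F : MvPolynomial (Fin n) ℂ) :
    ev z ((∑ j, hol (pderiv j F) ^ 2) * ∑ k, anti (pderiv k F) ^ 2)
      = ((‖∑ j, (eval z (pderiv j F)) ^ 2‖ ^ 2 : ℝ) : ℂ) := by
  have e : ∀ P : RR n, ev z (P ^ 2) = ev z P ^ 2 := fun P => by simp [ev]
  rw [ev_mul, ev_sum, ev_sum]
  simp_rw [e, ev_hol, ev_anti]
  rw [← Complex.normSq_eq_norm_sq, ← Complex.mul_conj, map_sum]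
  simp_rw [map_pow]

end H88BM
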