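import Mathlib

/-!
Bernstein-Markov inequality for Gaussian space, part 7: the differential inequality.
-/

namespace H88BM

lemma ode_lemma (u D U1 D1 : ℝ → ℝ) (s δ T : ℝ) (hs : 0 ≤ s) (hT : 0 ≤ T) (hδ : 0 ≤ δ)
    (hu : ∀ τ, HasDerivAt u (2 * Real.sinh (2 * τ) * U1 τ) τ)
    (hD : ∀ τ, HasDerivAt D (2 * Real.sinh (2 * τ) * D1 τ) τ)
    (hupos : ∀ τ, 0 < u τ) (hD0 : ∀ τ, 0 ≤ D τ) (hU1 : ∀ τ, 0 ≤ U1 τ)
    (h1 : ∀ τ, (Real.cosh (2 * τ) * U1 τ) ^ 2 ≤ (s + 1) ^ 2 * u τ *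
      (Real.cosh (2 * τ) * D τ + Real.cosh (2 * τ) ^ 2 * D1 τ))
    (he0 : ∀ τ, U1 τ ≤ (s + 1) ^ 2 * D τ)
    (he1 : ∀ τ ∈ Set.Icc 0 T, (s + 1) ^ 2 * D τ - U1 τ ≤ δ * u τ) :
    (s + 1) ^ 2 * D 0 / u 0 * Real.exp (-δ * (Real.cosh (2 * T) - 1)) * Real.log (Real.cosh (2 * T))
      - δ * (Real.cosh (2 * T) - 1) ≤ Real.log (u T) - Real.log (u 0) := by
  set ρ : ℝ → ℝ := fun τ => Real.cosh (2 * τ) with hρdef
  have hρ1 : ∀ τ, 1 ≤ ρ τ := fun τ => Real.one_le_cosh _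
  have hρpos : ∀ τ, 0 < ρ τ := fun τ => Real.cosh_pos _
  have hρ' : ∀ τ, HasDerivAt ρ (2 * Real.sinh (2 * τ)) τ := by
    intro τ
    have := (Real.hasDerivAt_cosh (2 * τ)).comp τ ((hasDerivAt_id τ).const_mul 2)
    have h2 : HasDerivAt (fun τ => Real.cosh (2 * τ)) (Real.sinh (2 * τ) * (2 * 1)) τ := this
    exact h2.congr_deriv (by ring)
  have hsinh : ∀ τ, 0 ≤ τ → 0 ≤ Real.sinh (2 * τ) := fun τ h =>
    Real.sinh_nonneg_iff.2 (by linarith)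
  set M : ℝ → ℝ := fun τ => (s + 1) ^ 2 * (ρ τ * D τ) / u τ with hMdef
  have hM' : ∀ τ, HasDerivAt M (((s + 1) ^ 2 * (2 * Real.sinh (2 * τ) * D τ
      + ρ τ * (2 * Real.sinh (2 * τ) * D1 τ)) * u τ
      - (s + 1) ^ 2 * (ρ τ * D τ) * (2 * Real.sinh (2 * τ) * U1 τ)) / u τ ^ 2) τ := by
    intro τ
    exact ((((hρ' τ).mul (hD τ)).const_mul ((s + 1) ^ 2)).div (hu τ) (hupos τ).ne')
  have hMnn : ∀ τ, 0 ≤ M τ := fun τ => by
    have := hD0 τ; have := hρpos τ; have := hupos τ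
    simp only [hMdef]; positivity
  -- the lower bound on the derivative of M
  have hMlow : ∀ τ ∈ Set.Icc 0 T, -(2 * Real.sinh (2 * τ)) * δ * M τ ≤
      ((s + 1) ^ 2 * (2 * Real.sinh (2 * τ) * D τ
      + ρ τ * (2 * Real.sinh (2 * τ) * D1 τ)) * u τ
      - (s + 1) ^ 2 * (ρ τ * D τ) * (2 * Real.sinh (2 * τ) * U1 τ)) / u τ ^ 2 := by
    intro τ hτ
    have hup := hupos τ
    have hrp := hρpos τ
    have hsn := hsinh τ hτ.1
    rw [le_div_iff₀ (by positivity)]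
    have hkey : -δ * ((s + 1) ^ 2 * (ρ τ * D τ)) * u τ ≤
        (s + 1) ^ 2 * (D τ + ρ τ * D1 τ) * u τ - (s + 1) ^ 2 * (ρ τ * D τ) * U1 τ := by
      have h1' := h1 τ
      have hA : ρ τ * U1 τ ^ 2 ≤ (s + 1) ^ 2 * u τ * (D τ + ρ τ * D1 τ) := by
        have e : ρ τ * (ρ τ * U1 τ ^ 2) ≤ ρ τ * ((s + 1) ^ 2 * u τ * (D τ + ρ τ * D1 τ)) := by
          calc ρ τ * (ρ τ * U1 τ ^ 2) = (Real.cosh (2 * τ) * U1 τ) ^ 2 := by
                simp only [hρdef]; ring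
            _ ≤ _ := h1'
            _ = _ := by simp only [hρdef]; ring
        exact le_of_mul_le_mul_left e hrp
      have he := he1 τ hτ
      have hU := hU1 τ
      have he0' := he0 τ
      -- ρ U1 (U1 - (s+1)^2 D) ≥ -ρ U1 δ u ≥ - ρ (s+1)^2 D δ u
      have hB : -(δ * u τ) * (ρ τ * U1 τ) ≤ ρ τ * U1 τ * (U1 τ - (s + 1) ^ 2 * D τ) := by
        have : 0 ≤ ρ τ * U1 τ := by positivity
        nlinarith
      have hC : -(δ * u τ) * (ρ τ * ((s + 1) ^ 2 * D τ)) ≤ -(δ * u τ) * (ρ τ * U1 τ) := by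
        have h3 : 0 ≤ δ * u τ := by positivity
        have h4 : ρ τ * U1 τ ≤ ρ τ * ((s + 1) ^ 2 * D τ) := by gcongr
        nlinarith
      nlinarith
    have hM2 : M τ * u τ = (s + 1) ^ 2 * (ρ τ * D τ) := by
      simp only [hMdef]; field_simp
    calc -(2 * Real.sinh (2 * τ)) * δ * M τ * u τ ^ 2
        = (2 * Real.sinh (2 * τ)) * (-δ * (M τ * u τ) * u τ) := by ring
      _ = (2 * Real.sinh (2 * τ)) * (-δ * ((s + 1) ^ 2 * (ρ τ * D τ)) * u τ) := by rw [hM2]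
      _ ≤ (2 * Real.sinh (2 * τ)) * ((s + 1) ^ 2 * (D τ + ρ τ * D1 τ) * u τ
          - (s + 1) ^ 2 * (ρ τ * D τ) * U1 τ) := by
          gcongr
      _ = _ := by ring
  -- monotonicity of M exp(δ ρ)
  have hmono : MonotoneOn (fun τ => M τ * Real.exp (δ * ρ τ)) (Set.Icc 0 T) := by
    have hder : ∀ τ, HasDerivAt (fun τ => M τ * Real.exp (δ * ρ τ))
        ((((s + 1) ^ 2 * (2 * Real.sinh (2 * τ) * D τ
      + ρ τ * (2 * Real.sinh (2 * τ) * D1 τ)) * u τ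
      - (s + 1) ^ 2 * (ρ τ * D τ) * (2 * Real.sinh (2 * τ) * U1 τ)) / u τ ^ 2)
          * Real.exp (δ * ρ τ)
          + M τ * (Real.exp (δ * ρ τ) * (δ * (2 * Real.sinh (2 * τ))))) τ := fun τ =>
      (hM' τ).mul (((hρ' τ).const_mul δ).exp)
    refine monotoneOn_of_deriv_nonneg (convex_Icc 0 T)
      (fun τ _ => (hder τ).continuousAt.continuousWithinAt)
      (fun τ _ => (hder τ).differentiableAt.differentiableWithinAt) fun τ hτ => ?_
    rw [interior_Icc] at hτ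
    rw [(hder τ).deriv]
    have := hMlow τ ⟨hτ.1.le, hτ.2.le⟩
    have hexp := Real.exp_pos (δ * ρ τ)
    nlinarith
  have hρT : ∀ τ ∈ Set.Icc 0 T, ρ τ ≤ ρ T := by
    intro τ hτ
    simp only [hρdef]
    rw [Real.cosh_le_cosh, abs_of_nonneg (by linarith [hτ.1]), abs_of_nonneg (by linarith)]
    linarith [hτ.2]
  have hρ0 : ρ 0 = 1 := by simp [hρdef]
  set Ms : ℝ := M 0 * Real.exp (-δ * (ρ T - 1)) with hMs
  have hMge : ∀ τ ∈ Set.Icc 0 T, Ms ≤ M τ := by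
    intro τ hτ
    have := hmono ⟨le_refl 0, hT⟩ hτ hτ.1
    simp only [hρ0, mul_one] at this
    have h2 : M 0 * Real.exp (δ - δ * ρ τ) ≤ M τ := by
      rw [Real.exp_sub, ← mul_div_assoc, div_le_iff₀ (Real.exp_pos _)]
      exact this
    refine le_trans ?_ h2
    rw [hMs]
    refine mul_le_mul_of_nonneg_left (Real.exp_le_exp.2 ?_) (hMnn 0)
    have := hρT τ hτ
    nlinarith
  have hmono2 : MonotoneOn (fun τ => Real.log (u τ) - Ms * Real.log (ρ τ) + δ * ρ τ)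
      (Set.Icc 0 T) := by
    have hder : ∀ τ, HasDerivAt (fun τ => Real.log (u τ) - Ms * Real.log (ρ τ) + δ * ρ τ)
        ((2 * Real.sinh (2 * τ) * U1 τ) / u τ - Ms * ((2 * Real.sinh (2 * τ)) / ρ τ)
          + δ * (2 * Real.sinh (2 * τ))) τ := fun τ =>
      (((hu τ).log (hupos τ).ne').sub (((hρ' τ).log (hρpos τ).ne').const_mul Ms)).add
        ((hρ' τ).const_mul δ)
    refine monotoneOn_of_deriv_nonneg (convex_Icc 0 T)
      (fun τ _ => (hder τ).continuousAt.continuousWithinAt)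
      (fun τ _ => (hder τ).differentiableAt.differentiableWithinAt) fun τ hτ => ?_
    rw [interior_Icc] at hτ
    rw [(hder τ).deriv]
    have hτ' : τ ∈ Set.Icc 0 T := ⟨hτ.1.le, hτ.2.le⟩
    have hsn := hsinh τ hτ.1.le
    have hup := hupos τ
    have hrp := hρpos τ
    have hm := hMge τ hτ'
    have he := he1 τ hτ'
    have hkey : 0 ≤ U1 τ / u τ - Ms / ρ τ + δ := by
      have e1 : Ms / ρ τ ≤ M τ / ρ τ := by gcongr
      have e2 : M τ / ρ τ = (s + 1) ^ 2 * D τ / u τ := by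
        simp only [hMdef]; field_simp
      have e3 : (s + 1) ^ 2 * D τ / u τ ≤ U1 τ / u τ + δ := by
        rw [div_le_iff₀ hup, add_mul, div_mul_cancel₀ _ hup.ne']
        linarith
      linarith
    have : 2 * Real.sinh (2 * τ) * U1 τ / u τ - Ms * (2 * Real.sinh (2 * τ) / ρ τ)
        + δ * (2 * Real.sinh (2 * τ))
        = 2 * Real.sinh (2 * τ) * (U1 τ / u τ - Ms / ρ τ + δ) := by ring
    rw [this]
    positivity
  have hfin := hmono2 ⟨le_refl 0, hT⟩ ⟨hT, le_refl T⟩ hT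
  simp only [hρ0, Real.log_one, mul_zero, sub_zero, mul_one] at hfin
  have hM0 : M 0 = (s + 1) ^ 2 * D 0 / u 0 := by
    simp only [hMdef, hρ0, one_mul]
  rw [hM0] at hMs
  rw [← hMs]
  show Ms * Real.log (ρ T) - δ * (ρ T - 1) ≤ Real.log (u T) - Real.log (u 0)
  linarith

end H88BM
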