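import Mathlib
import Pool.Agent.H88.BMIdent
import Pool.Agent.H88.BMOde

/-!
Bernstein-Markov inequality for Gaussian space, part 8: real forms of the identities.
-/

set_option linter.unusedVariables false
set_option linter.unusedTactic false
set_option linter.unusedSimpArgs false

namespace H88BM

open MvPolynomial MeasureTheory

variable {n : ℕ}

/-- general real integral -/
noncomputable def RI (F : MvPolynomial (Fin n) ℂ) (ε r τ : ℝ) (q : (Fin n → ℂ) → ℝ) : ℝ :=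
  ∫ v : VV n, wt v * (Ar F ε (zeta τ v) ^ r * q (zeta τ v))

lemma RI_nonneg (F : MvPolynomial (Fin n) ℂ) {ε : ℝ} (hε : 0 ≤ ε) (r τ : ℝ)
    (q : (Fin n → ℂ) → ℝ) (hq : ∀ z, 0 ≤ q z) : 0 ≤ RI F ε r τ q := by
  refine integral_nonneg fun v => ?_
  have h1 := wt_pos v
  have h2 : 0 ≤ Ar F ε (zeta τ v) := by unfold Ar; positivity
  have h3 := hq (zeta τ v)
  have h4 := Real.rpow_nonneg h2 r
  simp only [Pi.zero_apply]
  positivity

noncomputable def uR (F : MvPolynomial (Fin n) ℂ) (ε s τ : ℝ) : ℝ := RI F ε (s + 1) τ (fun _ => 1)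
noncomputable def DR (F : MvPolynomial (Fin n) ℂ) (ε s τ : ℝ) : ℝ := RI F ε s τ (gs F)
noncomputable def U1R (F : MvPolynomial (Fin n) ℂ) (ε s τ : ℝ) : ℝ :=
  RI F ε (s - 1) τ (fun z => (s + 1) * gs F z * (s * ‖eval z F‖ ^ 2 + Ar F ε z))
noncomputable def D1R (F : MvPolynomial (Fin n) ℂ) (ε s τ : ℝ) : ℝ :=
  RI F ε (s - 2) τ (dd F ε s)
noncomputable def HR (F : MvPolynomial (Fin n) ℂ) (ε s τ : ℝ) : ℝ :=
  RI F ε (s - 2) τ (fun z => ‖ev z (hh F ε s)‖ ^ 2)

lemma EE_u (F : MvPolynomial (Fin n) ℂ) (ε s τ : ℝ) :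
    EE F ε (s + 1) τ 1 = (uR F ε s τ : ℂ) := EE_real F ε _ τ 1 _ (fun z => ev_one z)

lemma EE_D (F : MvPolynomial (Fin n) ℂ) (ε s τ : ℝ) :
    EE F ε s τ (gradsq F) = (DR F ε s τ : ℂ) := EE_real F ε _ τ _ _ (fun z => ev_gradsq z F)

lemma EE_U1 (F : MvPolynomial (Fin n) ℂ) (ε s τ : ℝ) :
    EE F ε (s - 1) τ (U1p F ε s) = (U1R F ε s τ : ℂ) :=
  EE_real F ε _ τ _ _ (fun z => ev_U1p z F ε s)

lemma EE_D1 (F : MvPolynomial (Fin n) ℂ) (ε s τ : ℝ) :
    EE F ε (s - 2) τ (D1p F ε s) = (D1R F ε s τ : ℂ) :=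
  EE_real F ε _ τ _ _ (fun z => ev_D1p z F ε s)

lemma EE_H (F : MvPolynomial (Fin n) ℂ) (ε s τ : ℝ) :
    EE F ε (s - 2) τ (hh F ε s * kk F ε s) = (HR F ε s τ : ℂ) :=
  EE_real F ε _ τ _ _ (fun z => ev_hhkk z F ε s)

lemma hasDerivAt_of_complex {f : ℝ → ℝ} {c : ℝ} {τ : ℝ}
    (h : HasDerivAt (fun t => (f t : ℂ)) (c : ℂ) τ) : HasDerivAt f c τ := by
  have h1 := (Complex.reCLM.hasFDerivAt.comp_hasDerivAt τ h)
  simpa [Function.comp_def] using h1

lemma hasDerivAt_uR (F : MvPolynomial (Fin n) ℂ) {ε : ℝ} (hε : 0 < ε) (s τ : ℝ) :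
    HasDerivAt (uR F ε s) (2 * Real.sinh (2 * τ) * U1R F ε s τ) τ := by
  have h := hasDerivAt_u F hε s τ
  simp_rw [EE_u, EE_U1] at h
  refine hasDerivAt_of_complex ?_
  refine h.congr_deriv ?_
  push_cast; ring

lemma hasDerivAt_DR (F : MvPolynomial (Fin n) ℂ) {ε : ℝ} (hε : 0 < ε) (s τ : ℝ) :
    HasDerivAt (DR F ε s) (2 * Real.sinh (2 * τ) * D1R F ε s τ) τ := by
  have h := hasDerivAt_D F hε s τ
  simp_rw [EE_D, EE_D1] at h
  refine hasDerivAt_of_complex ?_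
  refine h.congr_deriv ?_
  push_cast; ring

lemma HR_le (F : MvPolynomial (Fin n) ℂ) {ε : ℝ} (hε : 0 < ε) {s : ℝ} (hs : 0 ≤ s) (τ : ℝ) :
    HR F ε s τ ≤ Real.cosh (2 * τ) * DR F ε s τ + Real.cosh (2 * τ) ^ 2 * D1R F ε s τ := by
  have h := ident_b F hε s τ
  rw [EE_H, EE_D, EE_D1, EE_real F ε _ τ _ _ (fun z => ev_sqsq z F)] at h
  have hR := RI_nonneg F hε.le (s - 2) τ (fun z => ‖∑ j, (eval z (pderiv j F)) ^ 2‖ ^ 2)
    (fun z => by positivity)
  unfold RI at hR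
  have h2 : HR F ε s τ = Real.cosh (2 * τ) * DR F ε s τ + Real.cosh (2 * τ) ^ 2 * D1R F ε s τ
      - s * ε * ∫ v : VV n, wt v * (Ar F ε (zeta τ v) ^ (s - 2) *
        ‖∑ j, (eval (zeta τ v) (pderiv j F)) ^ 2‖ ^ 2) := by
    exact_mod_cast h
  rw [h2]
  have : 0 ≤ s * ε := by positivity
  nlinarith

lemma int_wt_pos (n : ℕ) : 0 < ∫ v : VV n, wt v := by
  have h := integrable_wt_pow (n := n) 0
  simp only [pow_zero, mul_one] at h
  rw [integral_pos_iff_support_of_nonneg (fun v => (wt_pos v).le) h]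
  have : Function.support (wt : VV n → ℝ) = Set.univ := by
    ext v; simp [(wt_pos v).ne']
  rw [this]
  exact isOpen_univ.measure_pos _ Set.univ_nonempty

lemma uR_pos (F : MvPolynomial (Fin n) ℂ) {ε : ℝ} (hε : 0 < ε) {s : ℝ} (hs : 0 ≤ s) (τ : ℝ) :
    0 < uR F ε s τ := by
  have hI := integrable_real F hε (s + 1) τ 1 (fun _ => 1) (fun z => ev_one z)
  have h : ∫ v : VV n, wt v * ε ^ (s + 1) ≤ uR F ε s τ := by
    unfold uR RI
    refine integral_mono ?_ hI fun v => ?_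
    · have h := integrable_wt_pow (n := n) 0
      simp only [pow_zero, mul_one] at h
      exact h.mul_const _
    · have h1 := wt_pos v
      have h2 := Ar_ge F ε (zeta τ v)
      have h3 : ε ^ (s + 1) ≤ Ar F ε (zeta τ v) ^ (s + 1) :=
        Real.rpow_le_rpow hε.le h2 (by linarith)
      simp only [mul_one]
      gcongr
  have h2 : 0 < ∫ v : VV n, wt v * ε ^ (s + 1) := by
    rw [integral_mul_const]
    have := int_wt_pos n
    have := Real.rpow_pos_of_pos hε (s + 1)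
    positivity
  linarith

/-- Cauchy-Schwarz step -/
lemma CS_step (F : MvPolynomial (Fin n) ℂ) {ε : ℝ} (hε : 0 < ε) {s : ℝ} (hs : 0 ≤ s) (τ : ℝ) :
    ‖EE F ε (s - 1) τ (anti F * hh F ε s)‖ ^ 2 ≤ uR F ε s τ * HR F ε s τ := by
  set X := ‖EE F ε (s - 1) τ (anti F * hh F ε s)‖ with hX
  have hu := uR_pos F hε hs τ
  have hIu := integrable_real F hε (s + 1) τ 1 (fun _ => 1) (fun z => ev_one z)
  have hIH := integrable_real F hε (s - 2) τ _ _ (fun z => ev_hhkk z F ε s)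
  have key : ∀ t : ℝ, 0 < t → 2 * X ≤ t * uR F ε s τ + t⁻¹ * HR F ε s τ := by
    intro t ht
    have hX1 : X ≤ ∫ v : VV n, ‖(wt v : ℂ) * Phi F ε (s - 1) (anti F * hh F ε s) (zeta τ v)‖ := by
      rw [hX]; unfold EE
      exact norm_integral_le_integral_norm _
    have hX2 : (∫ v : VV n, ‖(wt v : ℂ) * Phi F ε (s - 1) (anti F * hh F ε s) (zeta τ v)‖)
        ≤ ∫ v : VV n, (t / 2 * (wt v * (Ar F ε (zeta τ v) ^ (s + 1) * 1))
          + t⁻¹ / 2 * (wt v * (Ar F ε (zeta τ v) ^ (s - 2) *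
            ‖ev (zeta τ v) (hh F ε s)‖ ^ 2))) := by
      refine integral_mono (integrable_Phi F hε _ _ τ).norm
        ((hIu.const_mul _).add (hIH.const_mul _)) fun v => ?_
      have hw := wt_pos v
      have hA := Ar_pos F hε (zeta τ v)
      have hfA : ‖eval (zeta τ v) F‖ ^ 2 ≤ Ar F ε (zeta τ v) := by unfold Ar; linarith
      simp only
      rw [norm_mul, Complex.norm_real, Real.norm_of_nonneg hw.le]
      unfold Phi
      rw [norm_mul, Complex.norm_real, Real.norm_of_nonneg (Real.rpow_nonneg hA.le _), ev_mul,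
        ev_anti, norm_mul, RCLike.norm_conj]
      set a := ‖eval (zeta τ v) F‖
      set b := ‖ev (zeta τ v) (hh F ε s)‖
      set A := Ar F ε (zeta τ v)
      have e1 : A ^ (s + 1) = A ^ (s - 2) * (A * A * A) := by
        have h3 : s + 1 = s - 2 + ((3 : ℕ) : ℝ) := by push_cast; ring
        rw [h3, Real.rpow_add hA, Real.rpow_natCast]
        ring
      have e2 : A ^ (s - 1) = A ^ (s - 2) * A := by
        have : s - 1 = s - 2 + 1 := by ring
        rw [this, Real.rpow_add_one hA.ne']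
      rw [e1, e2]
      have hAs := Real.rpow_nonneg hA.le (s - 2)
      have hmain : A * (a * b) ≤ t / 2 * (A * A * A) + t⁻¹ / 2 * b ^ 2 := by
        have ha : 0 ≤ a := norm_nonneg _
        have hb : 0 ≤ b := norm_nonneg _
        have h3 : 2 * (A * (a * b)) ≤ t * (A * a) ^ 2 + t⁻¹ * b ^ 2 := by
          have hsq : 0 ≤ t⁻¹ * (t * (A * a) - b) ^ 2 := by positivity
          have e : t⁻¹ * (t * (A * a) - b) ^ 2
              = t * (A * a) ^ 2 + t⁻¹ * b ^ 2 - 2 * (A * (a * b)) := by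
            field_simp; ring
          linarith
        have h4 : (A * a) ^ 2 ≤ A * A * A := by
          have : A * A * a ^ 2 ≤ A * A * A := by gcongr
          nlinarith
        have h5 : t * (A * a) ^ 2 ≤ t * (A * A * A) := by gcongr
        linarith
      calc wt v * (A ^ (s - 2) * A * (a * b)) = (wt v * A ^ (s - 2)) * (A * (a * b)) := by ring
        _ ≤ (wt v * A ^ (s - 2)) * (t / 2 * (A * A * A) + t⁻¹ / 2 * b ^ 2) := by gcongr
        _ = _ := by ring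
    rw [integral_add (hIu.const_mul _) (hIH.const_mul _), integral_const_mul,
      integral_const_mul] at hX2
    have e3 : (∫ v : VV n, wt v * (Ar F ε (zeta τ v) ^ (s + 1) * 1)) = uR F ε s τ := rfl
    have e4 : (∫ v : VV n, wt v * (Ar F ε (zeta τ v) ^ (s - 2) *
            ‖ev (zeta τ v) (hh F ε s)‖ ^ 2)) = HR F ε s τ := rfl
    rw [e3, e4] at hX2
    linarith
  have hXnn : 0 ≤ X := norm_nonneg _
  rcases eq_or_lt_of_le hXnn with h0 | hpos
  · rw [← h0]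
    have : 0 ≤ HR F ε s τ := RI_nonneg F hε.le _ _ _ (fun z => by positivity)
    simp only [ne_eq, OfNat.ofNat_ne_zero, not_false_eq_true, zero_pow]
    positivity
  · have := key (X / uR F ε s τ) (by positivity)
    rw [div_mul_cancel₀ _ hu.ne', inv_div] at this
    have h2 : X ≤ uR F ε s τ / X * HR F ε s τ := by linarith
    have h3 : X * X ≤ uR F ε s τ * HR F ε s τ := by
      calc X * X ≤ X * (uR F ε s τ / X * HR F ε s τ) := by gcongr
        _ = uR F ε s τ * HR F ε s τ := by field_simp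
    linarith [sq X]

lemma main_ineq (F : MvPolynomial (Fin n) ℂ) {ε : ℝ} (hε : 0 < ε) {s : ℝ} (hs : 0 ≤ s) (τ : ℝ) :
    (Real.cosh (2 * τ) * U1R F ε s τ) ^ 2 ≤ (s + 1) ^ 2 * uR F ε s τ *
      (Real.cosh (2 * τ) * DR F ε s τ + Real.cosh (2 * τ) ^ 2 * D1R F ε s τ) := by
  have h := ident_a F hε s τ
  rw [EE_U1] at h
  have h2 := congrArg norm h
  rw [norm_mul, norm_mul, Complex.norm_real, Complex.norm_real, Complex.norm_real,
    Real.norm_of_nonneg (by linarith : (0:ℝ) ≤ s + 1),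
    Real.norm_of_nonneg (Real.cosh_pos (2 * τ)).le] at h2
  have hcs := CS_step F hε hs τ
  have hle := HR_le F hε hs τ
  have hu := uR_pos F hε hs τ
  have h3 : (Real.cosh (2 * τ) * U1R F ε s τ) ^ 2
      = (s + 1) ^ 2 * ‖EE F ε (s - 1) τ (anti F * hh F ε s)‖ ^ 2 := by
    have : (s + 1) ^ 2 * ‖EE F ε (s - 1) τ (anti F * hh F ε s)‖ ^ 2
      = ((s + 1) * ‖EE F ε (s - 1) τ (anti F * hh F ε s)‖) ^ 2 := by ring
    rw [this, h2, mul_pow, mul_pow, Real.norm_eq_abs, sq_abs]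
  rw [h3]
  calc (s + 1) ^ 2 * ‖EE F ε (s - 1) τ (anti F * hh F ε s)‖ ^ 2
      ≤ (s + 1) ^ 2 * (uR F ε s τ * HR F ε s τ) := by gcongr
    _ ≤ (s + 1) ^ 2 * (uR F ε s τ * (Real.cosh (2 * τ) * DR F ε s τ
        + Real.cosh (2 * τ) ^ 2 * D1R F ε s τ)) := by gcongr
    _ = _ := by ring

/-- the error term `e1` -/
lemma e1_formula (F : MvPolynomial (Fin n) ℂ) {ε : ℝ} (hε : 0 < ε) (s τ : ℝ) :
    (s + 1) ^ 2 * DR F ε s τ - U1R F ε s τ = (s + 1) * (s * ε) * RI F ε (s - 1) τ (gs F) := by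
  have h1 := EE_D F ε s τ
  have e1 : EE F ε s τ (gradsq F) = EE F ε (s - 1) τ (AA F ε * gradsq F) := by
    rw [EE_AA F hε]; congr 1; ring
  have e2 : U1p F ε s = C ((s + 1 : ℝ) : ℂ) * (C ((s + 1 : ℝ) : ℂ) * (AA F ε * gradsq F)
      - C ((s * ε : ℝ) : ℂ) * gradsq F) := by
    unfold U1p gradsq
    rw [← Finset.mul_sum]
    congr 1
    rw [Finset.mul_sum, Finset.mul_sum, Finset.mul_sum, ← Finset.sum_sub_distrib]
    refine Finset.sum_congr rfl fun j _ => ?_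
    simp only [AA_def', Complex.ofReal_add, Complex.ofReal_one, map_add, map_one,
      Complex.ofReal_mul, map_mul]
    ring
  have e3 := EE_U1 F ε s τ
  rw [e2, EE_Cmul, EE_sub F hε, EE_Cmul, EE_Cmul, ← e1, h1,
    EE_real F ε _ τ _ _ (fun z => ev_gradsq z F)] at e3
  have e4 : (s + 1) * ((s + 1) * DR F ε s τ - s * ε * RI F ε (s - 1) τ (gs F))
      = U1R F ε s τ := by
    unfold RI
    exact_mod_cast e3
  rw [← e4]
  ring

lemma U1R_nonneg (F : MvPolynomial (Fin n) ℂ) {ε : ℝ} (hε : 0 < ε) {s : ℝ} (hs : 0 ≤ s) (τ : ℝ) :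
    0 ≤ U1R F ε s τ := by
  refine RI_nonneg F hε.le _ _ _ fun z => ?_
  have := gs_nonneg F z
  have := Ar_pos F hε z
  positivity

lemma DR_nonneg (F : MvPolynomial (Fin n) ℂ) {ε : ℝ} (hε : 0 ≤ ε) (s τ : ℝ) :
    0 ≤ DR F ε s τ := RI_nonneg F hε _ _ _ (gs_nonneg F)

end H88BM
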