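import Mathlib
import Pool.Agent.H88.BMReal

/-!
Bernstein-Markov inequality for Gaussian space, part 9: the energy inequality.
-/

set_option linter.unusedVariables false
set_option linter.unusedTactic false
set_option linter.unusedSimpArgs false

namespace H88BM

open MvPolynomial MeasureTheory

variable {n : ℕ}

lemma eval_growth (F : MvPolynomial (Fin n) ℂ) {d : ℕ} (hd : F.totalDegree ≤ d) :
    ∃ C : ℝ, 1 ≤ C ∧ ∀ z : Fin n → ℂ, ‖eval z F‖ ≤ C * (1 + ‖z‖) ^ d := by
  refine ⟨1 + ∑ m ∈ F.support, ‖coeff m F‖, ?_, fun z => ?_⟩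
  · have : 0 ≤ ∑ m ∈ F.support, ‖coeff m F‖ := Finset.sum_nonneg fun _ _ => norm_nonneg _
    linarith
  · have hb : (1:ℝ) ≤ 1 + ‖z‖ := by have := norm_nonneg z; linarith
    rw [eval_eq]
    calc ‖∑ m ∈ F.support, coeff m F * ∏ i ∈ m.support, z i ^ m i‖
        ≤ ∑ m ∈ F.support, ‖coeff m F * ∏ i ∈ m.support, z i ^ m i‖ := norm_sum_le _ _
      _ ≤ ∑ m ∈ F.support, ‖coeff m F‖ * (1 + ‖z‖) ^ d := by
          refine Finset.sum_le_sum fun m hm => ?_
          rw [norm_mul]
          refine mul_le_mul_of_nonneg_left ?_ (norm_nonneg _)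
          rw [norm_prod]
          calc ∏ i ∈ m.support, ‖z i ^ m i‖ ≤ ∏ i ∈ m.support, (1 + ‖z‖) ^ m i := by
                refine Finset.prod_le_prod (fun i _ => norm_nonneg _) fun i _ => ?_
                rw [norm_pow]
                have := norm_le_pi_norm z i
                gcongr
                linarith
            _ = (1 + ‖z‖) ^ (∑ i ∈ m.support, m i) := by rw [Finset.prod_pow_eq_pow_sum]
            _ ≤ (1 + ‖z‖) ^ d := by
                refine pow_le_pow_right₀ hb ?_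
                exact (le_totalDegree hm).trans hd
      _ = (∑ m ∈ F.support, ‖coeff m F‖) * (1 + ‖z‖) ^ d := by rw [Finset.sum_mul]
      _ ≤ (1 + ∑ m ∈ F.support, ‖coeff m F‖) * (1 + ‖z‖) ^ d := by
          gcongr
          linarith

lemma Ar_mono (F : MvPolynomial (Fin n) ℂ) {ε ε' : ℝ} (h : ε ≤ ε') (z : Fin n → ℂ) :
    Ar F ε z ≤ Ar F ε' z := by
  unfold Ar; linarith

lemma Ar_zero_nonneg (F : MvPolynomial (Fin n) ℂ) (z : Fin n → ℂ) : 0 ≤ Ar F 0 z := by
  unfold Ar; positivity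

lemma continuous_gs (F : MvPolynomial (Fin n) ℂ) : Continuous (gs F) := by
  unfold gs
  exact continuous_finsetSum _ fun j _ => (MvPolynomial.continuous_eval _).norm.pow 2

lemma continuous_integrand (F : MvPolynomial (Fin n) ℂ) {r : ℝ} (hr : 0 ≤ r) (ε τ : ℝ)
    {q : (Fin n → ℂ) → ℝ} (hq : Continuous q) :
    Continuous (fun v : VV n => wt v * (Ar F ε (zeta τ v) ^ r * q (zeta τ v))) := by
  refine continuous_wt.mul (Continuous.mul ?_ (hq.comp (continuous_zeta' τ)))
  exact ((continuous_Ar F ε).comp (continuous_zeta' τ)).rpow_const fun v => Or.inr hr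

lemma integrable_u (F : MvPolynomial (Fin n) ℂ) {ε : ℝ} (hε : 0 ≤ ε) {s : ℝ} (hs : 0 ≤ s)
    (τ : ℝ) :
    Integrable (fun v : VV n => wt v * (Ar F ε (zeta τ v) ^ (s + 1) * 1)) := by
  have hI := integrable_real F (by linarith : 0 < ε + 1) (s + 1) τ 1 (fun _ => 1)
    (fun z => ev_one z)
  refine hI.mono' ?_ ?_
  · exact (continuous_integrand F (by linarith) ε τ continuous_const).aestronglyMeasurable
  · refine Filter.Eventually.of_forall fun v => ?_
    have hw := wt_pos v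
    have h1 : 0 ≤ Ar F ε (zeta τ v) := by unfold Ar; positivity
    have h2 := Ar_mono F (by linarith : ε ≤ ε + 1) (zeta τ v)
    have h3 := Real.rpow_nonneg h1 (s + 1)
    rw [Real.norm_of_nonneg (by positivity)]
    have : Ar F ε (zeta τ v) ^ (s + 1) ≤ Ar F (ε + 1) (zeta τ v) ^ (s + 1) :=
      Real.rpow_le_rpow h1 h2 (by linarith)
    gcongr

lemma integrable_D (F : MvPolynomial (Fin n) ℂ) {ε : ℝ} (hε : 0 ≤ ε) {s : ℝ} (hs : 0 ≤ s)
    (τ : ℝ) :
    Integrable (fun v : VV n => wt v * (Ar F ε (zeta τ v) ^ s * gs F (zeta τ v))) := by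
  have hI := integrable_real F (by linarith : 0 < ε + 1) s τ (gradsq F) (gs F)
    (fun z => ev_gradsq z F)
  refine hI.mono' ?_ ?_
  · exact (continuous_integrand F hs ε τ (continuous_gs F)).aestronglyMeasurable
  · refine Filter.Eventually.of_forall fun v => ?_
    have hw := wt_pos v
    have hg := gs_nonneg F (zeta τ v)
    have h1 : 0 ≤ Ar F ε (zeta τ v) := by unfold Ar; positivity
    have h2 := Ar_mono F (by linarith : ε ≤ ε + 1) (zeta τ v)
    have h3 := Real.rpow_nonneg h1 s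
    rw [Real.norm_of_nonneg (by positivity)]
    have : Ar F ε (zeta τ v) ^ s ≤ Ar F (ε + 1) (zeta τ v) ^ s :=
      Real.rpow_le_rpow h1 h2 hs
    gcongr

lemma uR_mono_eps (F : MvPolynomial (Fin n) ℂ) {ε ε' : ℝ} (hε : 0 ≤ ε) (h : ε ≤ ε') {s : ℝ}
    (hs : 0 ≤ s) (τ : ℝ) : uR F ε s τ ≤ uR F ε' s τ := by
  unfold uR RI
  refine integral_mono (integrable_u F hε hs τ) (integrable_u F (hε.trans h) hs τ) fun v => ?_
  have hw := wt_pos v
  have h1 : 0 ≤ Ar F ε (zeta τ v) := by unfold Ar; positivity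
  have h2 := Ar_mono F h (zeta τ v)
  have : Ar F ε (zeta τ v) ^ (s + 1) ≤ Ar F ε' (zeta τ v) ^ (s + 1) :=
    Real.rpow_le_rpow h1 h2 (by linarith)
  simp only
  gcongr

lemma DR_mono_eps (F : MvPolynomial (Fin n) ℂ) {ε ε' : ℝ} (hε : 0 ≤ ε) (h : ε ≤ ε') {s : ℝ}
    (hs : 0 ≤ s) (τ : ℝ) : DR F ε s τ ≤ DR F ε' s τ := by
  unfold DR RI
  refine integral_mono (integrable_D F hε hs τ) (integrable_D F (hε.trans h) hs τ) fun v => ?_
  have hw := wt_pos v
  have hg := gs_nonneg F (zeta τ v)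
  have h1 : 0 ≤ Ar F ε (zeta τ v) := by unfold Ar; positivity
  have h2 := Ar_mono F h (zeta τ v)
  have : Ar F ε (zeta τ v) ^ s ≤ Ar F ε' (zeta τ v) ^ s :=
    Real.rpow_le_rpow h1 h2 hs
  simp only
  gcongr

lemma uR_mono_tau (F : MvPolynomial (Fin n) ℂ) {ε : ℝ} (hε : 0 < ε) {s : ℝ}
    (hs : 0 ≤ s) {τ : ℝ} (hτ : 0 ≤ τ) : uR F ε s 0 ≤ uR F ε s τ := by
  have hder := hasDerivAt_uR F hε s
  have : MonotoneOn (uR F ε s) (Set.Icc 0 τ) := by
    refine monotoneOn_of_deriv_nonneg (convex_Icc 0 τ)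
      (fun t _ => (hder t).continuousAt.continuousWithinAt)
      (fun t _ => (hder t).differentiableAt.differentiableWithinAt) fun t ht => ?_
    rw [interior_Icc] at ht
    rw [(hder t).deriv]
    have h1 := U1R_nonneg F hε hs t
    have h2 : 0 ≤ Real.sinh (2 * t) := Real.sinh_nonneg_iff.2 (by linarith [ht.1])
    positivity
  exact this ⟨le_refl 0, hτ⟩ ⟨hτ, le_refl τ⟩ hτ

lemma uR_upper (F : MvPolynomial (Fin n) ℂ) {d : ℕ} (hd : F.totalDegree ≤ d) {s : ℝ}
    (hs : 0 ≤ s) : ∃ C1 : ℝ, 0 < C1 ∧ ∀ ε τ : ℝ, 0 < ε → ε ≤ 1 →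
      uR F ε s τ ≤ C1 * Real.cosh (2 * τ) ^ ((s + 1) * d) := by
  obtain ⟨C, hC, h⟩ := eval_growth F hd
  set k : ℕ := 2 * d * ⌈s + 1⌉₊ with hk
  set J : ℝ := ∫ v : VV n, wt v * (1 + ‖v‖) ^ k with hJ
  have hJpos : 0 < J := by
    have h0 := int_wt_pos n
    have h1 := integrable_wt_pow (n := n) 0
    simp only [pow_zero, mul_one] at h1
    refine lt_of_lt_of_le h0 (integral_mono h1 (integrable_wt_pow k) fun v => ?_)
    have hw := wt_pos v
    have hb : (1:ℝ) ≤ 1 + ‖v‖ := by have := norm_nonneg v; linarith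
    have := one_le_pow₀ (n := k) hb
    simp only
    nlinarith
  have hCpos : 0 < C := by linarith
  refine ⟨(C ^ 2 + 1) ^ (s + 1) * (4 ^ ((s + 1) * d)) * J, by positivity, fun ε τ hε hε1 => ?_⟩
  have hcosh : (1:ℝ) ≤ Real.cosh τ := Real.one_le_cosh τ
  have hcp : 0 < Real.cosh τ := Real.cosh_pos τ
  have hρ : (1:ℝ) ≤ Real.cosh (2 * τ) := Real.one_le_cosh _
  have hpt : ∀ v : VV n, Ar F ε (zeta τ v) ^ (s + 1)
      ≤ (C ^ 2 + 1) ^ (s + 1) * (4 * Real.cosh (2 * τ)) ^ ((s + 1) * d) * (1 + ‖v‖) ^ k := by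
    intro v
    have hv : (1:ℝ) ≤ 1 + ‖v‖ := by have := norm_nonneg v; linarith
    have hz : (1:ℝ) ≤ 1 + ‖zeta τ v‖ := by have := norm_nonneg (zeta τ v); linarith
    have hA : Ar F ε (zeta τ v) ≤ (C ^ 2 + 1) * ((4 * Real.cosh (2 * τ)) ^ d
        * ((1 + ‖v‖) ^ 2) ^ d) := by
      have h1 := h (zeta τ v)
      have h2 : ‖eval (zeta τ v) F‖ ^ 2 ≤ C ^ 2 * ((1 + ‖zeta τ v‖) ^ 2) ^ d := by
        calc ‖eval (zeta τ v) F‖ ^ 2 ≤ (C * (1 + ‖zeta τ v‖) ^ d) ^ 2 := by gcongr
          _ = _ := by rw [mul_pow, ← pow_mul, ← pow_mul, mul_comm d 2]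
      have h3 : (1 + ‖zeta τ v‖) ^ 2 ≤ 4 * Real.cosh (2 * τ) * (1 + ‖v‖) ^ 2 := by
        have h4 := one_add_norm_zeta_le τ v
        calc (1 + ‖zeta τ v‖) ^ 2 ≤ (2 * Real.cosh τ * (1 + ‖v‖)) ^ 2 := by gcongr
          _ = 4 * Real.cosh τ ^ 2 * (1 + ‖v‖) ^ 2 := by ring
          _ ≤ 4 * Real.cosh (2 * τ) * (1 + ‖v‖) ^ 2 := by
              have : Real.cosh τ ^ 2 ≤ Real.cosh (2 * τ) := by
                rw [Real.cosh_two_mul]; nlinarith [sq_nonneg (Real.sinh τ)]
              gcongr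
      have h5 : ((1 + ‖zeta τ v‖) ^ 2) ^ d ≤ (4 * Real.cosh (2 * τ)) ^ d
          * ((1 + ‖v‖) ^ 2) ^ d := by
        rw [← mul_pow]; gcongr
      have h6 : (1:ℝ) ≤ (4 * Real.cosh (2 * τ)) ^ d * ((1 + ‖v‖) ^ 2) ^ d := by
        have a1 : (1:ℝ) ≤ (4 * Real.cosh (2 * τ)) ^ d := one_le_pow₀ (by linarith)
        have a2 : (1:ℝ) ≤ ((1 + ‖v‖) ^ 2) ^ d := one_le_pow₀ (one_le_pow₀ hv)
        nlinarith
      unfold Ar
      have hC2 : 0 ≤ C ^ 2 := by positivity
      calc ‖eval (zeta τ v) F‖ ^ 2 + ε ≤ C ^ 2 * ((1 + ‖zeta τ v‖) ^ 2) ^ d + 1 :=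
            add_le_add h2 hε1
        _ ≤ C ^ 2 * ((4 * Real.cosh (2 * τ)) ^ d * ((1 + ‖v‖) ^ 2) ^ d)
            + 1 * ((4 * Real.cosh (2 * τ)) ^ d * ((1 + ‖v‖) ^ 2) ^ d) := by
            gcongr
            linarith
        _ = _ := by ring
    have hApos := Ar_pos F hε (zeta τ v)
    have e1 : ((4 * Real.cosh (2 * τ)) ^ d) ^ (s + 1)
        = (4 * Real.cosh (2 * τ)) ^ ((s + 1) * d) := by
      rw [← Real.rpow_natCast, ← Real.rpow_mul (by positivity)]
      ring_nf
    have e2 : (((1 + ‖v‖) ^ 2) ^ d) ^ (s + 1) ≤ (1 + ‖v‖) ^ k := by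
      rw [hk]
      have : (((1 + ‖v‖) ^ 2) ^ d) ^ (s + 1) ≤ (((1 + ‖v‖) ^ 2) ^ d) ^ ((⌈s + 1⌉₊ : ℕ) : ℝ) := by
        refine Real.rpow_le_rpow_of_exponent_le ?_ (Nat.le_ceil _)
        exact one_le_pow₀ (one_le_pow₀ hv)
      refine this.trans (le_of_eq ?_)
      rw [Real.rpow_natCast, ← pow_mul, ← pow_mul, mul_assoc]
    calc Ar F ε (zeta τ v) ^ (s + 1)
        ≤ ((C ^ 2 + 1) * ((4 * Real.cosh (2 * τ)) ^ d * ((1 + ‖v‖) ^ 2) ^ d)) ^ (s + 1) :=
          Real.rpow_le_rpow hApos.le hA (by linarith)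
      _ = (C ^ 2 + 1) ^ (s + 1) * ((4 * Real.cosh (2 * τ)) ^ ((s + 1) * d)
          * (((1 + ‖v‖) ^ 2) ^ d) ^ (s + 1)) := by
          rw [Real.mul_rpow (by positivity) (by positivity), Real.mul_rpow (by positivity)
            (by positivity), e1]
      _ ≤ (C ^ 2 + 1) ^ (s + 1) * ((4 * Real.cosh (2 * τ)) ^ ((s + 1) * d)
          * (1 + ‖v‖) ^ k) := by gcongr
      _ = _ := by ring
  have hint : uR F ε s τ ≤ ∫ v : VV n, (C ^ 2 + 1) ^ (s + 1)
      * (4 * Real.cosh (2 * τ)) ^ ((s + 1) * d) * (wt v * (1 + ‖v‖) ^ k) := by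
    unfold uR RI
    refine integral_mono (integrable_u F hε.le hs τ) ((integrable_wt_pow k).const_mul _)
      fun v => ?_
    have hw := wt_pos v
    have := hpt v
    simp only [mul_one]
    calc wt v * Ar F ε (zeta τ v) ^ (s + 1) ≤ wt v * ((C ^ 2 + 1) ^ (s + 1)
          * (4 * Real.cosh (2 * τ)) ^ ((s + 1) * d) * (1 + ‖v‖) ^ k) := by gcongr
      _ = _ := by ring
  rw [integral_const_mul] at hint
  refine hint.trans (le_of_eq ?_)
  rw [Real.mul_rpow (by norm_num) (by positivity), hJ]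
  ring

/-- pointwise bound for the error term -/
lemma err_pt {A A1 ε s : ℝ} (hε : 0 < ε) (hs : 0 ≤ s) (hA : ε ≤ A) (hA1 : A ≤ A1)
    (h1 : 1 ≤ A1) : s * ε * A ^ (s - 1) ≤ s * (ε + ε ^ s) * A1 ^ s := by
  have hApos : 0 < A := by linarith
  have hεs : 0 ≤ ε ^ s := Real.rpow_nonneg hε.le s
  have hA1s : 1 ≤ A1 ^ s := Real.one_le_rpow h1 hs
  rcases le_or_gt 1 s with h | h
  · have h2 : A ^ (s - 1) ≤ A1 ^ s := by
      calc A ^ (s - 1) ≤ A1 ^ (s - 1) := Real.rpow_le_rpow hApos.le hA1 (by linarith)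
        _ ≤ A1 ^ s := Real.rpow_le_rpow_of_exponent_le h1 (by linarith)
    calc s * ε * A ^ (s - 1) ≤ s * ε * A1 ^ s := by gcongr
      _ ≤ s * (ε + ε ^ s) * A1 ^ s := by
          gcongr
          linarith
  · have h2 : ε * A ^ (s - 1) ≤ ε ^ s := by
      calc ε * A ^ (s - 1) ≤ ε * ε ^ (s - 1) := by
            have := Real.rpow_le_rpow_of_nonpos hε hA (by linarith : s - 1 ≤ 0)
            gcongr
        _ = ε ^ s := by
            rw [mul_comm, ← Real.rpow_add_one hε.ne']; ring_nf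
    calc s * ε * A ^ (s - 1) = s * (ε * A ^ (s - 1)) := by ring
      _ ≤ s * (ε ^ s) := by gcongr
      _ ≤ s * ((ε + ε ^ s) * A1 ^ s) := by
          gcongr
          nlinarith
      _ = _ := by ring

lemma err_int (F : MvPolynomial (Fin n) ℂ) {ε : ℝ} (hε : 0 < ε) (hε1 : ε ≤ 1) {s : ℝ}
    (hs : 0 ≤ s) (τ : ℝ) :
    (s * ε) * RI F ε (s - 1) τ (gs F) ≤ s * (ε + ε ^ s) * DR F 1 s τ := by
  unfold DR RI
  have hI1 := integrable_real F hε (s - 1) τ (gradsq F) (gs F) (fun z => ev_gradsq z F)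
  have hI2 := integrable_real F one_pos s τ (gradsq F) (gs F) (fun z => ev_gradsq z F)
  rw [← integral_const_mul, ← integral_const_mul]
  refine integral_mono (hI1.const_mul _) (hI2.const_mul _) fun v => ?_
  have hw := wt_pos v
  have hg := gs_nonneg F (zeta τ v)
  have := err_pt hε hs (Ar_ge F ε (zeta τ v)) (Ar_mono F hε1 (zeta τ v))
    (Ar_ge F 1 (zeta τ v))
  simp only
  calc s * ε * (wt v * (Ar F ε (zeta τ v) ^ (s - 1) * gs F (zeta τ v)))
      = (s * ε * Ar F ε (zeta τ v) ^ (s - 1)) * (wt v * gs F (zeta τ v)) := by ring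
    _ ≤ (s * (ε + ε ^ s) * Ar F 1 (zeta τ v) ^ s) * (wt v * gs F (zeta τ v)) := by gcongr
    _ = _ := by ring

lemma zeta_zero (v : VV n) : zeta 0 v = fun j => (v.1 j : ℂ) := by
  funext j; simp [zeta]

lemma uR_zero_pos (F : MvPolynomial (Fin n) ℂ) (hF : F ≠ 0) {s : ℝ} (hs : 0 ≤ s) :
    0 < uR F 0 s 0 := by
  have hex : ∃ x : Fin n → ℝ, eval (fun j => (x j : ℂ)) F ≠ 0 := by
    by_contra hcon
    push Not at hcon
    refine hF (funext_set (fun _ => Set.range (fun t : ℝ => (t : ℂ)))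
      (fun _ => Set.infinite_range_of_injective Complex.ofReal_injective) fun z hz => ?_)
    rw [map_zero]
    have : ∀ j, ∃ t : ℝ, (t : ℂ) = z j := fun j => hz j (Set.mem_univ j)
    choose x hx using this
    have h := hcon x
    have e : (fun j => (x j : ℂ)) = z := funext hx
    rwa [e] at h
  obtain ⟨x, hx⟩ := hex
  unfold uR RI
  have hcont := continuous_integrand F (by linarith : 0 ≤ s + 1) 0 0
    (continuous_const (y := (1:ℝ)))
  rw [integral_pos_iff_support_of_nonneg _ (integrable_u F (le_refl 0) hs 0)]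
  · refine IsOpen.measure_pos volume ?_ ⟨(x, 0), ?_⟩
    · exact hcont.isOpen_support
    · rw [Function.mem_support]
      have hw := wt_pos ((x, 0) : VV n)
      have hA : 0 < Ar F 0 (zeta 0 ((x, 0) : VV n)) := by
        rw [zeta_zero]
        unfold Ar
        have : 0 < ‖eval (fun j => (x j : ℂ)) F‖ := norm_pos_iff.2 hx
        simp only [add_zero]
        positivity
      have := Real.rpow_pos_of_pos hA (s + 1)
      positivity
  · intro v
    have hw := wt_pos v
    have := Real.rpow_nonneg (Ar_zero_nonneg F (zeta 0 v)) (s + 1)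
    simp only [Pi.zero_apply]
    positivity

lemma uR_tendsto (F : MvPolynomial (Fin n) ℂ) {s : ℝ} (hs : 0 ≤ s) :
    Filter.Tendsto (fun k : ℕ => uR F (1 / ((k : ℝ) + 1)) s 0) Filter.atTop
      (nhds (uR F 0 s 0)) := by
  unfold uR RI
  refine tendsto_integral_of_dominated_convergence
    (fun v : VV n => wt v * (Ar F 1 (zeta 0 v) ^ (s + 1) * 1)) ?_
    (integrable_u F zero_le_one hs 0) ?_ ?_
  · intro k
    exact (continuous_integrand F (by linarith) _ 0 continuous_const).aestronglyMeasurable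
  · intro k
    refine Filter.Eventually.of_forall fun v => ?_
    have hk : 0 < 1 / ((k : ℝ) + 1) := by positivity
    have hk1 : 1 / ((k : ℝ) + 1) ≤ 1 := by
      rw [div_le_one (by positivity)]
      have : (0:ℝ) ≤ k := Nat.cast_nonneg k
      linarith
    have hw := wt_pos v
    have h1 := (Ar_pos F hk (zeta 0 v)).le
    have h3 := Real.rpow_nonneg h1 (s + 1)
    rw [Real.norm_of_nonneg (by positivity)]
    have : Ar F (1 / ((k : ℝ) + 1)) (zeta 0 v) ^ (s + 1) ≤ Ar F 1 (zeta 0 v) ^ (s + 1) :=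
      Real.rpow_le_rpow h1 (Ar_mono F hk1 _) (by linarith)
    gcongr
  · refine Filter.Eventually.of_forall fun v => ?_
    refine Filter.Tendsto.const_mul _ (Filter.Tendsto.mul_const _ ?_)
    have hA : Filter.Tendsto (fun k : ℕ => Ar F (1 / ((k : ℝ) + 1)) (zeta 0 v)) Filter.atTop
        (nhds (Ar F 0 (zeta 0 v))) := by
      unfold Ar
      exact tendsto_const_nhds.add tendsto_one_div_add_atTop_nhds_zero_nat
    exact hA.rpow_const (Or.inr (by linarith))

/-- **Energy inequality** (at `τ = 0`, unnormalised). -/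
theorem energy (F : MvPolynomial (Fin n) ℂ) {d : ℕ} (hd : F.totalDegree ≤ d) {s : ℝ}
    (hs : 0 ≤ s) : (s + 1) * DR F 0 s 0 ≤ d * uR F 0 s 0 := by
  rcases eq_or_ne F 0 with hF | hF
  · have : DR F 0 s 0 = 0 := by
      unfold DR RI
      have : ∀ z, gs F z = 0 := by intro z; rw [hF]; simp [gs]
      simp [this]
    rw [this, mul_zero]
    have : 0 ≤ uR F 0 s 0 := RI_nonneg F (le_refl 0) _ _ _ (fun _ => zero_le_one)
    positivity
  have hu0 := uR_zero_pos F hF hs
  obtain ⟨C1, hC1, hupper⟩ := uR_upper F hd hs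
  -- inequality for each T
  have hT : ∀ T : ℝ, 0 < T → (s + 1) ^ 2 * DR F 0 s 0 / uR F 0 s 0
      * Real.log (Real.cosh (2 * T)) ≤ Real.log C1 + (s + 1) * d * Real.log (Real.cosh (2 * T))
        - Real.log (uR F 0 s 0) := by
    intro T hTpos
    have hcont : ContinuousOn (DR F 1 s) (Set.Icc 0 T) := fun τ _ =>
      (hasDerivAt_DR F one_pos s τ).continuousAt.continuousWithinAt
    obtain ⟨K, hK⟩ := isCompact_Icc.exists_bound_of_continuousOn hcont
    have hKnn : 0 ≤ K := (norm_nonneg _).trans (hK 0 ⟨le_refl 0, hTpos.le⟩)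
    have hρT : 1 ≤ Real.cosh (2 * T) := Real.one_le_cosh _
    have hlog : 0 ≤ Real.log (Real.cosh (2 * T)) := Real.log_nonneg hρT
    set κ : ℝ → ℝ := fun ε => s * (ε + ε ^ s) with hκ
    set δ : ℝ → ℝ := fun ε => (s + 1) * (κ ε * K) / uR F 0 s 0 with hδ
    have hineq : ∀ ε : ℝ, 0 < ε → ε ≤ 1 →
        (s + 1) ^ 2 * DR F 0 s 0 / uR F ε s 0 *
          Real.exp (-(δ ε) * (Real.cosh (2 * T) - 1)) * Real.log (Real.cosh (2 * T))
          - δ ε * (Real.cosh (2 * T) - 1) ≤
          Real.log C1 + (s + 1) * d * Real.log (Real.cosh (2 * T))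
          - Real.log (uR F 0 s 0) := by
      intro ε hε hε1
      have hεs : 0 ≤ ε ^ s := Real.rpow_nonneg hε.le s
      have hκnn : 0 ≤ κ ε := by simp only [hκ]; positivity
      have hδnn : 0 ≤ δ ε := by simp only [hδ]; positivity
      have huε := uR_pos F hε hs
      have hode := ode_lemma (uR F ε s) (DR F ε s) (U1R F ε s) (D1R F ε s) s (δ ε) T hs
        hTpos.le hδnn (hasDerivAt_uR F hε s) (hasDerivAt_DR F hε s) huε
        (DR_nonneg F hε.le s) (U1R_nonneg F hε hs) (main_ineq F hε hs) ?_ ?_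
      · have hup := hupper ε T hε hε1
        have hlogup : Real.log (uR F ε s T) ≤ Real.log C1
            + (s + 1) * d * Real.log (Real.cosh (2 * T)) := by
          calc Real.log (uR F ε s T) ≤ Real.log (C1 * Real.cosh (2 * T) ^ ((s + 1) * d)) :=
                Real.log_le_log (huε T) hup
            _ = Real.log C1 + (s + 1) * d * Real.log (Real.cosh (2 * T)) := by
                rw [Real.log_mul hC1.ne' (Real.rpow_pos_of_pos (by linarith) _).ne',
                  Real.log_rpow (by linarith)]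
        have hlog0 : Real.log (uR F 0 s 0) ≤ Real.log (uR F ε s 0) :=
          Real.log_le_log hu0 (uR_mono_eps F (le_refl 0) hε.le hs 0)
        have hDD : (s + 1) ^ 2 * DR F 0 s 0 / uR F ε s 0
            ≤ (s + 1) ^ 2 * DR F ε s 0 / uR F ε s 0 := by
          have h1 := DR_mono_eps F (le_refl 0) hε.le hs 0
          have h2 := huε 0
          gcongr
        have hexp := Real.exp_pos (-(δ ε) * (Real.cosh (2 * T) - 1))
        have h3 : (s + 1) ^ 2 * DR F 0 s 0 / uR F ε s 0 *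
            Real.exp (-(δ ε) * (Real.cosh (2 * T) - 1)) * Real.log (Real.cosh (2 * T))
            ≤ (s + 1) ^ 2 * DR F ε s 0 / uR F ε s 0 *
            Real.exp (-(δ ε) * (Real.cosh (2 * T) - 1)) * Real.log (Real.cosh (2 * T)) := by
          gcongr
        linarith
      · intro τ
        have h1 := e1_formula F hε s τ
        have h2 := RI_nonneg F hε.le (s - 1) τ (gs F) (gs_nonneg F)
        have h3 : 0 ≤ (s + 1) * (s * ε) * RI F ε (s - 1) τ (gs F) := by positivity
        linarith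
      · intro τ hτ
        rw [e1_formula F hε s τ]
        have h1 := err_int F hε hε1 hs τ
        have h2 : DR F 1 s τ ≤ K := (le_abs_self _).trans (hK τ hτ)
        have h3 : uR F 0 s 0 ≤ uR F ε s τ :=
          (uR_mono_eps F (le_refl 0) hε.le hs 0).trans (uR_mono_tau F hε hs hτ.1)
        calc (s + 1) * (s * ε) * RI F ε (s - 1) τ (gs F)
            = (s + 1) * ((s * ε) * RI F ε (s - 1) τ (gs F)) := by ring
          _ ≤ (s + 1) * (κ ε * DR F 1 s τ) := by
              have : (0:ℝ) ≤ s + 1 := by linarith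
              exact mul_le_mul_of_nonneg_left h1 this
          _ ≤ (s + 1) * (κ ε * K) := by gcongr
          _ = δ ε * uR F 0 s 0 := by simp only [hδ]; field_simp
          _ ≤ δ ε * uR F ε s τ := by gcongr
    -- limit ε → 0
    have hκlim : Filter.Tendsto (fun k : ℕ => κ (1 / ((k : ℝ) + 1))) Filter.atTop (nhds 0) := by
      rcases eq_or_lt_of_le hs with h0 | hpos
      · simp only [hκ, ← h0, zero_mul]
        exact tendsto_const_nhds
      · have h1 : Filter.Tendsto (fun k : ℕ => (1 / ((k : ℝ) + 1))) Filter.atTop (nhds (0:ℝ)) :=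
          tendsto_one_div_add_atTop_nhds_zero_nat
        have h2 := h1.rpow_const (Or.inr hpos.le : (0:ℝ) ≠ 0 ∨ 0 ≤ s)
        rw [Real.zero_rpow hpos.ne'] at h2
        have h3 := (h1.add h2).const_mul s
        simpa [hκ] using h3
    have hδlim : Filter.Tendsto (fun k : ℕ => δ (1 / ((k : ℝ) + 1))) Filter.atTop (nhds 0) := by
      have := ((hκlim.mul_const K).const_mul (s + 1)).div_const (uR F 0 s 0)
      simpa [hδ] using this
    have hulim := uR_tendsto F hs
    have hL : Filter.Tendsto (fun k : ℕ => (s + 1) ^ 2 * DR F 0 s 0 / uR F (1 / ((k : ℝ) + 1)) s 0 *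
          Real.exp (-(δ (1 / ((k : ℝ) + 1))) * (Real.cosh (2 * T) - 1))
          * Real.log (Real.cosh (2 * T))
          - δ (1 / ((k : ℝ) + 1)) * (Real.cosh (2 * T) - 1)) Filter.atTop
        (nhds ((s + 1) ^ 2 * DR F 0 s 0 / uR F 0 s 0 *
          Real.exp (-0 * (Real.cosh (2 * T) - 1))
          * Real.log (Real.cosh (2 * T)) - 0 * (Real.cosh (2 * T) - 1))) := by
      refine Filter.Tendsto.sub ?_ (hδlim.mul_const _)
      refine Filter.Tendsto.mul_const _ ?_
      refine Filter.Tendsto.mul (Filter.Tendsto.div tendsto_const_nhds hulim hu0.ne') ?_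
      exact (Real.continuous_exp.tendsto _).comp ((hδlim.neg).mul_const _)
    have hfin := le_of_tendsto' hL (fun k => hineq (1 / ((k : ℝ) + 1)) (by positivity) (by
      rw [div_le_one (by positivity)]
      have : (0:ℝ) ≤ k := Nat.cast_nonneg k
      linarith))
    simpa using hfin
  -- limit T → ∞
  set a : ℝ := (s + 1) ^ 2 * DR F 0 s 0 / uR F 0 s 0 with ha
  have hle : a ≤ (s + 1) * d := by
    by_contra hcon
    push Not at hcon
    set B : ℝ := Real.log C1 - Real.log (uR F 0 s 0) with hB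
    -- choose T with (a - (s+1)d) log cosh 2T > B
    have hgap : 0 < a - (s + 1) * d := by linarith
    set L : ℝ := (|B| + 1) / (a - (s + 1) * d) with hLdef
    have hLpos : 0 < L := by positivity
    -- cosh (2 T) ≥ exp(2T)/2, choose T = L + 1
    have hlogT : L ≤ Real.log (Real.cosh (2 * (L + 1))) := by
      have h1 : Real.exp L ≤ Real.cosh (2 * (L + 1)) := by
        rw [Real.cosh_eq]
        have h2 : Real.exp (2 * (L + 1)) = Real.exp L * Real.exp (L + 2) := by
          rw [← Real.exp_add]; ring_nf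
        have h3 : (2:ℝ) ≤ Real.exp (L + 2) := by
          have := Real.add_one_le_exp (L + 2)
          linarith
        have h4 := Real.exp_pos L
        have h5 := Real.exp_pos (-(2 * (L + 1)))
        nlinarith
      calc L = Real.log (Real.exp L) := (Real.log_exp L).symm
        _ ≤ _ := Real.log_le_log (Real.exp_pos L) h1
    have h := hT (L + 1) (by linarith)
    have h2 : (a - (s + 1) * d) * Real.log (Real.cosh (2 * (L + 1))) ≤ B := by
      simp only [hB]
      linarith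
    have h3 : (a - (s + 1) * d) * L ≤ (a - (s + 1) * d) * Real.log (Real.cosh (2 * (L + 1))) := by
      gcongr
    have h4 : (a - (s + 1) * d) * L = |B| + 1 := by
      simp only [hLdef]; field_simp
    have h5 := le_abs_self B
    linarith
  rw [ha, div_le_iff₀ hu0] at hle
  have hs1 : 0 < s + 1 := by linarith
  have : (s + 1) * ((s + 1) * DR F 0 s 0) ≤ (s + 1) * (d * uR F 0 s 0) := by
    calc (s + 1) * ((s + 1) * DR F 0 s 0) = (s + 1) ^ 2 * DR F 0 s 0 := by ring
      _ ≤ (s + 1) * d * uR F 0 s 0 := hle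
      _ = _ := by ring
  exact le_of_mul_le_mul_left this hs1

end H88BM
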