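import Mathlib
import Pool.Agent.H88.BMEnergy

/-!
Bernstein-Markov inequality for Gaussian space, part 10: conversion to the Gaussian measure.
-/

set_option linter.unusedVariables false
set_option linter.unusedTactic false
set_option linter.unusedSimpArgs false

namespace H88BM

open MvPolynomial MeasureTheory ProbabilityTheory

variable {n : ℕ}

/-- the standard Gaussian measure on `Fin n → ℝ` -/
noncomputable abbrev gam (n : ℕ) : Measure (Fin n → ℝ) := Measure.pi fun _ => gaussianReal 0 1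

/-- density of the standard Gaussian measure -/
noncomputable def dens (x : Fin n → ℝ) : ℝ := ∏ i, gaussianPDFReal 0 1 (x i)

lemma dens_pos (x : Fin n → ℝ) : 0 < dens x :=
  Finset.prod_pos fun i _ => gaussianPDFReal_pos 0 1 (x i) one_ne_zero

lemma measurable_dens : Measurable (dens : (Fin n → ℝ) → ℝ) := by
  unfold dens
  exact Finset.measurable_fun_prod _ fun i _ =>
    (measurable_gaussianPDFReal 0 1).comp (measurable_pi_apply i)

lemma gam_eq (n : ℕ) :
    gam n = (volume : Measure (Fin n → ℝ)).withDensity (fun x => ENNReal.ofReal (dens x)) := by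
  classical
  refine Measure.pi_eq fun s hs => ?_
  rw [withDensity_apply _ (MeasurableSet.univ_pi hs), ← lintegral_indicator (MeasurableSet.univ_pi hs)]
  have e : (Set.univ.pi s).indicator (fun x : Fin n → ℝ => ENNReal.ofReal (dens x))
      = fun x => ENNReal.ofReal (∏ i, (s i).indicator (gaussianPDFReal 0 1) (x i)) := by
    funext x
    by_cases hx : x ∈ Set.univ.pi s
    · rw [Set.indicator_of_mem hx]
      unfold dens
      congr 1
      refine Finset.prod_congr rfl fun i _ => ?_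
      rw [Set.indicator_of_mem (hx i (Set.mem_univ i))]
    · rw [Set.indicator_of_notMem hx]
      rw [Set.mem_univ_pi] at hx
      push Not at hx
      obtain ⟨i, hi⟩ := hx
      rw [Finset.prod_eq_zero (Finset.mem_univ i)]
      · simp
      · rw [Set.indicator_of_notMem hi]
  rw [e, ← ofReal_integral_eq_lintegral_ofReal]
  · rw [integral_fintype_prod_volume_eq_prod (𝕜 := ℝ)
      (fun i => (s i).indicator (gaussianPDFReal 0 1)), ENNReal.ofReal_prod_of_nonneg]
    · refine Finset.prod_congr rfl fun i _ => ?_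
      rw [integral_indicator (hs i), gaussianReal_apply_eq_integral 0 one_ne_zero]
    · intro i _
      refine integral_nonneg fun x => ?_
      exact Set.indicator_nonneg (fun x _ => gaussianPDFReal_nonneg 0 1 x) x
  · exact Integrable.fintype_prod (f := fun i => (s i).indicator (gaussianPDFReal 0 1))
      fun i => (integrable_gaussianPDFReal 0 1).indicator (hs i)
  · refine Filter.Eventually.of_forall fun x => ?_
    exact Finset.prod_nonneg fun i _ => Set.indicator_nonneg
      (fun x _ => gaussianPDFReal_nonneg 0 1 x) _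

/-- one-sided weight -/
noncomputable def w1 (x : Fin n → ℝ) : ℝ := Real.exp (-(∑ j, (x j) ^ 2) / 2)

lemma wt_eq (v : VV n) : wt v = w1 v.1 * w1 v.2 := by
  unfold wt w1
  rw [← Real.exp_add]
  congr 1; ring

lemma dens_eq (x : Fin n → ℝ) : dens x = ((Real.sqrt (2 * Real.pi))⁻¹) ^ n * w1 x := by
  unfold dens w1
  simp only [gaussianPDFReal, NNReal.coe_one, mul_one, sub_zero]
  rw [Finset.prod_mul_distrib, Finset.prod_const, Finset.card_univ, Fintype.card_fin,
    ← Real.exp_sum]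
  congr 2
  rw [neg_div, Finset.sum_div, ← Finset.sum_neg_distrib]
  refine Finset.sum_congr rfl fun i _ => ?_
  ring

/-- the normalisation constant -/
noncomputable def cG (n : ℕ) : ℝ := (Real.sqrt (2 * Real.pi)) ^ n * ∫ y : Fin n → ℝ, w1 y

lemma integral_conv {E : Type*} [NormedAddCommGroup E] [NormedSpace ℝ E]
    (g : (Fin n → ℝ) → E) : ∫ x, g x ∂(gam n) = ((Real.sqrt (2 * Real.pi))⁻¹) ^ n •
      ∫ x, w1 x • g x := by
  rw [gam_eq, integral_withDensity_eq_integral_toReal_smul (by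
    exact measurable_dens.ennreal_ofReal) (by simp)]
  rw [← integral_smul]
  congr 1; funext x
  rw [ENNReal.toReal_ofReal (dens_pos x).le, dens_eq, mul_smul]

lemma int_conv (g : (Fin n → ℝ) → ℂ) :
    ∫ v : VV n, (wt v : ℂ) * g v.1 = (cG n : ℂ) * ∫ x, g x ∂(gam n) := by
  have e : (fun v : VV n => (wt v : ℂ) * g v.1)
      = fun v : VV n => ((w1 v.1 : ℂ) * g v.1) * (w1 v.2 : ℂ) := by
    funext v
    rw [wt_eq]; push_cast; ring
  rw [e]
  have h := integral_prod_mul (μ := (volume : Measure (Fin n → ℝ)))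
    (ν := (volume : Measure (Fin n → ℝ))) (L := ℂ) (fun x => (w1 x : ℂ) * g x)
    (fun y => (w1 y : ℂ))
  rw [Measure.volume_eq_prod, h, integral_conv]
  rw [integral_complex_ofReal]
  have hs : (Real.sqrt (2 * Real.pi)) ≠ 0 := by positivity
  have e2 : (∫ x : Fin n → ℝ, w1 x • g x) = ∫ x : Fin n → ℝ, (w1 x : ℂ) * g x := by
    simp only [Complex.real_smul]
  rw [e2, Complex.real_smul]
  unfold cG
  push_cast
  have hs' : ((Real.sqrt (2 * Real.pi) : ℝ) : ℂ) ≠ 0 := by exact_mod_cast hs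
  have hs2 : ((Real.sqrt (2 * Real.pi) : ℝ) : ℂ) ^ n *
      (((Real.sqrt (2 * Real.pi) : ℝ) : ℂ)⁻¹) ^ n = 1 := by
    rw [← mul_pow, mul_inv_cancel₀ hs', one_pow]
  linear_combination -((∫ x : Fin n → ℝ, (w1 x : ℂ) * g x) *
    ((∫ x : Fin n → ℝ, w1 x : ℝ) : ℂ)) * hs2

lemma cG_pos (n : ℕ) : 0 < cG n := by
  have h := int_wt_pos n
  have h2 : (∫ v : VV n, wt v) = (∫ x : Fin n → ℝ, w1 x) * ∫ y : Fin n → ℝ, w1 y := by
    have e : (fun v : VV n => wt v) = fun v : VV n => w1 v.1 * w1 v.2 := by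
      funext v; exact wt_eq v
    rw [e, Measure.volume_eq_prod]
    exact integral_prod_mul (L := ℝ) _ _
  rw [h2] at h
  have hnn : 0 ≤ ∫ y : Fin n → ℝ, w1 y := integral_nonneg fun y => (Real.exp_pos _).le
  have hpos : 0 < ∫ y : Fin n → ℝ, w1 y := by
    rcases eq_or_lt_of_le hnn with h0 | h0
    · rw [← h0] at h; simp at h
    · exact h0
  unfold cG
  have : 0 < Real.sqrt (2 * Real.pi) := by positivity
  positivity

/-- evaluation of a complex polynomial at a real point -/
noncomputable def evr (x : Fin n → ℝ) (F : MvPolynomial (Fin n) ℂ) : ℂ :=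
  eval (fun j => (x j : ℂ)) F

lemma uR_conv (F : MvPolynomial (Fin n) ℂ) (s : ℝ) :
    uR F 0 s 0 = cG n * ∫ x, (‖evr x F‖ ^ 2) ^ (s + 1) ∂(gam n) := by
  have h := int_conv (n := n) (fun x => (((‖evr x F‖ ^ 2) ^ (s + 1) : ℝ) : ℂ))
  rw [integral_complex_ofReal] at h
  have e : (∫ v : VV n, (wt v : ℂ) * (((‖evr v.1 F‖ ^ 2) ^ (s + 1) : ℝ) : ℂ))
      = ((uR F 0 s 0 : ℝ) : ℂ) := by
    unfold uR RI
    rw [← integral_complex_ofReal]
    congr 1; funext v
    rw [zeta_zero]
    unfold Ar evr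
    push_cast
    simp
  rw [e] at h
  exact_mod_cast h

lemma DR_conv (F : MvPolynomial (Fin n) ℂ) (s : ℝ) :
    DR F 0 s 0 = cG n * ∫ x, (‖evr x F‖ ^ 2) ^ s * ∑ j, ‖evr x (pderiv j F)‖ ^ 2 ∂(gam n) := by
  have h := int_conv (n := n) (fun x => (((‖evr x F‖ ^ 2) ^ s
    * ∑ j, ‖evr x (pderiv j F)‖ ^ 2 : ℝ) : ℂ))
  rw [integral_complex_ofReal] at h
  have e : (∫ v : VV n, (wt v : ℂ) * (((‖evr v.1 F‖ ^ 2) ^ s
    * ∑ j, ‖evr v.1 (pderiv j F)‖ ^ 2 : ℝ) : ℂ))
      = ((DR F 0 s 0 : ℝ) : ℂ) := by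
    unfold DR RI
    rw [← integral_complex_ofReal]
    congr 1; funext v
    rw [zeta_zero]
    unfold Ar evr gs
    push_cast
    simp
  rw [e] at h
  exact_mod_cast h

/-- The energy inequality for the Gaussian measure. -/
theorem energy_gauss (F : MvPolynomial (Fin n) ℂ) {d : ℕ} (hd : F.totalDegree ≤ d) {s : ℝ}
    (hs : 0 ≤ s) :
    (s + 1) * ∫ x, (‖evr x F‖ ^ 2) ^ s * ∑ j, ‖evr x (pderiv j F)‖ ^ 2 ∂(gam n)
      ≤ d * ∫ x, (‖evr x F‖ ^ 2) ^ (s + 1) ∂(gam n) := by
  have h := energy F hd hs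
  rw [uR_conv, DR_conv] at h
  have hc := cG_pos n
  have h2 : cG n * ((s + 1) * ∫ x, (‖evr x F‖ ^ 2) ^ s * ∑ j, ‖evr x (pderiv j F)‖ ^ 2 ∂(gam n))
      ≤ cG n * (d * ∫ x, (‖evr x F‖ ^ 2) ^ (s + 1) ∂(gam n)) := by linarith
  exact le_of_mul_le_mul_left h2 hc

end H88BM
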