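import Mathlib
import Pool.Agent.H88.BMGauss

/-!
Bernstein-Markov inequality for Gaussian space, part 11: the numerical range bound.
-/

set_option linter.unusedVariables false
set_option linter.unusedTactic false
set_option linter.unusedSimpArgs false

namespace H88BM

open MvPolynomial MeasureTheory ProbabilityTheory

variable {n : ℕ}

/-- the Ornstein-Uhlenbeck operator on complex polynomials -/
noncomputable def NN (F : MvPolynomial (Fin n) ℂ) : MvPolynomial (Fin n) ℂ :=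
  ∑ j, (pderiv j (pderiv j F) - X j * pderiv j F)

lemma hol_sum {ι : Type*} (s : Finset ι) (P : ι → MvPolynomial (Fin n) ℂ) :
    hol (∑ i ∈ s, P i) = ∑ i ∈ s, hol (P i) := by
  unfold hol; rw [map_sum]

lemma hol_sub (P Q : MvPolynomial (Fin n) ℂ) : hol (P - Q) = hol P - hol Q := by
  unfold hol; rw [map_sub]

lemma hol_X_mul (j : Fin n) (Q : MvPolynomial (Fin n) ℂ) :
    hol (X j * Q) = X (Sum.inl j) * hol Q := by
  unfold hol; rw [map_mul, rename_X]

/-- integration by parts for the numerical range -/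
lemma EE_NN (F : MvPolynomial (Fin n) ℂ) {ε : ℝ} (hε : 0 < ε) (s : ℝ) :
    EE F ε s 0 (anti F * hol (NN F)) = EE F ε (s - 1) 0
      (- (C (s : ℂ) * anti F ^ 2 * ∑ j, hol (pderiv j F) ^ 2
        + gradsq F * (C (s : ℂ) * (hol F * anti F) + AA F ε))) := by
  have e0 : anti F * hol (NN F) = ∑ j, (anti F * hol (pderiv j (pderiv j F))
      - X (Sum.inl j) * (anti F * hol (pderiv j F))) := by
    unfold NN
    rw [hol_sum, Finset.mul_sum]
    refine Finset.sum_congr rfl fun j _ => ?_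
    rw [hol_sub, hol_X_mul]; ring
  have e1 : (- (C (s : ℂ) * anti F ^ 2 * ∑ j, hol (pderiv j F) ^ 2
        + gradsq F * (C (s : ℂ) * (hol F * anti F) + AA F ε)))
      = ∑ j, (- (C (s : ℂ) * anti F ^ 2 * hol (pderiv j F) ^ 2
        + hol (pderiv j F) * anti (pderiv j F) * (C (s : ℂ) * (hol F * anti F) + AA F ε))) := by
    unfold gradsq
    rw [Finset.mul_sum, Finset.sum_mul, ← Finset.sum_add_distrib, ← Finset.sum_neg_distrib]
  rw [e0, e1, EE_sum F hε, EE_sum F hε]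
  refine Finset.sum_congr rfl fun j _ => ?_
  rw [EE_sub F hε, EE_I1 F hε]
  have e2 : EE F ε s 0 (anti F * hol (pderiv j (pderiv j F)))
      = EE F ε (s - 1) 0 (AA F ε * (anti F * hol (pderiv j (pderiv j F)))) := by
    rw [EE_AA F hε]; congr 1; ring
  rw [e2, mul_zero, Real.cosh_zero, Complex.ofReal_one, one_mul, ← EE_add F hε, ← EE_sub F hε]
  congr 1
  unfold Lh La
  simp only [Derivation.leibniz, smul_eq_mul, pderiv_inl_AA, pderiv_inr_AA, pderiv_inl_hol,
    pderiv_inl_anti, pderiv_inr_hol, pderiv_inr_anti]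
  ring

lemma norm_EE_le (F : MvPolynomial (Fin n) ℂ) {ε : ℝ} (hε : 0 < ε) (r τ : ℝ) (P Q : RR n)
    (q : (Fin n → ℂ) → ℝ) (hq : ∀ z, ev z Q = (q z : ℂ)) (h : ∀ z, ‖ev z P‖ ≤ q z) :
    ‖EE F ε r τ P‖ ≤ RI F ε r τ q := by
  unfold EE RI
  refine (norm_integral_le_integral_norm _).trans ?_
  refine integral_mono (integrable_Phi F hε r P τ).norm (integrable_real F hε r τ Q q hq)
    fun v => ?_
  have hw := wt_pos v
  have hA := Ar_pos F hε (zeta τ v)
  have h1 := Real.rpow_nonneg hA.le r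
  simp only
  rw [norm_mul, Complex.norm_real, Real.norm_of_nonneg hw.le]
  unfold Phi
  rw [norm_mul, Complex.norm_real, Real.norm_of_nonneg h1]
  gcongr
  exact h _

lemma NN_bound_eps (F : MvPolynomial (Fin n) ℂ) {ε : ℝ} (hε : 0 < ε) {s : ℝ} (hs : 0 ≤ s) :
    ‖EE F ε s 0 (anti F * hol (NN F))‖ ≤ (2 * s + 1) * DR F ε s 0 := by
  rw [EE_NN F hε]
  have hQ : ∀ z, ev z (C ((2 * s + 1 : ℝ) : ℂ) * (AA F ε * gradsq F))
      = (((2 * s + 1) * (Ar F ε z * gs F z) : ℝ) : ℂ) := by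
    intro z
    rw [ev_mul, ev_C, ev_mul, ev_AA, ev_gradsq]
    push_cast; ring
  have h1 := norm_EE_le F hε (s - 1) 0
    (- (C (s : ℂ) * anti F ^ 2 * ∑ j, hol (pderiv j F) ^ 2
        + gradsq F * (C (s : ℂ) * (hol F * anti F) + AA F ε))) _ _ hQ (fun z => by
      have e : ev z (- (C (s : ℂ) * anti F ^ 2 * ∑ j, hol (pderiv j F) ^ 2
        + gradsq F * (C (s : ℂ) * (hol F * anti F) + AA F ε)))
        = -((s : ℂ) * ((starRingEnd ℂ) (eval z F)) ^ 2 * ∑ j, (eval z (pderiv j F)) ^ 2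
          + ((gs F z * (s * ‖eval z F‖ ^ 2 + Ar F ε z) : ℝ) : ℂ)) := by
        have en : ∀ P : RR n, ev z (-P) = - ev z P := fun P => by simp [ev]
        have ep : ∀ P : RR n, ev z (P ^ 2) = ev z P ^ 2 := fun P => by simp [ev]
        rw [en, ev_add, ev_mul, ev_mul, ev_C, ep, ev_anti, ev_sum, ev_mul, ev_gradsq, ev_add,
          ev_mul, ev_C, ev_hol_mul_anti, ev_AA]
        simp_rw [ep, ev_hol]
        push_cast
        ring
      rw [e, norm_neg]
      have hgs := gs_nonneg F z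
      have hA := Ar_pos F hε z
      have hfA : ‖eval z F‖ ^ 2 ≤ Ar F ε z := by unfold Ar; linarith
      have h2 : ‖(s : ℂ) * ((starRingEnd ℂ) (eval z F)) ^ 2 * ∑ j, (eval z (pderiv j F)) ^ 2‖
          ≤ s * ‖eval z F‖ ^ 2 * gs F z := by
        rw [norm_mul, norm_mul, norm_pow, RCLike.norm_conj, Complex.norm_real,
          Real.norm_of_nonneg hs]
        have : ‖∑ j, (eval z (pderiv j F)) ^ 2‖ ≤ gs F z := by
          unfold gs
          refine (norm_sum_le _ _).trans (le_of_eq ?_)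
          refine Finset.sum_congr rfl fun j _ => ?_
          rw [norm_pow]
        gcongr
      have h3 : ‖((gs F z * (s * ‖eval z F‖ ^ 2 + Ar F ε z) : ℝ) : ℂ)‖
          = gs F z * (s * ‖eval z F‖ ^ 2 + Ar F ε z) := by
        rw [Complex.norm_real, Real.norm_of_nonneg (by positivity)]
      calc _ ≤ s * ‖eval z F‖ ^ 2 * gs F z + gs F z * (s * ‖eval z F‖ ^ 2 + Ar F ε z) :=
            (norm_add_le _ _).trans (add_le_add h2 h3.le)
        _ = (2 * s * ‖eval z F‖ ^ 2 + Ar F ε z) * gs F z := by ring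
        _ ≤ (2 * s * Ar F ε z + Ar F ε z) * gs F z := by gcongr
        _ = _ := by ring)
  refine h1.trans (le_of_eq ?_)
  have h2 : EE F ε (s - 1) 0 (C ((2 * s + 1 : ℝ) : ℂ) * (AA F ε * gradsq F))
      = ((RI F ε (s - 1) 0 (fun z => (2 * s + 1) * (Ar F ε z * gs F z)) : ℝ) : ℂ) :=
    EE_real F ε (s - 1) 0 _ _ hQ
  rw [EE_Cmul, EE_AA F hε, sub_add_cancel, EE_D] at h2
  have h3 : (2 * s + 1) * DR F ε s 0
      = RI F ε (s - 1) 0 (fun z => (2 * s + 1) * (Ar F ε z * gs F z)) := by exact_mod_cast h2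
  exact h3.symm

lemma EE_tendsto (F : MvPolynomial (Fin n) ℂ) {s : ℝ} (hs : 0 ≤ s) (P : RR n) :
    Filter.Tendsto (fun k : ℕ => EE F (1 / ((k : ℝ) + 1)) s 0 P) Filter.atTop
      (nhds (EE F 0 s 0 P)) := by
  unfold EE
  refine tendsto_integral_of_dominated_convergence
    (fun v : VV n => ‖(wt v : ℂ) * Phi F 1 s P (zeta 0 v)‖) ?_
    (integrable_Phi F one_pos s P 0).norm ?_ ?_
  · intro k
    have hk : 0 < 1 / ((k : ℝ) + 1) := by positivity
    exact (integrable_Phi F hk s P 0).aestronglyMeasurable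
  · intro k
    refine Filter.Eventually.of_forall fun v => ?_
    have hk : 0 < 1 / ((k : ℝ) + 1) := by positivity
    have hk1 : 1 / ((k : ℝ) + 1) ≤ 1 := by
      rw [div_le_one (by positivity)]
      have : (0:ℝ) ≤ k := Nat.cast_nonneg k
      linarith
    rw [norm_mul, norm_mul]
    unfold Phi
    rw [norm_mul, norm_mul, Complex.norm_real ((Ar F (1 / ((k : ℝ) + 1)) (zeta 0 v)) ^ s),
      Complex.norm_real ((Ar F 1 (zeta 0 v)) ^ s),
      Real.norm_of_nonneg (Real.rpow_nonneg (Ar_pos F hk _).le _),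
      Real.norm_of_nonneg (Real.rpow_nonneg (Ar_pos F one_pos _).le _)]
    have : Ar F (1 / ((k : ℝ) + 1)) (zeta 0 v) ^ s ≤ Ar F 1 (zeta 0 v) ^ s :=
      Real.rpow_le_rpow (Ar_pos F hk _).le (Ar_mono F hk1 _) hs
    gcongr
  · refine Filter.Eventually.of_forall fun v => ?_
    unfold Phi
    refine Filter.Tendsto.const_mul _ (Filter.Tendsto.mul_const _ ?_)
    have hA : Filter.Tendsto (fun k : ℕ => Ar F (1 / ((k : ℝ) + 1)) (zeta 0 v)) Filter.atTop
        (nhds (Ar F 0 (zeta 0 v))) := by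
      unfold Ar
      exact tendsto_const_nhds.add tendsto_one_div_add_atTop_nhds_zero_nat
    exact (Complex.continuous_ofReal.tendsto _).comp (hA.rpow_const (Or.inr hs))

lemma NN_bound (F : MvPolynomial (Fin n) ℂ) {s : ℝ} (hs : 0 ≤ s) :
    ‖EE F 0 s 0 (anti F * hol (NN F))‖ ≤ (2 * s + 1) * DR F 0 s 0 := by
  have h1 := (EE_tendsto F hs (anti F * hol (NN F))).norm
  have h2 : Filter.Tendsto (fun k : ℕ => (2 * s + 1) * DR F (1 / ((k : ℝ) + 1)) s 0)
      Filter.atTop (nhds ((2 * s + 1) * DR F 0 s 0)) := by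
    refine Filter.Tendsto.const_mul _ ?_
    have h3 := EE_tendsto F hs (gradsq F)
    simp_rw [EE_D] at h3
    have h4 := (Complex.continuous_re.tendsto _).comp h3
    simpa [Function.comp_def] using h4
  exact le_of_tendsto_of_tendsto' h1 h2 fun k => NN_bound_eps F (by positivity) hs

lemma EE_conv (F : MvPolynomial (Fin n) ℂ) (s : ℝ) (P : RR n) :
    EE F 0 s 0 P = (cG n : ℂ) * ∫ x, (((‖evr x F‖ ^ 2) ^ s : ℝ) : ℂ)
      * ev (fun j => (x j : ℂ)) P ∂(gam n) := by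
  rw [← int_conv]
  unfold EE
  congr 1; funext v
  unfold Phi Ar
  rw [zeta_zero, add_zero]
  rfl

/-- **Numerical range bound.** -/
theorem numrange (F : MvPolynomial (Fin n) ℂ) {d : ℕ} (hd : F.totalDegree ≤ d) {p : ℝ}
    (hp : 2 ≤ p) :
    ‖∫ x, ((‖evr x F‖ ^ (p - 2) : ℝ) : ℂ) * (starRingEnd ℂ) (evr x F) * evr x (NN F) ∂(gam n)‖
      ≤ (2 * (p - 1) / p * d) * ∫ x, ‖evr x F‖ ^ p ∂(gam n) := by
  set s : ℝ := (p - 2) / 2 with hsdef
  have hs : 0 ≤ s := by rw [hsdef]; linarith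
  have hc := cG_pos n
  have h1 := NN_bound F hs
  have h2 := energy F hd hs
  have hs1 : 0 < s + 1 := by linarith
  have h3 : ‖EE F 0 s 0 (anti F * hol (NN F))‖ ≤ (2 * s + 1) * (d * uR F 0 s 0 / (s + 1)) := by
    refine h1.trans ?_
    have : DR F 0 s 0 ≤ d * uR F 0 s 0 / (s + 1) := by
      rw [le_div_iff₀ hs1]; linarith
    gcongr
  rw [EE_conv, norm_mul, Complex.norm_real, Real.norm_of_nonneg hc.le, uR_conv] at h3
  have e1 : ∀ x : Fin n → ℝ, (‖evr x F‖ ^ 2) ^ s = ‖evr x F‖ ^ (p - 2) := by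
    intro x
    rw [← Real.rpow_natCast, ← Real.rpow_mul (norm_nonneg _)]
    congr 1
    rw [hsdef]; push_cast; ring
  have e2 : ∀ x : Fin n → ℝ, (‖evr x F‖ ^ 2) ^ (s + 1) = ‖evr x F‖ ^ p := by
    intro x
    rw [← Real.rpow_natCast, ← Real.rpow_mul (norm_nonneg _)]
    congr 1
    rw [hsdef]; push_cast; ring
  have e3 : ∀ x : Fin n → ℝ, ev (fun j => (x j : ℂ)) (anti F * hol (NN F))
      = (starRingEnd ℂ) (evr x F) * evr x (NN F) := by
    intro x
    rw [ev_mul, ev_anti, ev_hol]; rfl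
  simp_rw [e1, e2, e3, ← mul_assoc] at h3
  have h4 : cG n * ‖∫ x, ((‖evr x F‖ ^ (p - 2) : ℝ) : ℂ) * (starRingEnd ℂ) (evr x F)
      * evr x (NN F) ∂(gam n)‖ ≤ cG n * ((2 * (p - 1) / p * d)
        * ∫ x, ‖evr x F‖ ^ p ∂(gam n)) := by
    refine h3.trans (le_of_eq ?_)
    have hp0 : p ≠ 0 := by linarith
    have hs2 : s + 1 = p / 2 := by rw [hsdef]; ring
    have hs3 : 2 * s + 1 = p - 1 := by rw [hsdef]; ring
    rw [hs2, hs3]
    field_simp
  exact le_of_mul_le_mul_left h4 hc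

end H88BM
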