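import Mathlib
import Pool.Agent.H88.BMNum
import Pool.Agent.H93.NumRange

/-!
Bernstein-Markov inequality for Gaussian space, part 12: the norm bound.
-/

set_option linter.unusedVariables false
set_option linter.unusedTactic false
set_option linter.unusedSimpArgs false

namespace H88BM

open MvPolynomial MeasureTheory ProbabilityTheory

variable {n : ℕ}

/-! ### integrability of polynomials -/

lemma w1_eq_wt (x : Fin n → ℝ) : w1 x = wt ((x, 0) : VV n) := by
  unfold w1 wt
  simp

lemma integrable_w1_pow (k : ℕ) :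
    Integrable (fun x : Fin n → ℝ => w1 x * (1 + ‖x‖) ^ k) := by
  have hfin : (Module.finrank ℝ (Fin n → ℝ) : ℝ) < ((n + 1 : ℕ) : ℝ) := by
    rw [Module.finrank_fin_fun]
    push_cast
    linarith
  obtain ⟨C, hC, h⟩ := wt_decay (n := n) (k + (n + 1))
  have hI := (integrable_one_add_norm (μ := (volume : Measure (Fin n → ℝ))) hfin).const_mul C
  refine hI.mono' ?_ ?_
  · refine Continuous.aestronglyMeasurable ?_
    unfold w1
    fun_prop
  · refine Filter.Eventually.of_forall fun x => ?_
    have hb : 0 < 1 + ‖x‖ := by have := norm_nonneg x; linarith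
    have hw : 0 < w1 x := Real.exp_pos _
    rw [Real.norm_of_nonneg (by positivity)]
    have h' := h ((x, 0) : VV n)
    have hn : ‖((x, 0) : VV n)‖ = ‖x‖ := by
      rw [Prod.norm_def]; simp
    rw [hn, ← w1_eq_wt] at h'
    rw [Real.rpow_neg hb.le, Real.rpow_natCast, ← div_eq_mul_inv, le_div_iff₀ (by positivity)]
    calc w1 x * (1 + ‖x‖) ^ k * (1 + ‖x‖) ^ (n + 1)
        = w1 x * (1 + ‖x‖) ^ (k + (n + 1)) := by ring
      _ ≤ C := h'

lemma continuous_evr (F : MvPolynomial (Fin n) ℂ) : Continuous (fun x => evr x F) := by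
  unfold evr
  refine (MvPolynomial.continuous_eval F).comp ?_
  exact continuous_pi fun j => Complex.continuous_ofReal.comp (continuous_apply j)

lemma memLp_evr (F : MvPolynomial (Fin n) ℂ) {p : ℝ} (hp : 0 < p) :
    MemLp (fun x => evr x F) (ENNReal.ofReal p) (gam n) := by
  rw [← integrable_norm_rpow_iff (continuous_evr F).aestronglyMeasurable
    (by simpa using hp) ENNReal.ofReal_ne_top, ENNReal.toReal_ofReal hp.le]
  rw [gam_eq, integrable_withDensity_iff_integrable_smul'
    (measurable_dens.ennreal_ofReal) (by simp)]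
  obtain ⟨C, hC, h⟩ := eval_growth F (le_refl F.totalDegree)
  set k : ℕ := F.totalDegree * ⌈p⌉₊ with hk
  have hI := (integrable_w1_pow (n := n) k).const_mul
    (((Real.sqrt (2 * Real.pi))⁻¹) ^ n * C ^ p)
  refine hI.mono' ?_ ?_
  · have a1 : AEStronglyMeasurable (fun x : Fin n → ℝ => (ENNReal.ofReal (dens x)).toReal)
        volume := (measurable_dens.ennreal_ofReal.ennreal_toReal).aestronglyMeasurable
    have a2 : AEStronglyMeasurable (fun x : Fin n → ℝ => ‖evr x F‖ ^ p) volume :=
      ((continuous_evr F).norm.rpow_const fun x => Or.inr hp.le).aestronglyMeasurable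
    exact a1.smul a2
  · refine Filter.Eventually.of_forall fun x => ?_
    have hd := dens_pos x
    have hw : 0 < w1 x := Real.exp_pos _
    have hb : (1:ℝ) ≤ 1 + ‖x‖ := by have := norm_nonneg x; linarith
    rw [ENNReal.toReal_ofReal hd.le, norm_smul, Real.norm_of_nonneg hd.le,
      Real.norm_of_nonneg (Real.rpow_nonneg (norm_nonneg _) _), dens_eq]
    have hCpos : 0 < C := by linarith
    have h1 : ‖evr x F‖ ≤ C * (1 + ‖x‖) ^ F.totalDegree := by
      have := h (fun j => (x j : ℂ))
      have hn : ‖(fun j => (x j : ℂ))‖ = ‖x‖ := by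
        simp [Pi.norm_def]
      rw [hn] at this
      exact this
    have h2 : ‖evr x F‖ ^ p ≤ C ^ p * (1 + ‖x‖) ^ k := by
      calc ‖evr x F‖ ^ p ≤ (C * (1 + ‖x‖) ^ F.totalDegree) ^ p :=
            Real.rpow_le_rpow (norm_nonneg _) h1 hp.le
        _ = C ^ p * ((1 + ‖x‖) ^ F.totalDegree) ^ p := by
            rw [Real.mul_rpow hCpos.le (by positivity)]
        _ ≤ C ^ p * ((1 + ‖x‖) ^ F.totalDegree) ^ ((⌈p⌉₊ : ℕ) : ℝ) := by
            gcongr
            · exact one_le_pow₀ hb
            · exact Nat.le_ceil p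
        _ = C ^ p * (1 + ‖x‖) ^ k := by rw [Real.rpow_natCast, hk, pow_mul]
    have hs : 0 ≤ ((Real.sqrt (2 * Real.pi))⁻¹) ^ n := by positivity
    calc ((Real.sqrt (2 * Real.pi))⁻¹) ^ n * w1 x * ‖evr x F‖ ^ p
        ≤ ((Real.sqrt (2 * Real.pi))⁻¹) ^ n * w1 x * (C ^ p * (1 + ‖x‖) ^ k) := by gcongr
      _ = _ := by ring

/-! ### the operator on polynomials of degree at most `d` -/

/-- the OU operator as a linear map -/
noncomputable def NNl (n : ℕ) : MvPolynomial (Fin n) ℂ →ₗ[ℂ] MvPolynomial (Fin n) ℂ where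
  toFun := NN
  map_add' P Q := by
    unfold NN
    rw [← Finset.sum_add_distrib]
    refine Finset.sum_congr rfl fun j _ => ?_
    simp only [map_add]; ring
  map_smul' c P := by
    unfold NN
    simp only [RingHom.id_apply, Finset.smul_sum]
    refine Finset.sum_congr rfl fun j _ => ?_
    rw [Derivation.map_smul, Derivation.map_smul, smul_sub, mul_smul_comm]

lemma deg_sub_single (m : Fin n →₀ ℕ) (j : Fin n) :
    ((m - Finsupp.single j 1).sum fun _ e => e) ≤ m.sum fun _ e => e := by
  rw [Finsupp.sum_fintype _ _ (fun _ => rfl), Finsupp.sum_fintype _ _ (fun _ => rfl)]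
  refine Finset.sum_le_sum fun i _ => ?_
  rw [Finsupp.tsub_apply]
  exact tsub_le_self

lemma NN_mem {d : ℕ} (F : MvPolynomial (Fin n) ℂ) (hF : F ∈ restrictTotalDegree (Fin n) ℂ d) :
    NNl n F ∈ restrictTotalDegree (Fin n) ℂ d := by
  classical
  have hF' := (mem_restrictTotalDegree (Fin n) d F).1 hF
  have hmon : ∀ (m : Fin n →₀ ℕ) (c : ℂ), (m.sum fun _ e => e) ≤ d →
      (monomial m c : MvPolynomial (Fin n) ℂ) ∈ restrictTotalDegree (Fin n) ℂ d := by
    intro m c hm
    rw [mem_restrictTotalDegree]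
    exact (totalDegree_monomial_le m c).trans hm
  rw [F.as_sum, map_sum]
  refine Submodule.sum_mem _ fun m hm => ?_
  have hmd : (m.sum fun _ e => e) ≤ d := (le_totalDegree hm).trans hF'
  show NN _ ∈ _
  unfold NN
  refine Submodule.sum_mem _ fun j _ => Submodule.sub_mem _ ?_ ?_
  · rw [pderiv_monomial, pderiv_monomial]
    exact hmon _ _ (((deg_sub_single _ j).trans (deg_sub_single _ j)).trans hmd)
  · rw [X_mul_pderiv_monomial]
    exact nsmul_mem (hmon _ _ hmd) _

/-- **Bernstein–Markov inequality in Gaussian space, complex polynomials.** -/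
theorem bernstein_markov (F : MvPolynomial (Fin n) ℂ) {d : ℕ} (hd : F.totalDegree ≤ d) {p : ℝ}
    (hp : 2 ≤ p) :
    eLpNorm (fun x => evr x (NN F)) (ENNReal.ofReal p) (gam n)
      ≤ ENNReal.ofReal (Real.exp 1 * (2 * (p - 1) / p * d))
        * eLpNorm (fun x => evr x F) (ENNReal.ofReal p) (gam n) := by
  set V := restrictTotalDegree (Fin n) ℂ d with hV
  set b := Module.finBasis ℂ V with hb
  set T0 : V →ₗ[ℂ] V := (NNl n).restrict (fun F hF => NN_mem F hF) with hT0
  set T : (Fin (Module.finrank ℂ V) → ℂ) →ₗ[ℂ] (Fin (Module.finrank ℂ V) → ℂ) :=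
    b.equivFun.toLinearMap ∘ₗ T0 ∘ₗ b.equivFun.symm.toLinearMap with hT
  have hc : 0 ≤ 2 * (p - 1) / p * d := by
    have h1 : 0 ≤ p - 1 := by linarith
    have h2 : 0 < p := by linarith
    positivity
  have hsum : ∀ (v : Fin (Module.finrank ℂ V) → ℂ) (x : Fin n → ℝ),
      evr x ((b.equivFun.symm v : V) : MvPolynomial (Fin n) ℂ)
        = ∑ i, v i * evr x ((b i : V) : MvPolynomial (Fin n) ℂ) := by
    intro v x
    rw [Module.Basis.equivFun_symm_apply]
    unfold evr
    push_cast
    rw [map_sum]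
    refine Finset.sum_congr rfl fun i _ => ?_
    rw [MvPolynomial.smul_eval]
  have hTv : ∀ v, ((b.equivFun.symm (T v) : V) : MvPolynomial (Fin n) ℂ)
      = NN ((b.equivFun.symm v : V) : MvPolynomial (Fin n) ℂ) := by
    intro v
    simp only [hT, LinearMap.comp_apply, LinearEquiv.coe_coe, LinearEquiv.symm_apply_apply]
    rfl
  have key := Pool.Agent.H93.NumRange.numRange_bound (gam n) (m := Module.finrank ℂ V) (by linarith : 1 < p)
    (fun i x => evr x ((b i : V) : MvPolynomial (Fin n) ℂ))
    (fun i => memLp_evr _ (by linarith)) T hc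
    (fun v x => evr x ((b.equivFun.symm v : V) : MvPolynomial (Fin n) ℂ)) hsum
    (fun v => by
      have hdeg : ((b.equivFun.symm v : V) : MvPolynomial (Fin n) ℂ).totalDegree ≤ d :=
        (mem_restrictTotalDegree (Fin n) d _).1 (b.equivFun.symm v).2
      have h := numrange _ hdeg hp
      simp only [hTv]
      exact h) (b.equivFun ⟨F, (mem_restrictTotalDegree (Fin n) d F).2 hd⟩)
  simp only [hTv, LinearEquiv.symm_apply_apply] at key
  exact key

end H88BM
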