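import Mathlib
import Pool.Agent.H88.BMFinal

/-!
Bernstein-Markov inequality for Gaussian space, part 13: real polynomials.
-/

set_option linter.unusedVariables false
set_option linter.unusedTactic false
set_option linter.unusedSimpArgs false

namespace H88BM

open MvPolynomial MeasureTheory ProbabilityTheory

variable {n : ℕ}

lemma integrable_gam {g : (Fin n → ℝ) → ℝ} (hg : Continuous g) {C : ℝ} {k : ℕ}
    (hb : ∀ x, |g x| ≤ C * (1 + ‖x‖) ^ k) : Integrable g (gam n) := by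
  rw [gam_eq, integrable_withDensity_iff_integrable_smul'
    (measurable_dens.ennreal_ofReal) (by simp)]
  have hI := (integrable_w1_pow (n := n) k).const_mul
    (((Real.sqrt (2 * Real.pi))⁻¹) ^ n * C)
  refine hI.mono' ?_ ?_
  · have a1 : AEStronglyMeasurable (fun x : Fin n → ℝ => (ENNReal.ofReal (dens x)).toReal)
        volume := (measurable_dens.ennreal_ofReal.ennreal_toReal).aestronglyMeasurable
    exact a1.smul hg.aestronglyMeasurable
  · refine Filter.Eventually.of_forall fun x => ?_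
    have hd := dens_pos x
    have hw : 0 < w1 x := Real.exp_pos _
    have hs : 0 ≤ ((Real.sqrt (2 * Real.pi))⁻¹) ^ n := by positivity
    rw [ENNReal.toReal_ofReal hd.le, norm_smul, Real.norm_of_nonneg hd.le, dens_eq,
      Real.norm_eq_abs]
    calc ((Real.sqrt (2 * Real.pi))⁻¹) ^ n * w1 x * |g x|
        ≤ ((Real.sqrt (2 * Real.pi))⁻¹) ^ n * w1 x * (C * (1 + ‖x‖) ^ k) := by
          gcongr
          exact hb x
      _ = _ := by ring

lemma evr_growth (F : MvPolynomial (Fin n) ℂ) :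
    ∃ C : ℝ, 1 ≤ C ∧ ∃ k : ℕ, ∀ x : Fin n → ℝ, ‖evr x F‖ ≤ C * (1 + ‖x‖) ^ k := by
  obtain ⟨C, hC, h⟩ := eval_growth F (le_refl F.totalDegree)
  refine ⟨C, hC, F.totalDegree, fun x => ?_⟩
  have := h (fun j => (x j : ℂ))
  have hn : ‖(fun j => (x j : ℂ))‖ = ‖x‖ := by
    simp [Pi.norm_def]
  rw [hn] at this
  exact this

lemma evr_rpow_growth (F : MvPolynomial (Fin n) ℂ) {r : ℝ} (hr : 0 ≤ r) :
    ∃ C : ℝ, 0 ≤ C ∧ ∃ k : ℕ, ∀ x : Fin n → ℝ, ‖evr x F‖ ^ r ≤ C * (1 + ‖x‖) ^ k := by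
  obtain ⟨C, hC, k, h⟩ := evr_growth F
  have hCpos : 0 < C := by linarith
  refine ⟨C ^ r, by positivity, k * ⌈r⌉₊, fun x => ?_⟩
  have hb : (1:ℝ) ≤ 1 + ‖x‖ := by have := norm_nonneg x; linarith
  calc ‖evr x F‖ ^ r ≤ (C * (1 + ‖x‖) ^ k) ^ r :=
        Real.rpow_le_rpow (norm_nonneg _) (h x) hr
    _ = C ^ r * ((1 + ‖x‖) ^ k) ^ r := by
        rw [Real.mul_rpow hCpos.le (by positivity)]
    _ ≤ C ^ r * ((1 + ‖x‖) ^ k) ^ ((⌈r⌉₊ : ℕ) : ℝ) := by
        gcongr
        · exact one_le_pow₀ hb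
        · exact Nat.le_ceil r
    _ = C ^ r * (1 + ‖x‖) ^ (k * ⌈r⌉₊) := by rw [Real.rpow_natCast, pow_mul]

lemma integrable_energy (F : MvPolynomial (Fin n) ℂ) {r : ℝ} (hr : 0 ≤ r) :
    Integrable (fun x => ‖evr x F‖ ^ r * ∑ j, ‖evr x (pderiv j F)‖ ^ 2) (gam n) := by
  have e : (fun x => ‖evr x F‖ ^ r * ∑ j, ‖evr x (pderiv j F)‖ ^ 2)
      = fun x => ∑ j, ‖evr x F‖ ^ r * ‖evr x (pderiv j F)‖ ^ 2 := by
    funext x; rw [Finset.mul_sum]
  rw [e]
  refine integrable_finsetSum _ fun j _ => ?_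
  obtain ⟨C1, hC1, k1, h1⟩ := evr_rpow_growth F hr
  obtain ⟨C2, hC2, k2, h2⟩ := evr_growth (pderiv j F)
  refine integrable_gam (C := C1 * C2 ^ 2) (k := k1 + k2 * 2) ?_ fun x => ?_
  · exact ((continuous_evr F).norm.rpow_const fun x => Or.inr hr).mul
      ((continuous_evr _).norm.pow 2)
  · have hC2' : 0 ≤ C2 := by linarith
    have h3 : 0 ≤ ‖evr x F‖ ^ r := Real.rpow_nonneg (norm_nonneg _) _
    rw [abs_of_nonneg (by positivity)]
    calc ‖evr x F‖ ^ r * ‖evr x (pderiv j F)‖ ^ 2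
        ≤ (C1 * (1 + ‖x‖) ^ k1) * (C2 * (1 + ‖x‖) ^ k2) ^ 2 := by
          gcongr
          · exact h1 x
          · exact h2 x
      _ = C1 * C2 ^ 2 * (1 + ‖x‖) ^ (k1 + k2 * 2) := by
          rw [mul_pow, ← pow_mul, pow_add]; ring

/-- The energy inequality, in the form used in the final statement. -/
theorem energy_final (F : MvPolynomial (Fin n) ℂ) {d : ℕ} (hd : F.totalDegree ≤ d) {p : ℝ}
    (hp : 2 ≤ p) :
    ∫⁻ x, ENNReal.ofReal (‖evr x F‖ ^ (p - 2) * ∑ j, ‖evr x (pderiv j F)‖ ^ 2) ∂(gam n)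
      ≤ ENNReal.ofReal (2 * d / p) * ∫⁻ x, ENNReal.ofReal (‖evr x F‖ ^ p) ∂(gam n) := by
  have hp0 : 0 < p := by linarith
  have h := energy_gauss F hd (s := (p - 2) / 2) (by linarith)
  have e1 : ∀ x : Fin n → ℝ, (‖evr x F‖ ^ 2) ^ ((p - 2) / 2) = ‖evr x F‖ ^ (p - 2) := by
    intro x
    rw [← Real.rpow_natCast, ← Real.rpow_mul (norm_nonneg _)]
    congr 1
    push_cast; ring
  have e2 : ∀ x : Fin n → ℝ, (‖evr x F‖ ^ 2) ^ ((p - 2) / 2 + 1) = ‖evr x F‖ ^ p := by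
    intro x
    rw [← Real.rpow_natCast, ← Real.rpow_mul (norm_nonneg _)]
    congr 1
    push_cast; ring
  simp_rw [e1, e2] at h
  have hI1 := integrable_energy F (by linarith : 0 ≤ p - 2)
  have hI2 : Integrable (fun x => ‖evr x F‖ ^ p) (gam n) := by
    have := (memLp_evr F hp0)
    rw [← integrable_norm_rpow_iff (continuous_evr F).aestronglyMeasurable
      (by simpa using hp0) ENNReal.ofReal_ne_top, ENNReal.toReal_ofReal hp0.le] at this
    exact this
  have n1 : 0 ≤ᵐ[gam n] fun x => ‖evr x F‖ ^ (p - 2) * ∑ j, ‖evr x (pderiv j F)‖ ^ 2 := by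
    refine Filter.Eventually.of_forall fun x => ?_
    have := Real.rpow_nonneg (norm_nonneg (evr x F)) (p - 2)
    have h2 : 0 ≤ ∑ j, ‖evr x (pderiv j F)‖ ^ 2 := Finset.sum_nonneg fun j _ => by positivity
    exact mul_nonneg this h2
  have n2 : 0 ≤ᵐ[gam n] fun x => ‖evr x F‖ ^ p :=
    Filter.Eventually.of_forall fun x => Real.rpow_nonneg (norm_nonneg _) _
  rw [← ofReal_integral_eq_lintegral_ofReal hI1 n1, ← ofReal_integral_eq_lintegral_ofReal hI2 n2,
    ← ENNReal.ofReal_mul (by positivity)]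
  · refine ENNReal.ofReal_le_ofReal ?_
    have h3 : p / 2 * ∫ x, ‖evr x F‖ ^ (p - 2) * ∑ j, ‖evr x (pderiv j F)‖ ^ 2 ∂(gam n)
        ≤ d * ∫ x, ‖evr x F‖ ^ p ∂(gam n) := by
      have : (p - 2) / 2 + 1 = p / 2 := by ring
      rw [this] at h
      exact h
    have h4 : ∫ x, ‖evr x F‖ ^ (p - 2) * ∑ j, ‖evr x (pderiv j F)‖ ^ 2 ∂(gam n)
        = (2 / p) * (p / 2 * ∫ x, ‖evr x F‖ ^ (p - 2) *
          ∑ j, ‖evr x (pderiv j F)‖ ^ 2 ∂(gam n)) := by
      field_simp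
    rw [h4]
    calc (2 / p) * (p / 2 * ∫ x, ‖evr x F‖ ^ (p - 2) *
          ∑ j, ‖evr x (pderiv j F)‖ ^ 2 ∂(gam n))
        ≤ (2 / p) * (d * ∫ x, ‖evr x F‖ ^ p ∂(gam n)) := by gcongr
      _ = _ := by ring

/-! ### real polynomials -/

/-- complexification -/
noncomputable def cx (f : MvPolynomial (Fin n) ℝ) : MvPolynomial (Fin n) ℂ :=
  MvPolynomial.map Complex.ofRealHom f

lemma evr_cx (x : Fin n → ℝ) (f : MvPolynomial (Fin n) ℝ) :
    evr x (cx f) = ((eval x f : ℝ) : ℂ) := by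
  unfold evr cx
  rw [eval_map]
  have := MvPolynomial.eval₂_comp_left Complex.ofRealHom (RingHom.id ℝ) x f
  rw [eval₂_id] at this
  rw [show ((eval x f : ℝ) : ℂ) = Complex.ofRealHom (eval x f) from rfl, this]
  congr 1

lemma pderiv_cx (i : Fin n) (f : MvPolynomial (Fin n) ℝ) :
    pderiv i (cx f) = cx (pderiv i f) := by
  unfold cx; rw [pderiv_map]

lemma deg_cx (f : MvPolynomial (Fin n) ℝ) : (cx f).totalDegree ≤ f.totalDegree := by
  unfold cx
  rw [totalDegree, totalDegree]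
  exact Finset.sup_mono (support_map_subset _ _)

lemma evr_NN_cx (x : Fin n → ℝ) (f : MvPolynomial (Fin n) ℝ) :
    evr x (NN (cx f)) = ((∑ i, (eval x (pderiv i (pderiv i f)) - x i * eval x (pderiv i f)) : ℝ)
      : ℂ) := by
  unfold NN
  have e : evr x (∑ j, (pderiv j (pderiv j (cx f)) - X j * pderiv j (cx f)))
      = ∑ j, (evr x (pderiv j (pderiv j (cx f))) - (x j : ℂ) * evr x (pderiv j (cx f))) := by
    unfold evr
    rw [map_sum]
    refine Finset.sum_congr rfl fun j _ => ?_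
    rw [map_sub, map_mul, eval_X]
  rw [e]
  simp_rw [pderiv_cx, evr_cx]
  push_cast
  rfl

theorem real_bernstein_markov (p : ℝ) (hp : 2 ≤ p) (n d : ℕ) (f : MvPolynomial (Fin n) ℝ)
    (hf : f.totalDegree ≤ d) :
    eLpNorm (fun x : Fin n → ℝ =>
        ∑ i, (eval x (pderiv i (pderiv i f)) - x i * eval x (pderiv i f)))
        (ENNReal.ofReal p) (Measure.pi fun _ => gaussianReal 0 1)
      ≤ ENNReal.ofReal (2 * Real.exp 1 * (p - 1) / p * d) *
        eLpNorm (fun x : Fin n → ℝ => eval x f) (ENNReal.ofReal p)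
          (Measure.pi fun _ => gaussianReal 0 1) := by
  have h := bernstein_markov (cx f) ((deg_cx f).trans hf) hp
  have e1 : eLpNorm (fun x => evr x (NN (cx f))) (ENNReal.ofReal p) (gam n)
      = eLpNorm (fun x : Fin n → ℝ =>
        ∑ i, (eval x (pderiv i (pderiv i f)) - x i * eval x (pderiv i f)))
        (ENNReal.ofReal p) (gam n) := by
    refine eLpNorm_congr_norm_ae (Filter.Eventually.of_forall fun x => ?_)
    rw [evr_NN_cx, Complex.norm_real]
  have e2 : eLpNorm (fun x => evr x (cx f)) (ENNReal.ofReal p) (gam n)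
      = eLpNorm (fun x : Fin n → ℝ => eval x f) (ENNReal.ofReal p) (gam n) := by
    refine eLpNorm_congr_norm_ae (Filter.Eventually.of_forall fun x => ?_)
    rw [evr_cx, Complex.norm_real]
  rw [e1, e2] at h
  refine h.trans (le_of_eq ?_)
  congr 2
  ring

theorem real_energy (p : ℝ) (hp : 2 ≤ p) (n d : ℕ) (f : MvPolynomial (Fin n) ℝ)
    (hf : f.totalDegree ≤ d) :
    ∫⁻ x : Fin n → ℝ, ENNReal.ofReal (|eval x f| ^ (p - 2) * ∑ i, (eval x (pderiv i f)) ^ 2)
        ∂(Measure.pi fun _ => gaussianReal 0 1)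
      ≤ ENNReal.ofReal (2 * d / p) * ∫⁻ x : Fin n → ℝ, ENNReal.ofReal (|eval x f| ^ p)
        ∂(Measure.pi fun _ => gaussianReal 0 1) := by
  have h := energy_final (cx f) ((deg_cx f).trans hf) hp
  simp_rw [pderiv_cx, evr_cx, Complex.norm_real, Real.norm_eq_abs, sq_abs] at h
  exact h

end H88BM
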