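import Mathlib

/-!
# Reflexive and superreflexive spaces, Gateaux differentiability: definitions
-/

namespace Pool.Agent.H88.Gateaux

open Filter Topology

universe u v

/-- `X` has no countable dense subset. -/
def IsNonseparable (X : Type u) [NormedAddCommGroup X] : Prop :=
  ¬ ∃ s : Set X, s.Countable ∧ Dense s

/-- A real normed space is reflexive if the canonical map into the bidual is onto: every
functional `Φ` on the dual is evaluation at some point of `X`. -/
def IsReflexive (X : Type u) [NormedAddCommGroup X] [NormedSpace ℝ X] : Prop :=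
  ∀ Φ : StrongDual ℝ (StrongDual ℝ X), ∃ x : X, ∀ f : StrongDual ℝ X, Φ f = f x

/-- `Z` is finitely representable in `X`: for every finite-dimensional subspace `F` of `Z` and
every `ε > 0` there is a linear map `T : F → X` with `‖z‖ ≤ ‖T z‖ ≤ (1 + ε) ‖z‖` on `F`. -/
def FinitelyRepresentable (Z : Type v) [NormedAddCommGroup Z] [NormedSpace ℝ Z]
    (X : Type u) [NormedAddCommGroup X] [NormedSpace ℝ X] : Prop :=
  ∀ F : Submodule ℝ Z, FiniteDimensional ℝ F → ∀ ε : ℝ, 0 < ε →
    ∃ T : F →ₗ[ℝ] X, ∀ z : F, ‖z‖ ≤ ‖T z‖ ∧ ‖T z‖ ≤ (1 + ε) * ‖z‖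

/-- A real normed space is superreflexive if every Banach space finitely representable in it is
reflexive. -/
def IsSuperreflexive (X : Type u) [NormedAddCommGroup X] [NormedSpace ℝ X] : Prop :=
  ∀ (Z : Type v) [NormedAddCommGroup Z] [NormedSpace ℝ Z] [CompleteSpace Z],
    FinitelyRepresentable Z X → IsReflexive Z

/-- `φ` is a bijection, and `φ` and its inverse are Lipschitz. -/
def IsLipschitzHomeo {X Y : Type u} [NormedAddCommGroup X] [NormedAddCommGroup Y]
    (φ : X → Y) : Prop :=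
  Function.Bijective φ ∧ (∃ K : ℝ, ∀ x y, ‖φ x - φ y‖ ≤ K * ‖x - y‖) ∧
    ∃ K : ℝ, ∀ x y, ‖x - y‖ ≤ K * ‖φ x - φ y‖

/-- `φ` is Gateaux differentiable at `x₀`. -/
def GateauxDifferentiableAt {X Y : Type u} [NormedAddCommGroup X] [NormedSpace ℝ X]
    [NormedAddCommGroup Y] [NormedSpace ℝ Y] (φ : X → Y) (x₀ : X) : Prop :=
  ∃ T : X →L[ℝ] Y, ∀ h : X,
    Tendsto (fun t : ℝ => t⁻¹ • (φ (x₀ + t • h) - φ x₀)) (𝓝[≠] 0) (𝓝 (T h))

end Pool.Agent.H88.Gateaux
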