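import Mathlib
import Pool.Agent.H88.GateauxDefs

/-!
# A Lipschitz homeomorphism of a nonseparable Hilbert space that is nowhere Gateaux differentiable

On `ℓ²(Γ)`, `Γ` uncountable, the map `φ(x)_γ = g(x_γ)` with `g(t) = 2t` for `t ≥ 0` and `g(t) = t`
for `t ≤ 0` is a Lipschitz homeomorphism onto `ℓ²(Γ)`.  Every `x` has countable support, so there
is a coordinate `γ` with `x_γ = 0`, and `φ` has no derivative at `x` in the direction `e_γ`.
-/

namespace Pool.Agent.H88.Gateaux

open Filter Topology TopologicalSpace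
open scoped ENNReal

universe u v

section Hilbert

/-- Hilbert spaces are reflexive. -/
lemma isReflexive_of_inner (X : Type u) [NormedAddCommGroup X] [InnerProductSpace ℝ X]
    [CompleteSpace X] : IsReflexive X := by
  intro Φ
  let L : X →L[ℝ] ℝ :=
    { toFun := fun x => Φ (InnerProductSpace.toDual ℝ X x)
      map_add' := fun x y => by rw [map_add, map_add]
      map_smul' := fun c x => by
        rw [map_smulₛₗ (InnerProductSpace.toDual ℝ X)]
        simp
      cont := Φ.continuous.comp (InnerProductSpace.toDual ℝ X).continuous }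
  refine ⟨(InnerProductSpace.toDual ℝ X).symm L, fun f => ?_⟩
  obtain ⟨x, rfl⟩ := (InnerProductSpace.toDual ℝ X).surjective f
  rw [InnerProductSpace.toDual_apply_apply, real_inner_comm, InnerProductSpace.toDual_symm_apply]
  rfl

/-- A Banach space finitely representable in an inner product space is reflexive. -/
lemma isSuperreflexive_of_inner (X : Type u) [NormedAddCommGroup X] [InnerProductSpace ℝ X] :
    IsSuperreflexive.{u, v} X := by
  intro Z _ _ _ hZ
  have hle : ∀ x y : Z, ‖x + y‖ * ‖x + y‖ + ‖x - y‖ * ‖x - y‖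
      ≤ 2 * (‖x‖ * ‖x‖ + ‖y‖ * ‖y‖) := by
    intro x y
    have key : ∀ ε : ℝ, 0 < ε → ‖x + y‖ * ‖x + y‖ + ‖x - y‖ * ‖x - y‖
        ≤ (1 + ε) ^ 2 * (2 * (‖x‖ * ‖x‖ + ‖y‖ * ‖y‖)) := by
      intro ε hε
      obtain ⟨T, hT⟩ := hZ (Submodule.span ℝ {x, y})
        (FiniteDimensional.span_of_finite ℝ (Set.toFinite _)) ε hε
      have hx : x ∈ Submodule.span ℝ ({x, y} : Set Z) := Submodule.subset_span (by simp)
      have hy : y ∈ Submodule.span ℝ ({x, y} : Set Z) := Submodule.subset_span (by simp)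
      set a : Submodule.span ℝ ({x, y} : Set Z) := ⟨x, hx⟩
      set b : Submodule.span ℝ ({x, y} : Set Z) := ⟨y, hy⟩
      have h1 := (hT (a + b)).1
      have h2 := (hT (a - b)).1
      have h3 := (hT a).2
      have h4 := (hT b).2
      have ea : ‖a‖ = ‖x‖ := rfl
      have eb : ‖b‖ = ‖y‖ := rfl
      have eab : ‖a + b‖ = ‖x + y‖ := rfl
      have eab' : ‖a - b‖ = ‖x - y‖ := rfl
      rw [eab, map_add] at h1
      rw [eab', map_sub] at h2
      rw [ea] at h3
      rw [eb] at h4
      have hpar := parallelogram_law_with_norm ℝ (T a) (T b)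
      have m1 : ‖x + y‖ * ‖x + y‖ ≤ ‖T a + T b‖ * ‖T a + T b‖ :=
        mul_self_le_mul_self (norm_nonneg _) h1
      have m2 : ‖x - y‖ * ‖x - y‖ ≤ ‖T a - T b‖ * ‖T a - T b‖ :=
        mul_self_le_mul_self (norm_nonneg _) h2
      have m3 : ‖T a‖ * ‖T a‖ ≤ ((1 + ε) * ‖x‖) * ((1 + ε) * ‖x‖) :=
        mul_self_le_mul_self (norm_nonneg _) h3
      have m4 : ‖T b‖ * ‖T b‖ ≤ ((1 + ε) * ‖y‖) * ((1 + ε) * ‖y‖) :=
        mul_self_le_mul_self (norm_nonneg _) h4
      nlinarith
    have hlim : Tendsto (fun ε : ℝ => (1 + ε) ^ 2 * (2 * (‖x‖ * ‖x‖ + ‖y‖ * ‖y‖)))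
        (𝓝[>] 0) (𝓝 ((1 + 0) ^ 2 * (2 * (‖x‖ * ‖x‖ + ‖y‖ * ‖y‖)))) := by
      refine Tendsto.mono_left ?_ nhdsWithin_le_nhds
      exact (Continuous.tendsto (by fun_prop) 0)
    have := ge_of_tendsto hlim (by
      filter_upwards [self_mem_nhdsWithin] with ε hε using key ε hε)
    simpa using this
  have hpar : ∀ x y : Z, ‖x + y‖ * ‖x + y‖ + ‖x - y‖ * ‖x - y‖
      = 2 * (‖x‖ * ‖x‖ + ‖y‖ * ‖y‖) := by
    intro x y
    refine le_antisymm (hle x y) ?_
    have h := hle (x + y) (x - y)
    have e1 : x + y + (x - y) = (2 : ℝ) • x := by rw [two_smul]; abel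
    have e2 : x + y - (x - y) = (2 : ℝ) • y := by rw [two_smul]; abel
    rw [e1, e2, norm_smul, norm_smul] at h
    norm_num at h
    nlinarith
  let _ : InnerProductSpace ℝ Z := InnerProductSpace.ofNorm ℝ hpar
  exact isReflexive_of_inner Z

end Hilbert

/-- `ℓ²(Γ)`. -/
abbrev H (Γ : Type u) : Type u := lp (fun _ : Γ => ℝ) 2

lemma not_separable (Γ : Type u) [Uncountable Γ] : IsNonseparable (H Γ) := by
  rintro ⟨s, hs, hd⟩
  have hsep : SeparableSpace (H Γ) := ⟨s, hs, hd⟩
  classical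
  have hpos : (0 : ℝ≥0∞) < 2 := by norm_num
  set e : Γ → H Γ := fun i => lp.single 2 i (1 : ℝ) with he
  have hdist : ∀ i j, i ≠ j → 1 ≤ dist (e i) (e j) := by
    intro i j hij
    have h := lp.norm_apply_le_norm (p := 2) (by norm_num) (e i - e j) i
    have h1 : (e i - e j : H Γ) i = 1 := by
      simp only [he, lp.coeFn_sub, Pi.sub_apply]
      rw [lp.single_apply_self, lp.single_apply_ne _ _ _ hij, sub_zero]
    rw [h1] at h
    rw [dist_eq_norm]
    simpa using h
  have hdisj : Pairwise (Function.onFun Disjoint fun i => Metric.ball (e i) (1 / 2)) := by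
    intro i j hij
    refine Metric.ball_disjoint_ball ?_
    have := hdist i j hij
    linarith
  have := hdisj.countable_of_isOpen_disjoint (fun i => Metric.isOpen_ball)
    (fun i => ⟨e i, Metric.mem_ball_self (by norm_num)⟩)
  exact not_countable this

/-- The coordinatewise action of a Lipschitz function vanishing at `0`. -/
noncomputable def coordMap {Γ : Type u} (k : ℝ → ℝ) (C : ℝ) (h0 : k 0 = 0)
    (hk : ∀ s t, |k s - k t| ≤ C * |s - t|) (x : H Γ) : H Γ :=
  ⟨fun i => k (x i), by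
    have h : Memℓp (fun i : Γ => C * x i) 2 := (lp.memℓp x).const_mul C
    refine Memℓp.mono' h fun i => ?_
    have := hk (x i) 0
    rw [h0, sub_zero, sub_zero] at this
    simp only [Real.norm_eq_abs]
    refine this.trans ?_
    rw [abs_mul]
    exact mul_le_mul_of_nonneg_right (le_abs_self C) (abs_nonneg _)⟩

lemma coordMap_apply {Γ : Type u} (k : ℝ → ℝ) (C : ℝ) (h0 : k 0 = 0)
    (hk : ∀ s t, |k s - k t| ≤ C * |s - t|) (x : H Γ) (i : Γ) :
    coordMap k C h0 hk x i = k (x i) := rfl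

lemma coordMap_lipschitz {Γ : Type u} (k : ℝ → ℝ) (C : ℝ) (h0 : k 0 = 0)
    (hk : ∀ s t, |k s - k t| ≤ C * |s - t|) :
    LipschitzWith (Real.toNNReal C) (coordMap (Γ := Γ) k C h0 hk) := by
  refine LipschitzWith.of_dist_le_mul fun x y => ?_
  rw [dist_eq_norm, dist_eq_norm]
  have hC : 0 ≤ C := by
    have := hk 1 0
    have h1 := abs_nonneg (k 1 - k 0)
    simp at this
    linarith
  have h : ‖coordMap k C h0 hk x - coordMap k C h0 hk y‖ ≤ ‖C • (x - y)‖ := by
    refine lp.norm_mono (by norm_num) fun i => ?_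
    rw [lp.coeFn_sub, lp.coeFn_smul, Pi.sub_apply, Pi.smul_apply, lp.coeFn_sub, Pi.sub_apply,
      coordMap_apply, coordMap_apply, smul_eq_mul, Real.norm_eq_abs, Real.norm_eq_abs, abs_mul,
      abs_of_nonneg hC]
    exact hk _ _
  refine h.trans ?_
  rw [norm_smul, Real.norm_eq_abs, abs_of_nonneg hC, Real.coe_toNNReal C hC]

/-- `g t = 2 t` for `t ≥ 0` and `g t = t` for `t ≤ 0`. -/
noncomputable def g (t : ℝ) : ℝ := t + max t 0

/-- The inverse of `g`. -/
noncomputable def gInv (s : ℝ) : ℝ := s - max s 0 / 2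

lemma g_zero : g 0 = 0 := by simp [g]
lemma gInv_zero : gInv 0 = 0 := by simp [gInv]

lemma gInv_g (t : ℝ) : gInv (g t) = t := by
  unfold g gInv
  rcases le_total t 0 with h | h
  · rw [max_eq_right h, add_zero, max_eq_right h]; simp
  · rw [max_eq_left h, max_eq_left (by linarith)]; ring

lemma g_gInv (s : ℝ) : g (gInv s) = s := by
  unfold g gInv
  rcases le_total s 0 with h | h
  · rw [max_eq_right h, zero_div, sub_zero, max_eq_right h]; simp
  · rw [max_eq_left h, max_eq_left (by linarith)]; ring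

lemma g_lip (s t : ℝ) : |g s - g t| ≤ 2 * |s - t| := by
  unfold g
  have h := abs_max_sub_max_le_abs s t 0
  have e : s + max s 0 - (t + max t 0) = (s - t) + (max s 0 - max t 0) := by ring
  rw [e]
  calc |(s - t) + (max s 0 - max t 0)| ≤ |s - t| + |max s 0 - max t 0| := abs_add_le _ _
    _ ≤ 2 * |s - t| := by linarith

lemma gInv_lip (s t : ℝ) : |gInv s - gInv t| ≤ 2 * |s - t| := by
  unfold gInv
  have h := abs_max_sub_max_le_abs s t 0
  have e : s - max s 0 / 2 - (t - max t 0 / 2) = (s - t) - (max s 0 - max t 0) / 2 := by ring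
  rw [e]
  have h2 : |(max s 0 - max t 0) / 2| = |max s 0 - max t 0| / 2 := by
    rw [abs_div, abs_of_pos (by norm_num : (0 : ℝ) < 2)]
  calc |(s - t) - (max s 0 - max t 0) / 2| ≤ |s - t| + |(max s 0 - max t 0) / 2| := abs_sub _ _
    _ ≤ 2 * |s - t| := by
      rw [h2]
      have := abs_nonneg (s - t)
      linarith

/-- The Lipschitz homeomorphism `φ` of `ℓ²(Γ)` onto itself. -/
noncomputable def phi (Γ : Type u) : H Γ ≃ H Γ where
  toFun := coordMap g 2 g_zero g_lip
  invFun := coordMap gInv 2 gInv_zero gInv_lip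
  left_inv x := by
    apply lp.ext
    funext i
    rw [coordMap_apply, coordMap_apply, gInv_g]
  right_inv x := by
    apply lp.ext
    funext i
    rw [coordMap_apply, coordMap_apply, g_gInv]

/-- Every element of `ℓ²(Γ)`, `Γ` uncountable, vanishes at some coordinate. -/
lemma exists_coord_zero {Γ : Type u} [Uncountable Γ] (x : H Γ) : ∃ i, x i = 0 := by
  by_contra hne
  push Not at hne
  have hs : Summable fun i => ‖x i‖ ^ (2 : ℝ≥0∞).toReal := (lp.memℓp x).summable (by norm_num)
  have hc := hs.countable_support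
  have : Function.support (fun i => ‖x i‖ ^ (2 : ℝ≥0∞).toReal) = Set.univ := by
    ext i
    simp only [Function.mem_support, Set.mem_univ, iff_true]
    have : ‖x i‖ ≠ 0 := norm_ne_zero_iff.mpr (hne i)
    positivity
  rw [this, Set.countable_univ_iff] at hc
  exact not_countable hc

lemma not_gateaux {Γ : Type u} [Uncountable Γ] (x₀ : H Γ) :
    ¬ GateauxDifferentiableAt (phi Γ) x₀ := by
  classical
  rintro ⟨T, hT⟩
  obtain ⟨i, hi⟩ := exists_coord_zero x₀
  set e : H Γ := lp.single 2 i (1 : ℝ) with he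
  have h := hT e
  -- the `i`-th coordinate of the difference quotient
  have hcoord : Continuous fun y : H Γ => y i := (lp.lipschitzWith_one_eval 2 i).continuous
  have h1 := (hcoord.tendsto (T e)).comp h
  have hval : ∀ t : ℝ, (fun y : H Γ => y i) (t⁻¹ • (phi Γ (x₀ + t • e) - phi Γ x₀))
      = t⁻¹ * g t := by
    intro t
    have e1 : (phi Γ (x₀ + t • e)) i = g t := by
      show g ((x₀ + t • e : H Γ) i) = g t
      rw [lp.coeFn_add, Pi.add_apply, hi, lp.coeFn_smul, Pi.smul_apply, he,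
        lp.single_apply_self, smul_eq_mul, mul_one, zero_add]
    have e2 : (phi Γ x₀) i = 0 := by
      show g (x₀ i) = 0
      rw [hi, g_zero]
    simp only [lp.coeFn_smul, Pi.smul_apply, lp.coeFn_sub, Pi.sub_apply, e1, e2, smul_eq_mul,
      sub_zero]
  have h2 : Tendsto (fun t : ℝ => t⁻¹ * g t) (𝓝[≠] 0) (𝓝 ((T e) i)) := by
    refine h1.congr fun t => ?_
    exact hval t
  have hr : Tendsto (fun t : ℝ => t⁻¹ * g t) (𝓝[>] 0) (𝓝 2) := by
    refine tendsto_const_nhds.congr' ?_
    filter_upwards [self_mem_nhdsWithin] with t ht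
    have ht' : (0 : ℝ) < t := ht
    unfold g
    rw [max_eq_left ht'.le]
    field_simp
    ring
  have hl : Tendsto (fun t : ℝ => t⁻¹ * g t) (𝓝[<] 0) (𝓝 1) := by
    refine tendsto_const_nhds.congr' ?_
    filter_upwards [self_mem_nhdsWithin] with t ht
    have ht' : t < (0 : ℝ) := ht
    unfold g
    rw [max_eq_right ht'.le, add_zero, inv_mul_cancel₀ ht'.ne]
  have hr' := tendsto_nhds_unique hr (h2.mono_left (nhdsWithin_mono _ fun t ht => ne_of_gt ht))
  have hl' := tendsto_nhds_unique hl (h2.mono_left (nhdsWithin_mono _ fun t ht => ne_of_lt ht))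
  rw [← hl'] at hr'
  norm_num at hr'

lemma phi_isLipschitzHomeo (Γ : Type u) : IsLipschitzHomeo (phi Γ) := by
  refine ⟨(phi Γ).bijective, ⟨2, fun x y => ?_⟩, ⟨2, fun x y => ?_⟩⟩
  · have h := (coordMap_lipschitz (Γ := Γ) g 2 g_zero g_lip).dist_le_mul x y
    rw [dist_eq_norm, dist_eq_norm, Real.coe_toNNReal 2 (by norm_num)] at h
    exact h
  · have h := (coordMap_lipschitz (Γ := Γ) gInv 2 gInv_zero gInv_lip).dist_le_mul
      (phi Γ x) (phi Γ y)
    rw [dist_eq_norm, dist_eq_norm, Real.coe_toNNReal 2 (by norm_num)] at h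
    have e : ∀ z, coordMap gInv 2 gInv_zero gInv_lip (phi Γ z) = z :=
      fun z => (phi Γ).left_inv z
    rw [e, e] at h
    exact h

end Pool.Agent.H88.Gateaux
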