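import Mathlib

/-!
# Multiplier sequences for simple sets of polynomials: definitions
-/

namespace Pool.Agent.H88.MultSeq

open Polynomial Finset

/-- A simple set of polynomials: `deg q_k = k` for every `k`. -/
def IsSimpleSet (q : ℕ → ℝ[X]) : Prop := ∀ k, (q k).degree = (k : WithBot ℕ)

/-- `f` has only real zeros (the zero polynomial is allowed, as usual for multiplier sequences). -/
def RealZeros (f : ℝ[X]) : Prop := f = 0 ∨ ∀ z : ℂ, aeval z f = 0 → z.im = 0

/-- `Q_MS`: the set of `Q`-multiplier sequences. -/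
def MS (q : ℕ → ℝ[X]) : Set (ℕ → ℝ) :=
  {γ | ∀ (n : ℕ) (a : ℕ → ℝ), RealZeros (∑ k ∈ range (n + 1), C (a k) * q k) →
    RealZeros (∑ k ∈ range (n + 1), C (a k * γ k) * q k)}

/-- The classical multiplier sequences: those of the standard basis. -/
def classicalMS : Set (ℕ → ℝ) := MS fun k => X ^ k

/-- The simple set `P_j = {1, 1+x, …, 1+x+⋯+x^j, x^(j+1), x^(j+2), …}`. -/
noncomputable def P (j k : ℕ) : ℝ[X] := if k ≤ j then ∑ i ∈ range (k + 1), X ^ i else X ^ k

end Pool.Agent.H88.MultSeq
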