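import Mathlib
import Pool.Agent.H88.MultSeqDefs

/-!
# Multiplier sequences for simple sets of polynomials: basic facts
-/

namespace Pool.Agent.H88.MultSeq

open Polynomial Finset

lemma P_le {j k : ℕ} (h : k ≤ j) : P j k = ∑ i ∈ range (k + 1), X ^ i := if_pos h

lemma P_gt {j k : ℕ} (h : j < k) : P j k = X ^ k := if_neg (by omega)

lemma degree_geom (k : ℕ) : (∑ i ∈ range (k + 1), (X : ℝ[X]) ^ i).degree = (k : WithBot ℕ) := by
  rw [sum_range_succ, add_comm]
  rw [degree_add_eq_left_of_degree_lt]
  · exact degree_X_pow k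
  · rw [degree_X_pow, degree_lt_iff_coeff_zero]
    intro m hm
    rw [finsetSum_coeff]
    refine sum_eq_zero fun i hi => ?_
    rw [coeff_X_pow, if_neg]
    have := mem_range.mp hi
    omega

lemma isSimpleSet_P (j : ℕ) : IsSimpleSet (P j) := by
  intro k
  unfold P
  split_ifs
  · exact degree_geom k
  · exact degree_X_pow k

/-- The vertical monotonicity property, equivalent to `RealZeros`. -/
def VMono (f : ℝ[X]) : Prop :=
  ∀ x y₁ y₂ : ℝ, |y₁| ≤ |y₂| →
    ‖aeval ((x : ℂ) + y₁ * Complex.I) f‖ ≤ ‖aeval ((x : ℂ) + y₂ * Complex.I) f‖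

lemma vMono_of_realZeros {f : ℝ[X]} (hf : RealZeros f) : VMono f := by
  intro x y₁ y₂ hy
  rcases hf with rfl | hf
  · simp
  · set g : ℂ[X] := f.map (algebraMap ℝ ℂ) with hg
    have hev : ∀ z : ℂ, aeval z f = g.eval z := by
      intro z; rw [hg, eval_map_algebraMap]
    have hsplit : g.Splits := IsAlgClosed.splits g
    have hprod : ∀ z : ℂ, g.eval z = g.leadingCoeff * (g.roots.map (fun r => z - r)).prod := by
      intro z
      have := hsplit.eval_eq_prod_roots z
      simpa using this
    have hroot : ∀ r ∈ g.roots, r.im = 0 := by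
      intro r hr
      apply hf
      rw [hev]
      exact (mem_roots'.mp hr).2
    rw [hev, hev, hprod, hprod, norm_mul, norm_mul]
    refine mul_le_mul_of_nonneg_left ?_ (norm_nonneg _)
    have hn : ∀ z : ℂ, ‖(g.roots.map (fun r => z - r)).prod‖
        = (g.roots.map (fun r => ‖z - r‖)).prod := by
      intro z
      have := map_multiset_prod (normHom : ℂ →*₀ ℝ) (g.roots.map (fun r => z - r))
      rw [Multiset.map_map] at this
      exact this
    rw [hn, hn]
    refine Multiset.prod_map_le_prod_map₀ _ _ (fun r _ => norm_nonneg _) ?_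
    intro r hr
    have him := hroot r hr
    rw [Complex.norm_def, Complex.norm_def]
    apply Real.sqrt_le_sqrt
    simp only [Complex.normSq_apply, Complex.sub_re, Complex.add_re, Complex.ofReal_re,
      Complex.mul_re, Complex.I_re, mul_zero, Complex.ofReal_im, Complex.I_im, mul_one, sub_self,
      add_zero, Complex.sub_im, Complex.add_im, Complex.mul_im, zero_add, him, sub_zero]
    have := sq_le_sq.mpr hy
    nlinarith

lemma realZeros_of_vMono {f : ℝ[X]} (hf : VMono f) : RealZeros f := by
  by_cases h0 : f = 0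
  · exact Or.inl h0
  right
  intro z hz
  by_contra him
  apply h0
  have hzero : ∀ y : ℝ, |y| ≤ |z.im| → aeval ((z.re : ℂ) + y * Complex.I) f = 0 := by
    intro y hy
    have h := hf z.re y z.im hy
    rw [Complex.re_add_im, hz, norm_zero] at h
    exact norm_le_zero_iff.mp h
  set g : ℂ[X] := f.map (algebraMap ℝ ℂ) with hg
  have hev : ∀ z : ℂ, aeval z f = g.eval z := by
    intro z; rw [hg, eval_map_algebraMap]
  have hinf : Set.Infinite {w : ℂ | g.IsRoot w} := by
    have hI : (Set.Icc (0 : ℝ) |z.im|).Infinite := Set.Icc_infinite (abs_pos.mpr him)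
    have hinj : Set.InjOn (fun y : ℝ => (z.re : ℂ) + y * Complex.I) (Set.Icc (0 : ℝ) |z.im|) := by
      intro a _ b _ hab
      have := congrArg Complex.im hab
      simpa using this
    refine (hI.image hinj).mono ?_
    rintro w ⟨y, ⟨hy0, hy1⟩, rfl⟩
    show g.eval _ = 0
    rw [← hev]
    exact hzero y (by rw [abs_of_nonneg hy0]; exact hy1)
  have hg0 : g = 0 := by
    by_contra hne
    exact hinf ((g.roots.toFinset.finite_toSet).subset fun w hw => by
      simp only [Finset.mem_coe, Multiset.mem_toFinset, mem_roots hne]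
      exact hw)
  exact (Polynomial.map_eq_zero (algebraMap ℝ ℂ)).mp hg0

/-- Expansion of a polynomial in a simple set. -/
lemma exists_expansion {q : ℕ → ℝ[X]} (hq : IsSimpleSet q) :
    ∀ (n : ℕ) (f : ℝ[X]), f.degree < (n : WithBot ℕ) →
      ∃ c : ℕ → ℝ, (∀ i, n ≤ i → c i = 0) ∧ f = ∑ i ∈ range n, C (c i) * q i := by
  intro n
  induction n with
  | zero =>
    intro f hf
    refine ⟨fun _ => 0, fun _ _ => rfl, ?_⟩
    simp only [CharP.cast_eq_zero] at hf
    rw [sum_range_zero]
    by_contra h
    exact absurd (zero_le_degree_iff.mpr h) (not_le.mpr hf)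
  | succ n ih =>
    intro f hf
    have hqn : (q n).coeff n ≠ 0 := by
      have h1 : (q n).natDegree = n := natDegree_eq_of_degree_eq_some (hq n)
      have h2 : q n ≠ 0 := by
        intro h; have := hq n; rw [h, degree_zero] at this; exact absurd this (by simp)
      have h3 : (q n).leadingCoeff ≠ 0 := leadingCoeff_ne_zero.mpr h2
      rwa [leadingCoeff, h1] at h3
    set g := f - C (f.coeff n / (q n).coeff n) * q n with hg
    have hgdeg : g.degree < (n : WithBot ℕ) := by
      rw [degree_lt_iff_coeff_zero]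
      intro m hm
      rcases Nat.lt_or_ge n m with h | h
      · have h1 : f.coeff m = 0 := by
          refine coeff_eq_zero_of_degree_lt (hf.trans_le ?_)
          exact_mod_cast h
        have h2 : (q n).coeff m = 0 := by
          refine coeff_eq_zero_of_degree_lt ?_
          rw [hq n]
          exact_mod_cast h
        rw [hg, coeff_sub, coeff_C_mul, h1, h2]; simp
      · have : m = n := le_antisymm h hm
        subst this
        rw [hg, coeff_sub, coeff_C_mul, div_mul_cancel₀ _ hqn, sub_self]
    obtain ⟨c, hc0, hc⟩ := ih g hgdeg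
    refine ⟨fun i => if i = n then f.coeff n / (q n).coeff n else c i, ?_, ?_⟩
    · intro i hi
      have : ¬ i = n := by omega
      simp only [this, if_false]
      exact hc0 i (by omega)
    · rw [sum_range_succ]
      have e : ∑ i ∈ range n, C (if i = n then f.coeff n / (q n).coeff n else c i) * q i
          = ∑ i ∈ range n, C (c i) * q i := by
        refine sum_congr rfl fun i hi => ?_
        have := mem_range.mp hi
        rw [if_neg (by omega : ¬ i = n)]
      simp only [e, if_true, ← hc, hg]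
      ring

/-- Every `Q`-multiplier sequence is a classical multiplier sequence. -/
lemma MS_subset_classical {q : ℕ → ℝ[X]} (hq : IsSimpleSet q) : MS q ⊆ classicalMS := by
  intro γ hγ n a ha
  apply realZeros_of_vMono
  have hf := vMono_of_realZeros ha
  -- expansions of the monomials
  have hc : ∀ k : ℕ, ∃ c : ℕ → ℝ, (∀ i, k + 1 ≤ i → c i = 0) ∧
      (X : ℝ[X]) ^ k = ∑ i ∈ range (k + 1), C (c i) * q i := by
    intro k
    apply exists_expansion hq
    rw [degree_X_pow]
    exact_mod_cast Nat.lt_succ_self k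
  choose c hc0 hc using hc
  have hcn : ∀ k, k ≤ n → (X : ℝ[X]) ^ k = ∑ i ∈ range (n + 1), C (c k i) * q i := by
    intro k hk
    rw [hc k]
    refine sum_subset (range_mono (by omega)) ?_
    intro i _ hi
    rw [hc0 k i (by simpa using hi)]
    simp
  set T : ℕ → ℝ[X] := fun k => ∑ i ∈ range (n + 1), C (c k i * γ i) * q i with hT
  have hTcoeff : ∀ k, k ≤ n → ∀ m, (T k).coeff m = if k < m then 0 else
      if m = k then γ k else (T k).coeff m := by
    intro k hk m
    have hTk : T k = ∑ i ∈ range (k + 1), C (c k i * γ i) * q i := by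
      simp only [hT]
      symm
      refine sum_subset (range_mono (by omega)) ?_
      intro i _ hi
      rw [hc0 k i (by simpa using hi)]
      simp
    have hdeg : ∀ i m, i < m → (q i).coeff m = 0 := by
      intro i m him
      refine coeff_eq_zero_of_degree_lt ?_
      rw [hq i]
      exact_mod_cast him
    split_ifs with h1 h2
    · rw [hTk, finsetSum_coeff]
      refine sum_eq_zero fun i hi => ?_
      rw [coeff_C_mul, hdeg i m (by have := mem_range.mp hi; omega), mul_zero]
    · subst h2
      rw [hTk, finsetSum_coeff, sum_range_succ, sum_eq_zero, zero_add, coeff_C_mul]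
      · have h3 : ((X : ℝ[X]) ^ m).coeff m = c m m * (q m).coeff m := by
          rw [hc m, finsetSum_coeff, sum_range_succ, sum_eq_zero, zero_add, coeff_C_mul]
          intro i hi
          rw [coeff_C_mul, hdeg i m (mem_range.mp hi), mul_zero]
        rw [coeff_X_pow_self] at h3
        calc c m m * γ m * (q m).coeff m = γ m * (c m m * (q m).coeff m) := by ring
          _ = γ m := by rw [← h3, mul_one]
      · intro i hi
        rw [coeff_C_mul, hdeg i m (mem_range.mp hi), mul_zero]
    · rfl
  -- the scaled inequality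
  have key : ∀ s : ℝ, 0 < s → VMono (∑ k ∈ range (n + 1), C (a k * s ^ k) *
      (T k).comp (C s⁻¹ * X)) := by
    intro s hs
    have hs0 : s ≠ 0 := hs.ne'
    -- f(s x) in the basis q
    have h1 : RealZeros (∑ i ∈ range (n + 1),
        C (∑ k ∈ range (n + 1), a k * s ^ k * c k i) * q i) := by
      have e : ∑ i ∈ range (n + 1), C (∑ k ∈ range (n + 1), a k * s ^ k * c k i) * q i
          = (∑ k ∈ range (n + 1), C (a k) * X ^ k).comp (C s * X) := by
        have e1 : (∑ k ∈ range (n + 1), C (a k) * X ^ k).comp (C s * X)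
            = ∑ k ∈ range (n + 1), C (a k * s ^ k) * X ^ k := by
          rw [Polynomial.sum_comp]
          refine sum_congr rfl fun k _ => ?_
          rw [mul_comp, C_comp, X_pow_comp, mul_pow, C_mul, C_pow]; ring
        rw [e1]
        have e3 : ∑ k ∈ range (n + 1), C (a k * s ^ k) * (X : ℝ[X]) ^ k
            = ∑ k ∈ range (n + 1), ∑ i ∈ range (n + 1), C (a k * s ^ k) * (C (c k i) * q i) := by
          refine sum_congr rfl fun k hk => ?_
          rw [hcn k (by have := mem_range.mp hk; omega), mul_sum]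
        rw [e3, sum_comm]
        refine sum_congr rfl fun i _ => ?_
        rw [map_sum, sum_mul]
        refine sum_congr rfl fun k _ => ?_
        simp only [C_mul]; ring
      rw [e]
      apply realZeros_of_vMono
      intro x y₁ y₂ hy
      have := hf (s * x) (s * y₁) (s * y₂) (by
        rw [abs_mul, abs_mul]; exact mul_le_mul_of_nonneg_left hy (abs_nonneg _))
      simp only [aeval_comp, map_mul, aeval_C, aeval_X, Complex.coe_algebraMap] at this ⊢
      have hh : ∀ y : ℝ, (s : ℂ) * ((x : ℂ) + y * Complex.I)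
          = ((s * x : ℝ) : ℂ) + ((s * y : ℝ) : ℂ) * Complex.I := by
        intro y; push_cast; ring
      rw [hh, hh]
      exact this
    have h2 := vMono_of_realZeros (hγ n _ h1)
    have e2 : ∑ i ∈ range (n + 1), C ((∑ k ∈ range (n + 1), a k * s ^ k * c k i) * γ i) * q i
        = ∑ k ∈ range (n + 1), C (a k * s ^ k) * T k := by
      simp only [hT, mul_sum]
      rw [sum_comm]
      refine sum_congr rfl fun i _ => ?_
      rw [sum_mul, map_sum, sum_mul]
      refine sum_congr rfl fun k _ => ?_
      simp only [C_mul]; ring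
    rw [e2] at h2
    intro x y₁ y₂ hy
    have := h2 (s⁻¹ * x) (s⁻¹ * y₁) (s⁻¹ * y₂) (by
      rw [abs_mul, abs_mul]; exact mul_le_mul_of_nonneg_left hy (abs_nonneg _))
    simp only [map_sum, map_mul, aeval_comp, aeval_C, aeval_X, Complex.coe_algebraMap] at this ⊢
    have hh : ∀ y : ℝ, ((s⁻¹ : ℝ) : ℂ) * ((x : ℂ) + y * Complex.I)
        = ((s⁻¹ * x : ℝ) : ℂ) + ((s⁻¹ * y : ℝ) : ℂ) * Complex.I := by
      intro y; push_cast; ring
    rw [hh, hh]
    exact this
  -- pass to the limit s → 0
  have hlim : ∀ z : ℂ, Filter.Tendsto (fun s : ℝ => aeval z (∑ k ∈ range (n + 1),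
      C (a k * s ^ k) * (T k).comp (C s⁻¹ * X))) (nhdsWithin 0 (Set.Ioi 0))
      (nhds (aeval z (∑ k ∈ range (n + 1), C (a k * γ k) * (X : ℝ[X]) ^ k))) := by
    intro z
    simp only [map_sum, map_mul, aeval_comp, aeval_C, aeval_X, Complex.coe_algebraMap, map_pow]
    refine tendsto_finsetSum _ fun k hk => ?_
    have hkn : k ≤ n := by have := mem_range.mp hk; omega
    have hTdeg : (T k).natDegree < k + 1 := by
      rw [Nat.lt_succ_iff, natDegree_le_iff_coeff_eq_zero]
      intro m hm
      rw [hTcoeff k hkn m, if_pos hm]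
    have e : ∀ s : ℝ, 0 < s → (a k * s ^ k : ℝ) * aeval (((s⁻¹ : ℝ) : ℂ) * z) (T k)
        = ∑ m ∈ range (k + 1), ((a k : ℂ) * ((T k).coeff m : ℂ) * z ^ m) * (s : ℂ) ^ (k - m) := by
      intro s hs
      rw [aeval_eq_sum_range' hTdeg, mul_sum]
      refine sum_congr rfl fun m hm => ?_
      have hmk : m ≤ k := by have := mem_range.mp hm; omega
      have hs0 : (s : ℂ) ≠ 0 := by exact_mod_cast hs.ne'
      have : (s : ℂ) ^ k = (s : ℂ) ^ m * (s : ℂ) ^ (k - m) := by
        rw [← pow_add]; congr 1; omega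
      rw [Complex.real_smul, mul_pow]
      push_cast
      rw [this, inv_pow]
      field_simp
    have e' : (fun s : ℝ => ((a k : ℂ) * (s : ℂ) ^ k) * aeval (((s⁻¹ : ℝ) : ℂ) * z) (T k))
        =ᶠ[nhdsWithin 0 (Set.Ioi 0)]
        fun s : ℝ => ∑ m ∈ range (k + 1),
          ((a k : ℂ) * ((T k).coeff m : ℂ) * z ^ m) * (s : ℂ) ^ (k - m) := by
      filter_upwards [self_mem_nhdsWithin] with s hs
      have := e s hs
      push_cast at this ⊢
      exact this
    have e'' : (fun s : ℝ => (((a k : ℝ) : ℂ) * ((s : ℝ) : ℂ) ^ k) *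
        aeval (((s⁻¹ : ℝ) : ℂ) * z) (T k)) =ᶠ[nhdsWithin 0 (Set.Ioi 0)]
        fun s : ℝ => ∑ m ∈ range (k + 1),
          ((a k : ℂ) * ((T k).coeff m : ℂ) * z ^ m) * (s : ℂ) ^ (k - m) := e'
    refine Filter.Tendsto.congr' e''.symm ?_
    have hval : (a k : ℂ) * (γ k : ℂ) * z ^ k
        = ∑ m ∈ range (k + 1), ((a k : ℂ) * ((T k).coeff m : ℂ) * z ^ m) * ((0 : ℝ) : ℂ) ^ (k - m) := by
      rw [sum_range_succ, sum_eq_zero, zero_add, Nat.sub_self, pow_zero, mul_one,
        hTcoeff k hkn k, if_neg (lt_irrefl k), if_pos rfl]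
      intro m hm
      have : k - m ≠ 0 := by have := mem_range.mp hm; omega
      rw [Complex.ofReal_zero, zero_pow this, mul_zero]
    rw [hval]
    refine tendsto_finsetSum _ fun m _ => ?_
    refine Filter.Tendsto.mul tendsto_const_nhds ?_
    refine Filter.Tendsto.mono_left ?_ nhdsWithin_le_nhds
    exact ((Complex.continuous_ofReal.pow _).tendsto 0)
  intro x y₁ y₂ hy
  refine le_of_tendsto_of_tendsto (hlim _).norm (hlim _).norm ?_
  filter_upwards [self_mem_nhdsWithin] with s hs
  exact key s hs x y₁ y₂ hy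

/-- The sequence `(0, …, 0, 1, 0, …)` with the `1` in position `j` is in `MS q` if `q j = X ^ j`. -/
lemma single_mem {q : ℕ → ℝ[X]} {j : ℕ} (hj : q j = X ^ j) :
    (fun k => if k = j then (1 : ℝ) else 0) ∈ MS q := by
  intro n a _
  have e : ∑ k ∈ range (n + 1), C (a k * if k = j then (1 : ℝ) else 0) * q k
      = if j < n + 1 then C (a j) * X ^ j else 0 := by
    rw [sum_congr rfl fun k _ => show C (a k * if k = j then (1 : ℝ) else 0) * q k
      = if k = j then C (a j) * X ^ j else 0 by
        split_ifs with h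
        · subst h; rw [mul_one, hj]
        · simp]
    rw [sum_ite_eq']
    simp
  rw [e]
  split_ifs with h
  · by_cases ha : a j = 0
    · left; simp [ha]
    · right
      intro z hz
      simp only [map_mul, aeval_C, map_pow, aeval_X, Complex.coe_algebraMap, mul_eq_zero,
        Complex.ofReal_eq_zero, ha, false_or] at hz
      have hz0 : z = 0 := by
        by_contra hne
        exact pow_ne_zero j hne hz
      rw [hz0]; simp
  · left; rfl

/-- `1 + x + ⋯ + x^j` has a nonreal zero when `j ≥ 2`. -/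
lemma not_realZeros_geom {j : ℕ} (hj : 2 ≤ j) :
    ¬ RealZeros (∑ i ∈ range (j + 1), (X : ℝ[X]) ^ i) := by
  rintro (h | h)
  · have := degree_geom j
    rw [h, degree_zero] at this
    exact absurd this (by simp)
  · set z : ℂ := Complex.exp (2 * Real.pi * Complex.I / (j + 1 : ℕ)) with hz
    have hprim : IsPrimitiveRoot z (j + 1) := Complex.isPrimitiveRoot_exp (j + 1) (by omega)
    have hroot : aeval z (∑ i ∈ range (j + 1), (X : ℝ[X]) ^ i) = 0 := by
      simp only [map_sum, map_pow, aeval_X]
      exact hprim.geom_sum_eq_zero (by omega)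
    have him := h z hroot
    have h1 : z = Complex.exp (((2 * Real.pi / (j + 1 : ℕ) : ℝ) : ℂ) * Complex.I) := by
      rw [hz]; congr 1; push_cast; ring
    rw [h1, Complex.exp_ofReal_mul_I_im] at him
    have hpos : 0 < Real.sin (2 * Real.pi / (j + 1 : ℕ)) := by
      apply Real.sin_pos_of_pos_of_lt_pi
      · have := Real.pi_pos; positivity
      · rw [div_lt_iff₀ (by positivity)]
        have : (2 : ℝ) < ((j + 1 : ℕ) : ℝ) := by exact_mod_cast (by omega : 2 < j + 1)
        nlinarith [Real.pi_pos]
    exact hpos.ne' him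

/-- The sequence `(0, …, 0, 1, 0, …)` with the `1` in position `j ≥ 2` is not a
`P_j`-multiplier sequence. -/
lemma single_not_mem {j : ℕ} (hj : 2 ≤ j) :
    (fun k => if k = j then (1 : ℝ) else 0) ∉ MS (P j) := by
  intro hmem
  set a : ℕ → ℝ := fun k => if k = j then 1 else if k + 1 = j then -1 else 0 with ha
  obtain ⟨m, rfl⟩ : ∃ m, j = m + 1 := ⟨j - 1, by omega⟩
  have e1 : ∑ k ∈ range (m + 1 + 1), C (a k) * P (m + 1) k = X ^ (m + 1) := by
    rw [sum_range_succ, sum_range_succ, sum_eq_zero, zero_add]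
    · have h1 : a m = -1 := by simp [ha]
      have h2 : a (m + 1) = 1 := by simp [ha]
      rw [h1, h2, P_le (Nat.le_succ m), P_le le_rfl]
      rw [sum_range_succ _ (m + 1)]
      simp
    · intro k hk
      have := mem_range.mp hk
      simp only [ha]
      rw [if_neg (by omega), if_neg (by omega)]
      simp
  have h := hmem (m + 1) a (by
    rw [e1]
    right
    intro z hz
    simp only [map_pow, aeval_X] at hz
    have hz0 : z = 0 := by
      by_contra hne
      exact pow_ne_zero _ hne hz
    rw [hz0]; simp)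
  have e2 : ∑ k ∈ range (m + 1 + 1), C (a k * if k = m + 1 then (1 : ℝ) else 0) * P (m + 1) k
      = ∑ i ∈ range (m + 1 + 1), (X : ℝ[X]) ^ i := by
    rw [sum_range_succ, sum_eq_zero, zero_add]
    · rw [P_le le_rfl]
      simp only [ha]
      simp
    · intro k hk
      have := mem_range.mp hk
      rw [if_neg (by omega)]
      simp
  rw [e2] at h
  exact not_realZeros_geom hj h

/-- The sets `(P_j)_MS`, `j ≥ 1`, are pairwise different. -/
lemma P_distinct_of_lt {i j : ℕ} (hi : 1 ≤ i) (hij : i < j) :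
    ∃ γ, γ ∈ MS (P i) ∧ γ ∉ MS (P j) :=
  ⟨_, single_mem (P_gt hij), single_not_mem (by omega)⟩

/-- `{2^k}` is a classical multiplier sequence. -/
lemma two_pow_mem_classical : (fun k => (2 : ℝ) ^ k) ∈ classicalMS := by
  intro n a ha
  apply realZeros_of_vMono
  have hf := vMono_of_realZeros ha
  have e1 : ∑ k ∈ range (n + 1), C (a k * (2 : ℝ) ^ k) * (X : ℝ[X]) ^ k
      = (∑ k ∈ range (n + 1), C (a k) * X ^ k).comp (C 2 * X) := by
    rw [Polynomial.sum_comp]
    refine sum_congr rfl fun k _ => ?_
    rw [mul_comp, C_comp, X_pow_comp, mul_pow, C_mul, C_pow]; ring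
  rw [e1]
  intro x y₁ y₂ hy
  have := hf (2 * x) (2 * y₁) (2 * y₂) (by
    rw [abs_mul, abs_mul]; exact mul_le_mul_of_nonneg_left hy (abs_nonneg _))
  simp only [aeval_comp, map_mul, aeval_C, aeval_X, Complex.coe_algebraMap] at this ⊢
  have hh : ∀ y : ℝ, ((2 : ℝ) : ℂ) * ((x : ℂ) + y * Complex.I)
      = ((2 * x : ℝ) : ℂ) + ((2 * y : ℝ) : ℂ) * Complex.I := by
    intro y; push_cast; ring
  rw [hh, hh]
  exact this

lemma not_realZeros_quadratic {b c : ℝ} (h : b ^ 2 - 16 * c < 0) :
    ¬ RealZeros (C 4 * X ^ 2 + C b * X + C c : ℝ[X]) := by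
  rintro (h0 | h0)
  · have := congrArg (fun p : ℝ[X] => p.coeff 2) h0
    simp at this
  · set t : ℝ := Real.sqrt (16 * c - b ^ 2) with ht
    have htpos : 0 < t := Real.sqrt_pos.mpr (by linarith)
    have ht2 : t ^ 2 = 16 * c - b ^ 2 := Real.sq_sqrt (by linarith)
    have hz := h0 (((-b / 8 : ℝ) : ℂ) + ((t / 8 : ℝ) : ℂ) * Complex.I) (by
      simp only [map_add, map_mul, map_pow, aeval_C, aeval_X, Complex.coe_algebraMap]
      have hI : Complex.I ^ 2 = -1 := Complex.I_sq
      have ht2' : ((t : ℝ) : ℂ) ^ 2 = 16 * c - b ^ 2 := by exact_mod_cast ht2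
      push_cast
      linear_combination (4 * (t / 8 : ℂ) ^ 2) * hI - (1 / 16 : ℂ) * ht2')
    simp at hz
    exact htpos.ne' hz

/-- `{2^k}` is in none of the sets `(P_j)_MS`, `j ≥ 1`. -/
lemma two_pow_not_mem {j : ℕ} (hj : 1 ≤ j) : (fun k => (2 : ℝ) ^ k) ∉ MS (P j) := by
  intro hmem
  rcases Nat.lt_or_ge 1 j with h2 | h2
  · -- j ≥ 2 : f = x^2 = p_2 - p_1
    set a : ℕ → ℝ := fun k => if k = 2 then 1 else if k = 1 then -1 else 0 with ha
    have hP2 : P j 2 = 1 + X + X ^ 2 := by
      rw [P_le (by omega)]; simp [sum_range_succ]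
    have hP1 : P j 1 = 1 + X := by
      rw [P_le (by omega)]; simp [sum_range_succ]
    have e1 : ∑ k ∈ range (2 + 1), C (a k) * P j k = X ^ 2 := by
      simp [sum_range_succ, ha, hP1, hP2]
      ring
    have h := hmem 2 a (by
      rw [e1]
      right
      intro z hz
      simp only [map_pow, aeval_X] at hz
      have hz0 : z = 0 := by
        by_contra hne
        exact pow_ne_zero _ hne hz
      rw [hz0]; simp)
    have e2 : ∑ k ∈ range (2 + 1), C (a k * (2 : ℝ) ^ k) * P j k = C 4 * X ^ 2 + C 2 * X + C 2 := by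
      have e4 : (C (4 : ℝ)) = C 2 + C 2 := by rw [← C_add]; norm_num
      have e22 : (C ((2 : ℝ) ^ 2)) = C 2 + C 2 := by rw [← C_add]; norm_num
      simp only [sum_range_succ, range_zero, sum_empty, ha, hP1, hP2]
      simp only [show ¬ (0 : ℕ) = 2 by norm_num, show ¬ (0 : ℕ) = 1 by norm_num,
        show ¬ (1 : ℕ) = 2 by norm_num, if_true, if_false, zero_mul, one_mul, C_0, e22, e4,
        pow_one, neg_mul, C_neg]
      ring
    simp only at h
    rw [e2] at h
    exact not_realZeros_quadratic (by norm_num) h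
  · -- j = 1 : f = (x+1)^2 = p_2 + 2 p_1 - p_0
    have hj1 : j = 1 := le_antisymm h2 hj
    subst hj1
    set a : ℕ → ℝ := fun k => if k = 2 then 1 else if k = 1 then 2 else -1 with ha
    have hP2 : P 1 2 = X ^ 2 := P_gt (by omega)
    have hP1 : P 1 1 = 1 + X := by
      rw [P_le (by omega)]; simp [sum_range_succ]
    have hP0 : P 1 0 = 1 := by
      rw [P_le (by omega)]; simp
    have e1 : ∑ k ∈ range (2 + 1), C (a k) * P 1 k = (X + C 1) ^ 2 := by
      have e22 : (C (2 : ℝ)) = 1 + 1 := by rw [← C_1, ← C_add]; norm_num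
      simp only [sum_range_succ, range_zero, sum_empty, ha, hP1, hP2, hP0]
      simp only [show ¬ (0 : ℕ) = 2 by norm_num, show ¬ (0 : ℕ) = 1 by norm_num,
        show ¬ (1 : ℕ) = 2 by norm_num, if_true, if_false, C_neg, C_1, e22]
      ring
    have h := hmem 2 a (by
      rw [e1]
      right
      intro z hz
      simp only [map_pow, map_add, aeval_X, aeval_C, Complex.coe_algebraMap] at hz
      have hz0 : z + ((1 : ℝ) : ℂ) = 0 := by
        by_contra hne
        exact pow_ne_zero _ hne hz
      have := congrArg Complex.im hz0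
      simpa using this)
    have e2 : ∑ k ∈ range (2 + 1), C (a k * (2 : ℝ) ^ k) * P 1 k = C 4 * X ^ 2 + C 4 * X + C 3 := by
      have e22 : (C ((2 : ℝ) ^ 2)) = C 4 := by norm_num
      have e4 : (C (2 : ℝ)) * C 2 = C 4 := by rw [← C_mul]; norm_num
      have e3 : (C (3 : ℝ)) = C 4 - 1 := by rw [← C_1, ← C_sub]; norm_num
      simp only [sum_range_succ, range_zero, sum_empty, ha, hP1, hP2, hP0]
      simp only [show ¬ (0 : ℕ) = 2 by norm_num, show ¬ (0 : ℕ) = 1 by norm_num,
        show ¬ (1 : ℕ) = 2 by norm_num, if_true, if_false, pow_zero, pow_one, mul_one, one_mul,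
        C_neg, C_1, C_mul, e22, e4, e3]
      ring
    simp only at h
    rw [e2] at h
    exact not_realZeros_quadratic (by norm_num) h

end Pool.Agent.H88.MultSeq
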