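import Mathlib
import Pool.Agent.H93.RHLimit

/-! The base case in Gauss space: from the inequality for the Ornstein–Uhlenbeck operator (one
exponent `p`, one constant `c`) to the dilation inequality for multilinear polynomials in standard
Gaussian variables (helper88; for Q2 of MP_b4c0b6_an, the case `1 < p < 2`). -/

set_option autoImplicit false

open MeasureTheory Finset Filter ProbabilityTheory
open scoped ENNReal

namespace Pool.Agent.H88.RH
open Pool.Agent.H93.RH

/-- The inequality of Q2 for one exponent `p` and one constant `c`. -/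
def OUIneq (p c : ℝ) : Prop :=
  ∀ (n d : ℕ) (f : MvPolynomial (Fin n) ℝ), f.totalDegree ≤ d →
    eLpNorm (fun x : Fin n → ℝ =>
        ∑ i, (MvPolynomial.eval x (MvPolynomial.pderiv i (MvPolynomial.pderiv i f)) -
          x i * MvPolynomial.eval x (MvPolynomial.pderiv i f)))
        (ENNReal.ofReal p) (Measure.pi fun _ => gaussianReal 0 1)
      ≤ ENNReal.ofReal (c * d) *
        eLpNorm (fun x : Fin n → ℝ => MvPolynomial.eval x f) (ENNReal.ofReal p)
          (Measure.pi fun _ => gaussianReal 0 1)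

/-- The multilinear polynomial as an `MvPolynomial`. -/
noncomputable def toMv {n : ℕ} (a : Finset (Fin n) → ℝ) : MvPolynomial (Fin n) ℝ :=
  ∑ S : Finset (Fin n), MvPolynomial.C (a S) * ∏ i ∈ S, MvPolynomial.X i

theorem eval_toMv {n : ℕ} (a : Finset (Fin n) → ℝ) (x : Fin n → ℝ) :
    MvPolynomial.eval x (toMv a) = ml a x := by
  simp [toMv, ml, map_sum, map_prod]

theorem pderiv_prod_X {n : ℕ} (i : Fin n) (S : Finset (Fin n)) :
    MvPolynomial.pderiv i (∏ j ∈ S, MvPolynomial.X j : MvPolynomial (Fin n) ℝ) =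
      if i ∈ S then ∏ j ∈ S.erase i, MvPolynomial.X j else 0 := by
  induction S using Finset.induction_on with
  | empty => simp
  | insert j S hj ih =>
    rw [Finset.prod_insert hj, MvPolynomial.pderiv_mul, ih]
    by_cases hij : i = j
    · subst hij
      rw [MvPolynomial.pderiv_X_self, if_neg hj, if_pos (Finset.mem_insert_self _ _),
        Finset.erase_insert hj]
      ring
    · rw [MvPolynomial.pderiv_X_of_ne (Ne.symm hij)]
      by_cases hi : i ∈ S
      · rw [if_pos hi, if_pos (Finset.mem_insert_of_mem hi),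
          Finset.erase_insert_of_ne (Ne.symm hij), Finset.prod_insert (by
            simp [hj])]
        ring
      · rw [if_neg hi, if_neg (by simp [hi, hij])]
        ring

theorem pderiv_toMv {n : ℕ} (i : Fin n) (a : Finset (Fin n) → ℝ) :
    MvPolynomial.pderiv i (toMv a) =
      ∑ S : Finset (Fin n), MvPolynomial.C (a S) *
        (if i ∈ S then ∏ j ∈ S.erase i, MvPolynomial.X j else 0) := by
  unfold toMv
  rw [map_sum]
  refine Finset.sum_congr rfl fun S _ => ?_
  rw [MvPolynomial.pderiv_C_mul, pderiv_prod_X]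

theorem pderiv2_toMv {n : ℕ} (i : Fin n) (a : Finset (Fin n) → ℝ) :
    MvPolynomial.pderiv i (MvPolynomial.pderiv i (toMv a)) = 0 := by
  rw [pderiv_toMv, map_sum]
  refine Finset.sum_eq_zero fun S _ => ?_
  rw [MvPolynomial.pderiv_C_mul]
  split_ifs with h
  · rw [pderiv_prod_X, if_neg (Finset.notMem_erase i S), mul_zero]
  · simp

theorem ou_toMv {n : ℕ} (a : Finset (Fin n) → ℝ) (x : Fin n → ℝ) :
    ∑ i, (MvPolynomial.eval x (MvPolynomial.pderiv i (MvPolynomial.pderiv i (toMv a))) -
          x i * MvPolynomial.eval x (MvPolynomial.pderiv i (toMv a))) =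
      - ml (fun S => (S.card : ℝ) * a S) x := by
  simp_rw [pderiv2_toMv, map_zero, zero_sub, Finset.sum_neg_distrib]
  congr 1
  simp_rw [pderiv_toMv, map_sum, map_mul, MvPolynomial.eval_C, Finset.mul_sum]
  rw [Finset.sum_comm]
  unfold ml
  refine Finset.sum_congr rfl fun S _ => ?_
  have h1 : ∀ i : Fin n, x i * (a S * MvPolynomial.eval x
      (if i ∈ S then ∏ j ∈ S.erase i, MvPolynomial.X j else 0)) =
      if i ∈ S then a S * ∏ j ∈ S, x j else 0 := by
    intro i
    split_ifs with h
    · rw [map_prod]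
      simp_rw [MvPolynomial.eval_X]
      rw [← Finset.mul_prod_erase S x h]
      ring
    · simp
  simp_rw [h1]
  rw [Finset.sum_ite_mem, Finset.univ_inter, Finset.sum_const, nsmul_eq_mul]
  ring

theorem totalDegree_toMv {n d : ℕ} (a : Finset (Fin n) → ℝ) (ha : ∀ S, d < S.card → a S = 0) :
    (toMv a).totalDegree ≤ d := by
  unfold toMv
  refine MvPolynomial.totalDegree_finsetSum_le fun S _ => ?_
  by_cases h : d < S.card
  · rw [ha S h]; simp
  · refine (MvPolynomial.totalDegree_mul _ _).trans ?_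
    rw [MvPolynomial.totalDegree_C, zero_add]
    refine (MvPolynomial.totalDegree_finsetProd _ _).trans ?_
    simp only [MvPolynomial.totalDegree_X, Finset.sum_const, smul_eq_mul, mul_one]
    omega

theorem memLp_id_gauss {p : ℝ} : MemLp (fun y : ℝ => y) (ENNReal.ofReal p) (gaussianReal 0 1) := by
  have h := memLp_id_gaussianReal (μ := 0) (v := 1) (Real.toNNReal p)
  exact h

theorem memLp_mlg {ι : Type} [Fintype ι] {p : ℝ} (hp : 0 < p) (a : Finset ι → ℝ) :
    MemLp (fun x : ι → ℝ => ml a x) (ENNReal.ofReal p)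
      (Measure.pi fun _ => gaussianReal 0 1) :=
  memLp_ml (μ := gaussianReal 0 1) hp (v := fun y => y) measurable_id memLp_id_gauss a

/-- the inequality in terms of `lpNorm` -/
theorem ou_lp {p c : ℝ} (hp : 0 < p) (hc : 0 ≤ c) (h : OUIneq p c) {n d : ℕ}
    (a : Finset (Fin n) → ℝ) (ha : ∀ S, d < S.card → a S = 0) :
    lpNorm (fun x : Fin n → ℝ => ml (fun S => (S.card : ℝ) * a S) x)
      (ENNReal.ofReal p) (Measure.pi fun _ => gaussianReal 0 1) ≤
    c * d * lpNorm (fun x : Fin n → ℝ => ml a x) (ENNReal.ofReal p)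
      (Measure.pi fun _ => gaussianReal 0 1) := by
  have h1 := h n d (toMv a) (totalDegree_toMv a ha)
  simp_rw [ou_toMv, eval_toMv] at h1
  have h2 : eLpNorm (fun x : Fin n → ℝ => -ml (fun S => (S.card : ℝ) * a S) x)
      (ENNReal.ofReal p) (Measure.pi fun _ => gaussianReal 0 1) =
      eLpNorm (fun x : Fin n → ℝ => ml (fun S => (S.card : ℝ) * a S) x)
      (ENNReal.ofReal p) (Measure.pi fun _ => gaussianReal 0 1) := eLpNorm_neg
        (fun x : Fin n → ℝ => ml (fun S => (S.card : ℝ) * a S) x) _ _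
  rw [h2] at h1
  have m1 := memLp_mlg (ι := Fin n) hp a
  have m2 := memLp_mlg (ι := Fin n) hp (fun S => (S.card : ℝ) * a S)
  have h3 := ENNReal.toReal_mono (ENNReal.mul_ne_top ENNReal.ofReal_ne_top m1.eLpNorm_ne_top) h1
  rw [ENNReal.toReal_mul, toReal_eLpNorm m1.aestronglyMeasurable,
    toReal_eLpNorm m2.aestronglyMeasurable, ENNReal.toReal_ofReal (by positivity)] at h3
  exact h3

theorem ou_pow {p c : ℝ} (hp : 0 < p) (hc : 0 ≤ c) (h : OUIneq p c) {n d : ℕ}
    (a : Finset (Fin n) → ℝ) (ha : ∀ S, d < S.card → a S = 0) (k : ℕ) :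
    lpNorm (fun x : Fin n → ℝ => ml (fun S => (S.card : ℝ) ^ k * a S) x)
      (ENNReal.ofReal p) (Measure.pi fun _ => gaussianReal 0 1) ≤
    (c * d) ^ k * lpNorm (fun x : Fin n → ℝ => ml a x) (ENNReal.ofReal p)
      (Measure.pi fun _ => gaussianReal 0 1) := by
  induction k with
  | zero => simp
  | succ k ih =>
    have h1 := ou_lp hp hc h (fun S => (S.card : ℝ) ^ k * a S) (d := d) (fun S hS => by
      simp [ha S hS])
    have e : (fun S : Finset (Fin n) => (S.card : ℝ) * ((S.card : ℝ) ^ k * a S)) =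
        fun S => (S.card : ℝ) ^ (k + 1) * a S := by
      ext S; ring
    rw [e] at h1
    refine h1.trans ?_
    calc c * d * _ ≤ c * d * ((c * d) ^ k * _) := mul_le_mul_of_nonneg_left ih (by positivity)
      _ = _ := by ring

theorem ou_exp {p c : ℝ} (hp : 1 ≤ p) (hc : 0 ≤ c) (h : OUIneq p c) {n d : ℕ}
    (a : Finset (Fin n) → ℝ) (ha : ∀ S, d < S.card → a S = 0) {t : ℝ} (ht : 0 ≤ t) :
    lpNorm (fun x : Fin n → ℝ => ml (fun S => Real.exp (t * S.card) * a S) x)
      (ENNReal.ofReal p) (Measure.pi fun _ => gaussianReal 0 1) ≤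
    Real.exp (t * (c * d)) * lpNorm (fun x : Fin n → ℝ => ml a x)
      (ENNReal.ofReal p) (Measure.pi fun _ => gaussianReal 0 1) := by
  have hp0 : 0 < p := by linarith
  have hp1 : (1 : ℝ≥0∞) ≤ ENNReal.ofReal p := by
    rw [← ENNReal.ofReal_one]; exact ENNReal.ofReal_le_ofReal hp
  set N := lpNorm (fun x : Fin n → ℝ => ml a x) (ENNReal.ofReal p)
      (Measure.pi fun _ => gaussianReal 0 1) with hN
  have hN0 : 0 ≤ N := lpNorm_nonneg
  -- partial sums
  have key : ∀ K : ℕ, lpNorm (fun x : Fin n → ℝ =>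
      ml (fun S => (∑ k ∈ range K, (t * S.card) ^ k / k.factorial) * a S) x)
      (ENNReal.ofReal p) (Measure.pi fun _ => gaussianReal 0 1) ≤ Real.exp (t * (c * d)) * N := by
    intro K
    have e : (fun x : Fin n → ℝ =>
        ml (fun S => (∑ k ∈ range K, (t * S.card) ^ k / k.factorial) * a S) x) =
        ∑ k ∈ range K, (t ^ k / k.factorial) • (fun x : Fin n → ℝ =>
          ml (fun S => (S.card : ℝ) ^ k * a S) x) := by
      ext x
      rw [Finset.sum_apply]
      simp only [Pi.smul_apply, smul_eq_mul]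
      unfold ml
      simp_rw [Finset.mul_sum, Finset.sum_mul]
      rw [Finset.sum_comm]
      apply Finset.sum_congr rfl
      intro k _
      apply Finset.sum_congr rfl
      intro S _
      rw [mul_pow]
      ring
    rw [e]
    refine (lpNorm_sum_le (fun k _ => (memLp_mlg hp0 _).const_smul _) hp1).trans ?_
    calc ∑ k ∈ range K, lpNorm ((t ^ k / k.factorial) • (fun x : Fin n → ℝ =>
          ml (fun S => (S.card : ℝ) ^ k * a S) x)) (ENNReal.ofReal p)
          (Measure.pi fun _ => gaussianReal 0 1)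
        ≤ ∑ k ∈ range K, (t * (c * d)) ^ k / k.factorial * N := by
          apply Finset.sum_le_sum
          intro k _
          rw [lpNorm_const_smul]
          have h1 := ou_pow hp0 hc h a ha k
          have h2 : ((‖t ^ k / (k.factorial : ℝ)‖₊ : NNReal) : ℝ) = t ^ k / k.factorial := by
            rw [coe_nnnorm, Real.norm_of_nonneg (by positivity)]
          rw [h2]
          calc t ^ k / k.factorial * _ ≤ t ^ k / k.factorial * ((c * d) ^ k * N) :=
                mul_le_mul_of_nonneg_left h1 (by positivity)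
            _ = _ := by rw [mul_pow]; ring
      _ = (∑ k ∈ range K, (t * (c * d)) ^ k / k.factorial) * N := by rw [Finset.sum_mul]
      _ ≤ _ := mul_le_mul_of_nonneg_right (Real.sum_le_exp_of_nonneg (by positivity) K) hN0
  -- the remainder
  have hexp : ∀ z : ℝ, Tendsto (fun K : ℕ => ∑ k ∈ range K, z ^ k / k.factorial) atTop
      (nhds (Real.exp z)) := by
    intro z
    have h1 := NormedSpace.expSeries_div_hasSum_exp (𝔸 := ℝ) z
    rw [← Real.exp_eq_exp_ℝ] at h1
    exact h1.tendsto_sum_nat
  have key2 : ∀ K : ℕ, lpNorm (fun x : Fin n → ℝ => ml (fun S => Real.exp (t * S.card) * a S) x)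
      (ENNReal.ofReal p) (Measure.pi fun _ => gaussianReal 0 1) ≤
      Real.exp (t * (c * d)) * N + ∑ S : Finset (Fin n),
        |(Real.exp (t * S.card) - ∑ k ∈ range K, (t * S.card) ^ k / k.factorial) * a S| *
        lpNorm (fun x : Fin n → ℝ => ∏ i ∈ S, x i) (ENNReal.ofReal p)
          (Measure.pi fun _ => gaussianReal 0 1) := by
    intro K
    have e : (fun x : Fin n → ℝ => ml (fun S => Real.exp (t * S.card) * a S) x) =
        (fun x : Fin n → ℝ =>
          ml (fun S => (∑ k ∈ range K, (t * S.card) ^ k / k.factorial) * a S) x) +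
        ∑ S : Finset (Fin n),
          ((Real.exp (t * S.card) - ∑ k ∈ range K, (t * S.card) ^ k / k.factorial) * a S) •
          (fun x : Fin n → ℝ => ∏ i ∈ S, x i) := by
      ext x
      simp only [Pi.add_apply, Finset.sum_apply, Pi.smul_apply, smul_eq_mul]
      unfold ml
      rw [← Finset.sum_add_distrib]
      refine Finset.sum_congr rfl fun S _ => by ring
    have hm : ∀ S : Finset (Fin n), MemLp (fun x : Fin n → ℝ => ∏ i ∈ S, x i) (ENNReal.ofReal p)
        (Measure.pi fun _ => gaussianReal 0 1) := fun S =>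
      memLp_monomial (μ := gaussianReal 0 1) hp0 (v := fun y => y) measurable_id
        memLp_id_gauss S
    rw [e]
    refine (lpNorm_add_le (memLp_mlg hp0 _) hp1).trans (add_le_add (key K) ?_)
    refine (lpNorm_sum_le (fun S _ => (hm S).const_smul _) hp1).trans ?_
    refine Finset.sum_le_sum fun S _ => ?_
    rw [lpNorm_const_smul, coe_nnnorm, Real.norm_eq_abs]
  have hlim : Tendsto (fun K : ℕ => Real.exp (t * (c * d)) * N + ∑ S : Finset (Fin n),
        |(Real.exp (t * S.card) - ∑ k ∈ range K, (t * S.card) ^ k / k.factorial) * a S| *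
        lpNorm (fun x : Fin n → ℝ => ∏ i ∈ S, x i) (ENNReal.ofReal p)
          (Measure.pi fun _ => gaussianReal 0 1)) atTop
      (nhds (Real.exp (t * (c * d)) * N + ∑ S : Finset (Fin n),
        |(Real.exp (t * S.card) - Real.exp (t * S.card)) * a S| *
        lpNorm (fun x : Fin n → ℝ => ∏ i ∈ S, x i) (ENNReal.ofReal p)
          (Measure.pi fun _ => gaussianReal 0 1))) := by
    refine tendsto_const_nhds.add (tendsto_finsetSum _ fun S _ => ?_)
    exact (((tendsto_const_nhds.sub (hexp _)).mul_const _).abs).mul_const _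
  have h5 := ge_of_tendsto hlim (Eventually.of_forall key2)
  simpa using h5

theorem lpNorm_reindex {ι : Type} [Fintype ι] {n : ℕ} (e : ι ≃ Fin n) {P : ℝ≥0∞}
    (f : (ι → ℝ) → ℝ) (hf : Measurable f) :
    lpNorm f P (Measure.pi fun _ : ι => gaussianReal 0 1) =
      lpNorm (fun y : Fin n → ℝ => f (fun i => y (e i))) P
        (Measure.pi fun _ : Fin n => gaussianReal 0 1) := by
  have h := (measurePreserving_piCongrLeft (α := fun _ : Fin n => ℝ)
    (fun _ : Fin n => gaussianReal 0 1) e).symm
  have h2 := lpNorm_comp_mp (P := P) hf.aestronglyMeasurable h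
  rw [← h2]
  rfl

theorem ml_reindex {ι κ : Type} [Fintype ι] [Fintype κ] (e : ι ≃ κ) (a : Finset ι → ℝ)
    (w : κ → ℝ) :
    ml a (fun i => w (e i)) = ml (fun S : Finset κ => a (S.map e.symm.toEmbedding)) w := by
  classical
  unfold ml
  rw [← Equiv.sum_comp (e.finsetCongr).symm]
  apply Finset.sum_congr rfl
  intro S _
  have h1 : (e.finsetCongr).symm S = S.map e.symm.toEmbedding := rfl
  rw [h1, Finset.prod_map]
  simp

/-- The base case in Gauss space. -/
theorem gauss_good {p c : ℝ} (hp : 1 ≤ p) (hc : 0 ≤ c) (h : OUIneq p c) {r : ℝ} (hr : 1 ≤ r) :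
    Good (gaussianReal 0 1) (ENNReal.ofReal p) (fun y => y) (fun y => r * y) (r ^ c) := by
  intro ι _ d a ha
  have hr0 : 0 < r := by linarith
  have e1 : ∀ x : ι → ℝ, ml a (fun i => r * x i) =
      ml (fun S => r ^ S.card * a S) (fun i => x i) := by
    intro x
    unfold ml
    apply Finset.sum_congr rfl
    intro S _
    rw [Finset.prod_mul_distrib, Finset.prod_const]
    ring
  simp_rw [e1]
  set n := Fintype.card ι with hnd
  let e : ι ≃ Fin n := Fintype.equivFin ι
  rw [lpNorm_reindex e _ (measurable_ml' _), lpNorm_reindex e _ (measurable_ml' _)]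
  simp_rw [ml_reindex e]
  have h1 := ou_exp hp hc h (n := n) (d := d)
    (fun S : Finset (Fin n) => a (S.map e.symm.toEmbedding)) (fun S hS => ha _ (by
      rw [Finset.card_map]; exact hS)) (t := Real.log r) (Real.log_nonneg hr)
  have e4 : ∀ S : Finset (Fin n), r ^ (S.map e.symm.toEmbedding).card =
      Real.exp (Real.log r * S.card) := by
    intro S
    rw [Finset.card_map, mul_comm, Real.exp_nat_mul, Real.exp_log hr0]
  have e5 : (r ^ c) ^ d = Real.exp (Real.log r * (c * d)) := by
    rw [Real.rpow_def_of_pos hr0, ← Real.exp_nat_mul]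
    congr 1
    ring
  simp_rw [e4]
  rw [e5]
  exact h1

end Pool.Agent.H88.RH
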