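import Mathlib

/-!
# The one-phase fractional Stefan problem: definitions
-/

namespace Pool.Agent.H88.Stefan

open Set Filter Topology MeasureTheory
open scoped ContDiff

/-- The fractional Laplacian on `ℝ`, as a principal value:
`(-Δ)^s φ (x) = c · lim_{ε → 0+} ∫_{|x-y| > ε} (φ x - φ y) / |x-y|^(1+2s) dy`. -/
noncomputable def fracLap (s c : ℝ) (φ : ℝ → ℝ) (x : ℝ) : ℝ :=
  c * limUnder (𝓝[>] (0 : ℝ))
    (fun ε : ℝ => ∫ y in {y : ℝ | ε < |x - y|}, (φ x - φ y) / |x - y| ^ (1 + 2 * s))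

/-- The nonlinearity `Φ(h) = (h - L)_+`. -/
noncomputable def Phi (L h : ℝ) : ℝ := max (h - L) 0

/-- `h` is a very weak solution of `∂_t h + (-Δ)^s Φ(h) = 0` in `ℝ × (0,T)`, `h(·,0) = h₀`:
the integral identity holds for all `ψ ∈ C_c^∞(ℝ × [0,T))`. -/
def IsVeryWeakSolution (s c L T : ℝ) (h₀ : ℝ → ℝ) (h : ℝ → ℝ → ℝ) : Prop :=
  ∀ ψ : ℝ × ℝ → ℝ, ContDiff ℝ ∞ ψ → HasCompactSupport ψ → tsupport ψ ⊆ {p | p.2 < T} →
    (∫ t in Ioo 0 T, ∫ x, (h x t * deriv (fun τ => ψ (x, τ)) t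
      - Phi L (h x t) * fracLap s c (fun y => ψ (y, t)) x)) + ∫ x, h₀ x * ψ (x, 0) = 0

/-- The step datum: `L + P₁` for `x ≤ 0` and `L - P₂` for `x > 0`. -/
noncomputable def stepDatum (L P₁ P₂ : ℝ) (x : ℝ) : ℝ := if x ≤ 0 then L + P₁ else L - P₂

/-- The self-similar function with profile `H`: `h(x,t) = H(x t^(-1/(2s)))`. -/
noncomputable def selfSimilar (s : ℝ) (H : ℝ → ℝ) (x t : ℝ) : ℝ := H (x * t ^ (-(1 / (2 * s))))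

/-- `f ∈ C^{k,γ}_loc(I)` for an open interval `I`. -/
def HolderLoc (k : ℕ) (γ : ℝ) (f : ℝ → ℝ) (I : Set ℝ) : Prop :=
  ContDiffOn ℝ k f I ∧ ∀ a b : ℝ, Icc a b ⊆ I → ∃ C : ℝ, ∀ x ∈ Icc a b, ∀ y ∈ Icc a b,
    |iteratedDerivWithin k f I x - iteratedDerivWithin k f I y| ≤ C * |x - y| ^ γ

/-- The optimal exponent `r* = sup {k + γ : k ≥ 0, γ ∈ (0,1], f ∈ C^{k,γ}_loc(I)}`. -/
noncomputable def rStar (f : ℝ → ℝ) (I : Set ℝ) : EReal :=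
  sSup {r : EReal | ∃ (k : ℕ) (γ : ℝ), 0 < γ ∧ γ ≤ 1 ∧ HolderLoc k γ f I ∧
    r = ((k + γ : ℝ) : EReal)}

end Pool.Agent.H88.Stefan
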