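import Mathlib
import Pool.Agent.H88.StefanDefs

/-!
# The symbol of the fractional Laplacian
-/

namespace Pool.Agent.H88.Stefan

open Set Filter Topology MeasureTheory
open scoped ContDiff FourierTransform

/-- The kernel weight `z^(1+2s)` is integrable at infinity after inversion. -/
lemma integrableOn_inv_rpow {s : ℝ} (hs : 0 < s) {a : ℝ} (ha : 0 < a) :
    IntegrableOn (fun z : ℝ => (z ^ (1 + 2 * s))⁻¹) (Ioi a) := by
  have h := integrableOn_Ioi_rpow_of_lt (a := -(1 + 2 * s)) (by linarith) ha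
  refine h.congr_fun (fun z hz => ?_) measurableSet_Ioi
  have hz0 : 0 < z := ha.trans hz
  simp only
  rw [Real.rpow_neg hz0.le]

/-- Near zero: `z^2 / z^(1+2s)` is integrable. -/
lemma integrableOn_sq_div_rpow {s : ℝ} (hs1 : s < 1) :
    IntegrableOn (fun z : ℝ => z ^ 2 / z ^ (1 + 2 * s)) (Ioc 0 1) := by
  have h : IntegrableOn (fun z : ℝ => z ^ (1 - 2 * s)) (Ioc 0 1) := by
    have := intervalIntegral.intervalIntegrable_rpow' (a := 0) (b := 1) (r := 1 - 2 * s)
      (by linarith)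
    rwa [intervalIntegrable_iff_integrableOn_Ioc_of_le zero_le_one] at this
  refine h.congr_fun (fun z hz => ?_) measurableSet_Ioc
  have hz0 : 0 < z := hz.1
  simp only
  have e : (z : ℝ) ^ 2 = z ^ (2 : ℝ) := by norm_cast
  rw [e, ← Real.rpow_sub hz0]
  congr 1
  ring

/-- A function bounded by `min (A z^2) B` is integrable against `z^(-1-2s)` on `(0,∞)`. -/
lemma integrable_div_rpow {E : Type*} [NormedAddCommGroup E] [NormedSpace ℝ E] {s : ℝ}
    (hs : 0 < s) (hs1 : s < 1) {F : ℝ → E}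
    (hF : AEStronglyMeasurable F (volume.restrict (Ioi 0))) {A B : ℝ}
    (hA : ∀ z, 0 < z → z ≤ 1 → ‖F z‖ ≤ A * z ^ 2) (hB : ∀ z, 1 < z → ‖F z‖ ≤ B) :
    IntegrableOn (fun z : ℝ => (z ^ (1 + 2 * s))⁻¹ • F z) (Ioi 0) := by
  have hmeas : ∀ S : Set ℝ, S ⊆ Ioi 0 →
      AEStronglyMeasurable (fun z : ℝ => (z ^ (1 + 2 * s))⁻¹ • F z) (volume.restrict S) := by
    intro S hS
    refine AEStronglyMeasurable.smul ?_ (hF.mono_measure (Measure.restrict_mono hS le_rfl))
    exact (by fun_prop : Measurable fun z : ℝ => (z ^ (1 + 2 * s))⁻¹).aestronglyMeasurable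
  rw [← Ioc_union_Ioi_eq_Ioi (zero_le_one (α := ℝ))]
  refine IntegrableOn.union ?_ ?_
  · have h := (integrableOn_sq_div_rpow (s := s) hs1).const_mul A
    refine Integrable.mono' h (hmeas _ Ioc_subset_Ioi_self) ?_
    rw [ae_restrict_iff' measurableSet_Ioc]
    refine Eventually.of_forall fun z hz => ?_
    have hz0 : 0 < z := hz.1
    have hzr : 0 < z ^ (1 + 2 * s) := Real.rpow_pos_of_pos hz0 _
    rw [norm_smul, norm_inv, Real.norm_eq_abs, abs_of_pos hzr]
    calc (z ^ (1 + 2 * s))⁻¹ * ‖F z‖ ≤ (z ^ (1 + 2 * s))⁻¹ * (A * z ^ 2) := by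
          gcongr
          exact hA z hz0 hz.2
      _ = A * (z ^ 2 / z ^ (1 + 2 * s)) := by ring
  · have h := (integrableOn_inv_rpow hs one_pos).const_mul B
    refine Integrable.mono' h (hmeas _ (Ioi_subset_Ioi zero_le_one)) ?_
    rw [ae_restrict_iff' measurableSet_Ioi]
    refine Eventually.of_forall fun z hz => ?_
    have hz1 : 1 < z := hz
    have hz0 : 0 < z := by linarith
    have hzr : 0 < z ^ (1 + 2 * s) := Real.rpow_pos_of_pos hz0 _
    rw [norm_smul, norm_inv, Real.norm_eq_abs, abs_of_pos hzr]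
    calc (z ^ (1 + 2 * s))⁻¹ * ‖F z‖ ≤ (z ^ (1 + 2 * s))⁻¹ * B := by
          gcongr
          exact hB z hz1
      _ = B * (z ^ (1 + 2 * s))⁻¹ := by ring

/-- The constant `K_s = ∫_0^∞ 2 (1 - cos z) / z^(1+2s) dz`. -/
noncomputable def Ks (s : ℝ) : ℝ := ∫ z in Ioi (0 : ℝ), (z ^ (1 + 2 * s))⁻¹ • (2 * (1 - Real.cos z))

lemma one_sub_cos_le (z : ℝ) : 1 - Real.cos z ≤ z ^ 2 / 2 := by
  have := Real.one_sub_sq_div_two_le_cos (x := z)
  linarith

lemma norm_two_one_sub_cos_le_sq (z : ℝ) : ‖2 * (1 - Real.cos z)‖ ≤ z ^ 2 := by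
  have h1 := Real.cos_le_one z
  have h2 := one_sub_cos_le z
  rw [Real.norm_eq_abs, abs_of_nonneg (by linarith)]
  linarith

lemma norm_two_one_sub_cos_le (z : ℝ) : ‖2 * (1 - Real.cos z)‖ ≤ 4 := by
  have h1 := Real.cos_le_one z
  have h2 := Real.neg_one_le_cos z
  rw [Real.norm_eq_abs, abs_of_nonneg (by linarith)]
  linarith

lemma integrable_cos {s : ℝ} (hs : 0 < s) (hs1 : s < 1) (a : ℝ) :
    IntegrableOn (fun z : ℝ => (z ^ (1 + 2 * s))⁻¹ • (2 * (1 - Real.cos (a * z)))) (Ioi 0) := by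
  refine integrable_div_rpow hs hs1 (A := a ^ 2) (B := 4) ?_ ?_ ?_
  · exact (by fun_prop : Continuous fun z : ℝ => 2 * (1 - Real.cos (a * z))).aestronglyMeasurable
  · intro z _ _
    have := norm_two_one_sub_cos_le_sq (a * z)
    rwa [mul_pow] at this
  · intro z _
    exact norm_two_one_sub_cos_le _

lemma Ks_pos {s : ℝ} (hs : 0 < s) (hs1 : s < 1) : 0 < Ks s := by
  have hint := integrable_cos hs hs1 1
  simp only [one_mul] at hint
  have hnn : ∀ z ∈ Ioi (0 : ℝ), 0 ≤ (z ^ (1 + 2 * s))⁻¹ • (2 * (1 - Real.cos z)) := by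
    intro z hz
    have hz0 : (0 : ℝ) < z := hz
    have h1 := Real.cos_le_one z
    rw [smul_eq_mul]
    have : 0 < (z ^ (1 + 2 * s))⁻¹ := inv_pos.mpr (Real.rpow_pos_of_pos hz0 _)
    apply mul_nonneg this.le
    linarith
  unfold Ks
  rw [setIntegral_pos_iff_support_of_nonneg_ae]
  · have hsub : Ioo (1 : ℝ) 2 ⊆ (Function.support fun z : ℝ => (z ^ (1 + 2 * s))⁻¹ •
        (2 * (1 - Real.cos z))) ∩ Ioi 0 := by
      intro z hz
      have hz0 : (0 : ℝ) < z := by linarith [hz.1]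
      refine ⟨?_, hz0⟩
      rw [Function.mem_support, smul_eq_mul]
      have h1 : Real.cos z < 1 := by
        have := Real.cos_lt_cos_of_nonneg_of_le_pi (x := 0) (y := z) le_rfl
          (by linarith [hz.2, Real.pi_gt_three]) hz0
        rwa [Real.cos_zero] at this
      have h2 : 0 < (z ^ (1 + 2 * s))⁻¹ := inv_pos.mpr (Real.rpow_pos_of_pos hz0 _)
      have : 0 < (z ^ (1 + 2 * s))⁻¹ * (2 * (1 - Real.cos z)) := by
        apply mul_pos h2; linarith
      exact this.ne'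
    refine lt_of_lt_of_le ?_ (measure_mono hsub)
    simp
  · exact (ae_restrict_iff' measurableSet_Ioi).mpr (Eventually.of_forall hnn)
  · exact hint

/-- The symbol: `∫_0^∞ 2 (1 - cos (a z)) / z^(1+2s) dz = K_s |a|^(2s)`. -/
lemma integral_cos {s : ℝ} (hs : 0 < s) (a : ℝ) :
    ∫ z in Ioi (0 : ℝ), (z ^ (1 + 2 * s))⁻¹ • (2 * (1 - Real.cos (a * z)))
      = Ks s * |a| ^ (2 * s) := by
  have hcos : ∀ z, Real.cos (a * z) = Real.cos (|a| * z) := by
    intro z
    rcases abs_choice a with h | h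
    · rw [h]
    · rw [h, neg_mul, Real.cos_neg]
  simp only [hcos]
  rcases eq_or_lt_of_le (abs_nonneg a) with h | h
  · rw [← h]
    simp only [zero_mul, Real.cos_zero, sub_self, mul_zero, smul_zero, integral_zero]
    rw [Real.zero_rpow (by positivity), mul_zero]
  · set b := |a| with hb
    have hsc := integral_comp_mul_left_Ioi
      (fun y : ℝ => (y ^ (1 + 2 * s))⁻¹ • (2 * (1 - Real.cos y))) 0 h
    rw [mul_zero] at hsc
    have e : ∀ z ∈ Ioi (0 : ℝ), (z ^ (1 + 2 * s))⁻¹ • (2 * (1 - Real.cos (b * z)))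
        = b ^ (1 + 2 * s) • (((b * z) ^ (1 + 2 * s))⁻¹ • (2 * (1 - Real.cos (b * z)))) := by
      intro z hz
      have hz0 : (0 : ℝ) < z := hz
      rw [Real.mul_rpow h.le hz0.le, smul_eq_mul, smul_eq_mul, smul_eq_mul]
      have h1 : b ^ (1 + 2 * s) ≠ 0 := (Real.rpow_pos_of_pos h _).ne'
      have h2 : z ^ (1 + 2 * s) ≠ 0 := (Real.rpow_pos_of_pos hz0 _).ne'
      field_simp
    rw [setIntegral_congr_fun measurableSet_Ioi e, integral_smul, hsc, smul_eq_mul, smul_eq_mul]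
    have h3 : b ^ (1 + 2 * s) = b * b ^ (2 * s) := by
      rw [Real.rpow_add h, Real.rpow_one]
    rw [h3]
    unfold Ks
    field_simp

end Pool.Agent.H88.Stefan
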