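import Mathlib
import Pool.Agent.H88.StefanSymbol

/-!
# The fractional Laplacian of test functions
-/

namespace Pool.Agent.H88.Stefan

open Set Filter Topology MeasureTheory
open scoped ContDiff FourierTransform

/-- Second difference. -/
noncomputable def secDiff (φ : ℝ → ℂ) (x z : ℝ) : ℂ := 2 * φ x - φ (x + z) - φ (x - z)

/-- The symmetric form of the fractional Laplacian (without the constant `c`). -/
noncomputable def symLap (s : ℝ) (φ : ℝ → ℂ) (x : ℝ) : ℂ :=
  ∫ z in Ioi (0 : ℝ), (z ^ (1 + 2 * s))⁻¹ • secDiff φ x z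

/-- Bounds for a smooth compactly supported function. -/
lemma exists_bounds {φ : ℝ → ℂ} (hφ : ContDiff ℝ ∞ φ) (hc : HasCompactSupport φ) :
    ∃ R M : ℝ, 0 < R ∧ 0 ≤ M ∧ (∀ x, R < |x| → φ x = 0) ∧ (∀ x, ‖φ x‖ ≤ M) ∧
      ∀ x z, ‖secDiff φ x z‖ ≤ M * z ^ 2 := by
  obtain ⟨R0, hR0⟩ := hc.isCompact.isBounded.exists_norm_le
  have hφ0 : ∀ x, max R0 1 < |x| → φ x = 0 := by
    intro x hx
    by_contra h
    have := hR0 x (subset_tsupport _ h)
    rw [Real.norm_eq_abs] at this
    exact absurd (this.trans (le_max_left _ _)) (not_le.mpr hx)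
  obtain ⟨M0, hM0⟩ := hφ.continuous.bounded_above_of_compact_support hc
  have hd1 : ContDiff ℝ ∞ (deriv φ) := by
    have := contDiff_infty_iff_deriv.mp hφ
    exact this.2
  have hd2 : ContDiff ℝ ∞ (deriv (deriv φ)) := (contDiff_infty_iff_deriv.mp hd1).2
  obtain ⟨M2, hM2⟩ := hd2.continuous.bounded_above_of_compact_support hc.deriv.deriv
  have hM2' : 0 ≤ M2 := (norm_nonneg _).trans (hM2 0)
  have hM0' : 0 ≤ M0 := (norm_nonneg _).trans (hM0 0)
  refine ⟨max R0 1, max M0 (2 * M2), by positivity, by positivity, hφ0,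
    fun x => (hM0 x).trans (le_max_left _ _), ?_⟩
  -- the first derivative is Lipschitz
  have hlip : ∀ a b : ℝ, ‖deriv φ a - deriv φ b‖ ≤ M2 * |a - b| := by
    intro a b
    have := Convex.norm_image_sub_le_of_norm_deriv_le (f := deriv φ) (s := univ) (C := M2)
      (fun x _ => (hd1.differentiable (by simp)).differentiableAt) (fun x _ => hM2 x)
      convex_univ (mem_univ b) (mem_univ a)
    rwa [Real.norm_eq_abs] at this
  -- positive z
  have hpos : ∀ x z, 0 ≤ z → ‖secDiff φ x z‖ ≤ 2 * M2 * z ^ 2 := by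
    intro x z hz
    have hdφ : ∀ y, HasDerivAt φ (deriv φ y) y := fun y =>
      (hφ.differentiable (by simp)).differentiableAt.hasDerivAt
    have hh : ∀ t : ℝ, HasDerivAt (fun t : ℝ => φ (x + t) + φ (x - t))
        (deriv φ (x + t) - deriv φ (x - t)) t := by
      intro t
      have h1 : HasDerivAt (fun t : ℝ => φ (x + t)) (deriv φ (x + t)) t :=
        (hdφ (x + t)).comp_const_add x t
      have h2 : HasDerivAt (fun t : ℝ => φ (x - t)) (-deriv φ (x - t)) t :=
        (hdφ (x - t)).comp_const_sub x t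
      have := h1.add h2
      rwa [← sub_eq_add_neg] at this
    have hb : ∀ t ∈ Icc (0 : ℝ) z, ‖deriv φ (x + t) - deriv φ (x - t)‖ ≤ 2 * M2 * z := by
      intro t ht
      refine (hlip _ _).trans ?_
      have : |x + t - (x - t)| = 2 * t := by
        rw [show x + t - (x - t) = 2 * t by ring, abs_of_nonneg (by linarith [ht.1])]
      rw [this]
      have := ht.2
      nlinarith
    have hmv := Convex.norm_image_sub_le_of_norm_hasDerivWithin_le
      (f := fun t : ℝ => φ (x + t) + φ (x - t)) (s := Icc 0 z) (C := 2 * M2 * z)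
      (fun t _ => (hh t).hasDerivWithinAt) hb (convex_Icc 0 z) ⟨le_rfl, hz⟩ ⟨hz, le_rfl⟩
    have e : secDiff φ x z = -((φ (x + z) + φ (x - z)) - (φ (x + 0) + φ (x - 0))) := by
      unfold secDiff
      rw [add_zero, sub_zero]; ring
    rw [e, norm_neg]
    refine hmv.trans ?_
    rw [sub_zero, Real.norm_eq_abs, abs_of_nonneg hz]
    nlinarith
  intro x z
  have hle : 2 * M2 * z ^ 2 ≤ max M0 (2 * M2) * z ^ 2 :=
    mul_le_mul_of_nonneg_right (le_max_right _ _) (sq_nonneg z)
  rcases le_total 0 z with hz | hz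
  · exact (hpos x z hz).trans hle
  · have e : secDiff φ x z = secDiff φ x (-z) := by
      unfold secDiff
      rw [← sub_eq_add_neg, sub_neg_eq_add]; ring
    rw [e]
    have := hpos x (-z) (by linarith)
    rw [neg_sq] at this
    exact this.trans hle

lemma norm_secDiff_le {φ : ℝ → ℂ} {M : ℝ} (hM : ∀ x, ‖φ x‖ ≤ M) (x z : ℝ) :
    ‖secDiff φ x z‖ ≤ 4 * M := by
  unfold secDiff
  calc ‖2 * φ x - φ (x + z) - φ (x - z)‖ ≤ ‖2 * φ x - φ (x + z)‖ + ‖φ (x - z)‖ := norm_sub_le _ _
    _ ≤ (‖2 * φ x‖ + ‖φ (x + z)‖) + ‖φ (x - z)‖ := by gcongr; exact norm_sub_le _ _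
    _ ≤ (2 * M + M) + M := by
      rw [norm_mul, Complex.norm_ofNat]
      have h1 := hM x
      have h2 := hM (x + z)
      have h3 := hM (x - z)
      gcongr
    _ = 4 * M := by ring

lemma continuous_secDiff {φ : ℝ → ℂ} (hφ : Continuous φ) :
    Continuous fun p : ℝ × ℝ => secDiff φ p.1 p.2 := by
  unfold secDiff
  fun_prop

lemma integrableOn_secDiff {s : ℝ} (hs : 0 < s) (hs1 : s < 1) {φ : ℝ → ℂ}
    (hφ : ContDiff ℝ ∞ φ) (hc : HasCompactSupport φ) (x : ℝ) :
    IntegrableOn (fun z : ℝ => (z ^ (1 + 2 * s))⁻¹ • secDiff φ x z) (Ioi 0) := by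
  obtain ⟨R, M, hR, hM, hφ0, hφM, hsec⟩ := exists_bounds hφ hc
  refine integrable_div_rpow hs hs1 (A := M) (B := 4 * M) ?_ (fun z _ _ => hsec x z)
    (fun z _ => norm_secDiff_le hφM x z)
  have : Continuous fun z : ℝ => secDiff φ x z :=
    (continuous_secDiff hφ.continuous).comp (by fun_prop : Continuous fun z : ℝ => (x, z))
  exact this.aestronglyMeasurable

/-- The principal value is given by the symmetric form. -/
lemma tendsto_pv {s : ℝ} (hs : 0 < s) (hs1 : s < 1) {φ : ℝ → ℝ}
    (hφ : ContDiff ℝ ∞ φ) (hc : HasCompactSupport φ) (x : ℝ) :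
    Tendsto (fun ε : ℝ => ∫ y in {y : ℝ | ε < |x - y|}, (φ x - φ y) / |x - y| ^ (1 + 2 * s))
      (𝓝[>] 0) (𝓝 (∫ z in Ioi (0 : ℝ), (z ^ (1 + 2 * s))⁻¹ • (2 * φ x - φ (x + z) - φ (x - z)))) := by
  set φc : ℝ → ℂ := fun y => (φ y : ℂ) with hφc
  have hφc1 : ContDiff ℝ ∞ φc := Complex.ofRealCLM.contDiff.comp hφ
  have hφc2 : HasCompactSupport φc := hc.comp_left (g := fun y : ℝ => (y : ℂ)) Complex.ofReal_zero
  have hint : IntegrableOn (fun z : ℝ => (z ^ (1 + 2 * s))⁻¹ • (2 * φ x - φ (x + z) - φ (x - z)))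
      (Ioi 0) := by
    have h := (integrableOn_secDiff hs hs1 hφc1 hφc2 x).re
    refine h.congr (Eventually.of_forall fun z => ?_)
    simp [secDiff, hφc]
  obtain ⟨M, hM⟩ := hφ.continuous.bounded_above_of_compact_support hc
  have hM0 : 0 ≤ M := (norm_nonneg _).trans (hM 0)
  -- for each ε > 0 the truncated integral is a symmetric integral
  have heq : ∀ ε : ℝ, 0 < ε →
      ∫ y in {y : ℝ | ε < |x - y|}, (φ x - φ y) / |x - y| ^ (1 + 2 * s)
        = ∫ z in Ioi ε, (z ^ (1 + 2 * s))⁻¹ • (2 * φ x - φ (x + z) - φ (x - z)) := by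
    intro ε hε
    have hset : {y : ℝ | ε < |x - y|} = Ioi (x + ε) ∪ Iio (x - ε) := by
      ext y
      simp only [mem_ofPred_eq, mem_union, mem_Ioi, mem_Iio, lt_abs]
      constructor
      · rintro (h | h)
        · right; linarith
        · left; linarith
      · rintro (h | h)
        · right; linarith
        · left; linarith
    have hdisj : Disjoint (Ioi (x + ε)) (Iio (x - ε)) := by
      rw [Set.disjoint_left]
      intro y h1 h2
      simp only [mem_Ioi, mem_Iio] at h1 h2
      linarith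
    -- integrability of the two pieces, as functions of z
    have hi1 : IntegrableOn (fun z : ℝ => (z ^ (1 + 2 * s))⁻¹ * (φ x - φ (x + z))) (Ioi ε) := by
      refine Integrable.mono' ((integrableOn_inv_rpow hs hε).mul_const (2 * M)) ?_ ?_
      · refine (Measurable.aestronglyMeasurable ?_)
        have : Measurable φ := hφ.continuous.measurable
        fun_prop
      · rw [ae_restrict_iff' measurableSet_Ioi]
        refine Eventually.of_forall fun z hz => ?_
        have hz0 : (0 : ℝ) < z := hε.trans hz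
        rw [norm_mul, norm_inv, Real.norm_eq_abs, abs_of_pos (Real.rpow_pos_of_pos hz0 _)]
        gcongr
        calc ‖φ x - φ (x + z)‖ ≤ ‖φ x‖ + ‖φ (x + z)‖ := norm_sub_le _ _
          _ ≤ 2 * M := by linarith [hM x, hM (x + z)]
    have hi2 : IntegrableOn (fun z : ℝ => (z ^ (1 + 2 * s))⁻¹ * (φ x - φ (x - z))) (Ioi ε) := by
      refine Integrable.mono' ((integrableOn_inv_rpow hs hε).mul_const (2 * M)) ?_ ?_
      · refine (Measurable.aestronglyMeasurable ?_)
        have : Measurable φ := hφ.continuous.measurable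
        fun_prop
      · rw [ae_restrict_iff' measurableSet_Ioi]
        refine Eventually.of_forall fun z hz => ?_
        have hz0 : (0 : ℝ) < z := hε.trans hz
        rw [norm_mul, norm_inv, Real.norm_eq_abs, abs_of_pos (Real.rpow_pos_of_pos hz0 _)]
        gcongr
        calc ‖φ x - φ (x - z)‖ ≤ ‖φ x‖ + ‖φ (x - z)‖ := norm_sub_le _ _
          _ ≤ 2 * M := by linarith [hM x, hM (x - z)]
    -- change of variables on the right half line
    have hmp1 : MeasurePreserving (fun z : ℝ => x + z) volume volume :=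
      measurePreserving_add_left volume x
    have hmp2 : MeasurePreserving (fun z : ℝ => x - z) volume volume :=
      Measure.measurePreserving_sub_left volume x
    have hme1 : MeasurableEmbedding (fun z : ℝ => x + z) := measurableEmbedding_addLeft x
    have hme2 : MeasurableEmbedding (fun z : ℝ => x - z) := measurableEmbedding_subLeft x
    have hpre1 : (fun z : ℝ => x + z) ⁻¹' Ioi (x + ε) = Ioi ε := by
      ext z; simp
    have hpre2 : (fun z : ℝ => x - z) ⁻¹' Iio (x - ε) = Ioi ε := by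
      ext z; simp
    have h1 : ∫ y in Ioi (x + ε), (φ x - φ y) / |x - y| ^ (1 + 2 * s)
        = ∫ z in Ioi ε, (z ^ (1 + 2 * s))⁻¹ * (φ x - φ (x + z)) := by
      rw [← hmp1.setIntegral_preimage_emb hme1, hpre1]
      refine setIntegral_congr_fun measurableSet_Ioi fun z hz => ?_
      have hz0 : (0 : ℝ) < z := hε.trans hz
      show (φ x - φ (x + z)) / |x - (x + z)| ^ (1 + 2 * s)
        = (z ^ (1 + 2 * s))⁻¹ * (φ x - φ (x + z))
      rw [show x - (x + z) = -z by ring, abs_neg, abs_of_pos hz0]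
      rw [div_eq_inv_mul]
    have h2 : ∫ y in Iio (x - ε), (φ x - φ y) / |x - y| ^ (1 + 2 * s)
        = ∫ z in Ioi ε, (z ^ (1 + 2 * s))⁻¹ * (φ x - φ (x - z)) := by
      rw [← hmp2.setIntegral_preimage_emb hme2, hpre2]
      refine setIntegral_congr_fun measurableSet_Ioi fun z hz => ?_
      have hz0 : (0 : ℝ) < z := hε.trans hz
      show (φ x - φ (x - z)) / |x - (x - z)| ^ (1 + 2 * s)
        = (z ^ (1 + 2 * s))⁻¹ * (φ x - φ (x - z))
      rw [show x - (x - z) = z by ring, abs_of_pos hz0]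
      rw [div_eq_inv_mul]
    have hj1 : IntegrableOn (fun y => (φ x - φ y) / |x - y| ^ (1 + 2 * s)) (Ioi (x + ε)) := by
      rw [← hmp1.integrableOn_comp_preimage hme1, hpre1]
      refine hi1.congr_fun (fun z hz => ?_) measurableSet_Ioi
      have hz0 : (0 : ℝ) < z := hε.trans hz
      show (z ^ (1 + 2 * s))⁻¹ * (φ x - φ (x + z))
        = (φ x - φ (x + z)) / |x - (x + z)| ^ (1 + 2 * s)
      rw [show x - (x + z) = -z by ring, abs_neg, abs_of_pos hz0]
      rw [div_eq_inv_mul]
    have hj2 : IntegrableOn (fun y => (φ x - φ y) / |x - y| ^ (1 + 2 * s)) (Iio (x - ε)) := by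
      rw [← hmp2.integrableOn_comp_preimage hme2, hpre2]
      refine hi2.congr_fun (fun z hz => ?_) measurableSet_Ioi
      have hz0 : (0 : ℝ) < z := hε.trans hz
      show (z ^ (1 + 2 * s))⁻¹ * (φ x - φ (x - z))
        = (φ x - φ (x - z)) / |x - (x - z)| ^ (1 + 2 * s)
      rw [show x - (x - z) = z by ring, abs_of_pos hz0]
      rw [div_eq_inv_mul]
    rw [hset, setIntegral_union hdisj measurableSet_Iio hj1 hj2, h1, h2, ← integral_add hi1 hi2]
    refine setIntegral_congr_fun measurableSet_Ioi fun z _ => ?_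
    simp only [smul_eq_mul]
    ring
  -- limit
  have hlim : Tendsto (fun ε : ℝ => ∫ z in Ioi ε,
      (z ^ (1 + 2 * s))⁻¹ • (2 * φ x - φ (x + z) - φ (x - z))) (𝓝[>] 0)
      (𝓝 (∫ z in Ioi (0 : ℝ), (z ^ (1 + 2 * s))⁻¹ • (2 * φ x - φ (x + z) - φ (x - z)))) := by
    set g : ℝ → ℝ := fun z => (z ^ (1 + 2 * s))⁻¹ • (2 * φ x - φ (x + z) - φ (x - z)) with hg
    have e1 : ∀ ε : ℝ, 0 < ε → ∫ z in Ioi ε, g z = ∫ z in Ioi (0 : ℝ), (Ioi ε).indicator g z := by
      intro ε hε
      rw [setIntegral_indicator measurableSet_Ioi]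
      congr 2
      rw [inter_eq_right.mpr (Ioi_subset_Ioi hε.le)]
    have hdct : Tendsto (fun ε : ℝ => ∫ z in Ioi (0 : ℝ), (Ioi ε).indicator g z) (𝓝[>] 0)
        (𝓝 (∫ z in Ioi (0 : ℝ), g z)) := by
      refine tendsto_integral_filter_of_dominated_convergence (fun z => ‖g z‖) ?_ ?_ hint.norm ?_
      · exact Eventually.of_forall fun ε => hint.1.indicator measurableSet_Ioi
      · exact Eventually.of_forall fun ε => Eventually.of_forall fun z =>
          norm_indicator_le_norm_self _ _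
      · rw [ae_restrict_iff' measurableSet_Ioi]
        refine Eventually.of_forall fun z hz => ?_
        have hz0 : (0 : ℝ) < z := hz
        refine tendsto_const_nhds.congr' ?_
        filter_upwards [Ioo_mem_nhdsGT hz0] with ε hε
        exact (indicator_of_mem (show z ∈ Ioi ε from hε.2) g).symm
    refine hdct.congr' ?_
    filter_upwards [self_mem_nhdsWithin] with ε hε using (e1 ε hε).symm
  refine hlim.congr' ?_
  filter_upwards [self_mem_nhdsWithin] with ε hε using (heq ε hε).symm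

lemma fracLap_eq {s : ℝ} (hs : 0 < s) (hs1 : s < 1) (c : ℝ) {φ : ℝ → ℝ}
    (hφ : ContDiff ℝ ∞ φ) (hc : HasCompactSupport φ) (x : ℝ) :
    fracLap s c φ x
      = c * ∫ z in Ioi (0 : ℝ), (z ^ (1 + 2 * s))⁻¹ • (2 * φ x - φ (x + z) - φ (x - z)) := by
  unfold fracLap
  rw [(tendsto_pv hs hs1 hφ hc x).limUnder_eq]

lemma ofReal_fracLap {s : ℝ} (hs : 0 < s) (hs1 : s < 1) (c : ℝ) {φ : ℝ → ℝ}
    (hφ : ContDiff ℝ ∞ φ) (hc : HasCompactSupport φ) (x : ℝ) :
    ((fracLap s c φ x : ℝ) : ℂ) = c * symLap s (fun y => (φ y : ℂ)) x := by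
  rw [fracLap_eq hs hs1 c hφ hc, Complex.ofReal_mul, symLap, ← integral_complex_ofReal]
  congr 1
  refine setIntegral_congr_fun measurableSet_Ioi fun z _ => ?_
  simp only [secDiff, Complex.real_smul, smul_eq_mul]
  push_cast
  ring

/-- Joint integrability. -/
lemma integrable_prod_secDiff {s : ℝ} (hs : 0 < s) (hs1 : s < 1) {φ : ℝ → ℂ}
    (hφ : ContDiff ℝ ∞ φ) (hc : HasCompactSupport φ) :
    Integrable (fun p : ℝ × ℝ => (p.2 ^ (1 + 2 * s))⁻¹ • secDiff φ p.1 p.2)
      (volume.prod (volume.restrict (Ioi 0))) := by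
  obtain ⟨R, M, hR, hM, hφ0, hφM, hsec⟩ := exists_bounds hφ hc
  have hmeas : AEStronglyMeasurable (fun p : ℝ × ℝ => (p.2 ^ (1 + 2 * s))⁻¹ • secDiff φ p.1 p.2)
      (volume.prod (volume.restrict (Ioi (0 : ℝ)))) := by
    have hA : AEStronglyMeasurable (fun p : ℝ × ℝ => (p.2 ^ (1 + 2 * s))⁻¹)
        (volume.prod (volume.restrict (Ioi (0 : ℝ)))) :=
      (by fun_prop : Measurable fun p : ℝ × ℝ => (p.2 ^ (1 + 2 * s))⁻¹).aestronglyMeasurable
    have hB : AEStronglyMeasurable (fun p : ℝ × ℝ => secDiff φ p.1 p.2)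
        (volume.prod (volume.restrict (Ioi (0 : ℝ)))) :=
      (continuous_secDiff hφ.continuous).aestronglyMeasurable
    exact hA.smul hB
  have hφi : Integrable φ := hφ.continuous.integrable_of_hasCompactSupport hc
  have hsi : ∀ z : ℝ, Integrable (fun x => secDiff φ x z) := by
    intro z
    unfold secDiff
    exact ((hφi.const_mul 2).sub (hφi.comp_add_right z)).sub (hφi.comp_sub_right z)
  rw [integrable_prod_iff' hmeas]
  constructor
  · refine Eventually.of_forall fun z => ?_
    exact (hsi z).smul ((z ^ (1 + 2 * s))⁻¹)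
  · have hnorm : ∀ z ∈ Ioi (0 : ℝ), ∫ x, ‖(z ^ (1 + 2 * s))⁻¹ • secDiff φ x z‖
        = (z ^ (1 + 2 * s))⁻¹ • ∫ x, ‖secDiff φ x z‖ := by
      intro z hz
      have hz0 : (0 : ℝ) < z := hz
      simp only [norm_smul, norm_inv, Real.norm_eq_abs]
      rw [integral_const_mul, abs_of_pos (Real.rpow_pos_of_pos hz0 _), smul_eq_mul]
    refine IntegrableOn.congr_fun ?_ (fun z hz => (hnorm z hz).symm) measurableSet_Ioi
    refine integrable_div_rpow hs hs1 (A := M * (2 * (R + 1))) (B := 4 * ∫ x, ‖φ x‖) ?_ ?_ ?_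
    · have h1 : StronglyMeasurable fun z : ℝ => ∫ x, ‖secDiff φ x z‖ := by
        have h2 : StronglyMeasurable (Function.uncurry fun (z x : ℝ) => ‖secDiff φ x z‖) := by
          have : Continuous (Function.uncurry fun (z x : ℝ) => ‖secDiff φ x z‖) :=
            ((continuous_secDiff hφ.continuous).comp continuous_swap).norm
          exact this.stronglyMeasurable
        exact h2.integral_prod_right
      exact h1.aestronglyMeasurable
    · intro z hz0 hz1
      have hnn : 0 ≤ ∫ x, ‖secDiff φ x z‖ := integral_nonneg fun _ => norm_nonneg _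
      rw [Real.norm_eq_abs, abs_of_nonneg hnn]
      have hsupp : ∀ x, x ∉ Icc (-(R + 1)) (R + 1) → ‖secDiff φ x z‖ = 0 := by
        intro x hx
        have hx' : R + 1 < |x| := by
          by_contra hcon
          push Not at hcon
          exact hx (abs_le.mp hcon)
        have a1 : φ x = 0 := hφ0 x (by linarith)
        have a2 : φ (x + z) = 0 := hφ0 _ (by
          have : |x| ≤ |x + z| + |z| := by
            calc |x| = |(x + z) - z| := by rw [add_sub_cancel_right]
              _ ≤ |x + z| + |z| := abs_sub _ _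
          rw [abs_of_pos hz0] at this
          linarith)
        have a3 : φ (x - z) = 0 := hφ0 _ (by
          have : |x| ≤ |x - z| + |z| := by
            calc |x| = |(x - z) + z| := by rw [sub_add_cancel]
              _ ≤ |x - z| + |z| := abs_add_le _ _
          rw [abs_of_pos hz0] at this
          linarith)
        unfold secDiff
        rw [a1, a2, a3]
        simp
      rw [← setIntegral_eq_integral_of_forall_compl_eq_zero hsupp]
      have hle : ∫ x in Icc (-(R + 1)) (R + 1), ‖secDiff φ x z‖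
          ≤ ∫ _x in Icc (-(R + 1)) (R + 1), M * z ^ 2 := by
        refine setIntegral_mono_on ((hsi z).norm.integrableOn)
          (continuous_const.integrableOn_Icc) measurableSet_Icc fun x _ => hsec x z
      refine hle.trans ?_
      rw [setIntegral_const, smul_eq_mul, Measure.real, Real.volume_Icc,
        ENNReal.toReal_ofReal (by linarith)]
      nlinarith
    · intro z hz1
      have hnn : 0 ≤ ∫ x, ‖secDiff φ x z‖ := integral_nonneg fun _ => norm_nonneg _
      rw [Real.norm_eq_abs, abs_of_nonneg hnn]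
      have h1 : Integrable fun x => ‖φ x‖ := hφi.norm
      have h2 : Integrable fun x => ‖φ (x + z)‖ := h1.comp_add_right z
      have h3 : Integrable fun x => ‖φ (x - z)‖ := h1.comp_sub_right z
      calc ∫ x, ‖secDiff φ x z‖ ≤ ∫ x, ((2 * ‖φ x‖ + ‖φ (x + z)‖) + ‖φ (x - z)‖) := by
            refine integral_mono (hsi z).norm (((h1.const_mul 2).add h2).add h3) fun x => ?_
            unfold secDiff
            calc ‖2 * φ x - φ (x + z) - φ (x - z)‖
                ≤ ‖2 * φ x - φ (x + z)‖ + ‖φ (x - z)‖ := norm_sub_le _ _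
              _ ≤ (‖2 * φ x‖ + ‖φ (x + z)‖) + ‖φ (x - z)‖ := by gcongr; exact norm_sub_le _ _
              _ = _ := by rw [norm_mul, Complex.norm_ofNat]
        _ = (∫ x, (2 * ‖φ x‖ + ‖φ (x + z)‖)) + ∫ x, ‖φ (x - z)‖ :=
          integral_add ((h1.const_mul 2).add h2) h3
        _ = ((∫ x, 2 * ‖φ x‖) + ∫ x, ‖φ (x + z)‖) + ∫ x, ‖φ (x - z)‖ := by
          rw [integral_add (h1.const_mul 2) h2]
        _ = 4 * ∫ x, ‖φ x‖ := by
          rw [integral_const_mul, integral_add_right_eq_self (fun x => ‖φ x‖) z,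
            integral_sub_right_eq_self (fun x => ‖φ x‖) z]
          ring

lemma integrable_symLap {s : ℝ} (hs : 0 < s) (hs1 : s < 1) {φ : ℝ → ℂ}
    (hφ : ContDiff ℝ ∞ φ) (hc : HasCompactSupport φ) : Integrable (symLap s φ) :=
  (integrable_prod_secDiff hs hs1 hφ hc).integral_prod_left

end Pool.Agent.H88.Stefan
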