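import Mathlib
import Pool.Agent.H88.StefanLap

/-!
# Fourier representation of the fractional Laplacian of modulated test functions
-/

namespace Pool.Agent.H88.Stefan

open Set Filter Topology MeasureTheory
open scoped ContDiff FourierTransform SchwartzMap

/-- `ex a = exp(-2 π i a)`. -/
noncomputable def ex (a : ℝ) : ℂ := Complex.exp (((-2 * Real.pi * a : ℝ) : ℂ) * Complex.I)

lemma ex_add (a b : ℝ) : ex (a + b) = ex a * ex b := by
  unfold ex
  rw [← Complex.exp_add]
  congr 1
  push_cast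
  ring

lemma ex_zero : ex 0 = 1 := by simp [ex]

lemma norm_ex (a : ℝ) : ‖ex a‖ = 1 := by
  unfold ex
  rw [Complex.norm_exp_ofReal_mul_I]

lemma continuous_ex : Continuous ex := by
  unfold ex
  fun_prop

lemma contDiff_ex : ContDiff ℝ ∞ ex := by
  unfold ex
  have h1 : ContDiff ℝ ∞ fun a : ℝ => ((-2 * Real.pi * a : ℝ) : ℂ) :=
    Complex.ofRealCLM.contDiff.comp (contDiff_const.mul contDiff_id)
  exact (h1.mul contDiff_const).cexp

lemma hasDerivAt_ex_mul (x w : ℝ) :
    HasDerivAt (fun w : ℝ => ex (w * x)) (-(2 * Real.pi * Complex.I * x) * ex (w * x)) w := by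
  unfold ex
  have h1 : HasDerivAt (fun w : ℝ => (((-2 * Real.pi * (w * x) : ℝ) : ℂ) * Complex.I))
      (((-2 * Real.pi * x : ℝ) : ℂ) * Complex.I) w := by
    have h2 : HasDerivAt (fun w : ℝ => -2 * Real.pi * (w * x)) (-2 * Real.pi * x) w := by
      have := ((hasDerivAt_id w).mul_const x).const_mul (-2 * Real.pi)
      simpa using this
    exact h2.ofReal_comp.mul_const Complex.I
  refine h1.cexp.congr_deriv ?_
  push_cast
  ring

lemma ex_add_ex_neg (a : ℝ) : ex a + ex (-a) = 2 * (Real.cos (2 * Real.pi * a) : ℂ) := by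
  have h : (Real.cos (2 * Real.pi * a) : ℂ) = Complex.cos ((2 * Real.pi * a : ℝ) : ℂ) :=
    Complex.ofReal_cos _
  rw [h, Complex.two_cos, ex, ex, add_comm]
  congr 2
  · push_cast; ring
  · push_cast; ring

lemma fourier_eq_ex (f : ℝ → ℂ) (w : ℝ) : 𝓕 f w = ∫ x, ex (w * x) * f x := by
  rw [Real.fourier_real_eq_integral_exp_smul]
  refine integral_congr_ae (Eventually.of_forall fun x => ?_)
  simp only [ex, smul_eq_mul]
  congr 3
  ring

/-- Fourier inversion for Schwartz functions. -/
lemma schwartz_inversion (η : 𝓢(ℝ, ℂ)) (x : ℝ) :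
    η x = ∫ u, ex (-(u * x)) * (𝓕 η) u := by
  have h : 𝓕⁻ (𝓕 η) = η := FourierTransform.fourierInv_fourier_eq η
  have h2 : η x = (𝓕⁻ (𝓕 η)) x := by rw [h]
  rw [h2, SchwartzMap.fourierInv_coe, Real.fourierInv_eq']
  refine integral_congr_ae (Eventually.of_forall fun u => ?_)
  simp only [ex, smul_eq_mul]
  congr 2
  simp only [RCLike.inner_apply, conj_trivial]
  push_cast
  ring

/-- Polynomial weights are integrable against Schwartz functions. -/
lemma integrable_weight (η : 𝓢(ℝ, ℂ)) (k : ℕ) :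
    Integrable fun u : ℝ => (1 + |u|) ^ k * ‖η u‖ := by
  have h1 : Integrable fun u : ℝ => (2 : ℝ) ^ k * (‖u‖ ^ 0 * ‖η u‖ + ‖u‖ ^ k * ‖η u‖) :=
    ((η.integrable_pow_mul volume 0).add (η.integrable_pow_mul volume k)).const_mul _
  refine Integrable.mono' h1 ?_ (Eventually.of_forall fun u => ?_)
  · exact (by fun_prop : Continuous fun u : ℝ => (1 + |u|) ^ k * ‖η u‖).aestronglyMeasurable
  · have hn : 0 ≤ ‖η u‖ := norm_nonneg _
    rw [Real.norm_eq_abs, abs_of_nonneg (by positivity), pow_zero, one_mul, Real.norm_eq_abs]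
    have h2 : (1 + |u|) ^ k ≤ (2 : ℝ) ^ k * (1 + |u| ^ k) := by
      rcases le_total |u| 1 with h | h
      · calc (1 + |u|) ^ k ≤ (2 : ℝ) ^ k := by gcongr; linarith
          _ = (2 : ℝ) ^ k * 1 := (mul_one _).symm
          _ ≤ _ := by gcongr; have := pow_nonneg (abs_nonneg u) k; linarith
      · calc (1 + |u|) ^ k ≤ (2 * |u|) ^ k := by gcongr; linarith
          _ = (2 : ℝ) ^ k * |u| ^ k := mul_pow _ _ _
          _ ≤ _ := by gcongr; linarith
    nlinarith

/-- The basic Fubini identity. -/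
lemma fubini_identity {v : ℝ → ℂ} (hv : Integrable v) {g : ℝ → ℂ} (hg : Integrable g) (w : ℝ) :
    ∫ x, v x * ∫ u, g u * ex ((w - u) * x) = ∫ u, g u * 𝓕 v (w - u) := by
  have hprod : Integrable (Function.uncurry fun (x u : ℝ) => v x * (g u * ex ((w - u) * x)))
      (volume.prod volume) := by
    have h1 : Integrable (fun p : ℝ × ℝ => v p.1 * g p.2) (volume.prod volume) := hv.mul_prod hg
    have h2 : Continuous fun p : ℝ × ℝ => ex ((w - p.2) * p.1) :=
      continuous_ex.comp (by fun_prop)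
    have h3 := h1.mul_bdd (c := 1) h2.aestronglyMeasurable
      (Eventually.of_forall fun p => (norm_ex _).le)
    refine h3.congr (Eventually.of_forall fun p => ?_)
    simp only [Function.uncurry]
    ring
  calc ∫ x, v x * ∫ u, g u * ex ((w - u) * x)
      = ∫ x, ∫ u, v x * (g u * ex ((w - u) * x)) := by
        refine integral_congr_ae (Eventually.of_forall fun x => ?_)
        simp only
        rw [integral_const_mul]
    _ = ∫ u, ∫ x, v x * (g u * ex ((w - u) * x)) := integral_integral_swap hprod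
    _ = ∫ u, g u * 𝓕 v (w - u) := by
        refine integral_congr_ae (Eventually.of_forall fun u => ?_)
        simp only
        rw [fourier_eq_ex, ← integral_const_mul]
        refine integral_congr_ae (Eventually.of_forall fun x => ?_)
        simp only
        ring

/-- Growth of the symbol. -/
lemma symbol_le {s : ℝ} (hs : 0 < s) (hs1 : s < 1) (w u : ℝ) :
    |2 * Real.pi * (w - u)| ^ (2 * s) ≤ (1 + 2 * Real.pi * (1 + |w|)) ^ 2 * (1 + |u|) ^ 2 := by
  have hpi := Real.pi_pos
  have h1 : |2 * Real.pi * (w - u)| ≤ (1 + 2 * Real.pi * (1 + |w|)) * (1 + |u|) := by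
    rw [abs_mul, abs_of_pos (by positivity : 0 < 2 * Real.pi)]
    have h2 : |w - u| ≤ |w| + |u| := abs_sub _ _
    have h3 := abs_nonneg w
    have h4 := abs_nonneg u
    calc 2 * Real.pi * |w - u| ≤ 2 * Real.pi * (|w| + |u|) := by gcongr
      _ ≤ 2 * Real.pi * ((1 + |w|) * (1 + |u|)) := by
        gcongr; nlinarith
      _ ≤ _ := by nlinarith [mul_nonneg h3 h4]
  have h5 : 1 ≤ (1 + 2 * Real.pi * (1 + |w|)) * (1 + |u|) := by
    have h3 := abs_nonneg w
    have h4 := abs_nonneg u
    have : 1 ≤ 1 + 2 * Real.pi * (1 + |w|) := by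
      have : 0 ≤ 2 * Real.pi * (1 + |w|) := by positivity
      linarith
    nlinarith
  calc |2 * Real.pi * (w - u)| ^ (2 * s)
      ≤ ((1 + 2 * Real.pi * (1 + |w|)) * (1 + |u|)) ^ (2 * s) :=
        Real.rpow_le_rpow (abs_nonneg _) h1 (by positivity)
    _ ≤ ((1 + 2 * Real.pi * (1 + |w|)) * (1 + |u|)) ^ (2 : ℝ) :=
        Real.rpow_le_rpow_of_exponent_le h5 (by linarith)
    _ = (1 + 2 * Real.pi * (1 + |w|)) ^ 2 * (1 + |u|) ^ 2 := by
        rw [Real.rpow_two, mul_pow]

lemma continuous_symbol {s : ℝ} (hs : 0 < s) (w : ℝ) :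
    Continuous fun u : ℝ => |2 * Real.pi * (w - u)| ^ (2 * s) := by
  refine Continuous.rpow_const (by fun_prop) fun u => Or.inr (by positivity)

lemma integrable_symbol {s : ℝ} (hs : 0 < s) (hs1 : s < 1) (η : 𝓢(ℝ, ℂ)) (w : ℝ) :
    Integrable fun u : ℝ => (𝓕 η) u * ((Ks s * |2 * Real.pi * (w - u)| ^ (2 * s) : ℝ) : ℂ) := by
  have h1 := (integrable_weight (𝓕 η) 2).const_mul (|Ks s| * (1 + 2 * Real.pi * (1 + |w|)) ^ 2)
  refine Integrable.mono' h1 ?_ (Eventually.of_forall fun u => ?_)
  · refine Continuous.aestronglyMeasurable ?_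
    exact (𝓕 η).continuous.mul
      (Complex.continuous_ofReal.comp (continuous_const.mul (continuous_symbol hs w)))
  · rw [norm_mul, Complex.norm_real, Real.norm_eq_abs, abs_mul,
      abs_of_nonneg (Real.rpow_nonneg (abs_nonneg (2 * Real.pi * (w - u))) _)]
    have h2 := symbol_le hs hs1 w u
    calc ‖(𝓕 η) u‖ * (|Ks s| * |2 * Real.pi * (w - u)| ^ (2 * s))
        ≤ ‖(𝓕 η) u‖ * (|Ks s| * ((1 + 2 * Real.pi * (1 + |w|)) ^ 2 * (1 + |u|) ^ 2)) := by
          gcongr
      _ = _ := by ring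

/-- The second difference of a modulated Schwartz function. -/
lemma secDiff_eq (η : 𝓢(ℝ, ℂ)) (w x z : ℝ) :
    secDiff (fun y => ex (w * y) * η y) x z
      = ∫ u, (𝓕 η) u * ex ((w - u) * x) * ((2 * (1 - Real.cos (2 * Real.pi * (w - u) * z)) : ℝ) : ℂ) := by
  have hint : ∀ y : ℝ, Integrable fun u : ℝ => (𝓕 η) u * ex ((w - u) * y) := by
    intro y
    refine (𝓕 η).integrable.mul_bdd (c := 1) ?_ (Eventually.of_forall fun u => (norm_ex _).le)
    exact (continuous_ex.comp (by fun_prop : Continuous fun u : ℝ => (w - u) * y)).aestronglyMeasurable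
  have hval : ∀ y : ℝ, ex (w * y) * η y = ∫ u, (𝓕 η) u * ex ((w - u) * y) := by
    intro y
    rw [schwartz_inversion η y, ← integral_const_mul]
    refine integral_congr_ae (Eventually.of_forall fun u => ?_)
    simp only
    have : ex ((w - u) * y) = ex (w * y) * ex (-(u * y)) := by
      rw [← ex_add]; congr 1; ring
    rw [this]; ring
  unfold secDiff
  simp only
  have hint2 : Integrable fun u : ℝ => 2 * ((𝓕 η) u * ex ((w - u) * x))
      - (𝓕 η) u * ex ((w - u) * (x + z)) := ((hint x).const_mul 2).sub (hint (x + z))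
  rw [hval x, hval (x + z), hval (x - z), ← integral_const_mul,
    ← integral_sub ((hint x).const_mul 2) (hint (x + z)),
    ← integral_sub hint2 (hint (x - z))]
  refine integral_congr_ae (Eventually.of_forall fun u => ?_)
  simp only
  have e1 : ex ((w - u) * (x + z)) = ex ((w - u) * x) * ex ((w - u) * z) := by
    rw [← ex_add]; congr 1; ring
  have e2 : ex ((w - u) * (x - z)) = ex ((w - u) * x) * ex (-((w - u) * z)) := by
    rw [← ex_add]; congr 1; ring
  have e3 := ex_add_ex_neg ((w - u) * z)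
  have e4 : 2 * Real.pi * (w - u) * z = 2 * Real.pi * ((w - u) * z) := by ring
  rw [e1, e2, e4]
  generalize Real.cos (2 * Real.pi * ((w - u) * z)) = r at e3 ⊢
  simp only [Complex.ofReal_mul, Complex.ofReal_sub, Complex.ofReal_one, Complex.ofReal_ofNat]
  linear_combination (-(𝓕 η) u * ex ((w - u) * x)) * e3

/-- Pointwise Fourier representation of the fractional Laplacian. -/
lemma symLap_eq {s : ℝ} (hs : 0 < s) (hs1 : s < 1) (η : 𝓢(ℝ, ℂ)) (w x : ℝ) :
    symLap s (fun y => ex (w * y) * η y) x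
      = ∫ u, ((𝓕 η) u * ((Ks s * |2 * Real.pi * (w - u)| ^ (2 * s) : ℝ) : ℂ))
          * ex ((w - u) * x) := by
  unfold symLap
  set F : ℝ → ℝ → ℂ := fun z u => (z ^ (1 + 2 * s))⁻¹ • ((𝓕 η) u * ex ((w - u) * x)
    * ((2 * (1 - Real.cos (2 * Real.pi * (w - u) * z)) : ℝ) : ℂ)) with hF
  have hmeasF : AEStronglyMeasurable (Function.uncurry F)
      ((volume.restrict (Ioi (0 : ℝ))).prod volume) := by
    have hA : AEStronglyMeasurable (fun p : ℝ × ℝ => (p.1 ^ (1 + 2 * s))⁻¹)
        ((volume.restrict (Ioi (0 : ℝ))).prod volume) :=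
      (by fun_prop : Measurable fun p : ℝ × ℝ => (p.1 ^ (1 + 2 * s))⁻¹).aestronglyMeasurable
    have hB : AEStronglyMeasurable (fun p : ℝ × ℝ => (𝓕 η) p.2 * ex ((w - p.2) * x)
        * ((2 * (1 - Real.cos (2 * Real.pi * (w - p.2) * p.1)) : ℝ) : ℂ))
        ((volume.restrict (Ioi (0 : ℝ))).prod volume) := by
      refine Continuous.aestronglyMeasurable ?_
      have h1 : Continuous fun p : ℝ × ℝ => (𝓕 η) p.2 := (𝓕 η).continuous.comp continuous_snd
      have h2 : Continuous fun p : ℝ × ℝ => ex ((w - p.2) * x) := continuous_ex.comp (by fun_prop)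
      have h3 : Continuous fun p : ℝ × ℝ =>
          ((2 * (1 - Real.cos (2 * Real.pi * (w - p.2) * p.1)) : ℝ) : ℂ) := by fun_prop
      exact (h1.mul h2).mul h3
    exact hA.smul hB
  have hnormF : ∀ u : ℝ, ∀ z ∈ Ioi (0 : ℝ), ‖F z u‖
      = ‖(𝓕 η) u‖ * ((z ^ (1 + 2 * s))⁻¹ • (2 * (1 - Real.cos (2 * Real.pi * (w - u) * z)))) := by
    intro u z hz
    have hz0 : (0 : ℝ) < z := hz
    have h1 := Real.cos_le_one (2 * Real.pi * (w - u) * z)
    simp only [hF]
    rw [norm_smul, norm_mul, norm_mul, norm_ex, Complex.norm_real, norm_inv, Real.norm_eq_abs,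
      abs_of_pos (Real.rpow_pos_of_pos hz0 _), Real.norm_eq_abs, abs_of_nonneg (by linarith),
      smul_eq_mul]
    ring
  have hintF : Integrable (Function.uncurry F) ((volume.restrict (Ioi (0 : ℝ))).prod volume) := by
    rw [integrable_prod_iff' hmeasF]
    constructor
    · refine Eventually.of_forall fun u => ?_
      have h1 := ((integrable_cos hs hs1 (2 * Real.pi * (w - u))).ofReal (𝕜 := ℂ)).const_mul
        ((𝓕 η) u * ex ((w - u) * x))
      refine h1.congr (Eventually.of_forall fun z => ?_)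
      simp only [Function.uncurry, hF, smul_eq_mul, Complex.real_smul]
      generalize 2 * (1 - Real.cos (2 * Real.pi * (w - u) * z)) = r
      simp only [Complex.ofReal_mul, Complex.coe_algebraMap]
      ring
    · have h2 : ∀ u : ℝ, ∫ z in Ioi (0 : ℝ), ‖Function.uncurry F (z, u)‖
          = ‖(𝓕 η) u * ((Ks s * |2 * Real.pi * (w - u)| ^ (2 * s) : ℝ) : ℂ)‖ := by
        intro u
        show ∫ z in Ioi (0 : ℝ), ‖F z u‖ = _
        rw [setIntegral_congr_fun measurableSet_Ioi (hnormF u), integral_const_mul,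
          integral_cos hs, norm_mul, Complex.norm_real, Real.norm_eq_abs,
          abs_of_nonneg (mul_nonneg (Ks_pos hs hs1).le (Real.rpow_nonneg (abs_nonneg _) _))]
      simp only [h2]
      exact (integrable_symbol hs hs1 η w).norm
  calc ∫ z in Ioi (0 : ℝ), (z ^ (1 + 2 * s))⁻¹ • secDiff (fun y => ex (w * y) * η y) x z
      = ∫ z in Ioi (0 : ℝ), ∫ u, F z u := by
        refine setIntegral_congr_fun measurableSet_Ioi fun z _ => ?_
        simp only [hF]
        rw [secDiff_eq, integral_smul]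
    _ = ∫ u, ∫ z in Ioi (0 : ℝ), F z u := integral_integral_swap hintF
    _ = _ := by
        refine integral_congr_ae (Eventually.of_forall fun u => ?_)
        simp only
        have h3 : ∀ z ∈ Ioi (0 : ℝ), F z u = ((𝓕 η) u * ex ((w - u) * x)) *
            (((z ^ (1 + 2 * s))⁻¹ • (2 * (1 - Real.cos (2 * Real.pi * (w - u) * z))) : ℝ) : ℂ) := by
          intro z _
          simp only [hF, smul_eq_mul, Complex.real_smul]
          generalize 2 * (1 - Real.cos (2 * Real.pi * (w - u) * z)) = r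
          simp only [Complex.ofReal_mul]
          ring
        rw [setIntegral_congr_fun measurableSet_Ioi h3, integral_const_mul,
          integral_complex_ofReal, integral_cos hs]
        ring

/-- Near part, first identity. -/
lemma near_product {v : ℝ → ℂ} (hv : Integrable v) (η : 𝓢(ℝ, ℂ)) (w : ℝ) :
    ∫ x, v x * (ex (w * x) * η x) = ∫ u, (𝓕 η) u * 𝓕 v (w - u) := by
  rw [← fubini_identity hv (𝓕 η).integrable w]
  refine integral_congr_ae (Eventually.of_forall fun x => ?_)
  simp only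
  congr 1
  rw [schwartz_inversion η x, ← integral_const_mul]
  refine integral_congr_ae (Eventually.of_forall fun u => ?_)
  simp only
  have : ex ((w - u) * x) = ex (w * x) * ex (-(u * x)) := by
    rw [← ex_add]; congr 1; ring
  rw [this]; ring

/-- Near part, second identity. -/
lemma near_symLap {s : ℝ} (hs : 0 < s) (hs1 : s < 1) {v : ℝ → ℂ} (hv : Integrable v)
    (η : 𝓢(ℝ, ℂ)) (w : ℝ) :
    ∫ x, v x * symLap s (fun y => ex (w * y) * η y) x
      = ∫ u, ((𝓕 η) u * ((Ks s * |2 * Real.pi * (w - u)| ^ (2 * s) : ℝ) : ℂ))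
          * 𝓕 v (w - u) := by
  rw [← fubini_identity hv (integrable_symbol hs hs1 η w) w]
  refine integral_congr_ae (Eventually.of_forall fun x => ?_)
  simp only
  rw [symLap_eq hs hs1]

end Pool.Agent.H88.Stefan
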