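import Mathlib
import Pool.Agent.H88.StefanFourier

/-!
# The commutator bound
-/

namespace Pool.Agent.H88.Stefan

open Set Filter Topology MeasureTheory
open scoped ContDiff FourierTransform SchwartzMap

lemma continuous_fourier_of_integrable {v : ℝ → ℂ} (hv : Integrable v) : Continuous (𝓕 v) :=
  VectorFourier.fourierIntegral_continuous Real.continuous_fourierChar
    (by exact continuous_inner) hv

/-- `|a^s - b^s| ≤ |a - b|^s` for `0 ≤ s ≤ 1`. -/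
lemma abs_rpow_sub_rpow_le {s a b : ℝ} (hs : 0 ≤ s) (hs1 : s ≤ 1) (ha : 0 ≤ a) (hb : 0 ≤ b) :
    |a ^ s - b ^ s| ≤ |a - b| ^ s := by
  wlog hab : b ≤ a generalizing a b
  · rw [abs_sub_comm, abs_sub_comm a b]
    exact this hb ha (le_of_not_ge hab)
  have h1 : b ^ s ≤ a ^ s := Real.rpow_le_rpow hb hab hs
  have h2 := Real.rpow_add_le_add_rpow (a := b) (b := a - b) hb (by linarith) hs hs1
  rw [show b + (a - b) = a by ring] at h2
  rw [abs_of_nonneg (by linarith), abs_of_nonneg (by linarith)]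
  linarith

/-- The commutator symbol. -/
lemma comm_bound {s : ℝ} (hs : 0 < s) (hs1 : s < 1) (w u : ℝ) :
    abs (|w - u| ^ (2 * s) - |w| ^ (2 * s)) ≤ 2 * (1 + |u|) ^ 2 * (1 + |w|) ^ s := by
  have hw := abs_nonneg w
  have hu := abs_nonneg u
  have e : ∀ a : ℝ, 0 ≤ a → a ^ (2 * s) = a ^ s * a ^ s := by
    intro a ha
    rw [two_mul, Real.rpow_add_of_nonneg ha hs.le hs.le]
  have e1 : |w - u| ^ (2 * s) - |w| ^ (2 * s)
      = (|w - u| ^ s - |w| ^ s) * (|w - u| ^ s + |w| ^ s) := by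
    rw [e _ (abs_nonneg _), e _ (abs_nonneg _)]; ring
  have h1 : abs (|w - u| ^ s - |w| ^ s) ≤ 1 + |u| := by
    refine (abs_rpow_sub_rpow_le hs.le hs1.le (abs_nonneg _) (abs_nonneg _)).trans ?_
    have h2 : abs (|w - u| - |w|) ≤ |u| := by
      refine (abs_abs_sub_abs_le_abs_sub _ _).trans ?_
      rw [show w - u - w = -u by ring, abs_neg]
    calc abs (|w - u| - |w|) ^ s ≤ (1 + |u|) ^ s :=
          Real.rpow_le_rpow (abs_nonneg _) (by linarith) hs.le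
      _ ≤ (1 + |u|) ^ (1 : ℝ) := Real.rpow_le_rpow_of_exponent_le (by linarith) hs1.le
      _ = 1 + |u| := Real.rpow_one _
  have h3 : |w - u| ^ s ≤ (1 + |u|) * (1 + |w|) ^ s := by
    calc |w - u| ^ s ≤ ((1 + |u|) * (1 + |w|)) ^ s := by
          refine Real.rpow_le_rpow (abs_nonneg _) ?_ hs.le
          have := abs_sub w u
          nlinarith [mul_nonneg hw hu]
      _ = (1 + |u|) ^ s * (1 + |w|) ^ s := Real.mul_rpow (by linarith) (by linarith)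
      _ ≤ (1 + |u|) ^ (1 : ℝ) * (1 + |w|) ^ s := by
          gcongr
          · linarith
      _ = _ := by rw [Real.rpow_one]
  have h4 : |w| ^ s ≤ (1 + |u|) * (1 + |w|) ^ s := by
    calc |w| ^ s ≤ (1 + |w|) ^ s := Real.rpow_le_rpow hw (by linarith) hs.le
      _ = 1 * (1 + |w|) ^ s := (one_mul _).symm
      _ ≤ _ := by gcongr; linarith
  have h5 : 0 ≤ |w - u| ^ s := Real.rpow_nonneg (abs_nonneg _) _
  have h6 : 0 ≤ |w| ^ s := Real.rpow_nonneg (abs_nonneg _) _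
  rw [e1, abs_mul, abs_of_nonneg (by linarith : 0 ≤ |w - u| ^ s + |w| ^ s)]
  calc abs (|w - u| ^ s - |w| ^ s) * (|w - u| ^ s + |w| ^ s)
      ≤ (1 + |u|) * ((1 + |u|) * (1 + |w|) ^ s + (1 + |u|) * (1 + |w|) ^ s) := by
        gcongr
    _ = _ := by ring

/-- Peetre's inequality. -/
lemma peetre {N : ℝ} (hN : 0 ≤ N) (w u : ℝ) :
    (1 + |w - u|) ^ (-N) ≤ (1 + |u|) ^ ⌈N⌉₊ * (1 + |w|) ^ (-N) := by
  have hw := abs_nonneg w
  have hu := abs_nonneg u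
  have hwu := abs_nonneg (w - u)
  have h1 : 1 + |w| ≤ (1 + |w - u|) * (1 + |u|) := by
    have : |w| ≤ |w - u| + |u| := by
      calc |w| = |(w - u) + u| := by rw [sub_add_cancel]
        _ ≤ _ := abs_add_le _ _
    nlinarith [mul_nonneg hwu hu]
  have h2 : (1 + |w|) ^ N ≤ (1 + |w - u|) ^ N * (1 + |u|) ^ N := by
    rw [← Real.mul_rpow (by linarith) (by linarith)]
    exact Real.rpow_le_rpow (by linarith) h1 hN
  have h3 : (1 + |u|) ^ N ≤ (1 + |u|) ^ ⌈N⌉₊ := by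
    rw [← Real.rpow_natCast]
    exact Real.rpow_le_rpow_of_exponent_le (by linarith) (Nat.le_ceil N)
  have p1 : 0 < (1 + |w|) ^ N := Real.rpow_pos_of_pos (by linarith) _
  have p2 : 0 < (1 + |w - u|) ^ N := Real.rpow_pos_of_pos (by linarith) _
  rw [Real.rpow_neg (by linarith), Real.rpow_neg (by linarith)]
  rw [← div_eq_mul_inv, le_div_iff₀ p1, inv_mul_le_iff₀ p2]
  calc (1 + |w|) ^ N ≤ (1 + |w - u|) ^ N * (1 + |u|) ^ N := h2
    _ ≤ _ := by gcongr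

/-- The remainder in the commutator. -/
noncomputable def R1 (s : ℝ) (η : 𝓢(ℝ, ℂ)) (v : ℝ → ℂ) (w : ℝ) : ℂ :=
  ∫ u, (𝓕 η) u * ((|w - u| ^ (2 * s) - |w| ^ (2 * s) : ℝ) : ℂ) * 𝓕 v (w - u)

lemma R1_integrable {s : ℝ} (hs : 0 < s) (hs1 : s < 1) (η : 𝓢(ℝ, ℂ)) {v : ℝ → ℂ}
    (hv : Integrable v) (w : ℝ) :
    Integrable fun u : ℝ =>
      (𝓕 η) u * ((|w - u| ^ (2 * s) - |w| ^ (2 * s) : ℝ) : ℂ) * 𝓕 v (w - u) := by
  have hcont : Continuous (𝓕 v) := continuous_fourier_of_integrable hv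
  have hb : ∀ ζ, ‖𝓕 v ζ‖ ≤ ∫ x, ‖v x‖ := fun ζ => by
    rw [fourier_eq_ex]
    refine (norm_integral_le_integral_norm _).trans (le_of_eq ?_)
    refine integral_congr_ae (Eventually.of_forall fun x => ?_)
    simp [norm_ex]
  have h1 := (integrable_weight (𝓕 η) 2).const_mul (2 * (1 + |w|) ^ s * ∫ x, ‖v x‖)
  refine Integrable.mono' h1 ?_ (Eventually.of_forall fun u => ?_)
  · refine Continuous.aestronglyMeasurable ?_
    refine ((𝓕 η).continuous.mul (Complex.continuous_ofReal.comp ?_)).mul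
      (hcont.comp (by fun_prop))
    refine Continuous.sub ?_ continuous_const
    exact Continuous.rpow_const (by fun_prop) fun u => Or.inr (by positivity)
  · rw [norm_mul, norm_mul, Complex.norm_real, Real.norm_eq_abs]
    have hc := comm_bound hs hs1 w u
    have h2 := hb (w - u)
    have h3 : 0 ≤ (1 + |w|) ^ s := Real.rpow_nonneg (by positivity) _
    calc ‖(𝓕 η) u‖ * abs (|w - u| ^ (2 * s) - |w| ^ (2 * s)) * ‖𝓕 v (w - u)‖
        ≤ ‖(𝓕 η) u‖ * (2 * (1 + |u|) ^ 2 * (1 + |w|) ^ s) * ∫ x, ‖v x‖ := by gcongr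
      _ = _ := by ring

lemma R1_bound {s : ℝ} (hs : 0 < s) (hs1 : s < 1) (η : 𝓢(ℝ, ℂ)) {v : ℝ → ℂ}
    {A N : ℝ} (hA : 0 ≤ A) (hN : 0 ≤ N)
    (hdec : ∀ ζ, ‖𝓕 v ζ‖ ≤ A * (1 + |ζ|) ^ (-N)) :
    ∃ C : ℝ, 0 ≤ C ∧ ∀ w, ‖R1 s η v w‖ ≤ C * (1 + |w|) ^ (-(N - s)) := by
  have hint := integrable_weight (𝓕 η) (2 + ⌈N⌉₊)
  refine ⟨2 * A * ∫ u, (1 + |u|) ^ (2 + ⌈N⌉₊) * ‖(𝓕 η) u‖, ?_, ?_⟩
  · have : 0 ≤ ∫ u, (1 + |u|) ^ (2 + ⌈N⌉₊) * ‖(𝓕 η) u‖ :=
      integral_nonneg fun u => by positivity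
    positivity
  · intro w
    have hw : (0 : ℝ) < 1 + |w| := by positivity
    have hbd : ∀ u, ‖(𝓕 η) u * ((|w - u| ^ (2 * s) - |w| ^ (2 * s) : ℝ) : ℂ) * 𝓕 v (w - u)‖
        ≤ (2 * A * (1 + |w|) ^ (-(N - s))) * ((1 + |u|) ^ (2 + ⌈N⌉₊) * ‖(𝓕 η) u‖) := by
      intro u
      rw [norm_mul, norm_mul, Complex.norm_real, Real.norm_eq_abs]
      have hc := comm_bound hs hs1 w u
      have h2 : ‖𝓕 v (w - u)‖ ≤ A * ((1 + |u|) ^ ⌈N⌉₊ * (1 + |w|) ^ (-N)) :=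
        (hdec (w - u)).trans (by gcongr; exact peetre hN w u)
      have h3 : 0 ≤ (1 + |w|) ^ s := Real.rpow_nonneg (by positivity) _
      have h4 : (1 + |w|) ^ (-(N - s)) = (1 + |w|) ^ s * (1 + |w|) ^ (-N) := by
        rw [← Real.rpow_add hw]; congr 1; ring
      calc ‖(𝓕 η) u‖ * abs (|w - u| ^ (2 * s) - |w| ^ (2 * s)) * ‖𝓕 v (w - u)‖
          ≤ ‖(𝓕 η) u‖ * (2 * (1 + |u|) ^ 2 * (1 + |w|) ^ s)
              * (A * ((1 + |u|) ^ ⌈N⌉₊ * (1 + |w|) ^ (-N))) := by gcongr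
        _ = _ := by rw [h4, pow_add]; ring
    have := norm_integral_le_of_norm_le
      (hint.const_mul (2 * A * (1 + |w|) ^ (-(N - s)))) (Eventually.of_forall hbd)
    unfold R1
    refine this.trans (le_of_eq ?_)
    rw [integral_const_mul]
    ring

/-- The near part: `∫ v · symLap(ex(w·)η) = Ks (2π)^{2s} (|w|^{2s} 𝓕[ηv](w) + R₁(w))`. -/
lemma near_formula {s : ℝ} (hs : 0 < s) (hs1 : s < 1) {v : ℝ → ℂ} (hv : Integrable v)
    (η : 𝓢(ℝ, ℂ)) (w : ℝ) :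
    ∫ x, v x * symLap s (fun y => ex (w * y) * η y) x
      = ((Ks s * (2 * Real.pi) ^ (2 * s) : ℝ) : ℂ) *
        (((|w| ^ (2 * s) : ℝ) : ℂ) * (∫ x, v x * (ex (w * x) * η x)) + R1 s η v w) := by
  rw [near_symLap hs hs1 hv, near_product hv, R1]
  have hprod : Integrable fun u : ℝ => (𝓕 η) u * 𝓕 v (w - u) := by
    have hb : ∀ ζ, ‖𝓕 v ζ‖ ≤ ∫ x, ‖v x‖ := fun ζ => by
      rw [fourier_eq_ex]
      refine (norm_integral_le_integral_norm _).trans (le_of_eq ?_)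
      refine integral_congr_ae (Eventually.of_forall fun x => ?_)
      simp [norm_ex]
    exact (𝓕 η).integrable.mul_bdd (c := ∫ x, ‖v x‖)
      ((continuous_fourier_of_integrable hv).comp (by fun_prop)).aestronglyMeasurable
      (Eventually.of_forall fun u => hb _)
  rw [← integral_const_mul, ← integral_add (hprod.const_mul _) (R1_integrable hs hs1 η hv w),
    ← integral_const_mul]
  refine integral_congr_ae (Eventually.of_forall fun u => ?_)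
  simp only
  have hpi := Real.pi_pos
  have e : |2 * Real.pi * (w - u)| ^ (2 * s) = (2 * Real.pi) ^ (2 * s) * |w - u| ^ (2 * s) := by
    rw [abs_mul, abs_of_pos (by positivity : 0 < 2 * Real.pi),
      Real.mul_rpow (by positivity) (abs_nonneg _)]
  rw [e]
  simp only [Complex.ofReal_mul, Complex.ofReal_sub]
  ring

end Pool.Agent.H88.Stefan
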