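import Mathlib
import Pool.Agent.H88.StefanComm

/-!
# The far part
-/

namespace Pool.Agent.H88.Stefan

open Set Filter Topology MeasureTheory
open scoped ContDiff FourierTransform SchwartzMap

/-- The one-sided kernel integral. -/
noncomputable def Fk (g : ℝ → ℂ) (c₀ α : ℝ) (y : ℝ) : ℂ :=
  ∫ x in Ioi c₀, ((x - y) ^ (-α) : ℝ) • g x

lemma integrableOn_sub_rpow {c₀ α y : ℝ} (hα : 1 < α) (hy : y < c₀) :
    IntegrableOn (fun x : ℝ => (x - y) ^ (-α)) (Ioi c₀) := by
  have h := integrableOn_Ioi_rpow_of_lt (a := -α) (by linarith) (sub_pos.mpr hy)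
  have hmp : MeasurePreserving (fun z : ℝ => z - y) volume volume :=
    measurePreserving_sub_right volume y
  have hme : MeasurableEmbedding (fun z : ℝ => z - y) := by
    simpa [sub_eq_add_neg] using measurableEmbedding_addRight (-y)
  have := (hmp.integrableOn_comp_preimage hme (f := fun z : ℝ => z ^ (-α))
    (s := Ioi (c₀ - y))).mpr h
  have hpre : (fun z : ℝ => z - y) ⁻¹' Ioi (c₀ - y) = Ioi c₀ := by
    ext z; simp
  rw [hpre] at this
  exact this

lemma integrableOn_Fk {g : ℝ → ℂ} (hg : Measurable g) {B : ℝ} (hB : ∀ x, ‖g x‖ ≤ B)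
    {c₀ α y : ℝ} (hα : 1 < α) (hy : y < c₀) :
    IntegrableOn (fun x : ℝ => ((x - y) ^ (-α) : ℝ) • g x) (Ioi c₀) := by
  refine Integrable.mono' ((integrableOn_sub_rpow hα hy).mul_const B) ?_ ?_
  · refine Measurable.aestronglyMeasurable ?_
    fun_prop
  · rw [ae_restrict_iff' measurableSet_Ioi]
    refine Eventually.of_forall fun x hx => ?_
    have hx0 : 0 < x - y := by have : c₀ < x := hx; linarith
    rw [norm_smul, Real.norm_eq_abs, abs_of_pos (Real.rpow_pos_of_pos hx0 _)]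
    gcongr
    exact hB x

lemma hasDerivAt_Fk {g : ℝ → ℂ} (hg : Measurable g) {B : ℝ} (hB : ∀ x, ‖g x‖ ≤ B)
    {c₀ α y : ℝ} (hα : 1 < α) (hy : y < c₀) :
    HasDerivAt (Fk g c₀ α) (α • Fk g c₀ (α + 1) y) y := by
  have hB0 : 0 ≤ B := (norm_nonneg _).trans (hB 0)
  set ε : ℝ := (c₀ - y) / 2 with hε
  have hε0 : 0 < ε := by rw [hε]; linarith
  have key := hasDerivAt_integral_of_dominated_loc_of_deriv_le
    (μ := volume.restrict (Ioi c₀))
    (F := fun (y x : ℝ) => ((x - y) ^ (-α) : ℝ) • g x)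
    (F' := fun (y x : ℝ) => (α * (x - y) ^ (-(α + 1)) : ℝ) • g x)
    (x₀ := y) (s := Metric.ball y ε)
    (bound := fun x => (α * (2 : ℝ) ^ (α + 1) * B) * (x - y) ^ (-(α + 1)))
    (Metric.ball_mem_nhds y hε0) ?_ ?_ ?_ ?_ ?_ ?_
  · refine key.2.congr_deriv ?_
    unfold Fk
    rw [← integral_smul]
    refine setIntegral_congr_fun measurableSet_Ioi fun x _ => ?_
    simp only [smul_smul]
  · refine Eventually.of_forall fun y' => ?_
    refine Measurable.aestronglyMeasurable ?_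
    fun_prop
  · exact integrableOn_Fk hg hB hα hy
  · refine Measurable.aestronglyMeasurable ?_
    fun_prop
  · rw [ae_restrict_iff' measurableSet_Ioi]
    refine Eventually.of_forall fun x hx y' hy' => ?_
    have hx' : c₀ < x := hx
    have hy2 : |y' - y| < ε := by
      have := Metric.mem_ball.mp hy'
      rwa [Real.dist_eq] at this
    have h1 : (x - y) / 2 ≤ x - y' := by
      have := (abs_lt.mp hy2).2
      rw [hε] at this
      linarith
    have h2 : 0 < (x - y) / 2 := by linarith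
    have h3 : 0 < x - y := by linarith
    rw [norm_smul, Real.norm_eq_abs, abs_of_nonneg (mul_nonneg (by linarith)
      (Real.rpow_nonneg (by linarith) _))]
    have h4 : (x - y') ^ (-(α + 1)) ≤ ((x - y) / 2) ^ (-(α + 1)) :=
      Real.rpow_le_rpow_of_nonpos h2 h1 (by linarith)
    have h5 : ((x - y) / 2) ^ (-(α + 1)) = (2 : ℝ) ^ (α + 1) * (x - y) ^ (-(α + 1)) := by
      rw [Real.div_rpow h3.le (by norm_num), Real.rpow_neg (by norm_num : (0 : ℝ) ≤ 2)]
      rw [div_inv_eq_mul, mul_comm]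
    have h6 : 0 ≤ (x - y') ^ (-(α + 1)) := Real.rpow_nonneg (by linarith) _
    have h7 : 0 ≤ (x - y) ^ (-(α + 1)) := Real.rpow_nonneg (by linarith) _
    have h8 : 0 ≤ (2 : ℝ) ^ (α + 1) := Real.rpow_nonneg (by norm_num) _
    calc α * (x - y') ^ (-(α + 1)) * ‖g x‖
        ≤ α * ((2 : ℝ) ^ (α + 1) * (x - y) ^ (-(α + 1))) * B := by
          rw [← h5]
          gcongr
          exact hB x
      _ = _ := by ring
  · exact (integrableOn_sub_rpow (by linarith : 1 < α + 1) hy).const_mul _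
  · rw [ae_restrict_iff' measurableSet_Ioi]
    refine Eventually.of_forall fun x hx y' hy' => ?_
    have hx' : c₀ < x := hx
    have hy2 : |y' - y| < ε := by
      have := Metric.mem_ball.mp hy'
      rwa [Real.dist_eq] at this
    have h1 : (0 : ℝ) < x - y' := by
      have := (abs_lt.mp hy2).2
      rw [hε] at this
      linarith
    have h2 : HasDerivAt (fun y : ℝ => x - y) (-1) y' := by
      simpa using (hasDerivAt_id y').const_sub x
    have h3 : HasDerivAt (fun y : ℝ => (x - y) ^ (-α)) (α * (x - y') ^ (-(α + 1))) y' := by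
      refine (h2.rpow_const (p := -α) (Or.inl h1.ne')).congr_deriv ?_
      rw [show -α - 1 = -(α + 1) by ring]
      ring
    exact h3.smul_const (g x)

lemma contDiffOn_Fk {g : ℝ → ℂ} (hg : Measurable g) {B : ℝ} (hB : ∀ x, ‖g x‖ ≤ B)
    {c₀ : ℝ} (n : ℕ) : ∀ {α : ℝ}, 1 < α → ContDiffOn ℝ n (Fk g c₀ α) (Iio c₀) := by
  induction n with
  | zero =>
    intro α hα
    rw [Nat.cast_zero, contDiffOn_zero]
    exact fun y hy => (hasDerivAt_Fk hg hB hα hy).continuousAt.continuousWithinAt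
  | succ n ih =>
    intro α hα
    rw [Nat.cast_succ, contDiffOn_succ_iff_deriv_of_isOpen isOpen_Iio]
    refine ⟨fun y hy => (hasDerivAt_Fk hg hB hα hy).differentiableAt.differentiableWithinAt,
      by simp, ?_⟩
    have h1 : ContDiffOn ℝ n (fun y => α • Fk g c₀ (α + 1) y) (Iio c₀) :=
      (ih (by linarith : 1 < α + 1)).const_smul α
    exact h1.congr fun y hy => (hasDerivAt_Fk hg hB hα hy).deriv

/-- `symLap` at a point to the right of the support. -/
lemma symLap_right {s : ℝ} {φ : ℝ → ℂ} {b c₀ : ℝ} (hbc : b ≤ c₀) (hφ : ∀ y, b < y → φ y = 0)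
    {x : ℝ} (hx : c₀ < x) :
    symLap s φ x = -∫ y, ((x - y) ^ (-(1 + 2 * s)) : ℝ) • φ y := by
  have h0 : ∀ z ∈ Ioi (0 : ℝ), (z ^ (1 + 2 * s))⁻¹ • secDiff φ x z
      = -((z ^ (-(1 + 2 * s)) : ℝ) • φ (x - z)) := by
    intro z hz
    have hz0 : (0 : ℝ) < z := hz
    unfold secDiff
    rw [hφ x (by linarith), hφ (x + z) (by linarith), Real.rpow_neg hz0.le]
    simp
  unfold symLap
  rw [setIntegral_congr_fun measurableSet_Ioi h0, integral_neg]
  congr 1
  have hmp : MeasurePreserving (fun z : ℝ => x - z) volume volume :=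
    Measure.measurePreserving_sub_left volume x
  have hme : MeasurableEmbedding (fun z : ℝ => x - z) := measurableEmbedding_subLeft x
  have hpre : (fun z : ℝ => x - z) ⁻¹' Iio x = Ioi 0 := by
    ext z; simp
  have h1 := hmp.setIntegral_preimage_emb hme
    (fun y : ℝ => ((x - y) ^ (-(1 + 2 * s)) : ℝ) • φ y) (Iio x)
  rw [hpre] at h1
  have h2 : ∀ y, y ∉ Iio x → ((x - y) ^ (-(1 + 2 * s)) : ℝ) • φ y = 0 := by
    intro y hy
    have : x ≤ y := not_lt.mp hy
    rw [hφ y (by linarith), smul_zero]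
  rw [← setIntegral_eq_integral_of_forall_compl_eq_zero h2, ← h1]
  refine setIntegral_congr_fun measurableSet_Ioi fun z _ => ?_
  show _ = ((x - (x - z)) ^ (-(1 + 2 * s)) : ℝ) • φ (x - z)
  rw [sub_sub_cancel]

lemma far_right {s : ℝ} (hs : 0 < s) {g : ℝ → ℂ} (hg : Measurable g) {B : ℝ}
    (hB : ∀ x, ‖g x‖ ≤ B) {φ : ℝ → ℂ} (hφc : Continuous φ) (hφi : Integrable φ) {b c₀ : ℝ}
    (hbc : b < c₀) (hφ : ∀ y, b < y → φ y = 0) :
    ∫ x in Ioi c₀, g x * symLap s φ x = -∫ y, φ y * Fk g c₀ (1 + 2 * s) y := by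
  have hprod : Integrable (Function.uncurry fun (x y : ℝ) =>
      ((x - y) ^ (-(1 + 2 * s)) : ℝ) • (g x * φ y)) ((volume.restrict (Ioi c₀)).prod volume) := by
    have h1 : Integrable (fun p : ℝ × ℝ => (B * (p.1 - b) ^ (-(1 + 2 * s))) * ‖φ p.2‖)
        ((volume.restrict (Ioi c₀)).prod volume) :=
      ((integrableOn_sub_rpow (by linarith : 1 < 1 + 2 * s) hbc).const_mul B).mul_prod hφi.norm
    refine Integrable.mono' h1 ?_ ?_
    · have m1 : AEStronglyMeasurable (fun p : ℝ × ℝ => ((p.1 - p.2) ^ (-(1 + 2 * s)) : ℝ))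
          ((volume.restrict (Ioi c₀)).prod volume) :=
        (by fun_prop : Measurable fun p : ℝ × ℝ =>
          ((p.1 - p.2) ^ (-(1 + 2 * s)) : ℝ)).aestronglyMeasurable
      have m2 : AEStronglyMeasurable (fun p : ℝ × ℝ => g p.1 * φ p.2)
          ((volume.restrict (Ioi c₀)).prod volume) := by
        have := hφc.measurable
        exact (by fun_prop : Measurable fun p : ℝ × ℝ => g p.1 * φ p.2).aestronglyMeasurable
      exact m1.smul m2
    · have hae : ∀ᵐ p ∂((volume.restrict (Ioi c₀)).prod (volume : Measure ℝ)), p.1 ∈ Ioi c₀ := by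
        have := (Measure.quasiMeasurePreserving_fst
          (μ := volume.restrict (Ioi c₀)) (ν := (volume : Measure ℝ))).ae
          (ae_restrict_mem (measurableSet_Ioi : MeasurableSet (Ioi c₀)))
        exact this
      filter_upwards [hae] with p hp
      have hp1 : c₀ < p.1 := hp
      have hBg := hB p.1
      have hB0 : 0 ≤ B := (norm_nonneg _).trans hBg
      simp only [Function.uncurry]
      rw [norm_smul, norm_mul, Real.norm_eq_abs]
      by_cases hy : b < p.2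
      · rw [hφ _ hy, norm_zero]; simp
      · push Not at hy
        have h2 : 0 < p.1 - b := by linarith
        have h3 : p.1 - b ≤ p.1 - p.2 := by linarith
        have h4 : (p.1 - p.2) ^ (-(1 + 2 * s)) ≤ (p.1 - b) ^ (-(1 + 2 * s)) :=
          Real.rpow_le_rpow_of_nonpos h2 h3 (by linarith)
        have h5 : 0 ≤ (p.1 - p.2) ^ (-(1 + 2 * s)) := Real.rpow_nonneg (by linarith) _
        rw [abs_of_nonneg h5]
        calc (p.1 - p.2) ^ (-(1 + 2 * s)) * (‖g p.1‖ * ‖φ p.2‖)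
            ≤ (p.1 - b) ^ (-(1 + 2 * s)) * (B * ‖φ p.2‖) := by gcongr
          _ = _ := by ring
  calc ∫ x in Ioi c₀, g x * symLap s φ x
      = ∫ x in Ioi c₀, -∫ y, ((x - y) ^ (-(1 + 2 * s)) : ℝ) • (g x * φ y) := by
        refine setIntegral_congr_fun measurableSet_Ioi fun x hx => ?_
        show g x * symLap s φ x = -∫ y, ((x - y) ^ (-(1 + 2 * s)) : ℝ) • (g x * φ y)
        rw [symLap_right hbc.le hφ hx, mul_neg, ← integral_const_mul]
        congr 1
        refine integral_congr_ae (Eventually.of_forall fun y => ?_)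
        exact mul_smul_comm _ _ _
    _ = -∫ x in Ioi c₀, ∫ y, ((x - y) ^ (-(1 + 2 * s)) : ℝ) • (g x * φ y) := integral_neg _
    _ = -∫ y, ∫ x in Ioi c₀, ((x - y) ^ (-(1 + 2 * s)) : ℝ) • (g x * φ y) := by
        rw [integral_integral_swap hprod]
    _ = _ := by
        congr 1
        refine integral_congr_ae (Eventually.of_forall fun y => ?_)
        simp only [Fk]
        rw [← integral_const_mul]
        refine setIntegral_congr_fun measurableSet_Ioi fun x _ => ?_
        show _ = φ y * (((x - y) ^ (-(1 + 2 * s)) : ℝ) • g x)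
        rw [mul_smul_comm, mul_comm (g x)]

lemma symLap_neg (s : ℝ) (φ : ℝ → ℂ) (x : ℝ) :
    symLap s φ (-x) = symLap s (fun y => φ (-y)) x := by
  unfold symLap
  refine setIntegral_congr_fun measurableSet_Ioi fun z _ => ?_
  simp only [secDiff]
  rw [show -x + z = -(x - z) by ring, show -x - z = -(x + z) by ring]
  congr 1
  ring

lemma far_left {s : ℝ} (hs : 0 < s) {g : ℝ → ℂ} (hg : Measurable g) {B : ℝ}
    (hB : ∀ x, ‖g x‖ ≤ B) {φ : ℝ → ℂ} (hφc : Continuous φ) (hφi : Integrable φ) {a c₀ : ℝ}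
    (hac : c₀ < a) (hφ : ∀ y, y < a → φ y = 0) :
    ∫ x in Iio c₀, g x * symLap s φ x
      = -∫ y, φ y * Fk (fun x => g (-x)) (-c₀) (1 + 2 * s) (-y) := by
  have h1 := far_right (s := s) hs (g := fun x => g (-x)) (by fun_prop) (fun x => hB (-x))
    (φ := fun y => φ (-y)) (by fun_prop) hφi.comp_neg (b := -a) (c₀ := -c₀) (by linarith)
    (fun y hy => hφ _ (by linarith))
  have hmp : MeasurePreserving (fun z : ℝ => -z) volume volume :=
    Measure.measurePreserving_neg volume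
  have hme : MeasurableEmbedding (fun z : ℝ => -z) := (MeasurableEquiv.neg ℝ).measurableEmbedding
  have hpre : (fun z : ℝ => -z) ⁻¹' Iio c₀ = Ioi (-c₀) := by
    ext z; simp
  have h2 := hmp.setIntegral_preimage_emb hme (fun x : ℝ => g x * symLap s φ x) (Iio c₀)
  rw [hpre] at h2
  rw [← h2]
  have h3 : ∀ x ∈ Ioi (-c₀), g (-x) * symLap s φ (-x)
      = g (-x) * symLap s (fun y => φ (-y)) x := fun x _ => by rw [symLap_neg]
  rw [setIntegral_congr_fun measurableSet_Ioi h3, h1]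
  congr 1
  rw [← integral_neg_eq_self (fun y => φ (-y) * Fk (fun x => g (-x)) (-c₀) (1 + 2 * s) y)]
  simp only [neg_neg]

/-- The far kernel. -/
noncomputable def kfar (s : ℝ) (g : ℝ → ℂ) (a' b' : ℝ) (y : ℝ) : ℂ :=
  Fk g b' (1 + 2 * s) y + Fk (fun x => g (-x)) (-a') (1 + 2 * s) (-y)

lemma contDiffOn_kfar {s : ℝ} (hs : 0 < s) {g : ℝ → ℂ} (hg : Measurable g) {B : ℝ}
    (hB : ∀ x, ‖g x‖ ≤ B) (a' b' : ℝ) :
    ContDiffOn ℝ ∞ (kfar s g a' b') (Ioo a' b') := by
  rw [contDiffOn_infty]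
  intro n
  have h1 : ContDiffOn ℝ n (Fk g b' (1 + 2 * s)) (Ioo a' b') :=
    (contDiffOn_Fk hg hB n (by linarith)).mono fun y hy => hy.2
  have h2 : ContDiffOn ℝ n (fun y => Fk (fun x => g (-x)) (-a') (1 + 2 * s) (-y)) (Ioo a' b') := by
    refine (contDiffOn_Fk (g := fun x => g (-x)) (by fun_prop) (fun x => hB (-x)) n
      (by linarith)).comp contDiff_neg.contDiffOn fun y hy => ?_
    have := hy.1
    simp only [mem_Iio]
    linarith
  exact h1.add h2

lemma far_formula {s : ℝ} (hs : 0 < s) (hs1 : s < 1) {g : ℝ → ℂ} (hg : Measurable g) {B : ℝ}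
    (hB : ∀ x, ‖g x‖ ≤ B) {φ : ℝ → ℂ} (hφs : ContDiff ℝ ∞ φ) (hφc : HasCompactSupport φ)
    {a b a' b' : ℝ} (ha : a' < a) (hb : b < b') (hab : a ≤ b) (hφ : ∀ y, y ∉ Icc a b → φ y = 0)
    (hgz : ∀ x ∈ Icc a' b', g x = 0) :
    ∫ x, g x * symLap s φ x = -∫ y, φ y * kfar s g a' b' y := by
  have hφi : Integrable φ := hφs.continuous.integrable_of_hasCompactSupport hφc
  have hsl := integrable_symLap hs hs1 hφs hφc
  have hgs : Integrable fun x => g x * symLap s φ x :=
    hsl.bdd_mul hg.aestronglyMeasurable (Eventually.of_forall hB)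
  have h1 := far_right hs hg hB hφs.continuous hφi hb (fun y hy => hφ y fun h => by
    have := h.2; linarith)
  have h2 := far_left hs hg hB hφs.continuous hφi ha (fun y hy => hφ y fun h => by
    have := h.1; linarith)
  have hset : ∀ x, x ∉ Ioi b' ∪ Iio a' → g x * symLap s φ x = 0 := by
    intro x hx
    rw [mem_union, not_or] at hx
    have h3 : x ∈ Icc a' b' := ⟨not_lt.mp hx.2, not_lt.mp hx.1⟩
    rw [hgz x h3, zero_mul]
  have hdisj : Disjoint (Ioi b') (Iio a') := by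
    rw [Set.disjoint_left]
    intro y h3 h4
    simp only [mem_Ioi, mem_Iio] at h3 h4
    linarith
  -- integrability of the two pieces
  have hi : ∀ F : ℝ → ℂ, ContinuousOn F (Icc a b) → Integrable fun y => φ y * F y := by
    intro F hF
    have h3 : IntegrableOn (fun y => φ y * F y) (Icc a b) :=
      (hφs.continuous.continuousOn.mul hF).integrableOn_Icc
    refine h3.integrable_of_forall_notMem_eq_zero fun y hy => ?_
    rw [hφ y hy, zero_mul]
  have hc1 : ContinuousOn (Fk g b' (1 + 2 * s)) (Icc a b) := by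
    refine ((contDiffOn_Fk hg hB 0 (by linarith)).continuousOn).mono fun y hy => ?_
    have := hy.2
    simp only [mem_Iio]
    linarith
  have hc2 : ContinuousOn (fun y => Fk (fun x => g (-x)) (-a') (1 + 2 * s) (-y)) (Icc a b) := by
    refine ((contDiffOn_Fk (g := fun x => g (-x)) (by fun_prop) (fun x => hB (-x)) 0
      (by linarith)).continuousOn).comp continuous_neg.continuousOn fun y hy => ?_
    have := hy.1
    simp only [mem_Iio]
    linarith
  rw [← setIntegral_eq_integral_of_forall_compl_eq_zero hset,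
    setIntegral_union hdisj measurableSet_Iio hgs.integrableOn hgs.integrableOn, h1, h2,
    ← neg_add, ← integral_add (hi _ hc1) (hi _ hc2)]
  congr 1
  refine integral_congr_ae (Eventually.of_forall fun y => ?_)
  simp only [kfar]
  ring

/-- A compactly supported smooth function times a function smooth near its support. -/
lemma contDiff_mul_of_tsupport {η k : ℝ → ℂ} {S : Set ℝ} (hS : IsOpen S) (hη : ContDiff ℝ ∞ η)
    (hk : ContDiffOn ℝ ∞ k S) (hsupp : tsupport η ⊆ S) : ContDiff ℝ ∞ fun y => η y * k y := by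
  rw [contDiff_iff_contDiffAt]
  intro x
  by_cases hx : x ∈ S
  · exact hη.contDiffAt.mul (hk.contDiffAt (hS.mem_nhds hx))
  · have hx' : x ∉ tsupport η := fun h => hx (hsupp h)
    have h1 : (fun y => η y * k y) =ᶠ[𝓝 x] fun _ => 0 := by
      have h2 : η =ᶠ[𝓝 x] 0 := notMem_tsupport_iff_eventuallyEq.mp hx'
      filter_upwards [h2] with y hy
      rw [hy]; simp
    exact contDiffAt_const.congr_of_eventuallyEq h1

/-- Rapid decay of the Fourier transform of a test function. -/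
lemma fourier_decay {ψ : ℝ → ℂ} (hψ : ContDiff ℝ ∞ ψ) (hc : HasCompactSupport ψ) (N : ℝ) : ∃ C : ℝ, 0 ≤ C ∧ ∀ w, ‖∫ x, ex (w * x) * ψ x‖ ≤ C * (1 + |w|) ^ (-N) := by
  set Ψ : 𝓢(ℝ, ℂ) := hc.toSchwartzMap hψ with hΨ
  have hcoe : ∀ x, Ψ x = ψ x := fun x => rfl
  set k : ℕ := ⌈N⌉₊ with hk
  obtain ⟨C0, hC0⟩ := (𝓕 Ψ).decay 0 0
  obtain ⟨C1, hC1⟩ := (𝓕 Ψ).decay k 0
  have h0 : ∀ w, ‖(𝓕 Ψ) w‖ ≤ C0 := by
    intro w
    simpa using hC0.2 w
  have h1 : ∀ w, |w| ^ k * ‖(𝓕 Ψ) w‖ ≤ C1 := by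
    intro w
    simpa using hC1.2 w
  have hC0' : 0 ≤ C0 := (norm_nonneg _).trans (h0 0)
  have hC1' : 0 ≤ C1 := le_trans (by positivity) (h1 0)
  refine ⟨2 ^ k * (C0 + C1), by positivity, fun w => ?_⟩
  have e : ∫ x, ex (w * x) * ψ x = (𝓕 Ψ) w := by
    rw [SchwartzMap.fourier_coe, fourier_eq_ex]
    rfl
  rw [e]
  have hw : (0 : ℝ) < 1 + |w| := by positivity
  have h2 : (1 + |w|) ^ k * ‖(𝓕 Ψ) w‖ ≤ 2 ^ k * (C0 + C1) := by
    have hn : 0 ≤ ‖(𝓕 Ψ) w‖ := norm_nonneg _
    have h3 : (1 + |w|) ^ k ≤ (2 : ℝ) ^ k * (1 + |w| ^ k) := by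
      rcases le_total |w| 1 with h | h
      · calc (1 + |w|) ^ k ≤ (2 : ℝ) ^ k := by gcongr; linarith
          _ = (2 : ℝ) ^ k * 1 := (mul_one _).symm
          _ ≤ _ := by gcongr; have := pow_nonneg (abs_nonneg w) k; linarith
      · calc (1 + |w|) ^ k ≤ (2 * |w|) ^ k := by gcongr; linarith
          _ = (2 : ℝ) ^ k * |w| ^ k := mul_pow _ _ _
          _ ≤ _ := by gcongr; linarith
    calc (1 + |w|) ^ k * ‖(𝓕 Ψ) w‖ ≤ ((2 : ℝ) ^ k * (1 + |w| ^ k)) * ‖(𝓕 Ψ) w‖ := by gcongr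
      _ = (2 : ℝ) ^ k * (‖(𝓕 Ψ) w‖ + |w| ^ k * ‖(𝓕 Ψ) w‖) := by ring
      _ ≤ _ := by gcongr; exacts [h0 w, h1 w]
  have h4 : (1 + |w|) ^ N ≤ (1 + |w|) ^ k := by
    rw [← Real.rpow_natCast]
    exact Real.rpow_le_rpow_of_exponent_le (by linarith [abs_nonneg w]) (Nat.le_ceil N)
  rw [Real.rpow_neg hw.le, ← div_eq_mul_inv, le_div_iff₀ (Real.rpow_pos_of_pos hw _)]
  calc ‖(𝓕 Ψ) w‖ * (1 + |w|) ^ N ≤ ‖(𝓕 Ψ) w‖ * (1 + |w|) ^ k := by gcongr
    _ = (1 + |w|) ^ k * ‖(𝓕 Ψ) w‖ := mul_comm _ _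
    _ ≤ _ := h2

end Pool.Agent.H88.Stefan
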