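import Mathlib
import Pool.Agent.H88.StefanDefs

/-!
# The optimal Hölder exponent of a smooth function
-/

namespace Pool.Agent.H88.Stefan

open Set Filter Topology MeasureTheory
open scoped ContDiff

lemma holderLoc_of_smooth {f : ℝ → ℝ} {I : Set ℝ} (hI : IsOpen I) (hf : ContDiffOn ℝ ∞ f I)
    (k : ℕ) : HolderLoc k 1 f I := by
  refine ⟨hf.of_le (by exact_mod_cast le_top), fun a b hab => ?_⟩
  have hu : UniqueDiffOn ℝ I := hI.uniqueDiffOn
  have hf1 : ContDiffOn ℝ ((k + 1 : ℕ) : WithTop ℕ∞) f I := hf.of_le (by exact_mod_cast le_top)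
  have hc : ContinuousOn (iteratedDerivWithin (k + 1) f I) I :=
    hf1.continuousOn_iteratedDerivWithin le_rfl hu
  obtain ⟨C, hC⟩ := isCompact_Icc.exists_bound_of_continuousOn (hc.mono hab)
  have hd : DifferentiableOn ℝ (iteratedDerivWithin k f I) I :=
    hf1.differentiableOn_iteratedDerivWithin (by exact_mod_cast Nat.lt_succ_self k) hu
  refine ⟨C, fun x hx y hy => ?_⟩
  have hder : ∀ z ∈ Icc a b, HasDerivWithinAt (iteratedDerivWithin k f I)
      (iteratedDerivWithin (k + 1) f I z) (Icc a b) z := by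
    intro z hz
    have h1 := (hd z (hab hz)).hasDerivWithinAt
    rw [← iteratedDerivWithin_succ] at h1
    exact h1.mono hab
  have := Convex.norm_image_sub_le_of_norm_hasDerivWithin_le hder hC (convex_Icc a b) hy hx
  rw [Real.norm_eq_abs, Real.norm_eq_abs] at this
  rwa [Real.rpow_one]

lemma rStar_of_smooth {f : ℝ → ℝ} {I : Set ℝ} (hI : IsOpen I) (hf : ContDiffOn ℝ ∞ f I) :
    rStar f I = ⊤ := by
  rw [EReal.eq_top_iff_forall_lt]
  intro y
  obtain ⟨n, hn⟩ := exists_nat_gt y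
  have hmem : (((n : ℝ) + 1 : ℝ) : EReal) ≤ rStar f I :=
    le_sSup ⟨n, 1, one_pos, le_rfl, holderLoc_of_smooth hI hf n, rfl⟩
  refine lt_of_lt_of_le ?_ hmem
  exact_mod_cast (by linarith : y < (n : ℝ) + 1)

end Pool.Agent.H88.Stefan
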