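import Mathlib

/-!
# Decay of solutions of the first order equation in the frequency variable
-/

namespace Pool.Agent.H88.Stefan

open Set Filter Topology

/-- Decay for large positive frequencies: if `W(w) = w f(w)` satisfies
`W' = 2 s (G - κ w^(2s) f)` for `w > 0`, `f` is bounded and `G = O((1+w)^(-M))`, then
`f = O((1+w)^(-(M+2s)))`. -/
lemma ode_decay {s κ A B M : ℝ} (hs : 0 < s) (hs1 : s < 1) (hκ : 0 < κ) {f G : ℝ → ℂ}
    (hf : ∀ w, 0 ≤ w → ‖f w‖ ≤ B) (hG : ∀ w, 0 ≤ w → ‖G w‖ ≤ A * (1 + w) ^ (-M))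
    (hode : ∀ w, 0 < w → HasDerivAt (fun w : ℝ => (w : ℂ) * f w)
      (2 * s * (G w - ((κ * w ^ (2 * s) : ℝ) : ℂ) * f w)) w) :
    ∃ C : ℝ, ∀ w, 0 ≤ w → ‖f w‖ ≤ C * (1 + w) ^ (-(M + 2 * s)) := by
  have hA : 0 ≤ A := by
    have h := hG 0 le_rfl
    rw [add_zero, Real.one_rpow, mul_one] at h
    exact (norm_nonneg _).trans h
  have hB : 0 ≤ B := (norm_nonneg _).trans (hf 0 le_rfl)
  set p : ℝ := 1 - 2 * s - M with hp
  -- the threshold
  obtain ⟨t₀, ht₀1, ht₀⟩ : ∃ t₀ : ℝ, 1 ≤ t₀ ∧ ∀ w, t₀ ≤ w →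
      |p| * (1 + w) ^ (-(2 * s)) ≤ s * κ / 2 := by
    have hlim : Tendsto (fun w : ℝ => |p| * (1 + w) ^ (-(2 * s))) atTop (𝓝 (|p| * 0)) := by
      refine Tendsto.const_mul _ ?_
      have h1 := tendsto_rpow_neg_atTop (y := 2 * s) (by positivity)
      exact h1.comp (tendsto_atTop_add_const_left _ 1 tendsto_id)
    rw [mul_zero] at hlim
    have hev := hlim.eventually (gt_mem_nhds (show 0 < s * κ / 2 by positivity))
    obtain ⟨a, ha⟩ := eventually_atTop.mp hev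
    exact ⟨max a 1, le_max_right _ _, fun w hw => (ha w ((le_max_left _ _).trans hw)).le⟩
  have ht₀pos : 0 < t₀ := by linarith
  -- integrating factor
  set φ : ℝ → ℂ := fun w => ((Real.exp (κ * w ^ (2 * s)) : ℝ) : ℂ) * ((w : ℂ) * f w) with hφ
  have hexpd : ∀ w : ℝ, 0 < w → HasDerivAt (fun w : ℝ => Real.exp (κ * w ^ (2 * s)))
      (Real.exp (κ * w ^ (2 * s)) * (κ * (2 * s * w ^ (2 * s - 1)))) w := by
    intro w hw
    have h1 : HasDerivAt (fun w : ℝ => w ^ (2 * s)) (2 * s * w ^ (2 * s - 1)) w :=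
      Real.hasDerivAt_rpow_const (Or.inl hw.ne')
    exact (h1.const_mul κ).exp
  have hφd : ∀ w, 0 < w → HasDerivAt φ
      (((Real.exp (κ * w ^ (2 * s)) : ℝ) : ℂ) * (2 * s * G w)) w := by
    intro w hw
    have h1 := ((hexpd w hw).ofReal_comp).mul (hode w hw)
    have hw' : w ^ (2 * s) = w ^ (2 * s - 1) * w := by
      rw [← Real.rpow_add_one hw.ne']; congr 1; ring
    refine HasDerivAt.congr_deriv (f := φ) h1 ?_
    rw [hw']
    push_cast
    ring
  set C₁ : ℝ := max (4 * A / κ) (Real.exp (κ * t₀ ^ (2 * s)) * (t₀ * B) /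
    (Real.exp (κ * t₀ ^ (2 * s)) * (1 + t₀) ^ p)) with hC₁
  have hC₁A : 4 * A / κ ≤ C₁ := le_max_left _ _
  have hC₁0 : 0 ≤ C₁ := le_trans (by positivity) hC₁A
  set ψ : ℝ → ℝ := fun w => C₁ * (Real.exp (κ * w ^ (2 * s)) * (1 + w) ^ p) with hψ
  set ψ' : ℝ → ℝ := fun w => C₁ * (Real.exp (κ * w ^ (2 * s)) * (κ * (2 * s * w ^ (2 * s - 1)))
    * (1 + w) ^ p + Real.exp (κ * w ^ (2 * s)) * (p * (1 + w) ^ (p - 1))) with hψ'
  have hψd : ∀ w, 0 < w → HasDerivAt ψ (ψ' w) w := by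
    intro w hw
    have h1 : HasDerivAt (fun w : ℝ => (1 + w) ^ p) (p * (1 + w) ^ (p - 1)) w := by
      have h2 : HasDerivAt (fun w : ℝ => 1 + w) 1 w := by
        simpa using (hasDerivAt_id w).const_add 1
      have := h2.rpow_const (p := p) (Or.inl (by positivity))
      simpa using this
    exact ((hexpd w hw).mul h1).const_mul C₁
  have hbound : ∀ w, t₀ ≤ w → ‖((Real.exp (κ * w ^ (2 * s)) : ℝ) : ℂ) * (2 * s * G w)‖ ≤ ψ' w := by
    intro w hw
    have hw0 : 0 < w := by linarith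
    have h1w : 0 < 1 + w := by linarith
    have he : 0 < Real.exp (κ * w ^ (2 * s)) := Real.exp_pos _
    have hnorm : ‖((Real.exp (κ * w ^ (2 * s)) : ℝ) : ℂ) * (2 * s * G w)‖
        = Real.exp (κ * w ^ (2 * s)) * (2 * s * ‖G w‖) := by
      rw [norm_mul, Complex.norm_real, Real.norm_eq_abs, abs_of_pos he, norm_mul, norm_mul,
        Complex.norm_real, Real.norm_eq_abs, abs_of_pos hs]
      simp
    rw [hnorm]
    -- the key comparison
    have hkey : 1 / 2 ≤ w ^ (2 * s - 1) * (1 + w) ^ (1 - 2 * s) := by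
      have e1 : w ^ (2 * s - 1) * (1 + w) ^ (1 - 2 * s) = ((1 + w) / w) ^ (1 - 2 * s) := by
        rw [Real.div_rpow h1w.le hw0.le, div_eq_mul_inv, ← Real.rpow_neg hw0.le, mul_comm]
        congr 2; ring
      rw [e1]
      have hw1 : 1 ≤ w := ht₀1.trans hw
      rcases le_total 0 (1 - 2 * s) with h | h
      · have : 1 ≤ ((1 + w) / w) ^ (1 - 2 * s) := by
          apply Real.one_le_rpow _ h
          rw [le_div_iff₀ hw0]; linarith
        linarith
      · have h2 : (1 + w) / w ≤ 2 := by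
          rw [div_le_iff₀ hw0]; linarith
        have h3 : (2 : ℝ) ^ (1 - 2 * s) ≤ ((1 + w) / w) ^ (1 - 2 * s) :=
          Real.rpow_le_rpow_of_nonpos (by positivity) h2 h
        have h4 : (2 : ℝ) ^ (-1 : ℝ) ≤ (2 : ℝ) ^ (1 - 2 * s) :=
          Real.rpow_le_rpow_of_exponent_le (by norm_num) (by linarith)
        rw [Real.rpow_neg_one] at h4
        linarith
    have e2 : (1 + w) ^ p = (1 + w) ^ (1 - 2 * s) * (1 + w) ^ (-M) := by
      rw [← Real.rpow_add h1w]; congr 1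
    have e3 : (1 + w) ^ (p - 1) = (1 + w) ^ (-(2 * s)) * (1 + w) ^ (-M) := by
      rw [← Real.rpow_add h1w]; congr 1; rw [hp]; ring
    have hq : 0 < (1 + w) ^ (-M) := Real.rpow_pos_of_pos h1w _
    have ht := ht₀ w hw
    have hlow : s * κ / 2 * (1 + w) ^ (-M) ≤ κ * (2 * s * w ^ (2 * s - 1)) * (1 + w) ^ p
        + p * (1 + w) ^ (p - 1) := by
      rw [e2, e3]
      have h5 : -(s * κ / 2) ≤ p * (1 + w) ^ (-(2 * s)) := by
        have h6 : 0 < (1 + w) ^ (-(2 * s)) := Real.rpow_pos_of_pos h1w _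
        have h7 := neg_abs_le p
        nlinarith
      have h8 : s * κ ≤ κ * (2 * s) * (w ^ (2 * s - 1) * (1 + w) ^ (1 - 2 * s)) := by
        have : κ * (2 * s) * (1 / 2) ≤ κ * (2 * s) * (w ^ (2 * s - 1) * (1 + w) ^ (1 - 2 * s)) :=
          mul_le_mul_of_nonneg_left hkey (by positivity)
        linarith
      calc s * κ / 2 * (1 + w) ^ (-M)
          ≤ (κ * (2 * s) * (w ^ (2 * s - 1) * (1 + w) ^ (1 - 2 * s))
              + p * (1 + w) ^ (-(2 * s))) * (1 + w) ^ (-M) := by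
            apply mul_le_mul_of_nonneg_right _ hq.le
            linarith
        _ = _ := by ring
    have hG' := hG w hw0.le
    calc Real.exp (κ * w ^ (2 * s)) * (2 * s * ‖G w‖)
        ≤ Real.exp (κ * w ^ (2 * s)) * (2 * s * (A * (1 + w) ^ (-M))) := by gcongr
      _ = Real.exp (κ * w ^ (2 * s)) * ((4 * A / κ) * (s * κ / 2 * (1 + w) ^ (-M))) := by
        field_simp
        ring
      _ ≤ Real.exp (κ * w ^ (2 * s)) * (C₁ * (κ * (2 * s * w ^ (2 * s - 1)) * (1 + w) ^ p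
          + p * (1 + w) ^ (p - 1))) := by
        have h9 : 0 ≤ s * κ / 2 * (1 + w) ^ (-M) := by positivity
        gcongr
      _ = ψ' w := by rw [hψ']; ring
  -- initial inequality
  have hinit : ‖φ t₀‖ ≤ ψ t₀ := by
    have he : 0 < Real.exp (κ * t₀ ^ (2 * s)) := Real.exp_pos _
    have h1 : ‖φ t₀‖ ≤ Real.exp (κ * t₀ ^ (2 * s)) * (t₀ * B) := by
      rw [hφ]
      simp only [norm_mul, Complex.norm_real, Real.norm_eq_abs]
      rw [abs_of_pos he, abs_of_pos ht₀pos]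
      have := hf t₀ ht₀pos.le
      gcongr
    have hden : 0 < Real.exp (κ * t₀ ^ (2 * s)) * (1 + t₀) ^ p :=
      mul_pos he (Real.rpow_pos_of_pos (by linarith) _)
    have h2 : Real.exp (κ * t₀ ^ (2 * s)) * (t₀ * B) /
        (Real.exp (κ * t₀ ^ (2 * s)) * (1 + t₀) ^ p) ≤ C₁ := le_max_right _ _
    rw [div_le_iff₀ hden] at h2
    exact h1.trans h2
  -- comparison
  have hcomp : ∀ w, t₀ ≤ w → ‖φ w‖ ≤ ψ w := by
    intro w hw
    refine image_norm_le_of_norm_deriv_right_le_deriv_boundary' (f := φ)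
      (f' := fun w => ((Real.exp (κ * w ^ (2 * s)) : ℝ) : ℂ) * (2 * s * G w)) (a := t₀) (b := w)
      (fun x hx => (hφd x (by linarith [hx.1])).continuousAt.continuousWithinAt)
      (fun x hx => (hφd x (by linarith [hx.1])).hasDerivWithinAt) hinit
      (fun x hx => (hψd x (by linarith [hx.1])).continuousAt.continuousWithinAt)
      (fun x hx => (hψd x (by linarith [hx.1])).hasDerivWithinAt)
      (fun x hx => hbound x hx.1) ⟨hw, le_rfl⟩
  refine ⟨max (2 * C₁) (B * (1 + t₀) ^ |M + 2 * s|), fun w hw => ?_⟩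
  have h1w : 0 < 1 + w := by linarith
  rcases le_total t₀ w with h | h
  · have hw0 : 0 < w := by linarith
    have he : 0 < Real.exp (κ * w ^ (2 * s)) := Real.exp_pos _
    have h1 := hcomp w h
    have h2 : ‖φ w‖ = Real.exp (κ * w ^ (2 * s)) * (w * ‖f w‖) := by
      rw [hφ]
      simp only [norm_mul, Complex.norm_real, Real.norm_eq_abs]
      rw [abs_of_pos he, abs_of_pos hw0]
    rw [h2] at h1
    have h3 : w * ‖f w‖ ≤ C₁ * (1 + w) ^ p := by
      have h4 : Real.exp (κ * w ^ (2 * s)) * (w * ‖f w‖)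
          ≤ Real.exp (κ * w ^ (2 * s)) * (C₁ * (1 + w) ^ p) := by
        calc _ ≤ ψ w := h1
          _ = _ := by rw [hψ]; ring
      exact le_of_mul_le_mul_left h4 he
    have e4 : (1 + w) ^ p = (1 + w) * (1 + w) ^ (-(M + 2 * s)) := by
      have : p = -(M + 2 * s) + 1 := by rw [hp]; ring
      rw [this, Real.rpow_add_one h1w.ne', mul_comm]
    have hq : 0 < (1 + w) ^ (-(M + 2 * s)) := Real.rpow_pos_of_pos h1w _
    have hw1 : 1 ≤ w := ht₀1.trans h
    have h5 : w * ‖f w‖ ≤ w * (2 * C₁ * (1 + w) ^ (-(M + 2 * s))) := by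
      rw [e4] at h3
      calc w * ‖f w‖ ≤ C₁ * ((1 + w) * (1 + w) ^ (-(M + 2 * s))) := h3
        _ ≤ C₁ * ((2 * w) * (1 + w) ^ (-(M + 2 * s))) := by
          gcongr; linarith
        _ = _ := by ring
    have h6 := le_of_mul_le_mul_left h5 hw0
    refine h6.trans ?_
    gcongr
    exact le_max_left _ _
  · have h1 := hf w hw
    have h2 : 1 ≤ (1 + t₀) ^ |M + 2 * s| * (1 + w) ^ (-(M + 2 * s)) := by
      have h3 : (1 + w) ^ (M + 2 * s) ≤ (1 + t₀) ^ |M + 2 * s| := by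
        calc (1 + w) ^ (M + 2 * s) ≤ (1 + w) ^ |M + 2 * s| :=
              Real.rpow_le_rpow_of_exponent_le (by linarith) (le_abs_self _)
          _ ≤ (1 + t₀) ^ |M + 2 * s| :=
              Real.rpow_le_rpow h1w.le (by linarith) (abs_nonneg _)
      rw [Real.rpow_neg h1w.le]
      have h4 : 0 < (1 + w) ^ (M + 2 * s) := Real.rpow_pos_of_pos h1w _
      rw [← div_eq_mul_inv, one_le_div h4]
      exact h3
    calc ‖f w‖ ≤ B := h1
      _ = B * 1 := (mul_one B).symm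
      _ ≤ B * ((1 + t₀) ^ |M + 2 * s| * (1 + w) ^ (-(M + 2 * s))) := by gcongr
      _ = B * (1 + t₀) ^ |M + 2 * s| * (1 + w) ^ (-(M + 2 * s)) := by ring
      _ ≤ _ := by
        gcongr
        exact le_max_right _ _

/-- Two-sided version. -/
lemma ode_decay_two_sided {s κ A B M : ℝ} (hs : 0 < s) (hs1 : s < 1) (hκ : 0 < κ) {f G : ℝ → ℂ}
    (hf : ∀ w, ‖f w‖ ≤ B) (hG : ∀ w, ‖G w‖ ≤ A * (1 + |w|) ^ (-M))
    (hode : ∀ w, HasDerivAt (fun w : ℝ => (w : ℂ) * f w)
      (2 * s * (G w - ((κ * |w| ^ (2 * s) : ℝ) : ℂ) * f w)) w) :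
    ∃ C : ℝ, ∀ w, ‖f w‖ ≤ C * (1 + |w|) ^ (-(M + 2 * s)) := by
  obtain ⟨C₁, h₁⟩ := ode_decay hs hs1 hκ (f := f) (G := G) (fun w _ => hf w)
    (fun w hw => by have := hG w; rwa [abs_of_nonneg hw] at this)
    (fun w hw => by have := hode w; rwa [abs_of_pos hw] at this)
  obtain ⟨C₂, h₂⟩ := ode_decay hs hs1 hκ (f := fun w => f (-w)) (G := fun w => G (-w))
    (fun w _ => hf (-w))
    (fun w hw => by have := hG (-w); rwa [abs_neg, abs_of_nonneg hw] at this)
    (fun w hw => by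
      have h := hode (-w)
      rw [abs_neg, abs_of_pos hw] at h
      have h2 : HasDerivAt (fun w : ℝ => -w) (-1 : ℝ) w := hasDerivAt_neg w
      have h3 := HasDerivAt.scomp w h h2
      have h4 := h3.neg
      have e : (-((fun w : ℝ => (w : ℂ) * f w) ∘ fun w => -w)) =
          fun w : ℝ => (w : ℂ) * f (-w) := by
        funext x
        simp
      rw [e] at h4
      refine h4.congr_deriv ?_
      simp)
  refine ⟨max C₁ C₂, fun w => ?_⟩
  have hq : 0 ≤ (1 + |w|) ^ (-(M + 2 * s)) := Real.rpow_nonneg (by positivity) _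
  rcases le_total 0 w with h | h
  · rw [abs_of_nonneg h] at hq ⊢
    exact (h₁ w h).trans (mul_le_mul_of_nonneg_right (le_max_left _ _) hq)
  · have h3 := h₂ (-w) (by linarith)
    rw [neg_neg] at h3
    rw [abs_of_nonpos h] at hq ⊢
    exact h3.trans (mul_le_mul_of_nonneg_right (le_max_right _ _) hq)

end Pool.Agent.H88.Stefan
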