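import Mathlib
import Pool.Agent.H88.StefanFar
import Pool.Agent.H88.StefanODE

/-!
# Smoothness of the temperature profile
-/

namespace Pool.Agent.H88.Stefan

open Set Filter Topology MeasureTheory
open scoped ContDiff FourierTransform SchwartzMap

/-- The profile equation tested with complex test functions supported in `(-∞, ξ₀)`. -/
def ProfileEq (s c ξ₀ : ℝ) (U : ℝ → ℝ) : Prop :=
  ∀ φ : ℝ → ℂ, ContDiff ℝ ∞ φ → HasCompactSupport φ → tsupport φ ⊆ Iio ξ₀ →
    ((1 / (2 * s) : ℝ) : ℂ) * (∫ x, (U x : ℂ) * (φ x + x * deriv φ x))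
      + c * ∫ x, (U x : ℂ) * symLap s φ x = 0

/-- Compact subsets of `(-∞, ξ₀)` sit in intervals. -/
lemma exists_interval {K : Set ℝ} (hK : IsCompact K) {ξ₀ : ℝ} (h : K ⊆ Iio ξ₀) :
    ∃ a b : ℝ, a ≤ b ∧ b < ξ₀ ∧ K ⊆ Icc a b := by
  rcases K.eq_empty_or_nonempty with rfl | hne
  · exact ⟨ξ₀ - 1, ξ₀ - 1, le_rfl, by linarith, empty_subset _⟩
  · refine ⟨sInf K, sSup K, ?_, h (hK.sSup_mem hne), ?_⟩
    · exact csInf_le_csSup hne hK.bddBelow hK.bddAbove
    · exact fun x hx => ⟨csInf_le hK.bddBelow hx, le_csSup hK.bddAbove hx⟩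

/-- A smooth cut-off. -/
lemma exists_cutoff {a b ξ₀ : ℝ} (hab : a ≤ b) (hb : b < ξ₀) :
    ∃ (χ : ℝ → ℂ) (a' b' : ℝ), ContDiff ℝ ∞ χ ∧ HasCompactSupport χ ∧ tsupport χ ⊆ Iio ξ₀ ∧
      a' < a ∧ b < b' ∧ (∀ x ∈ Icc a' b', χ x = 1) ∧ (∀ x, ‖χ x‖ ≤ 1) ∧ ∀ x, ‖1 - χ x‖ ≤ 1 := by
  set δ : ℝ := (ξ₀ - b) / 4 with hδ
  have hδ0 : 0 < δ := by rw [hδ]; linarith
  let f : ContDiffBump ((a + b) / 2) :=
    { rIn := (b - a) / 2 + δ
      rOut := (b - a) / 2 + 2 * δ
      rIn_pos := by linarith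
      rIn_lt_rOut := by linarith }
  refine ⟨fun x => ((f x : ℝ) : ℂ), a - δ, b + δ, ?_, ?_, ?_, by linarith, by linarith, ?_, ?_, ?_⟩
  · exact Complex.ofRealCLM.contDiff.comp f.contDiff
  · exact f.hasCompactSupport.comp_left (g := fun y : ℝ => (y : ℂ)) Complex.ofReal_zero
  · have h1 : tsupport (fun x => ((f x : ℝ) : ℂ)) ⊆ tsupport f :=
      closure_mono fun x hx => by
        simp only [Function.mem_support] at hx ⊢
        exact fun h => hx (by simp [h])
    refine h1.trans ?_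
    rw [f.tsupport_eq, Real.closedBall_eq_Icc]
    intro x hx
    have := hx.2
    simp only [mem_Iio]
    have hfr : f.rOut = (b - a) / 2 + 2 * δ := rfl
    rw [hfr] at this
    linarith
  · intro x hx
    have : f x = 1 := by
      apply f.one_of_mem_closedBall
      rw [Real.closedBall_eq_Icc]
      have hfr : f.rIn = (b - a) / 2 + δ := rfl
      rw [hfr]
      exact ⟨by linarith [hx.1], by linarith [hx.2]⟩
    simp [this]
  · intro x
    rw [Complex.norm_real, Real.norm_eq_abs, abs_of_nonneg f.nonneg]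
    exact f.le_one
  · intro x
    have : (1 : ℂ) - ((f x : ℝ) : ℂ) = ((1 - f x : ℝ) : ℂ) := by push_cast; rfl
    rw [this, Complex.norm_real, Real.norm_eq_abs, abs_of_nonneg (by linarith [f.le_one (x := x)])]
    linarith [f.nonneg (x := x)]

section
variable {s c ξ₀ B : ℝ} {U : ℝ → ℝ}

/-- The localized Fourier transform. -/
noncomputable def locF (U : ℝ → ℝ) (η : ℝ → ℂ) (w : ℝ) : ℂ := ∫ x, ex (w * x) * (η x * (U x : ℂ))

lemma integrable_mul_U (hU : Measurable U) (hB : ∀ x, |U x| ≤ B) {η : ℝ → ℂ}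
    (hη : Integrable η) : Integrable fun x => η x * (U x : ℂ) :=
  hη.mul_bdd (c := B) (by fun_prop : Measurable fun x => (U x : ℂ)).aestronglyMeasurable
    (Eventually.of_forall fun x => by rw [Complex.norm_real]; exact hB x)

lemma integrable_ex_mul {ψ : ℝ → ℂ} (hψ : Integrable ψ) (w : ℝ) :
    Integrable fun x => ex (w * x) * ψ x :=
  hψ.bdd_mul (c := 1) (continuous_ex.comp (by fun_prop)).aestronglyMeasurable
    (Eventually.of_forall fun x => (norm_ex _).le)

/-- One step of the bootstrap. -/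
lemma decay_step (hs : 0 < s) (hs1 : s < 1) (hc : 0 < c) (hU : Measurable U)
    (hB : ∀ x, |U x| ≤ B) (hP : ProfileEq s c ξ₀ U) {N : ℝ} (hN : 0 ≤ N)
    (ih : ∀ η : ℝ → ℂ, ContDiff ℝ ∞ η → HasCompactSupport η → tsupport η ⊆ Iio ξ₀ →
      ∃ A : ℝ, 0 ≤ A ∧ ∀ w, ‖locF U η w‖ ≤ A * (1 + |w|) ^ (-N))
    (η : ℝ → ℂ) (hη : ContDiff ℝ ∞ η) (hηc : HasCompactSupport η) (hηs : tsupport η ⊆ Iio ξ₀) :
    ∃ A : ℝ, 0 ≤ A ∧ ∀ w, ‖locF U η w‖ ≤ A * (1 + |w|) ^ (-(N + s)) := by
  obtain ⟨a, b, hab, hb, hK⟩ := exists_interval hηc.isCompact hηs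
  obtain ⟨χ, a', b', hχ, hχc, hχs, ha', hb', hχ1, hχn, hχn'⟩ := exists_cutoff hab hb
  have hηz : ∀ y, y ∉ Icc a b → η y = 0 := fun y hy =>
    image_eq_zero_of_notMem_tsupport fun h => hy (hK h)
  -- the functions
  set v : ℝ → ℂ := fun x => χ x * (U x : ℂ) with hv
  set g : ℝ → ℂ := fun x => (1 - χ x) * (U x : ℂ) with hg
  have hηi : Integrable η := hη.continuous.integrable_of_hasCompactSupport hηc
  have hχi : Integrable χ := hχ.continuous.integrable_of_hasCompactSupport hχc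
  have hvi : Integrable v := integrable_mul_U hU hB hχi
  have hχm : Measurable χ := hχ.continuous.measurable
  have hgm : Measurable g := by rw [hg]; fun_prop
  have hB0 : 0 ≤ B := (abs_nonneg _).trans (hB 0)
  have hgB : ∀ x, ‖g x‖ ≤ B := by
    intro x
    simp only [hg, norm_mul, Complex.norm_real, Real.norm_eq_abs]
    calc ‖1 - χ x‖ * |U x| ≤ 1 * B := by gcongr; exacts [hχn' x, hB x]
      _ = B := one_mul B
  have hgz : ∀ x ∈ Icc a' b', g x = 0 := by
    intro x hx
    simp only [hg, hχ1 x hx, sub_self, zero_mul]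
  set ηS : 𝓢(ℝ, ℂ) := hηc.toSchwartzMap hη with hηS
  have hcoe : ∀ x, ηS x = η x := fun x => rfl
  -- auxiliary test functions
  have hdη : ContDiff ℝ ∞ (deriv η) := (contDiff_infty_iff_deriv.mp hη).2
  set η₂ : ℝ → ℂ := fun x => (x : ℂ) * deriv η x with hη₂
  have hη₂s : ContDiff ℝ ∞ η₂ := Complex.ofRealCLM.contDiff.mul hdη
  have hη₂c : HasCompactSupport η₂ := hηc.deriv.mul_left
  have hη₂t : tsupport η₂ ⊆ Iio ξ₀ :=
    ((tsupport_mul_subset_right).trans tsupport_deriv_subset).trans hηs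
  obtain ⟨A₂, hA₂, hb₂⟩ := ih η₂ hη₂s hη₂c hη₂t
  obtain ⟨A₁, hA₁, hb₁⟩ := ih χ hχ hχc hχs
  -- the far kernel
  set k : ℝ → ℂ := kfar s g a' b' with hk
  have hηk : ContDiff ℝ ∞ fun y => η y * k y :=
    contDiff_mul_of_tsupport isOpen_Ioo hη (contDiffOn_kfar hs hgm hgB a' b')
      (hK.trans fun y hy => ⟨by linarith [hy.1], by linarith [hy.2]⟩)
  have hηkc : HasCompactSupport fun y => η y * k y := hηc.mul_right
  obtain ⟨A₃, hA₃, hb₃⟩ := fourier_decay hηk hηkc N
  -- the near remainder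
  have hvdec : ∀ ζ, ‖𝓕 v ζ‖ ≤ A₁ * (1 + |ζ|) ^ (-N) := by
    intro ζ
    rw [fourier_eq_ex]
    exact hb₁ ζ
  obtain ⟨A₄, hA₄, hb₄⟩ := R1_bound hs hs1 ηS hA₁ hN hvdec
  set κ : ℝ := c * (Ks s * (2 * Real.pi) ^ (2 * s)) with hκ
  have hκ0 : 0 < κ := by
    have := Ks_pos hs hs1
    have hpi := Real.pi_pos
    positivity
  set f : ℝ → ℂ := locF U η with hf
  set G : ℝ → ℂ := fun w => -((1 / (2 * s) : ℝ) : ℂ) * locF U η₂ w - κ * R1 s ηS v w
    + c * ∫ y, ex (w * y) * (η y * k y) with hG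
  -- the test function identity
  have hode : ∀ w, HasDerivAt (fun w : ℝ => (w : ℂ) * f w)
      (2 * s * (G w - ((κ * |w| ^ (2 * s) : ℝ) : ℂ) * f w)) w := by
    intro w
    have hηU : Integrable fun x => η x * (U x : ℂ) := integrable_mul_U hU hB hηi
    have hxη : Integrable fun x : ℝ => (x : ℂ) * η x := by
      refine Continuous.integrable_of_hasCompactSupport ?_ hηc.mul_left
      exact Complex.continuous_ofReal.mul hη.continuous
    have hxηU : Integrable fun x : ℝ => x • (η x * (U x : ℂ)) := by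
      refine (integrable_mul_U hU hB hxη).congr (Eventually.of_forall fun x => ?_)
      simp only [Complex.real_smul]
      ring
    have hfF : f = 𝓕 fun x => η x * (U x : ℂ) := by
      funext w
      rw [fourier_eq_ex]
      rfl
    have hd := Real.hasDerivAt_fourier hηU hxηU w
    rw [← hfF, fourier_eq_ex] at hd
    have hW := (Complex.ofRealCLM.hasDerivAt (x := w)).mul hd
    refine hW.congr_deriv ?_
    simp only [Complex.ofRealCLM_apply, Complex.ofReal_one, one_mul]
    -- test function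
    set φ : ℝ → ℂ := fun x => ex (w * x) * η x with hφ
    have hexs : ContDiff ℝ ∞ fun x : ℝ => ex (w * x) :=
      contDiff_ex.comp (contDiff_const.mul contDiff_id)
    have hφs : ContDiff ℝ ∞ φ := hexs.mul hη
    have hφc : HasCompactSupport φ := hηc.mul_left
    have hφt : tsupport φ ⊆ Iio ξ₀ := (tsupport_mul_subset_right).trans hηs
    have hφz : ∀ y, y ∉ Icc a b → φ y = 0 := fun y hy => by
      simp only [hφ, hηz y hy, mul_zero]
    have hPφ := hP φ hφs hφc hφt
    have hdφ : ∀ x, deriv φ x = -(2 * Real.pi * Complex.I * w) * (ex (w * x) * η x)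
        + ex (w * x) * deriv η x := by
      intro x
      have h1 : HasDerivAt (fun x : ℝ => ex (w * x)) (-(2 * Real.pi * Complex.I * w) * ex (w * x)) x := by
        have := hasDerivAt_ex_mul w x
        simpa only [mul_comm w] using this
      have h2 : HasDerivAt η (deriv η x) x := (hη.differentiable (by simp)).differentiableAt.hasDerivAt
      have h3 : HasDerivAt φ (-(2 * Real.pi * Complex.I * w) * ex (w * x) * η x
          + ex (w * x) * deriv η x) x := h1.mul h2
      rw [h3.deriv]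
      ring
    -- first integral
    have hI1 : ∫ x, (U x : ℂ) * (φ x + x * deriv φ x)
        = f w + w * (∫ x, ex (w * x) * ((-2 * Real.pi * Complex.I * x) • (η x * (U x : ℂ))))
          + locF U η₂ w := by
      have i1 : Integrable fun x : ℝ => ex (w * x) * (η x * (U x : ℂ)) := integrable_ex_mul hηU w
      have i2 : Integrable fun x : ℝ =>
          ex (w * x) * ((-2 * Real.pi * Complex.I * x) • (η x * (U x : ℂ))) := by
        refine integrable_ex_mul ?_ w
        refine (hxηU.const_mul (-2 * Real.pi * Complex.I)).congr (Eventually.of_forall fun x => ?_)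
        simp only [Complex.real_smul, smul_eq_mul]
        ring
      have i3 : Integrable fun x : ℝ => ex (w * x) * (η₂ x * (U x : ℂ)) :=
        integrable_ex_mul (integrable_mul_U hU hB
          (hη₂s.continuous.integrable_of_hasCompactSupport hη₂c)) w
      have i4 : Integrable fun x : ℝ => ex (w * x) * (η x * (U x : ℂ))
          + w * (ex (w * x) * ((-2 * Real.pi * Complex.I * x) • (η x * (U x : ℂ)))) :=
        i1.add (i2.const_mul _)
      rw [hf, locF, locF, ← integral_const_mul, ← integral_add i1 (i2.const_mul _),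
        ← integral_add i4 i3]
      refine integral_congr_ae (Eventually.of_forall fun x => ?_)
      show (U x : ℂ) * (φ x + x * deriv φ x) = _
      rw [hdφ x]
      simp only [hφ, hη₂, smul_eq_mul]
      ring
    -- second integral
    have hsl := integrable_symLap hs hs1 hφs hφc
    have hI2 : ∫ x, (U x : ℂ) * symLap s φ x
        = ((Ks s * (2 * Real.pi) ^ (2 * s) : ℝ) : ℂ) *
          (((|w| ^ (2 * s) : ℝ) : ℂ) * f w + R1 s ηS v w) - ∫ y, ex (w * y) * (η y * k y) := by
      have j1 : Integrable fun x => v x * symLap s φ x := by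
        refine hsl.bdd_mul (c := B) (by rw [hv]; fun_prop : Measurable v).aestronglyMeasurable
          (Eventually.of_forall fun x => ?_)
        simp only [hv, norm_mul, Complex.norm_real, Real.norm_eq_abs]
        calc ‖χ x‖ * |U x| ≤ 1 * B := by gcongr; exacts [hχn x, hB x]
          _ = B := one_mul B
      have j2 : Integrable fun x => g x * symLap s φ x :=
        hsl.bdd_mul hgm.aestronglyMeasurable (Eventually.of_forall hgB)
      have e1 : ∫ x, (U x : ℂ) * symLap s φ x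
          = (∫ x, v x * symLap s φ x) + ∫ x, g x * symLap s φ x := by
        rw [← integral_add j1 j2]
        refine integral_congr_ae (Eventually.of_forall fun x => ?_)
        simp only [hv, hg]
        ring
      have e2 := near_formula hs hs1 hvi ηS w
      have e3 := far_formula hs hs1 hgm hgB hφs hφc ha' hb' hab hφz hgz
      have e4 : ∫ x, v x * (ex (w * x) * ηS x) = f w := by
        rw [hf, locF]
        refine integral_congr_ae (Eventually.of_forall fun x => ?_)
        simp only [hv, hcoe]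
        by_cases hx : x ∈ Icc a b
        · rw [hχ1 x ⟨by linarith [hx.1], by linarith [hx.2]⟩]; ring
        · rw [hηz x hx]; ring
      rw [e4] at e2
      rw [e1, e3]
      have e5 : ∫ x, v x * symLap s φ x = ∫ x, v x * symLap s (fun y => ex (w * y) * ηS y) x := rfl
      rw [e5, e2, ← sub_eq_add_neg]
      congr 1
      refine integral_congr_ae (Eventually.of_forall fun y => ?_)
      simp only [hφ, hk]
      ring
    rw [hI1, hI2] at hPφ
    have hs2 : (2 : ℂ) * (s : ℂ) ≠ 0 := by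
      have : (s : ℂ) ≠ 0 := by exact_mod_cast hs.ne'
      simp [this]
    have hκc : (κ : ℂ) = c * ((Ks s * (2 * Real.pi) ^ (2 * s) : ℝ) : ℂ) := by
      rw [hκ, Complex.ofReal_mul]
    have h1s : ((1 / (2 * s) : ℝ) : ℂ) * (2 * (s : ℂ)) = 1 := by
      have : (1 / (2 * s)) * (2 * s) = 1 := by field_simp
      exact_mod_cast this
    simp only [hG]
    rw [Complex.ofReal_mul κ, hκc]
    set J : ℂ := ∫ x, ex (w * x) * ((-2 * Real.pi * Complex.I * x) • (η x * (U x : ℂ))) with hJ
    set q : ℂ := ((1 / (2 * s) : ℝ) : ℂ) with hq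
    set KK : ℂ := ((Ks s * (2 * Real.pi) ^ (2 * s) : ℝ) : ℂ) with hKK
    set rr : ℂ := ((|w| ^ (2 * s) : ℝ) : ℂ) with hrr
    set I3 : ℂ := ∫ y, ex (w * y) * (η y * k y) with hI3
    linear_combination (2 * (s : ℂ)) * hPφ - (f w + w * J + locF U η₂ w) * h1s
      + (locF U η₂ w) * h1s
  -- bounds
  have hfB : ∀ w, ‖f w‖ ≤ ∫ x, ‖η x * (U x : ℂ)‖ := by
    intro w
    rw [hf, locF]
    refine (norm_integral_le_integral_norm _).trans (le_of_eq ?_)
    refine integral_congr_ae (Eventually.of_forall fun x => ?_)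
    simp [norm_ex]
  have hGB : ∀ w, ‖G w‖ ≤ (1 / (2 * s) * A₂ + κ * A₄ + c * A₃) * (1 + |w|) ^ (-(N - s)) := by
    intro w
    have hmono : (1 + |w|) ^ (-N) ≤ (1 + |w|) ^ (-(N - s)) :=
      Real.rpow_le_rpow_of_exponent_le (by linarith [abs_nonneg w]) (by linarith)
    have n1 : ‖((1 / (2 * s) : ℝ) : ℂ) * locF U η₂ w‖ ≤ 1 / (2 * s) * A₂ * (1 + |w|) ^ (-(N - s)) := by
      rw [norm_mul, Complex.norm_real, Real.norm_eq_abs, abs_of_pos (by positivity)]
      rw [mul_assoc]
      gcongr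
      exact (hb₂ w).trans (by gcongr)
    have n2 : ‖(κ : ℂ) * R1 s ηS v w‖ ≤ κ * A₄ * (1 + |w|) ^ (-(N - s)) := by
      have h0 := mul_le_mul_of_nonneg_left (hb₄ w) hκ0.le
      rw [norm_mul, Complex.norm_real, Real.norm_eq_abs, abs_of_pos hκ0]
      linarith
    have n3 : ‖(c : ℂ) * ∫ y, ex (w * y) * (η y * k y)‖ ≤ c * A₃ * (1 + |w|) ^ (-(N - s)) := by
      rw [norm_mul, Complex.norm_real, Real.norm_eq_abs, abs_of_pos hc, mul_assoc]
      gcongr
      exact (hb₃ w).trans (by gcongr)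
    simp only [hG]
    calc ‖-((1 / (2 * s) : ℝ) : ℂ) * locF U η₂ w - κ * R1 s ηS v w
          + c * ∫ y, ex (w * y) * (η y * k y)‖
        ≤ ‖-((1 / (2 * s) : ℝ) : ℂ) * locF U η₂ w - κ * R1 s ηS v w‖
          + ‖(c : ℂ) * ∫ y, ex (w * y) * (η y * k y)‖ := norm_add_le _ _
      _ ≤ (‖-((1 / (2 * s) : ℝ) : ℂ) * locF U η₂ w‖ + ‖(κ : ℂ) * R1 s ηS v w‖)
          + ‖(c : ℂ) * ∫ y, ex (w * y) * (η y * k y)‖ := by gcongr; exact norm_sub_le _ _
      _ ≤ _ := by
        rw [neg_mul, norm_neg]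
        linarith
  obtain ⟨C, hC⟩ := ode_decay_two_sided hs hs1 hκ0 hfB hGB hode
  refine ⟨max C 0, le_max_right _ _, fun w => ?_⟩
  have h1 := hC w
  have e : -(N - s + 2 * s) = -(N + s) := by ring
  rw [e] at h1
  refine h1.trans ?_
  gcongr
  exact le_max_left _ _

lemma decay_all (hs : 0 < s) (hs1 : s < 1) (hc : 0 < c) (hU : Measurable U)
    (hB : ∀ x, |U x| ≤ B) (hP : ProfileEq s c ξ₀ U) (n : ℕ) :
    ∀ η : ℝ → ℂ, ContDiff ℝ ∞ η → HasCompactSupport η → tsupport η ⊆ Iio ξ₀ →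
      ∃ A : ℝ, 0 ≤ A ∧ ∀ w, ‖locF U η w‖ ≤ A * (1 + |w|) ^ (-(n * s)) := by
  induction n with
  | zero =>
    intro η hη hηc _
    have hηi : Integrable η := hη.continuous.integrable_of_hasCompactSupport hηc
    refine ⟨∫ x, ‖η x * (U x : ℂ)‖, integral_nonneg fun _ => norm_nonneg _, fun w => ?_⟩
    simp only [Nat.cast_zero, zero_mul, neg_zero, Real.rpow_zero, mul_one]
    rw [locF]
    refine (norm_integral_le_integral_norm _).trans (le_of_eq ?_)
    refine integral_congr_ae (Eventually.of_forall fun x => ?_)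
    simp [norm_ex]
  | succ n ih =>
    intro η hη hηc hηs
    obtain ⟨A, hA, hb⟩ := decay_step hs hs1 hc hU hB hP (by positivity : (0 : ℝ) ≤ n * s) ih η hη hηc hηs
    refine ⟨A, hA, fun w => ?_⟩
    have := hb w
    rwa [show -((n : ℝ) * s + s) = -(((n + 1 : ℕ) : ℝ) * s) by push_cast; ring] at this

lemma smooth_mul (hs : 0 < s) (hs1 : s < 1) (hc : 0 < c) (hU : Continuous U)
    (hB : ∀ x, |U x| ≤ B) (hP : ProfileEq s c ξ₀ U)
    (η : ℝ → ℂ) (hη : ContDiff ℝ ∞ η) (hηc : HasCompactSupport η) (hηs : tsupport η ⊆ Iio ξ₀) :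
    ContDiff ℝ ∞ fun x => η x * (U x : ℂ) := by
  have hηi : Integrable η := hη.continuous.integrable_of_hasCompactSupport hηc
  have hηU : Integrable fun x => η x * (U x : ℂ) := integrable_mul_U hU.measurable hB hηi
  have hcont : Continuous fun x => η x * (U x : ℂ) := by
    have := hη.continuous
    fun_prop
  have hfF : locF U η = 𝓕 fun x => η x * (U x : ℂ) := by
    funext w
    rw [fourier_eq_ex]
    rfl
  have hFc : Continuous (𝓕 fun x => η x * (U x : ℂ)) := continuous_fourier_of_integrable hηU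
  have hint : ∀ n : ℕ, Integrable fun w : ℝ => ‖w‖ ^ n * ‖𝓕 (fun x => η x * (U x : ℂ)) w‖ := by
    intro n
    obtain ⟨m, hm⟩ := exists_nat_gt (((n : ℝ) + 2) / s)
    obtain ⟨A, hA, hb⟩ := decay_all hs hs1 hc hU.measurable hB hP m η hη hηc hηs
    have hms : (n : ℝ) + 2 ≤ m * s := by
      rw [div_lt_iff₀ hs] at hm
      exact hm.le
    have hi2 : Integrable fun w : ℝ => A * (1 + ‖w‖) ^ (-(2 : ℝ)) :=
      (integrable_one_add_norm (by simp)).const_mul A
    refine hi2.mono' (by fun_prop : Continuous fun w : ℝ => ‖w‖ ^ n * ‖𝓕 (fun x => η x * (U x : ℂ)) w‖).aestronglyMeasurable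
      (Eventually.of_forall fun w => ?_)
    rw [← hfF, Real.norm_eq_abs, abs_of_nonneg (by positivity)]
    have hw : (0 : ℝ) < 1 + |w| := by positivity
    rw [Real.norm_eq_abs]
    have h1 : |w| ^ n ≤ (1 + |w|) ^ (n : ℝ) := by
      rw [Real.rpow_natCast]
      gcongr
      linarith
    calc |w| ^ n * ‖locF U η w‖ ≤ (1 + |w|) ^ (n : ℝ) * (A * (1 + |w|) ^ (-((m : ℝ) * s))) := by
          gcongr; exact hb w
      _ = A * (1 + |w|) ^ ((n : ℝ) + -((m : ℝ) * s)) := by rw [Real.rpow_add hw]; ring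
      _ ≤ A * (1 + |w|) ^ (-(2 : ℝ)) := by
          gcongr
          · linarith [abs_nonneg w]
          · linarith
  have hFi : Integrable (𝓕 fun x => η x * (U x : ℂ)) := by
    have := hint 0
    simp only [pow_zero, one_mul] at this
    exact (integrable_norm_iff hFc.aestronglyMeasurable).mp this
  have hinv := hcont.fourierInv_fourier_eq hηU hFi
  rw [← hinv, Real.fourierInv_eq_fourier_comp_neg]
  refine Real.contDiff_fourier (N := ⊤) fun n _ => ?_
  have h2 := (hint n).comp_neg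
  simpa using h2

/-- Smoothness of the temperature in the water region. -/
lemma smooth_U (hs : 0 < s) (hs1 : s < 1) (hc : 0 < c) (hU : Continuous U)
    (hB : ∀ x, |U x| ≤ B) (hP : ProfileEq s c ξ₀ U) : ContDiffOn ℝ ∞ U (Iio ξ₀) := by
  intro x hx
  refine ContDiffAt.contDiffWithinAt ?_
  have hx' : x < ξ₀ := hx
  obtain ⟨χ, a', b', hχ, hχc, hχs, ha', hb', hχ1, -, -⟩ := exists_cutoff (le_refl x) hx'
  have h1 := smooth_mul hs hs1 hc hU hB hP χ hχ hχc hχs
  have h2 : ContDiff ℝ ∞ fun x => (χ x * (U x : ℂ)).re := Complex.reCLM.contDiff.comp h1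
  refine h2.contDiffAt.congr_of_eventuallyEq ?_
  filter_upwards [Ioo_mem_nhds ha' hb'] with y hy
  rw [hχ1 y ⟨hy.1.le, hy.2.le⟩, one_mul, Complex.ofReal_re]

end

end Pool.Agent.H88.Stefan
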