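import Mathlib
import Pool.Agent.H88.StefanSmooth
import Pool.Agent.H88.StefanDefs

/-!
# From the very weak formulation to the profile equation
-/

namespace Pool.Agent.H88.Stefan

open Set Filter Topology MeasureTheory
open scoped ContDiff

lemma contDiff_mul_of_tsupport_real {η k : ℝ → ℝ} {S : Set ℝ} (hS : IsOpen S)
    (hη : ContDiff ℝ ∞ η) (hk : ContDiffOn ℝ ∞ k S) (hsupp : tsupport η ⊆ S) :
    ContDiff ℝ ∞ fun y => k y * η y := by
  rw [contDiff_iff_contDiffAt]
  intro x
  by_cases hx : x ∈ S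
  · exact (hk.contDiffAt (hS.mem_nhds hx)).mul hη.contDiffAt
  · have hx' : x ∉ tsupport η := fun h => hx (hsupp h)
    have h1 : (fun y => k y * η y) =ᶠ[𝓝 x] fun _ => 0 := by
      have h2 : η =ᶠ[𝓝 x] 0 := notMem_tsupport_iff_eventuallyEq.mp hx'
      filter_upwards [h2] with y hy
      rw [hy]; simp
    exact contDiffAt_const.congr_of_eventuallyEq h1

/-- Scaling of the fractional Laplacian. -/
lemma fracLap_scale {s : ℝ} (hs : 0 < s) (hs1 : s < 1) (c : ℝ) {φ : ℝ → ℝ}
    (hφ : ContDiff ℝ ∞ φ) (hc : HasCompactSupport φ) {l : ℝ} (hl : 0 < l) (k x : ℝ) :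
    fracLap s c (fun y => φ (y * l) * k) x = k * l ^ (2 * s) * fracLap s c φ (x * l) := by
  have h1 : ContDiff ℝ ∞ fun y => φ (y * l) * k :=
    (hφ.comp (contDiff_id.mul contDiff_const)).mul contDiff_const
  have h2 : HasCompactSupport fun y => φ (y * l) * k := by
    have : HasCompactSupport fun y => φ (y * l) :=
      hc.comp_homeomorph (Homeomorph.mulRight₀ l hl.ne')
    exact this.mul_right
  rw [fracLap_eq hs hs1 c h1 h2, fracLap_eq hs hs1 c hφ hc]
  set G : ℝ → ℝ := fun z => (z ^ (1 + 2 * s))⁻¹ • (2 * φ (x * l) - φ (x * l + z) - φ (x * l - z))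
    with hG
  have h3 : ∀ z ∈ Ioi (0 : ℝ), (z ^ (1 + 2 * s))⁻¹ • (2 * (φ (x * l) * k) - φ ((x + z) * l) * k
      - φ ((x - z) * l) * k) = (k * l ^ (1 + 2 * s)) * G (z * l) := by
    intro z hz
    have hz0 : (0 : ℝ) < z := hz
    simp only [hG, smul_eq_mul]
    rw [Real.mul_rpow hz0.le hl.le, add_mul, sub_mul]
    have := (Real.rpow_pos_of_pos hl (1 + 2 * s)).ne'
    have := (Real.rpow_pos_of_pos hz0 (1 + 2 * s)).ne'
    field_simp
  rw [setIntegral_congr_fun measurableSet_Ioi h3, integral_const_mul,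
    integral_comp_mul_right_Ioi G 0 hl, zero_mul, smul_eq_mul, Real.rpow_add hl, Real.rpow_one]
  have := hl.ne'
  field_simp

section
variable {s c L T P₁ P₂ : ℝ} {H : ℝ → ℝ}

/-- A nonnegative bump in time. -/
lemma exists_time_bump {T : ℝ} (hT : 0 < T) : ∃ θ : ℝ → ℝ, ContDiff ℝ ∞ θ ∧ HasCompactSupport θ ∧
    tsupport θ ⊆ Ioo 0 T ∧ (∀ t, 0 ≤ θ t) ∧ θ (T / 2) = 1 := by
  let f : ContDiffBump (T / 2) :=
    { rIn := T / 8
      rOut := T / 4
      rIn_pos := by linarith
      rIn_lt_rOut := by linarith }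
  refine ⟨f, f.contDiff, f.hasCompactSupport, ?_, fun t => f.nonneg, ?_⟩
  · rw [f.tsupport_eq, Real.closedBall_eq_Icc]
    have hfr : f.rOut = T / 4 := rfl
    rw [hfr]
    intro x hx
    exact ⟨by linarith [hx.1], by linarith [hx.2]⟩
  · exact f.one_of_mem_closedBall (Metric.mem_closedBall_self (by
      have hfr : f.rIn = T / 8 := rfl
      rw [hfr]; linarith))

/-- The real profile equation on the whole line. -/
lemma profile_eq_real (hs : 0 < s) (hs1 : s < 1) (hT : 0 < T)
    (hHc : Continuous H) (hHb : ∀ ξ, H ξ ∈ Icc (L - P₂) (L + P₁))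
    (hsol : IsVeryWeakSolution s c L T (stepDatum L P₁ P₂) (selfSimilar s H))
    {φ : ℝ → ℝ} (hφ : ContDiff ℝ ∞ φ) (hφc : HasCompactSupport φ) :
    (1 / (2 * s)) * (∫ x, H x * (φ x + x * deriv φ x))
      + ∫ x, Phi L (H x) * fracLap s c φ x = 0 := by
  obtain ⟨θ, hθ, hθc, hθs, hθ0, hθ1⟩ := exists_time_bump hT
  set a : ℝ := 1 / (2 * s) with ha
  have ha0 : 0 < a := by rw [ha]; positivity
  have hdφ : ContDiff ℝ ∞ (deriv φ) := (contDiff_infty_iff_deriv.mp hφ).2
  have hdθ : ContDiff ℝ ∞ (deriv θ) := (contDiff_infty_iff_deriv.mp hθ).2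
  have hθneg : ∀ t, t ∉ Ioo 0 T → θ t = 0 := fun t ht =>
    image_eq_zero_of_notMem_tsupport fun h => ht (hθs h)
  have hθev : ∀ t, t ∉ Ioo 0 T → θ =ᶠ[𝓝 t] 0 := fun t ht =>
    notMem_tsupport_iff_eventuallyEq.mp fun h => ht (hθs h)
  -- the test function
  set ψ : ℝ × ℝ → ℝ := fun p => φ (p.1 * p.2 ^ (-a)) * θ p.2 with hψ
  have hψs : ContDiff ℝ ∞ ψ := by
    rw [contDiff_iff_contDiffAt]
    intro p
    by_cases hp : p.2 ∈ Ioo 0 T
    · have h1 : ContDiffAt ℝ ∞ (fun p : ℝ × ℝ => p.2 ^ (-a)) p :=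
        ContDiffAt.rpow_const_of_ne contDiffAt_snd hp.1.ne'
      have h2 : ContDiffAt ℝ ∞ (fun p : ℝ × ℝ => p.1 * p.2 ^ (-a)) p := contDiffAt_fst.mul h1
      have h3 : ContDiffAt ℝ ∞ (fun p : ℝ × ℝ => φ (p.1 * p.2 ^ (-a))) p :=
        hφ.contDiffAt.comp p h2
      exact h3.mul (hθ.contDiffAt.comp p contDiffAt_snd)
    · have h1 : ψ =ᶠ[𝓝 p] fun _ => 0 := by
        have h2 := (hθev p.2 hp)
        have h3 : ∀ᶠ q in 𝓝 p, θ q.2 = 0 := by
          have : Tendsto (fun q : ℝ × ℝ => q.2) (𝓝 p) (𝓝 p.2) := continuous_snd.continuousAt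
          exact this.eventually h2
        filter_upwards [h3] with q hq
        simp only [hψ, hq, mul_zero]
      exact contDiffAt_const.congr_of_eventuallyEq h1
  obtain ⟨R, hR⟩ := hφc.isCompact.isBounded.exists_norm_le
  have hψsupp : ∀ p : ℝ × ℝ, ψ p ≠ 0 → p ∈ Icc (-(|R| * T ^ a)) (|R| * T ^ a) ×ˢ tsupport θ := by
    intro p hp
    have hθp : θ p.2 ≠ 0 := fun h => hp (by simp only [hψ, h, mul_zero])
    have hφp : φ (p.1 * p.2 ^ (-a)) ≠ 0 := fun h => hp (by simp only [hψ, h, zero_mul])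
    have ht : p.2 ∈ tsupport θ := subset_tsupport _ hθp
    have ht' := hθs ht
    have h1 := hR _ (subset_tsupport _ hφp)
    rw [Real.norm_eq_abs, abs_mul, abs_of_pos (Real.rpow_pos_of_pos ht'.1 _),
      Real.rpow_neg ht'.1.le, ← div_eq_mul_inv, div_le_iff₀ (Real.rpow_pos_of_pos ht'.1 _)] at h1
    have h2 : |p.1| ≤ |R| * T ^ a := by
      calc |p.1| ≤ R * p.2 ^ a := h1
        _ ≤ |R| * T ^ a := by
          have := ht'.1
          have := Real.rpow_le_rpow ht'.1.le ht'.2.le ha0.le
          have h3 : 0 ≤ p.2 ^ a := Real.rpow_nonneg ht'.1.le _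
          gcongr
          exact le_abs_self R
    exact ⟨abs_le.mp h2, ht⟩
  have hψc : HasCompactSupport ψ := by
    refine HasCompactSupport.intro (K := Icc (-(|R| * T ^ a)) (|R| * T ^ a) ×ˢ tsupport θ)
      (isCompact_Icc.prod hθc.isCompact) fun p hp => ?_
    by_contra h
    exact hp (hψsupp p h)
  have hψt : tsupport ψ ⊆ {p | p.2 < T} := by
    have h1 : tsupport ψ ⊆ Icc (-(|R| * T ^ a)) (|R| * T ^ a) ×ˢ tsupport θ :=
      closure_minimal (fun p hp => hψsupp p hp) (isClosed_Icc.prod (isClosed_tsupport _))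
    intro p hp
    exact (hθs (h1 hp).2).2
  have key := hsol ψ hψs hψc hψt
  have hinit : ∫ x, stepDatum L P₁ P₂ x * ψ (x, 0) = 0 := by
    have h0 : θ 0 = 0 := hθneg 0 (by simp)
    simp [hψ, h0]
  rw [hinit, add_zero] at key
  -- bounds and integrability
  have hHabs : ∀ x, |H x| ≤ |L - P₂| + |L + P₁| := by
    intro x
    have h1 := hHb x
    rw [abs_le]
    constructor
    · have := neg_abs_le (L - P₂)
      have := abs_nonneg (L + P₁)
      linarith [h1.1]
    · have := le_abs_self (L + P₁)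
      have := abs_nonneg (L - P₂)
      linarith [h1.2]
  have hPhi_cont : Continuous fun x => Phi L (H x) := by
    unfold Phi
    exact (hHc.sub continuous_const).max continuous_const
  have hPhi_b : ∀ x, |Phi L (H x)| ≤ |P₁| := by
    intro x
    unfold Phi
    rw [abs_of_nonneg (le_max_right _ _)]
    refine max_le ?_ (abs_nonneg _)
    have := (hHb x).2
    linarith [le_abs_self P₁]
  have i1 : Integrable fun x => H x * φ x :=
    (hHc.mul hφ.continuous).integrable_of_hasCompactSupport hφc.mul_left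
  have i2 : Integrable fun x => H x * (x * deriv φ x) :=
    (hHc.mul (continuous_id.mul hdφ.continuous)).integrable_of_hasCompactSupport
      (hφc.deriv.mul_left.mul_left)
  have i3 : Integrable fun x => Phi L (H x) * fracLap s c φ x := by
    have hφc' : ContDiff ℝ ∞ (fun y => (φ y : ℂ)) := Complex.ofRealCLM.contDiff.comp hφ
    have hφcc : HasCompactSupport (fun y => (φ y : ℂ)) :=
      hφc.comp_left (g := fun y : ℝ => (y : ℂ)) Complex.ofReal_zero
    have h1 := ((integrable_symLap hs hs1 hφc' hφcc).const_mul (c : ℂ)).re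
    have h2 : Integrable fun x => fracLap s c φ x := by
      refine h1.congr (Eventually.of_forall fun x => ?_)
      simp only
      rw [← ofReal_fracLap hs hs1 c hφ hφc]
      simp
    exact h2.bdd_mul (c := |P₁|) hPhi_cont.aestronglyMeasurable
      (Eventually.of_forall fun x => hPhi_b x)
  set A : ℝ := ∫ x, H x * φ x with hA
  set B : ℝ := ∫ x, H x * (x * deriv φ x) with hB
  set D : ℝ := ∫ x, Phi L (H x) * fracLap s c φ x with hD
  -- inner integral
  have hinner : ∀ t ∈ Ioo 0 T, (∫ x, (selfSimilar s H x t * deriv (fun τ => ψ (x, τ)) t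
      - Phi L (selfSimilar s H x t) * fracLap s c (fun y => ψ (y, t)) x))
      = A * (t ^ a * deriv θ t) - (a * B + D) * (t ^ (a - 1) * θ t) := by
    intro t ht
    have ht0 : 0 < t := ht.1
    set l : ℝ := t ^ (-a) with hl
    have hl0 : 0 < l := Real.rpow_pos_of_pos ht0 _
    have hls : l ^ (2 * s) = t⁻¹ := by
      rw [hl, ← Real.rpow_mul ht0.le]
      have : -a * (2 * s) = -1 := by
        rw [ha]; field_simp
      rw [this, Real.rpow_neg_one]
    have hder : ∀ x, deriv (fun τ => ψ (x, τ)) t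
        = φ (x * l) * deriv θ t - a * t⁻¹ * ((x * l) * deriv φ (x * l)) * θ t := by
      intro x
      have h1 : HasDerivAt (fun τ : ℝ => τ ^ (-a)) (-a * t ^ (-a - 1)) t :=
        Real.hasDerivAt_rpow_const (Or.inl ht0.ne')
      have h2 : HasDerivAt (fun τ : ℝ => x * τ ^ (-a)) (x * (-a * t ^ (-a - 1))) t := h1.const_mul x
      have h3 : HasDerivAt φ (deriv φ (x * t ^ (-a))) (x * t ^ (-a)) :=
        (hφ.differentiable (by simp)).differentiableAt.hasDerivAt
      have h4 : HasDerivAt (fun τ : ℝ => φ (x * τ ^ (-a)))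
          (deriv φ (x * t ^ (-a)) * (x * (-a * t ^ (-a - 1)))) t := h3.comp t h2
      have h5 : HasDerivAt θ (deriv θ t) t :=
        (hθ.differentiable (by simp)).differentiableAt.hasDerivAt
      have h6 : HasDerivAt (fun τ => ψ (x, τ)) (deriv φ (x * t ^ (-a)) * (x * (-a * t ^ (-a - 1))) * θ t
          + φ (x * t ^ (-a)) * deriv θ t) t := h4.mul h5
      rw [h6.deriv, Real.rpow_sub_one ht0.ne', ← hl]
      field_simp
      ring
    have hfl : ∀ x, fracLap s c (fun y => ψ (y, t)) x = θ t * t⁻¹ * fracLap s c φ (x * l) := by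
      intro x
      have := fracLap_scale hs hs1 c hφ hφc hl0 (θ t) x
      rw [hls] at this
      exact this
    set G : ℝ → ℝ := fun y => (deriv θ t) * (H y * φ y) - (a * t⁻¹ * θ t) * (H y * (y * deriv φ y))
      - (θ t * t⁻¹) * (Phi L (H y) * fracLap s c φ y) with hG
    have hGx : ∀ x, (selfSimilar s H x t * deriv (fun τ => ψ (x, τ)) t
      - Phi L (selfSimilar s H x t) * fracLap s c (fun y => ψ (y, t)) x) = G (x * l) := by
      intro x
      rw [hder, hfl]
      have hss : selfSimilar s H x t = H (x * l) := rfl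
      rw [hss]
      simp only [hG]
      ring
    have hGint : ∫ y, G y = (deriv θ t) * A - (a * t⁻¹ * θ t) * B - (θ t * t⁻¹) * D := by
      have i4 : Integrable fun y => (deriv θ t) * (H y * φ y)
          - (a * t⁻¹ * θ t) * (H y * (y * deriv φ y)) := (i1.const_mul _).sub (i2.const_mul _)
      simp only [hG]
      rw [integral_sub i4 (i3.const_mul _), integral_sub (i1.const_mul _) (i2.const_mul _),
        integral_const_mul, integral_const_mul, integral_const_mul]
    calc (∫ x, (selfSimilar s H x t * deriv (fun τ => ψ (x, τ)) t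
          - Phi L (selfSimilar s H x t) * fracLap s c (fun y => ψ (y, t)) x))
        = ∫ x, G (x * l) := integral_congr_ae (Eventually.of_forall hGx)
      _ = |l⁻¹| • ∫ y, G y := Measure.integral_comp_mul_right G l
      _ = t ^ a * ((deriv θ t) * A - (a * t⁻¹ * θ t) * B - (θ t * t⁻¹) * D) := by
        rw [hGint, abs_of_pos (inv_pos.mpr hl0), smul_eq_mul, hl, Real.rpow_neg ht0.le, inv_inv]
      _ = _ := by
        rw [Real.rpow_sub_one ht0.ne']
        field_simp
        ring
  rw [setIntegral_congr_fun measurableSet_Ioo hinner] at key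
  -- the time integrals
  have hkθ : ∀ b : ℝ, ContDiff ℝ ∞ fun t => t ^ b * θ t := fun b =>
    contDiff_mul_of_tsupport_real (S := Ioi 0) isOpen_Ioi hθ
      (fun t ht => (contDiffAt_id.rpow_const_of_ne (ne_of_gt ht)).contDiffWithinAt)
      (hθs.trans fun t ht => ht.1)
  have hkdθ : ∀ b : ℝ, ContDiff ℝ ∞ fun t => t ^ b * deriv θ t := fun b =>
    contDiff_mul_of_tsupport_real (S := Ioi 0) isOpen_Ioi hdθ
      (fun t ht => (contDiffAt_id.rpow_const_of_ne (ne_of_gt ht)).contDiffWithinAt)
      ((tsupport_deriv_subset.trans hθs).trans fun t ht => ht.1)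
  have j1 : Integrable fun t => t ^ (a - 1) * θ t :=
    (hkθ _).continuous.integrable_of_hasCompactSupport hθc.mul_left
  have j2 : Integrable fun t => t ^ a * deriv θ t :=
    (hkdθ _).continuous.integrable_of_hasCompactSupport hθc.deriv.mul_left
  have j3 : Integrable fun t => t ^ a * θ t :=
    (hkθ _).continuous.integrable_of_hasCompactSupport hθc.mul_left
  have hIoo : ∀ f : ℝ → ℝ, (∀ t, t ∉ Ioo 0 T → f t = 0) → ∫ t in Ioo 0 T, f t = ∫ t, f t :=
    fun f hf => setIntegral_eq_integral_of_forall_compl_eq_zero hf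
  have hdθneg : ∀ t, t ∉ Ioo 0 T → deriv θ t = 0 := fun t ht =>
    image_eq_zero_of_notMem_tsupport fun h => ht (hθs (tsupport_deriv_subset h))
  have hpart : ∫ t, (a * (t ^ (a - 1) * θ t) + t ^ a * deriv θ t) = 0 := by
    refine integral_eq_zero_of_hasDerivAt_of_integrable (f := fun t => t ^ a * θ t) ?_
      ((j1.const_mul a).add j2) j3
    intro t
    by_cases ht : t ∈ Ioo 0 T
    · have h1 : HasDerivAt (fun τ : ℝ => τ ^ a) (a * t ^ (a - 1)) t :=
        Real.hasDerivAt_rpow_const (Or.inl ht.1.ne')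
      have h5 : HasDerivAt θ (deriv θ t) t :=
        (hθ.differentiable (by simp)).differentiableAt.hasDerivAt
      refine (h1.mul h5).congr_deriv ?_
      ring
    · have h1 : (fun t => t ^ a * θ t) =ᶠ[𝓝 t] fun _ => 0 := by
        filter_upwards [hθev t ht] with τ hτ
        rw [hτ]; simp
      rw [hθneg t ht, hdθneg t ht, mul_zero, mul_zero, mul_zero, add_zero]
      exact (hasDerivAt_const t (0 : ℝ)).congr_of_eventuallyEq h1
  rw [integral_add (j1.const_mul a) j2, integral_const_mul] at hpart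
  have hpos : 0 < ∫ t, t ^ (a - 1) * θ t := by
    refine (hkθ (a - 1)).continuous.integral_pos_of_hasCompactSupport_nonneg_nonzero
      hθc.mul_left (x := T / 2) ?_ ?_
    · intro t
      by_cases ht : t ∈ Ioo 0 T
      · exact mul_nonneg (Real.rpow_nonneg ht.1.le _) (hθ0 t)
      · simp [hθneg t ht]
    · rw [hθ1, mul_one]
      exact (Real.rpow_pos_of_pos (by linarith) _).ne'
  have e1 : ∫ t in Ioo 0 T, (A * (t ^ a * deriv θ t) - (a * B + D) * (t ^ (a - 1) * θ t))
      = A * (∫ t, t ^ a * deriv θ t) - (a * B + D) * ∫ t, t ^ (a - 1) * θ t := by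
    rw [hIoo _ fun t ht => by rw [hθneg t ht, hdθneg t ht]; ring,
      integral_sub (j2.const_mul A) (j1.const_mul _), integral_const_mul, integral_const_mul]
  rw [e1] at key
  set Q : ℝ := ∫ t, t ^ (a - 1) * θ t with hQ
  have e2 : ∫ t, t ^ a * deriv θ t = -(a * Q) := by linarith
  rw [e2] at key
  have e3 : Q * (a * A + a * B + D) = 0 := by linarith
  have e4 : a * A + a * B + D = 0 := by
    rcases mul_eq_zero.mp e3 with h | h
    · exact absurd h hpos.ne'
    · exact h
  have e5 : ∫ x, H x * (φ x + x * deriv φ x) = A + B := by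
    rw [hA, hB, ← integral_add i1 i2]
    refine integral_congr_ae (Eventually.of_forall fun x => ?_)
    simp only
    ring
  rw [e5]
  linarith

/-- The real profile equation for the temperature, in the water region. -/
lemma profile_eq_water (hs : 0 < s) (hs1 : s < 1) (hT : 0 < T)
    (hHc : Continuous H) (hHb : ∀ ξ, H ξ ∈ Icc (L - P₂) (L + P₁))
    (hsol : IsVeryWeakSolution s c L T (stepDatum L P₁ P₂) (selfSimilar s H)) {ξ₀ : ℝ}
    (hwater : ∀ ξ < ξ₀, L < H ξ)
    {φ : ℝ → ℝ} (hφ : ContDiff ℝ ∞ φ) (hφc : HasCompactSupport φ) (hφs : tsupport φ ⊆ Iio ξ₀) :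
    (1 / (2 * s)) * (∫ x, Phi L (H x) * (φ x + x * deriv φ x))
      + ∫ x, Phi L (H x) * fracLap s c φ x = 0 := by
  have h1 := profile_eq_real hs hs1 hT hHc hHb hsol hφ hφc
  have hdφ : ContDiff ℝ ∞ (deriv φ) := (contDiff_infty_iff_deriv.mp hφ).2
  have hcs : HasCompactSupport fun x => φ x + x * deriv φ x := hφc.add hφc.deriv.mul_left
  have hcc : Continuous fun x => φ x + x * deriv φ x :=
    hφ.continuous.add (continuous_id.mul hdφ.continuous)
  have hPhi_cont : Continuous fun x => Phi L (H x) := by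
    unfold Phi
    exact (hHc.sub continuous_const).max continuous_const
  have hz : ∀ x, ξ₀ ≤ x → φ x + x * deriv φ x = 0 := by
    intro x hx
    have h2 : x ∉ tsupport φ := fun h => not_lt.mpr hx (hφs h)
    rw [image_eq_zero_of_notMem_tsupport h2,
      image_eq_zero_of_notMem_tsupport fun h => h2 (tsupport_deriv_subset h)]
    simp
  have h2 : ∫ x, H x * (φ x + x * deriv φ x)
      = (∫ x, Phi L (H x) * (φ x + x * deriv φ x)) + L * ∫ x, (φ x + x * deriv φ x) := by
    have i1 : Integrable fun x => Phi L (H x) * (φ x + x * deriv φ x) :=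
      (hPhi_cont.mul hcc).integrable_of_hasCompactSupport hcs.mul_left
    rw [← integral_const_mul, ← integral_add i1
      ((hcc.integrable_of_hasCompactSupport hcs).const_mul L)]
    refine integral_congr_ae (Eventually.of_forall fun x => ?_)
    simp only
    by_cases hx : x < ξ₀
    · have := hwater x hx
      unfold Phi
      rw [max_eq_left (by linarith)]
      ring
    · rw [hz x (not_lt.mp hx)]; ring
  have h3 : ∫ x, (φ x + x * deriv φ x) = 0 := by
    refine integral_eq_zero_of_hasDerivAt_of_integrable (f := fun x => x * φ x) ?_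
      (hcc.integrable_of_hasCompactSupport hcs)
      ((continuous_id.mul hφ.continuous).integrable_of_hasCompactSupport hφc.mul_left)
    intro x
    have h5 : HasDerivAt φ (deriv φ x) x :=
      (hφ.differentiable (by simp)).differentiableAt.hasDerivAt
    refine ((hasDerivAt_id x).mul h5).congr_deriv ?_
    simp
  rw [h2, h3, mul_zero, add_zero] at h1
  exact h1

lemma symLap_add_mul {s : ℝ} (hs : 0 < s) (hs1 : s < 1) {f g : ℝ → ℂ} (hf : ContDiff ℝ ∞ f)
    (hfc : HasCompactSupport f) (hg : ContDiff ℝ ∞ g) (hgc : HasCompactSupport g) (k : ℂ) (x : ℝ) :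
    symLap s (fun y => f y + k * g y) x = symLap s f x + k * symLap s g x := by
  unfold symLap
  rw [← integral_const_mul, ← integral_add (integrableOn_secDiff hs hs1 hf hfc x)
    ((integrableOn_secDiff hs hs1 hg hgc x).const_mul k)]
  refine setIntegral_congr_fun measurableSet_Ioi fun z _ => ?_
  simp only [secDiff, Complex.real_smul]
  ring

/-- The complex profile equation in the water region. -/
lemma profileEq_of_solution (hs : 0 < s) (hs1 : s < 1) (hT : 0 < T)
    (hHc : Continuous H) (hHb : ∀ ξ, H ξ ∈ Icc (L - P₂) (L + P₁))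
    (hsol : IsVeryWeakSolution s c L T (stepDatum L P₁ P₂) (selfSimilar s H)) {ξ₀ : ℝ}
    (hwater : ∀ ξ < ξ₀, L < H ξ) : ProfileEq s c ξ₀ fun ξ => Phi L (H ξ) := by
  intro φ hφ hφc hφt
  have hPhi_cont : Continuous fun x => Phi L (H x) := by
    unfold Phi
    exact (hHc.sub continuous_const).max continuous_const
  have hPhi_b : ∀ x, |Phi L (H x)| ≤ |P₁| := by
    intro x
    unfold Phi
    rw [abs_of_nonneg (le_max_right _ _)]
    refine max_le ?_ (abs_nonneg _)
    have := (hHb x).2
    linarith [le_abs_self P₁]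
  -- the statement for real test functions
  have hreal : ∀ f : ℝ → ℝ, ContDiff ℝ ∞ f → HasCompactSupport f → tsupport f ⊆ Iio ξ₀ →
      ((1 / (2 * s) : ℝ) : ℂ) * (∫ x, (Phi L (H x) : ℂ) * ((f x : ℂ) + x * ((deriv f x : ℝ) : ℂ)))
        + c * ∫ x, (Phi L (H x) : ℂ) * symLap s (fun y => (f y : ℂ)) x = 0 := by
    intro f hf hfc hft
    have h1 := profile_eq_water hs hs1 hT hHc hHb hsol hwater hf hfc hft
    have h2 : (∫ x, (Phi L (H x) : ℂ) * ((f x : ℂ) + x * ((deriv f x : ℝ) : ℂ)))
        = ((∫ x, Phi L (H x) * (f x + x * deriv f x) : ℝ) : ℂ) := by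
      rw [← integral_complex_ofReal]
      refine integral_congr_ae (Eventually.of_forall fun x => ?_)
      simp only
      push_cast
      ring
    have h3 : c * ∫ x, (Phi L (H x) : ℂ) * symLap s (fun y => (f y : ℂ)) x
        = ((∫ x, Phi L (H x) * fracLap s c f x : ℝ) : ℂ) := by
      rw [← integral_complex_ofReal, ← integral_const_mul]
      refine integral_congr_ae (Eventually.of_forall fun x => ?_)
      simp only
      rw [Complex.ofReal_mul, ofReal_fracLap hs hs1 c hf hfc]
      ring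
    rw [h2, h3, ← Complex.ofReal_mul, ← Complex.ofReal_add, h1, Complex.ofReal_zero]
  set fr : ℝ → ℝ := fun x => (φ x).re with hfr
  set fi : ℝ → ℝ := fun x => (φ x).im with hfi
  have hfrs : ContDiff ℝ ∞ fr := Complex.reCLM.contDiff.comp hφ
  have hfis : ContDiff ℝ ∞ fi := Complex.imCLM.contDiff.comp hφ
  have hfrc : HasCompactSupport fr := hφc.comp_left (g := Complex.re) Complex.zero_re
  have hfic : HasCompactSupport fi := hφc.comp_left (g := Complex.im) Complex.zero_im
  have hfrt : tsupport fr ⊆ Iio ξ₀ := by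
    refine (closure_mono fun x hx => ?_).trans hφt
    simp only [Function.mem_support, hfr] at hx ⊢
    exact fun h => hx (by rw [h]; rfl)
  have hfit : tsupport fi ⊆ Iio ξ₀ := by
    refine (closure_mono fun x hx => ?_).trans hφt
    simp only [Function.mem_support, hfi] at hx ⊢
    exact fun h => hx (by rw [h]; rfl)
  have hr := hreal fr hfrs hfrc hfrt
  have hi := hreal fi hfis hfic hfit
  have hdr : ContDiff ℝ ∞ (deriv fr) := (contDiff_infty_iff_deriv.mp hfrs).2
  have hdi : ContDiff ℝ ∞ (deriv fi) := (contDiff_infty_iff_deriv.mp hfis).2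
  have hφe : φ = fun x => (fr x : ℂ) + Complex.I * (fi x : ℂ) := by
    funext x
    rw [mul_comm, hfr, hfi]
    exact (Complex.re_add_im (φ x)).symm
  have hdφ : ∀ x, deriv φ x = ((deriv fr x : ℝ) : ℂ) + Complex.I * ((deriv fi x : ℝ) : ℂ) := by
    intro x
    have h1 : HasDerivAt fr (deriv fr x) x :=
      (hfrs.differentiable (by simp)).differentiableAt.hasDerivAt
    have h2 : HasDerivAt fi (deriv fi x) x :=
      (hfis.differentiable (by simp)).differentiableAt.hasDerivAt
    have h3 := h1.ofReal_comp.add (h2.ofReal_comp.const_mul Complex.I)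
    rw [hφe]
    exact h3.deriv
  have hcr : ContDiff ℝ ∞ fun y => (fr y : ℂ) := Complex.ofRealCLM.contDiff.comp hfrs
  have hci : ContDiff ℝ ∞ fun y => (fi y : ℂ) := Complex.ofRealCLM.contDiff.comp hfis
  have hccr : HasCompactSupport fun y => (fr y : ℂ) :=
    hfrc.comp_left (g := fun y : ℝ => (y : ℂ)) Complex.ofReal_zero
  have hcci : HasCompactSupport fun y => (fi y : ℂ) :=
    hfic.comp_left (g := fun y : ℝ => (y : ℂ)) Complex.ofReal_zero
  have hUc : Continuous fun x => (Phi L (H x) : ℂ) := Complex.continuous_ofReal.comp hPhi_cont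
  have hint1 : ∀ f : ℝ → ℝ, ContDiff ℝ ∞ f → HasCompactSupport f →
      Integrable fun x => (Phi L (H x) : ℂ) * ((f x : ℂ) + x * ((deriv f x : ℝ) : ℂ)) := by
    intro f hf hfc
    have hd : ContDiff ℝ ∞ (deriv f) := (contDiff_infty_iff_deriv.mp hf).2
    have h1 : Continuous fun x => (f x : ℂ) := Complex.continuous_ofReal.comp hf.continuous
    have h2 : Continuous fun x => ((deriv f x : ℝ) : ℂ) := Complex.continuous_ofReal.comp hd.continuous
    have h3 : HasCompactSupport fun x => (f x : ℂ) :=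
      hfc.comp_left (g := fun y : ℝ => (y : ℂ)) Complex.ofReal_zero
    have h4 : HasCompactSupport fun x => ((deriv f x : ℝ) : ℂ) :=
      hfc.deriv.comp_left (g := fun y : ℝ => (y : ℂ)) Complex.ofReal_zero
    refine Continuous.integrable_of_hasCompactSupport (hUc.mul (h1.add
      (Complex.continuous_ofReal.mul h2))) ?_
    have h5 : HasCompactSupport fun x => (f x : ℂ) + x * ((deriv f x : ℝ) : ℂ) := h3.add h4.mul_left
    exact h5.mul_left
  have hint2 : ∀ g : ℝ → ℂ, ContDiff ℝ ∞ g → HasCompactSupport g →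
      Integrable fun x => (Phi L (H x) : ℂ) * symLap s g x := by
    intro g hg hgc
    exact (integrable_symLap hs hs1 hg hgc).bdd_mul (c := |P₁|) hUc.aestronglyMeasurable
      (Eventually.of_forall fun x => by rw [Complex.norm_real]; exact hPhi_b x)
  have e1 : ∫ x, (Phi L (H x) : ℂ) * (φ x + x * deriv φ x)
      = (∫ x, (Phi L (H x) : ℂ) * ((fr x : ℂ) + x * ((deriv fr x : ℝ) : ℂ)))
        + Complex.I * ∫ x, (Phi L (H x) : ℂ) * ((fi x : ℂ) + x * ((deriv fi x : ℝ) : ℂ)) := by
    rw [← integral_const_mul, ← integral_add (hint1 fr hfrs hfrc)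
      ((hint1 fi hfis hfic).const_mul Complex.I)]
    refine integral_congr_ae (Eventually.of_forall fun x => ?_)
    show (Phi L (H x) : ℂ) * (φ x + x * deriv φ x) = _
    rw [hdφ x, show φ x = (fr x : ℂ) + Complex.I * (fi x : ℂ) from congrFun hφe x]
    ring
  have e2 : ∫ x, (Phi L (H x) : ℂ) * symLap s φ x
      = (∫ x, (Phi L (H x) : ℂ) * symLap s (fun y => (fr y : ℂ)) x)
        + Complex.I * ∫ x, (Phi L (H x) : ℂ) * symLap s (fun y => (fi y : ℂ)) x := by
    rw [← integral_const_mul, ← integral_add (hint2 _ hcr hccr)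
      ((hint2 _ hci hcci).const_mul Complex.I)]
    refine integral_congr_ae (Eventually.of_forall fun x => ?_)
    show (Phi L (H x) : ℂ) * symLap s φ x = _
    have h4 := symLap_add_mul hs hs1 hcr hccr hci hcci Complex.I x
    rw [← hφe] at h4
    rw [h4]
    ring
  show ((1 / (2 * s) : ℝ) : ℂ) * (∫ x, (Phi L (H x) : ℂ) * (φ x + x * deriv φ x))
      + c * ∫ x, (Phi L (H x) : ℂ) * symLap s φ x = 0
  rw [e1, e2]
  linear_combination hr + Complex.I * hi

/-- Smoothness of the profile in the water region. -/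
lemma smooth_profile (hs : 0 < s) (hs1 : s < 1) (hc : 0 < c) (hT : 0 < T)
    (hHc : Continuous H) (hHb : ∀ ξ, H ξ ∈ Icc (L - P₂) (L + P₁))
    (hsol : IsVeryWeakSolution s c L T (stepDatum L P₁ P₂) (selfSimilar s H)) {ξ₀ : ℝ}
    (hwater : ∀ ξ < ξ₀, L < H ξ) : ContDiffOn ℝ ∞ H (Iio ξ₀) := by
  have hPhi_cont : Continuous fun x => Phi L (H x) := by
    unfold Phi
    exact (hHc.sub continuous_const).max continuous_const
  have hPhi_b : ∀ x, |Phi L (H x)| ≤ |P₁| := by
    intro x
    unfold Phi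
    rw [abs_of_nonneg (le_max_right _ _)]
    refine max_le ?_ (abs_nonneg _)
    have := (hHb x).2
    linarith [le_abs_self P₁]
  have h1 := smooth_U hs hs1 hc hPhi_cont hPhi_b
    (profileEq_of_solution hs hs1 hT hHc hHb hsol hwater)
  have h2 : ContDiffOn ℝ ∞ (fun ξ => Phi L (H ξ) + L) (Iio ξ₀) := h1.add contDiffOn_const
  refine h2.congr fun ξ hξ => ?_
  have := hwater ξ hξ
  unfold Phi
  rw [max_eq_left (by linarith)]
  ring

end

end Pool.Agent.H88.Stefan
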