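import Mathlib

/-!
# Weighted composition operators on spaces of smooth functions: definitions
-/

namespace Pool.Agent.H88.WCO

open Set
open scoped ContDiff

/-- The space `C^∞(Ω, 𝕂)` for `Ω ⊆ ℝ^d`: functions `f : ℝ^d → 𝕂` which are smooth on `Ω` and which,
as a normalisation, take the value `0` outside `Ω` (so that `f` is determined by its restriction
to `Ω`). -/
def SmoothFun (𝕂 : Type) [RCLike 𝕂] {d : ℕ} (Ω : Set (EuclideanSpace ℝ (Fin d))) : Type :=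
  {f : EuclideanSpace ℝ (Fin d) → 𝕂 // ContDiffOn ℝ ∞ f Ω ∧ ∀ x, x ∉ Ω → f x = 0}

variable {𝕂 : Type} [RCLike 𝕂] {d : ℕ} {Ω : Set (EuclideanSpace ℝ (Fin d))}

/-- `g` lies in the basic neighbourhood of `f` given by `K`, `n`, `ε`: all derivatives of `g - f` of
order at most `n` have norm less than `ε` on `K`. -/
def Near (K : Set (EuclideanSpace ℝ (Fin d))) (n : ℕ) (ε : ℝ) (f g : SmoothFun 𝕂 Ω) : Prop :=
  ∀ i ≤ n, ∀ x ∈ K, ‖iteratedFDeriv ℝ i (fun y => g.1 y - f.1 y) x‖ < ε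

/-- The Fréchet space topology of `C^∞(Ω, 𝕂)`: uniform convergence of all derivatives on the
compact subsets of `Ω`. -/
instance : TopologicalSpace (SmoothFun 𝕂 Ω) where
  IsOpen U := ∀ f ∈ U, ∃ K : Set (EuclideanSpace ℝ (Fin d)), IsCompact K ∧ K ⊆ Ω ∧
    ∃ n : ℕ, ∃ ε : ℝ, 0 < ε ∧ ∀ g, Near K n ε f g → g ∈ U
  isOpen_univ := fun _ _ => ⟨∅, isCompact_empty, empty_subset _, 0, 1, one_pos, fun _ _ => trivial⟩
  isOpen_inter := by
    rintro U V hU hV f ⟨hfU, hfV⟩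
    obtain ⟨K, hK, hKΩ, n, ε, hε, h⟩ := hU f hfU
    obtain ⟨K', hK', hKΩ', n', ε', hε', h'⟩ := hV f hfV
    refine ⟨K ∪ K', hK.union hK', union_subset hKΩ hKΩ', max n n', min ε ε', lt_min hε hε', ?_⟩
    intro g hg
    refine ⟨h g fun i hi x hx => ?_, h' g fun i hi x hx => ?_⟩
    · exact (hg i (hi.trans (le_max_left _ _)) x (Or.inl hx)).trans_le (min_le_left _ _)
    · exact (hg i (hi.trans (le_max_right _ _)) x (Or.inr hx)).trans_le (min_le_right _ _)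
  isOpen_sUnion := by
    rintro S hS f ⟨U, hU, hfU⟩
    obtain ⟨K, hK, hKΩ, n, ε, hε, h⟩ := hS U hU f hfU
    exact ⟨K, hK, hKΩ, n, ε, hε, fun g hg => ⟨U, hU, h g hg⟩⟩

/-- The weighted composition operator `C_{w,ψ} f = w · (f ∘ ψ)` on `C^∞(Ω, 𝕂)`, for a smooth weight
`w : Ω → 𝕂` and a smooth symbol `ψ : Ω → Ω`. -/
noncomputable def wco {w : EuclideanSpace ℝ (Fin d) → 𝕂}
    {ψ : EuclideanSpace ℝ (Fin d) → EuclideanSpace ℝ (Fin d)}
    (hw : ContDiffOn ℝ ∞ w Ω) (hψ : ContDiffOn ℝ ∞ ψ Ω) (hm : MapsTo ψ Ω Ω)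
    (f : SmoothFun 𝕂 Ω) : SmoothFun 𝕂 Ω :=
  ⟨Ω.indicator fun x => w x * f.1 (ψ x),
    (hw.mul (f.2.1.comp hψ hm)).congr fun x hx => by
      rw [indicator_of_mem hx]; rfl,
    fun x hx => indicator_of_notMem hx _⟩

/-- `T` is transitive: for all nonempty open `U`, `V`, `T^n(U) ∩ V ≠ ∅` for some `n`. -/
def IsTransitive {X : Type} [TopologicalSpace X] (T : X → X) : Prop :=
  ∀ U V : Set X, IsOpen U → IsOpen V → U.Nonempty → V.Nonempty →
    ∃ n : ℕ, (T^[n] '' U ∩ V).Nonempty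

/-- `T` is mixing: for all nonempty open `U`, `V`, `T^n(U) ∩ V ≠ ∅` for all large `n`. -/
def IsMixing {X : Type} [TopologicalSpace X] (T : X → X) : Prop :=
  ∀ U V : Set X, IsOpen U → IsOpen V → U.Nonempty → V.Nonempty →
    ∃ N : ℕ, ∀ n, N ≤ n → (T^[n] '' U ∩ V).Nonempty

/-- `T` is chaotic: it is transitive and its periodic points are dense. -/
def IsChaotic {X : Type} [TopologicalSpace X] (T : X → X) : Prop :=
  IsTransitive T ∧ Dense {f : X | ∃ n : ℕ, 1 ≤ n ∧ T^[n] f = f}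

end Pool.Agent.H88.WCO
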