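import Mathlib
import Pool.Agent.H88.WCODefs

/-!
# Weighted composition operators: open sets, iterates, consequences of transitivity
-/

namespace Pool.Agent.H88.WCO

open Set Filter Topology
open scoped ContDiff

/-- `ℝ^d`. -/
abbrev E (d : ℕ) : Type := EuclideanSpace ℝ (Fin d)

variable {𝕂 : Type} [RCLike 𝕂] {d : ℕ} {Ω : Set (E d)}

lemma isOpen_def (U : Set (SmoothFun 𝕂 Ω)) : IsOpen U ↔ ∀ f ∈ U, ∃ K : Set (E d),
    IsCompact K ∧ K ⊆ Ω ∧ ∃ n : ℕ, ∃ ε : ℝ, 0 < ε ∧ ∀ g, Near K n ε f g → g ∈ U := Iff.rfl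

/-- The element of `C^∞(Ω)` given by a function smooth on `Ω`. -/
noncomputable def mkSmooth (f : E d → 𝕂) (hf : ContDiffOn ℝ ∞ f Ω) : SmoothFun 𝕂 Ω :=
  ⟨Ω.indicator f, hf.congr fun _ hx => indicator_of_mem hx _, fun _ hx => indicator_of_notMem hx _⟩

lemma mkSmooth_apply {f : E d → 𝕂} {hf : ContDiffOn ℝ ∞ f Ω} {x : E d} (hx : x ∈ Ω) :
    (mkSmooth f hf).1 x = f x := indicator_of_mem hx _

lemma eventuallyEq_mkSmooth (hΩ : IsOpen Ω) {f : E d → 𝕂} {hf : ContDiffOn ℝ ∞ f Ω} {x : E d}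
    (hx : x ∈ Ω) : (mkSmooth f hf).1 =ᶠ[𝓝 x] f := by
  filter_upwards [hΩ.mem_nhds hx] with y hy using mkSmooth_apply hy

lemma contDiffAt_val (hΩ : IsOpen Ω) (f : SmoothFun 𝕂 Ω) {x : E d} (hx : x ∈ Ω) :
    ContDiffAt ℝ ∞ f.1 x := f.2.1.contDiffAt (hΩ.mem_nhds hx)

lemma differentiableAt_val (hΩ : IsOpen Ω) (f : SmoothFun 𝕂 Ω) {x : E d} (hx : x ∈ Ω) :
    DifferentiableAt ℝ f.1 x := (contDiffAt_val hΩ f hx).differentiableAt (by simp)

/-- Value bound from nearness. -/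
lemma Near.val {K : Set (E d)} {n : ℕ} {ε : ℝ} {f g : SmoothFun 𝕂 Ω} (h : Near K n ε f g)
    {x : E d} (hx : x ∈ K) : ‖g.1 x - f.1 x‖ < ε := by
  have := h 0 (Nat.zero_le _) x hx
  rwa [norm_iteratedFDeriv_zero] at this

lemma Near.fderiv (hΩ : IsOpen Ω) {K : Set (E d)} {n : ℕ} {ε : ℝ} {f g : SmoothFun 𝕂 Ω}
    (h : Near K n ε f g) (hn : 1 ≤ n) {x : E d} (hx : x ∈ K) (hxΩ : x ∈ Ω) :
    ‖_root_.fderiv ℝ g.1 x - _root_.fderiv ℝ f.1 x‖ < ε := by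
  have := h 1 hn x hx
  rw [← norm_fderiv_iteratedFDeriv] at this
  have e : iteratedFDeriv ℝ 0 (fun y => g.1 y - f.1 y)
      = (continuousMultilinearCurryFin0 ℝ (E d) 𝕂).symm ∘ (fun y => g.1 y - f.1 y) := by
    exact iteratedFDeriv_zero_eq_comp
  rw [e] at this
  rw [LinearIsometryEquiv.comp_fderiv] at this
  have e2 : _root_.fderiv ℝ (fun y => g.1 y - f.1 y) x
      = _root_.fderiv ℝ g.1 x - _root_.fderiv ℝ f.1 x :=
    fderiv_fun_sub (differentiableAt_val hΩ g hxΩ) (differentiableAt_val hΩ f hxΩ)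
  rw [e2] at this
  rwa [← LinearIsometry.norm_toContinuousLinearMap_comp
    ((continuousMultilinearCurryFin0 ℝ (E d) 𝕂).symm.toLinearIsometry)]

/-- The basic neighbourhoods are open. -/
lemma isOpen_near (hΩ : IsOpen Ω) {K : Set (E d)} (hK : IsCompact K) (hKΩ : K ⊆ Ω) (n : ℕ)
    (ε : ℝ) (f : SmoothFun 𝕂 Ω) : IsOpen {g : SmoothFun 𝕂 Ω | Near K n ε f g} := by
  rw [isOpen_def]
  intro g hg
  have hcd : ∀ u v : SmoothFun 𝕂 Ω, ContDiffOn ℝ ∞ (fun y => u.1 y - v.1 y) Ω :=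
    fun u v => u.2.1.sub v.2.1
  -- the supremum of each derivative is attained
  have h1 : ∀ i : ℕ, i ≤ n → ∃ m, m < ε ∧ ∀ x ∈ K,
      ‖iteratedFDeriv ℝ i (fun y => g.1 y - f.1 y) x‖ ≤ m := by
    intro i hi
    rcases K.eq_empty_or_nonempty with hKe | hKne
    · exact ⟨ε - 1, by linarith, by simp [hKe]⟩
    · have hc : ContinuousOn (fun x => ‖iteratedFDeriv ℝ i (fun y => g.1 y - f.1 y) x‖) K := by
        intro x hx
        have h2 : ContDiffAt ℝ ∞ (fun y => g.1 y - f.1 y) x :=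
          (hcd g f).contDiffAt (hΩ.mem_nhds (hKΩ hx))
        exact ((h2.continuousAt_iteratedFDeriv (k := i) (by exact_mod_cast le_top)).norm).continuousWithinAt
      obtain ⟨x₀, hx₀, hmax⟩ := hK.exists_isMaxOn hKne hc
      exact ⟨_, hg i hi x₀ hx₀, fun x hx => hmax hx⟩
  choose! m hm1 hm2 using h1
  have h3 : ∃ M, M < ε ∧ ∀ i ≤ n, m i ≤ M := by
    have hne : (Finset.range (n + 1)).Nonempty := Finset.nonempty_range_add_one
    obtain ⟨j, hj, hmax⟩ := Finset.exists_max_image (Finset.range (n + 1)) m hne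
    refine ⟨m j, hm1 j (by have := Finset.mem_range.mp hj; omega), ?_⟩
    intro i hi
    exact hmax i (Finset.mem_range.mpr (by omega))
  obtain ⟨M, hM, hmM⟩ := h3
  refine ⟨K, hK, hKΩ, n, ε - M, by linarith, ?_⟩
  intro h hh i hi x hx
  have e : iteratedFDeriv ℝ i (fun y => h.1 y - f.1 y) x
      = iteratedFDeriv ℝ i (fun y => h.1 y - g.1 y) x
        + iteratedFDeriv ℝ i (fun y => g.1 y - f.1 y) x := by
    have hA : ContDiffAt ℝ i (fun y => h.1 y - g.1 y) x :=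
      ((hcd h g).contDiffAt (hΩ.mem_nhds (hKΩ hx))).of_le (by exact_mod_cast le_top)
    have hB : ContDiffAt ℝ i (fun y => g.1 y - f.1 y) x :=
      ((hcd g f).contDiffAt (hΩ.mem_nhds (hKΩ hx))).of_le (by exact_mod_cast le_top)
    rw [← iteratedFDeriv_add_apply hA hB]
    congr 1
    funext y
    simp
  rw [e]
  refine (norm_add_le _ _).trans_lt ?_
  have := hh i hi x hx
  have := hm2 i hi x hx
  have := hmM i hi
  linarith

/-- Density of a set gives approximation on compact sets. -/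
lemma exists_near_of_dense (hΩ : IsOpen Ω) {S : Set (SmoothFun 𝕂 Ω)} (hS : Dense S)
    {K : Set (E d)} (hK : IsCompact K) (hKΩ : K ⊆ Ω) (n : ℕ) {ε : ℝ} (hε : 0 < ε)
    (f : SmoothFun 𝕂 Ω) : ∃ g ∈ S, Near K n ε f g := by
  have hne : ({g : SmoothFun 𝕂 Ω | Near K n ε f g}).Nonempty := by
    refine ⟨f, ?_⟩
    intro i _ x _
    have : (fun y => f.1 y - f.1 y) = fun _ => (0 : 𝕂) := by funext y; simp
    rw [this]
    have h0 : iteratedFDeriv ℝ i (fun _ : E d => (0 : 𝕂)) = 0 := iteratedFDeriv_fun_zero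
    rw [h0]
    simpa using hε
  obtain ⟨g, hg1, hg2⟩ := hS.inter_open_nonempty _ (isOpen_near hΩ hK hKΩ n ε f) hne
  exact ⟨g, hg2, hg1⟩

/-- `{f | ∀ x ∈ K, ‖f x‖ < c}` is open. -/
lemma isOpen_norm_lt {K : Set (E d)} (hK : IsCompact K) (hKΩ : K ⊆ Ω)
    (c : ℝ) : IsOpen {f : SmoothFun 𝕂 Ω | ∀ x ∈ K, ‖f.1 x‖ < c} := by
  rw [isOpen_def]
  intro f hf
  have h : ∃ m, m < c ∧ ∀ x ∈ K, ‖f.1 x‖ ≤ m := by
    rcases K.eq_empty_or_nonempty with hKe | hKne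
    · exact ⟨c - 1, by linarith, by simp [hKe]⟩
    · obtain ⟨x₀, hx₀, hmax⟩ := hK.exists_isMaxOn hKne ((f.2.1.continuousOn.mono hKΩ).norm)
      exact ⟨_, hf x₀ hx₀, fun x hx => hmax hx⟩
  obtain ⟨m, hm, hle⟩ := h
  refine ⟨K, hK, hKΩ, 0, c - m, by linarith, fun g hg x hx => ?_⟩
  have h1 := hg.val hx
  have h2 := hle x hx
  have h3 : ‖g.1 x‖ ≤ ‖g.1 x - f.1 x‖ + ‖f.1 x‖ := by
    calc ‖g.1 x‖ = ‖(g.1 x - f.1 x) + f.1 x‖ := by rw [sub_add_cancel]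
      _ ≤ _ := norm_add_le _ _
  linarith

/-- `{f | ∀ x ∈ K, c < ‖f x‖}` is open. -/
lemma isOpen_lt_norm {K : Set (E d)} (hK : IsCompact K) (hKΩ : K ⊆ Ω)
    (c : ℝ) : IsOpen {f : SmoothFun 𝕂 Ω | ∀ x ∈ K, c < ‖f.1 x‖} := by
  rw [isOpen_def]
  intro f hf
  have h : ∃ m, c < m ∧ ∀ x ∈ K, m ≤ ‖f.1 x‖ := by
    rcases K.eq_empty_or_nonempty with hKe | hKne
    · exact ⟨c + 1, by linarith, by simp [hKe]⟩
    · obtain ⟨x₀, hx₀, hmin⟩ := hK.exists_isMinOn hKne ((f.2.1.continuousOn.mono hKΩ).norm)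
      exact ⟨_, hf x₀ hx₀, fun x hx => hmin hx⟩
  obtain ⟨m, hm, hle⟩ := h
  refine ⟨K, hK, hKΩ, 0, m - c, by linarith, fun g hg x hx => ?_⟩
  have h1 := hg.val hx
  have h2 := hle x hx
  have h3 : ‖f.1 x‖ ≤ ‖g.1 x - f.1 x‖ + ‖g.1 x‖ := by
    calc ‖f.1 x‖ = ‖g.1 x - (g.1 x - f.1 x)‖ := by rw [sub_sub_cancel]
      _ ≤ ‖g.1 x‖ + ‖g.1 x - f.1 x‖ := norm_sub_le _ _
      _ = _ := add_comm _ _
  linarith

/-- A functional which is continuous in the sense needed below. -/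
def ContFun (ℓ : SmoothFun 𝕂 Ω → 𝕂) : Prop :=
  ∃ K : Set (E d), IsCompact K ∧ K ⊆ Ω ∧ ∃ n : ℕ, ∃ C : ℝ, 0 < C ∧
    ∀ f g ε, Near K n ε f g → ‖ℓ g - ℓ f‖ ≤ C * ε

lemma ContFun.isOpen_lt {ℓ : SmoothFun 𝕂 Ω → 𝕂} (h : ContFun ℓ) (c : ℝ) :
    IsOpen {f | ‖ℓ f‖ < c} := by
  obtain ⟨K, hK, hKΩ, n, C, hC, hℓ⟩ := h
  rw [isOpen_def]
  intro f hf
  have hf' : ‖ℓ f‖ < c := hf
  refine ⟨K, hK, hKΩ, n, (c - ‖ℓ f‖) / (2 * C), by
    apply div_pos (by linarith) (by positivity), fun g hg => ?_⟩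
  have h1 := hℓ f g _ hg
  have h2 : C * ((c - ‖ℓ f‖) / (2 * C)) = (c - ‖ℓ f‖) / 2 := by field_simp
  rw [h2] at h1
  have h3 : ‖ℓ g‖ ≤ ‖ℓ g - ℓ f‖ + ‖ℓ f‖ := by
    calc ‖ℓ g‖ = ‖(ℓ g - ℓ f) + ℓ f‖ := by rw [sub_add_cancel]
      _ ≤ _ := norm_add_le _ _
  show ‖ℓ g‖ < c
  linarith

lemma ContFun.isOpen_gt {ℓ : SmoothFun 𝕂 Ω → 𝕂} (h : ContFun ℓ) (c : ℝ) :
    IsOpen {f | c < ‖ℓ f‖} := by
  obtain ⟨K, hK, hKΩ, n, C, hC, hℓ⟩ := h
  rw [isOpen_def]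
  intro f hf
  have hf' : c < ‖ℓ f‖ := hf
  refine ⟨K, hK, hKΩ, n, (‖ℓ f‖ - c) / (2 * C), by
    apply div_pos (by linarith) (by positivity), fun g hg => ?_⟩
  have h1 := hℓ f g _ hg
  have h2 : C * ((‖ℓ f‖ - c) / (2 * C)) = (‖ℓ f‖ - c) / 2 := by field_simp
  rw [h2] at h1
  have h3 : ‖ℓ f‖ ≤ ‖ℓ g - ℓ f‖ + ‖ℓ g‖ := by
    calc ‖ℓ f‖ = ‖ℓ g - (ℓ g - ℓ f)‖ := by rw [sub_sub_cancel]
      _ ≤ ‖ℓ g‖ + ‖ℓ g - ℓ f‖ := norm_sub_le _ _
      _ = _ := add_comm _ _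
  show c < ‖ℓ g‖
  linarith

/-- The range of a transitive map is in the kernel of no surjective continuous functional. -/
lemma not_transitive_of_functional {T : SmoothFun 𝕂 Ω → SmoothFun 𝕂 Ω}
    {ℓ : SmoothFun 𝕂 Ω → 𝕂} (hℓ : ContFun ℓ) (hsurj : ∀ c, ∃ g, ℓ g = c)
    (hT : ∀ f, ℓ (T f) = 0) : ¬ IsTransitive T := by
  intro htr
  obtain ⟨g0, hg0⟩ := hsurj 0
  obtain ⟨g2, hg2⟩ := hsurj 2
  obtain ⟨n, h, ⟨f, hf, rfl⟩, hV⟩ := htr {f | ‖ℓ f‖ < 1} {f | 1 < ‖ℓ f‖} (hℓ.isOpen_lt 1)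
    (hℓ.isOpen_gt 1) ⟨g0, by simp [hg0]⟩ ⟨g2, by simp [hg2]⟩
  have hf' : ‖ℓ f‖ < 1 := hf
  have hV' : 1 < ‖ℓ (T^[n] f)‖ := hV
  cases n with
  | zero =>
    simp only [Function.iterate_zero, id] at hV'
    linarith
  | succ n =>
    rw [Function.iterate_succ_apply', hT] at hV'
    simp at hV'
    linarith

section Operator

variable {w : E d → 𝕂} {ψ : E d → E d} (hw : ContDiffOn ℝ ∞ w Ω) (hψ : ContDiffOn ℝ ∞ ψ Ω)
  (hm : MapsTo ψ Ω Ω)

lemma wco_apply (f : SmoothFun 𝕂 Ω) {x : E d} (hx : x ∈ Ω) :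
    (wco hw hψ hm f).1 x = w x * f.1 (ψ x) :=
  indicator_of_mem hx (fun x => w x * f.1 (ψ x))

/-- The weight of the `n`-th iterate. -/
def wn (w : E d → 𝕂) (ψ : E d → E d) (n : ℕ) (x : E d) : 𝕂 :=
  ∏ j ∈ Finset.range n, w (ψ^[j] x)

include hw hψ hm in
lemma iterate_apply (n : ℕ) (f : SmoothFun 𝕂 Ω) {x : E d} (hx : x ∈ Ω) :
    ((wco hw hψ hm)^[n] f).1 x = wn w ψ n x * f.1 (ψ^[n] x) := by
  induction n generalizing f with
  | zero => simp [wn]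
  | succ n ih =>
    rw [Function.iterate_succ_apply, ih, wco_apply hw hψ hm f (hm.iterate n hx)]
    rw [wn, wn, Finset.prod_range_succ, Function.iterate_succ_apply', mul_assoc]

include hψ hm in
lemma contDiffOn_iterate (n : ℕ) : ContDiffOn ℝ ∞ (ψ^[n]) Ω := by
  induction n with
  | zero => simpa using contDiffOn_id
  | succ n ih =>
    rw [Function.iterate_succ]
    exact ih.comp hψ hm

include hw hψ hm in
lemma contDiffOn_wn (n : ℕ) : ContDiffOn ℝ ∞ (wn w ψ n) Ω := by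
  have : ∀ j, ContDiffOn ℝ ∞ (fun x => w (ψ^[j] x)) Ω := fun j =>
    hw.comp (contDiffOn_iterate hψ hm j) (hm.iterate j)
  unfold wn
  exact contDiffOn_prod fun j _ => this j

lemma wn_ne_zero (hm : MapsTo ψ Ω Ω) (hw0 : ∀ x ∈ Ω, w x ≠ 0) (n : ℕ) {x : E d} (hx : x ∈ Ω) :
    wn w ψ n x ≠ 0 :=
  Finset.prod_ne_zero_iff.mpr fun j _ => hw0 _ (hm.iterate j hx)

/-- Transitivity: the weight has no zeros. -/
lemma weight_ne_zero (htr : IsTransitive (wco hw hψ hm)) :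
    ∀ x ∈ Ω, w x ≠ 0 := by
  intro x hx h0
  refine not_transitive_of_functional (ℓ := fun f => f.1 x) ?_ ?_ ?_ htr
  · exact ⟨{x}, isCompact_singleton, by simpa using hx, 0, 1, one_pos, fun f g ε h => by
      rw [one_mul]; exact (h.val rfl).le⟩
  · exact fun c => ⟨mkSmooth (fun _ => c) contDiffOn_const, mkSmooth_apply hx⟩
  · intro f
    show (wco hw hψ hm f).1 x = 0
    rw [wco_apply hw hψ hm f hx, h0, zero_mul]

/-- A real linear functional, viewed with values in `𝕂`. -/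
noncomputable def toK (L : E d →L[ℝ] ℝ) : E d →L[ℝ] 𝕂 :=
  (RCLike.ofRealCLM (K := 𝕂)).comp L

lemma toK_apply (L : E d →L[ℝ] ℝ) (v : E d) : (toK L : E d →L[ℝ] 𝕂) v = (L v : 𝕂) := rfl

/-- Transitivity: the symbol is injective. -/
lemma symbol_injOn (htr : IsTransitive (wco hw hψ hm)) : InjOn ψ Ω := by
  intro a ha b hb hab
  by_contra hne
  have hwb := weight_ne_zero hw hψ hm htr b hb
  obtain ⟨L, hL⟩ := SeparatingDual.exists_ne_zero (R := ℝ) (sub_ne_zero.mpr hne)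
  refine not_transitive_of_functional
    (ℓ := fun f => w b * f.1 a - w a * f.1 b) ?_ ?_ ?_ htr
  · refine ⟨{a, b}, (Set.toFinite _).isCompact, by
      intro x hx; rcases hx with rfl | rfl <;> assumption, 0, ‖w b‖ + ‖w a‖ + 1, by positivity,
      fun f g ε h => ?_⟩
    have h1 := (h.val (x := a) (by simp)).le
    have h2 := (h.val (x := b) (by simp)).le
    have hε : 0 ≤ ε := (norm_nonneg _).trans h1
    have e : (w b * g.1 a - w a * g.1 b) - (w b * f.1 a - w a * f.1 b)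
        = w b * (g.1 a - f.1 a) - w a * (g.1 b - f.1 b) := by ring
    rw [e]
    calc ‖w b * (g.1 a - f.1 a) - w a * (g.1 b - f.1 b)‖
        ≤ ‖w b * (g.1 a - f.1 a)‖ + ‖w a * (g.1 b - f.1 b)‖ := norm_sub_le _ _
      _ ≤ ‖w b‖ * ε + ‖w a‖ * ε := by
        rw [norm_mul, norm_mul]
        gcongr
      _ ≤ (‖w b‖ + ‖w a‖ + 1) * ε := by nlinarith
  · intro c
    have hLK : (L (a - b) : 𝕂) ≠ 0 := by exact_mod_cast hL
    refine ⟨mkSmooth (fun y => c * (w b)⁻¹ * (L (a - b) : 𝕂)⁻¹ * (toK L (y - b) : 𝕂)) ?_, ?_⟩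
    · exact (contDiff_const.mul
        ((toK L : E d →L[ℝ] 𝕂).contDiff.comp (contDiff_id.sub contDiff_const))).contDiffOn
    · show w b * (mkSmooth _ _).1 a - w a * (mkSmooth _ _).1 b = c
      rw [mkSmooth_apply ha, mkSmooth_apply hb, sub_self, map_zero, toK_apply]
      field_simp
      ring
  · intro f
    show w b * (wco hw hψ hm f).1 a - w a * (wco hw hψ hm f).1 b = 0
    rw [wco_apply hw hψ hm f ha, wco_apply hw hψ hm f hb, hab]
    ring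

/-- Transitivity: the derivative of the symbol is injective everywhere. -/
lemma symbol_fderiv_ne (hΩ : IsOpen Ω) (htr : IsTransitive (wco hw hψ hm)) :
    ∀ x ∈ Ω, ∀ v, fderiv ℝ ψ x v = 0 → v = 0 := by
  intro x hx v hv
  by_contra hne
  have hwx := weight_ne_zero hw hψ hm htr x hx
  obtain ⟨L, hL⟩ := SeparatingDual.exists_ne_zero (R := ℝ) hne
  refine not_transitive_of_functional
    (ℓ := fun f => w x * (fderiv ℝ f.1 x v) - (fderiv ℝ w x v) * f.1 x) ?_ ?_ ?_ htr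
  · refine ⟨{x}, isCompact_singleton, by simpa using hx, 1,
      ‖w x‖ * ‖v‖ + ‖fderiv ℝ w x v‖ + 1, by positivity, fun f g ε h => ?_⟩
    have h1 := (h.val (x := x) (by simp)).le
    have h2 := (h.fderiv hΩ le_rfl (x := x) (by simp) hx).le
    have hε : 0 ≤ ε := (norm_nonneg _).trans h1
    have e : (w x * (fderiv ℝ g.1 x v) - (fderiv ℝ w x v) * g.1 x)
        - (w x * (fderiv ℝ f.1 x v) - (fderiv ℝ w x v) * f.1 x)
        = w x * ((fderiv ℝ g.1 x - fderiv ℝ f.1 x) v) - (fderiv ℝ w x v) * (g.1 x - f.1 x) := by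
      rw [_root_.sub_apply]; ring
    rw [e]
    calc ‖w x * ((fderiv ℝ g.1 x - fderiv ℝ f.1 x) v) - (fderiv ℝ w x v) * (g.1 x - f.1 x)‖
        ≤ ‖w x * ((fderiv ℝ g.1 x - fderiv ℝ f.1 x) v)‖
          + ‖(fderiv ℝ w x v) * (g.1 x - f.1 x)‖ := norm_sub_le _ _
      _ ≤ ‖w x‖ * (ε * ‖v‖) + ‖fderiv ℝ w x v‖ * ε := by
        rw [norm_mul, norm_mul]
        have h3 : ‖(fderiv ℝ g.1 x - fderiv ℝ f.1 x) v‖ ≤ ε * ‖v‖ :=
          (ContinuousLinearMap.le_opNorm _ _).trans (by gcongr)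
        gcongr
      _ ≤ (‖w x‖ * ‖v‖ + ‖fderiv ℝ w x v‖ + 1) * ε := by nlinarith
  · intro c
    have hLK : (L v : 𝕂) ≠ 0 := by exact_mod_cast hL
    refine ⟨mkSmooth (fun y => c * (w x)⁻¹ * (L v : 𝕂)⁻¹ * (toK L (y - x) : 𝕂)) ?_, ?_⟩
    · exact (contDiff_const.mul
        ((toK L : E d →L[ℝ] 𝕂).contDiff.comp (contDiff_id.sub contDiff_const))).contDiffOn
    · show w x * (fderiv ℝ (mkSmooth _ _).1 x v) - (fderiv ℝ w x v) * (mkSmooth _ _).1 x = c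
      rw [mkSmooth_apply hx, sub_self, map_zero, (eventuallyEq_mkSmooth hΩ hx).fderiv_eq]
      have hd : HasFDerivAt (fun y => c * (w x)⁻¹ * (L v : 𝕂)⁻¹ * (toK L (y - x) : 𝕂))
          ((c * (w x)⁻¹ * (L v : 𝕂)⁻¹) • (toK L : E d →L[ℝ] 𝕂)) x := by
        have h1 : HasFDerivAt (fun y : E d => (toK L (y - x) : 𝕂)) (toK L : E d →L[ℝ] 𝕂) x := by
          have h2 := (toK L : E d →L[ℝ] 𝕂).hasFDerivAt (x := x - x)
          have h3 : HasFDerivAt (fun y : E d => y - x) (ContinuousLinearMap.id ℝ (E d)) x :=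
            (hasFDerivAt_id x).sub_const x
          exact HasFDerivAt.comp (f := fun y : E d => y - x) x h2 h3
        exact h1.const_mul _
      rw [hd.fderiv]
      simp only [_root_.smul_apply, toK_apply, smul_eq_mul]
      field_simp
      ring
  · intro f
    show w x * (fderiv ℝ (wco hw hψ hm f).1 x v) - (fderiv ℝ w x v) * (wco hw hψ hm f).1 x = 0
    have he : (wco hw hψ hm f).1 =ᶠ[𝓝 x] fun y => w y * f.1 (ψ y) := by
      filter_upwards [hΩ.mem_nhds hx] with y hy using wco_apply hw hψ hm f hy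
    have hdw : HasFDerivAt w (fderiv ℝ w x) x :=
      ((hw.contDiffAt (hΩ.mem_nhds hx)).differentiableAt (by simp)).hasFDerivAt
    have hdψ : HasFDerivAt ψ (fderiv ℝ ψ x) x :=
      ((hψ.contDiffAt (hΩ.mem_nhds hx)).differentiableAt (by simp)).hasFDerivAt
    have hdf : HasFDerivAt f.1 (fderiv ℝ f.1 (ψ x)) (ψ x) :=
      (differentiableAt_val hΩ f (hm hx)).hasFDerivAt
    have hprod := hdw.mul (hdf.comp x hdψ)
    rw [he.fderiv_eq]
    have hp : fderiv ℝ (fun y => w y * f.1 (ψ y)) x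
        = w x • ((fderiv ℝ f.1 (ψ x)).comp (fderiv ℝ ψ x)) + f.1 (ψ x) • fderiv ℝ w x :=
      hprod.fderiv
    rw [hp, wco_apply hw hψ hm f hx]
    simp only [_root_.add_apply, _root_.smul_apply,
      ContinuousLinearMap.comp_apply, hv, map_zero, smul_eq_mul, mul_zero, zero_add]
    ring

end Operator

end Pool.Agent.H88.WCO
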