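import Mathlib
import Pool.Agent.H88.WCOBasic

/-!
# Weighted composition operators: bounds coming from dense periodic points
-/

namespace Pool.Agent.H88.WCO

open Set Filter Topology
open scoped ContDiff

variable {𝕂 : Type} [RCLike 𝕂] {d : ℕ} {Ω : Set (E d)}
variable {w : E d → 𝕂} {ψ : E d → E d} (hw : ContDiffOn ℝ ∞ w Ω) (hψ : ContDiffOn ℝ ∞ ψ Ω)
  (hm : MapsTo ψ Ω Ω)

/-- The values and first derivatives of `T^n f` are uniformly bounded on compact sets when `f` is a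
periodic point of `T`. -/
lemma periodic_bound (hΩ : IsOpen Ω) (T : SmoothFun 𝕂 Ω → SmoothFun 𝕂 Ω) {f : SmoothFun 𝕂 Ω}
    {p : ℕ} (hp : 1 ≤ p) (hf : T^[p] f = f) {K : Set (E d)} (hK : IsCompact K) (hKΩ : K ⊆ Ω) :
    ∃ B : ℝ, 0 < B ∧ ∀ n, ∀ x ∈ K, ‖(T^[n] f).1 x‖ ≤ B ∧ ‖fderiv ℝ (T^[n] f).1 x‖ ≤ B := by
  have h1 : ∀ r : ℕ, ∃ B : ℝ, 0 ≤ B ∧ ∀ x ∈ K, ‖(T^[r] f).1 x‖ ≤ B ∧
      ‖fderiv ℝ (T^[r] f).1 x‖ ≤ B := by
    intro r
    have hc1 : ContinuousOn (T^[r] f).1 K := (T^[r] f).2.1.continuousOn.mono hKΩ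
    have hc2 : ContinuousOn (fderiv ℝ (T^[r] f).1) K := by
      intro x hx
      have := (contDiffAt_val hΩ (T^[r] f) (hKΩ hx)).continuousAt_fderiv (by simp)
      exact this.continuousWithinAt
    obtain ⟨B1, hB1⟩ := hK.exists_bound_of_continuousOn hc1
    obtain ⟨B2, hB2⟩ := hK.exists_bound_of_continuousOn hc2
    refine ⟨max (max B1 B2) 0, le_max_right _ _, fun x hx => ⟨?_, ?_⟩⟩
    · exact (hB1 x hx).trans ((le_max_left _ _).trans (le_max_left _ _))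
    · exact (hB2 x hx).trans ((le_max_right _ _).trans (le_max_left _ _))
  choose B hB0 hB using h1
  refine ⟨∑ r ∈ Finset.range p, B r + 1, ?_, ?_⟩
  · have : 0 ≤ ∑ r ∈ Finset.range p, B r := Finset.sum_nonneg fun r _ => hB0 r
    linarith
  · intro n x hx
    have hmod : T^[n % p] f = T^[n] f :=
      Function.IsPeriodicPt.iterate_mod_apply (f := T) hf n
    have hle : B (n % p) ≤ ∑ r ∈ Finset.range p, B r :=
      Finset.single_le_sum (fun r _ => hB0 r) (Finset.mem_range.mpr (Nat.mod_lt _ (by omega)))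
    rw [← hmod]
    have := hB (n % p) x hx
    exact ⟨this.1.trans (by linarith), this.2.trans (by linarith)⟩

lemma fderiv_iterate_apply (hΩ : IsOpen Ω) (n : ℕ) (f : SmoothFun 𝕂 Ω) {z : E d} (hz : z ∈ Ω) :
    fderiv ℝ ((wco hw hψ hm)^[n] f).1 z
      = wn w ψ n z • ((fderiv ℝ f.1 (ψ^[n] z)).comp (fderiv ℝ (ψ^[n]) z))
        + f.1 (ψ^[n] z) • fderiv ℝ (wn w ψ n) z := by
  have he : ((wco hw hψ hm)^[n] f).1 =ᶠ[𝓝 z] fun y => wn w ψ n y * f.1 (ψ^[n] y) := by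
    filter_upwards [hΩ.mem_nhds hz] with y hy using iterate_apply hw hψ hm n f hy
  have hdw : HasFDerivAt (wn w ψ n) (fderiv ℝ (wn w ψ n) z) z :=
    (((contDiffOn_wn hw hψ hm n).contDiffAt (hΩ.mem_nhds hz)).differentiableAt (by simp)).hasFDerivAt
  have hdψ : HasFDerivAt (ψ^[n]) (fderiv ℝ (ψ^[n]) z) z :=
    (((contDiffOn_iterate hψ hm n).contDiffAt (hΩ.mem_nhds hz)).differentiableAt
      (by simp)).hasFDerivAt
  have hdf : HasFDerivAt f.1 (fderiv ℝ f.1 (ψ^[n] z)) (ψ^[n] z) :=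
    (differentiableAt_val hΩ f (hm.iterate n hz)).hasFDerivAt
  rw [he.fderiv_eq]
  exact (hdw.mul (hdf.comp z hdψ)).fderiv

/-- The coordinate functionals, with values in `𝕂`. -/
noncomputable def coordK (𝕂 : Type) [RCLike 𝕂] {d : ℕ} (i : Fin d) : E d →L[ℝ] 𝕂 :=
  toK (EuclideanSpace.proj i : E d →L[ℝ] ℝ)

lemma coordK_apply (i : Fin d) (v : E d) : coordK 𝕂 i v = ((v i : ℝ) : 𝕂) := rfl

lemma norm_coordK_apply (i : Fin d) (v : E d) : ‖coordK 𝕂 i v‖ = |v i| := by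
  rw [coordK_apply, RCLike.norm_ofReal]

lemma abs_coord_le (i : Fin d) (v : E d) : |v i| ≤ ‖v‖ := by
  have := EuclideanSpace.norm_sq_eq v
  have h2 : (v i) ^ 2 ≤ ‖v‖ ^ 2 := by
    rw [this]
    have : ‖v i‖ ^ 2 ≤ ∑ j, ‖v j‖ ^ 2 :=
      Finset.single_le_sum (f := fun j => ‖v j‖ ^ 2) (fun j _ => sq_nonneg _) (Finset.mem_univ i)
    simpa using this
  exact abs_le_of_sq_le_sq h2 (norm_nonneg _)

lemma norm_le_sum_coord (v : E d) : ‖v‖ ≤ ∑ i, |v i| := by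
  have h : v = ∑ i, v i • (EuclideanSpace.basisFun (Fin d) ℝ i) := by
    have := (EuclideanSpace.basisFun (Fin d) ℝ).sum_repr v
    simpa using this.symm
  calc ‖v‖ = ‖∑ i, v i • (EuclideanSpace.basisFun (Fin d) ℝ i)‖ := by rw [← h]
    _ ≤ ∑ i, ‖v i • (EuclideanSpace.basisFun (Fin d) ℝ i)‖ := norm_sum_le _ _
    _ = ∑ i, |v i| := by
      refine Finset.sum_congr rfl fun i _ => ?_
      rw [norm_smul, (EuclideanSpace.basisFun (Fin d) ℝ).orthonormal.1 i, mul_one,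
        Real.norm_eq_abs]

lemma norm_coordK_le (i : Fin d) : ‖coordK 𝕂 i‖ ≤ 1 := by
  refine ContinuousLinearMap.opNorm_le_bound _ zero_le_one fun v => ?_
  rw [norm_coordK_apply, one_mul]
  exact abs_coord_le i v

/-- **Uniform bounds.** If the periodic points of `T = C_{w,ψ}` are dense, then on every compact
`K ⊆ Ω` the weights and the derivatives of the iterates of `ψ` are uniformly bounded at the points
of `K` which are mapped into `K`. -/
lemma uniform_bounds (hΩ : IsOpen Ω)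
    (hdense : Dense {f : SmoothFun 𝕂 Ω | ∃ n : ℕ, 1 ≤ n ∧ (wco hw hψ hm)^[n] f = f})
    {K : Set (E d)} (hK : IsCompact K) (hKΩ : K ⊆ Ω) :
    ∃ C : ℝ, 0 < C ∧ ∀ n, ∀ z ∈ K, ψ^[n] z ∈ K →
      ‖wn w ψ n z‖ ≤ C ∧ ‖fderiv ℝ (ψ^[n]) z‖ ≤ C := by
  set T := wco hw hψ hm with hT
  -- a bound for the size of K
  obtain ⟨R, hR0, hR⟩ : ∃ R : ℝ, 0 ≤ R ∧ ∀ x ∈ K, ‖x‖ ≤ R := by
    obtain ⟨R, hR⟩ := hK.isBounded.exists_norm_le
    exact ⟨max R 0, le_max_right _ _, fun x hx => (hR x hx).trans (le_max_left _ _)⟩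
  set ε : ℝ := 1 / (2 * (d + 1) * (R + 4)) with hε
  have hεpos : 0 < ε := by positivity
  have hε1 : ε ≤ 1 / 2 := by
    rw [hε, div_le_div_iff₀ (by positivity) (by norm_num)]
    have hd0 : (0 : ℝ) ≤ d := Nat.cast_nonneg d
    nlinarith
  have hεd : d * (ε * (R + 4)) ≤ 1 / 2 := by
    have hd0 : (0 : ℝ) ≤ d := Nat.cast_nonneg d
    have : ε * (R + 4) = 1 / (2 * (d + 1)) := by
      rw [hε]; field_simp
    rw [this, mul_one_div, div_le_div_iff₀ (by positivity) (by norm_num)]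
    nlinarith
  -- the approximating periodic points
  obtain ⟨f0, ⟨p0, hp0, hf0⟩, hnear0⟩ := exists_near_of_dense hΩ hdense hK hKΩ 1 hεpos
    (mkSmooth (fun _ => (1 : 𝕂)) contDiffOn_const)
  have hfi : ∀ i : Fin d, ∃ f ∈ {f : SmoothFun 𝕂 Ω | ∃ n : ℕ, 1 ≤ n ∧ T^[n] f = f},
      Near K 1 ε (mkSmooth (coordK 𝕂 i) (coordK 𝕂 i).contDiff.contDiffOn) f :=
    fun i => exists_near_of_dense hΩ hdense hK hKΩ 1 hεpos _
  choose fi hfiper hneari using hfi
  obtain ⟨B0, hB0pos, hB0⟩ := periodic_bound hΩ T hp0 hf0 hK hKΩ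
  have hBi : ∀ i : Fin d, ∃ B : ℝ, 0 < B ∧ ∀ n, ∀ x ∈ K, ‖(T^[n] (fi i)).1 x‖ ≤ B ∧
      ‖fderiv ℝ (T^[n] (fi i)).1 x‖ ≤ B := by
    intro i
    obtain ⟨p, hp, hf⟩ := hfiper i
    exact periodic_bound hΩ T hp hf hK hKΩ
  choose Bi hBipos hBi using hBi
  -- approximations at the points of K
  have hf0val : ∀ y ∈ K, ‖f0.1 y - 1‖ ≤ ε := by
    intro y hy
    have := (hnear0.val hy).le
    rwa [mkSmooth_apply (hKΩ hy)] at this
  have hf0der : ∀ y ∈ K, ‖fderiv ℝ f0.1 y‖ ≤ ε := by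
    intro y hy
    have := (hnear0.fderiv hΩ le_rfl hy (hKΩ hy)).le
    rw [(eventuallyEq_mkSmooth hΩ (hKΩ hy)).fderiv_eq] at this
    simpa using this
  have hfival : ∀ i, ∀ y ∈ K, ‖(fi i).1 y - coordK 𝕂 i y‖ ≤ ε := by
    intro i y hy
    have := ((hneari i).val hy).le
    rwa [mkSmooth_apply (hKΩ hy)] at this
  have hfider : ∀ i, ∀ y ∈ K, ‖fderiv ℝ (fi i).1 y - coordK 𝕂 i‖ ≤ ε := by
    intro i y hy
    have := ((hneari i).fderiv hΩ le_rfl hy (hKΩ hy)).le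
    rw [(eventuallyEq_mkSmooth hΩ (hKΩ hy)).fderiv_eq] at this
    rwa [ContinuousLinearMap.fderiv] at this
  have hf0low : ∀ y ∈ K, 1 / 2 ≤ ‖f0.1 y‖ := by
    intro y hy
    have h1 := hf0val y hy
    have h2 : ‖(1 : 𝕂)‖ ≤ ‖f0.1 y‖ + ‖f0.1 y - 1‖ := by
      calc ‖(1 : 𝕂)‖ = ‖f0.1 y - (f0.1 y - 1)‖ := by rw [sub_sub_cancel]
        _ ≤ _ := norm_sub_le _ _
    rw [norm_one] at h2
    linarith
  have hf0up : ∀ y ∈ K, ‖f0.1 y‖ ≤ 2 := by
    intro y hy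
    have h1 := hf0val y hy
    have h2 : ‖f0.1 y‖ ≤ ‖f0.1 y - 1‖ + ‖(1 : 𝕂)‖ := by
      calc ‖f0.1 y‖ = ‖(f0.1 y - 1) + 1‖ := by rw [sub_add_cancel]
        _ ≤ _ := norm_add_le _ _
    rw [norm_one] at h2
    linarith
  have hfiup : ∀ i, ∀ y ∈ K, ‖(fi i).1 y‖ ≤ R + 1 := by
    intro i y hy
    have h1 := hfival i y hy
    have h2 : ‖(fi i).1 y‖ ≤ ‖(fi i).1 y - coordK 𝕂 i y‖ + ‖coordK 𝕂 i y‖ := by
      calc ‖(fi i).1 y‖ = ‖((fi i).1 y - coordK 𝕂 i y) + coordK 𝕂 i y‖ := by rw [sub_add_cancel]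
        _ ≤ _ := norm_add_le _ _
    have h3 : ‖coordK 𝕂 i y‖ ≤ R := by
      rw [norm_coordK_apply]; exact (abs_coord_le i y).trans (hR y hy)
    linarith
  -- bounds for the weights
  have hwup : ∀ n, ∀ z ∈ K, ψ^[n] z ∈ K → ‖wn w ψ n z‖ ≤ 2 * B0 := by
    intro n z hz hy
    have h1 := (hB0 n z hz).1
    rw [iterate_apply hw hψ hm n f0 (hKΩ hz), norm_mul] at h1
    have h2 := hf0low _ hy
    have h3 := norm_nonneg (wn w ψ n z)
    nlinarith
  have hwlow : ∀ n, ∀ z ∈ K, ψ^[n] z ∈ K → 1 ≤ (2 * B0) * ‖wn w ψ n z‖ := by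
    intro n z hz hy
    have hper : T^[n + (p0 * n - n)] f0 = f0 := by
      have e : n + (p0 * n - n) = n * p0 := by
        have : n ≤ p0 * n := Nat.le_mul_of_pos_left n (by omega)
        rw [Nat.add_sub_cancel' this, mul_comm]
      rw [e]
      exact (Function.IsPeriodicPt.const_mul (f := T) hf0 n)
    have h1 : f0.1 z = wn w ψ n z * (T^[p0 * n - n] f0).1 (ψ^[n] z) := by
      conv_lhs => rw [← hper, Function.iterate_add_apply]
      exact iterate_apply hw hψ hm n _ (hKΩ hz)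
    have h2 := hf0low z hz
    rw [h1, norm_mul] at h2
    have h3 := (hB0 (p0 * n - n) _ hy).1
    have h4 := norm_nonneg (wn w ψ n z)
    nlinarith
  -- the derivative bound
  set B : ℝ := B0 + ∑ i, Bi i with hB
  have hsum0 : 0 ≤ ∑ i, Bi i := Finset.sum_nonneg fun i _ => (hBipos i).le
  have hBpos : 0 < B := by linarith
  have hB0le : B0 ≤ B := by linarith
  have hBile : ∀ i, Bi i ≤ B := by
    intro i
    have : Bi i ≤ ∑ i, Bi i :=
      Finset.single_le_sum (fun r _ => (hBipos r).le) (Finset.mem_univ i)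
    linarith
  set D : ℝ := (2 * B0) * ((R + 3) * B) with hD
  have hDpos : 0 < D := by positivity
  have hMv : ∀ n, ∀ z ∈ K, ψ^[n] z ∈ K → ∀ v : E d,
      ‖fderiv ℝ (ψ^[n]) z v‖ ≤ 2 * (d * D) * ‖v‖ := by
    intro n z hz hy v
    set y := ψ^[n] z with hydef
    set u := fderiv ℝ (ψ^[n]) z v with hu
    have hcoord : ∀ i : Fin d, |u i| ≤ D * ‖v‖ + ε * (R + 4) * ‖u‖ := by
      intro i
      have e0 := fderiv_iterate_apply hw hψ hm hΩ n f0 (hKΩ hz)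
      have ei := fderiv_iterate_apply hw hψ hm hΩ n (fi i) (hKΩ hz)
      have e0v : fderiv ℝ (T^[n] f0).1 z v
          = wn w ψ n z * (fderiv ℝ f0.1 y u) + f0.1 y * fderiv ℝ (wn w ψ n) z v := by
        rw [e0]; rfl
      have eiv : fderiv ℝ (T^[n] (fi i)).1 z v
          = wn w ψ n z * (fderiv ℝ (fi i).1 y u) + (fi i).1 y * fderiv ℝ (wn w ψ n) z v := by
        rw [ei]; rfl
      have comb : f0.1 y * (fderiv ℝ (T^[n] (fi i)).1 z v)
          - (fi i).1 y * (fderiv ℝ (T^[n] f0).1 z v)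
          = wn w ψ n z * (f0.1 y * fderiv ℝ (fi i).1 y u - (fi i).1 y * fderiv ℝ f0.1 y u) := by
        rw [e0v, eiv]; ring
      have hlhs : ‖f0.1 y * (fderiv ℝ (T^[n] (fi i)).1 z v)
          - (fi i).1 y * (fderiv ℝ (T^[n] f0).1 z v)‖ ≤ (R + 3) * B * ‖v‖ := by
        have a1 : ‖fderiv ℝ (T^[n] (fi i)).1 z v‖ ≤ B * ‖v‖ :=
          (ContinuousLinearMap.le_opNorm _ _).trans (mul_le_mul_of_nonneg_right
            (((hBi i) n z hz).2.trans (hBile i)) (norm_nonneg _))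
        have a2 : ‖fderiv ℝ (T^[n] f0).1 z v‖ ≤ B * ‖v‖ :=
          (ContinuousLinearMap.le_opNorm _ _).trans (mul_le_mul_of_nonneg_right
            ((hB0 n z hz).2.trans hB0le) (norm_nonneg _))
        calc _ ≤ ‖f0.1 y * (fderiv ℝ (T^[n] (fi i)).1 z v)‖
              + ‖(fi i).1 y * (fderiv ℝ (T^[n] f0).1 z v)‖ := norm_sub_le _ _
          _ ≤ 2 * (B * ‖v‖) + (R + 1) * (B * ‖v‖) := by
            rw [norm_mul, norm_mul]
            have b1 := hf0up y hy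
            have b2 := hfiup i y hy
            gcongr
          _ = (R + 3) * B * ‖v‖ := by ring
      rw [comb, norm_mul] at hlhs
      set X : 𝕂 := f0.1 y * fderiv ℝ (fi i).1 y u - (fi i).1 y * fderiv ℝ f0.1 y u with hX
      have hXle : ‖X‖ ≤ D * ‖v‖ := by
        have hlow := hwlow n z hz hy
        have hXn := norm_nonneg X
        calc ‖X‖ = 1 * ‖X‖ := (one_mul _).symm
          _ ≤ ((2 * B0) * ‖wn w ψ n z‖) * ‖X‖ := mul_le_mul_of_nonneg_right hlow hXn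
          _ = (2 * B0) * (‖wn w ψ n z‖ * ‖X‖) := by ring
          _ ≤ (2 * B0) * ((R + 3) * B * ‖v‖) := by gcongr
          _ = D * ‖v‖ := by rw [hD]; ring
      have herr : ‖coordK 𝕂 i u - X‖ ≤ ε * (R + 4) * ‖u‖ := by
        have e : coordK 𝕂 i u - X = -((f0.1 y - 1) * (fderiv ℝ (fi i).1 y u))
            - ((fderiv ℝ (fi i).1 y - coordK 𝕂 i) u) + (fi i).1 y * fderiv ℝ f0.1 y u := by
          rw [hX, _root_.sub_apply]; ring
        have c1 : ‖fderiv ℝ (fi i).1 y u‖ ≤ 2 * ‖u‖ := by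
          refine (ContinuousLinearMap.le_opNorm _ _).trans ?_
          refine mul_le_mul_of_nonneg_right ?_ (norm_nonneg _)
          have h1 := hfider i y hy
          have h2 := norm_coordK_le (𝕂 := 𝕂) i
          calc ‖fderiv ℝ (fi i).1 y‖ = ‖(fderiv ℝ (fi i).1 y - coordK 𝕂 i) + coordK 𝕂 i‖ := by
                rw [sub_add_cancel]
            _ ≤ ‖fderiv ℝ (fi i).1 y - coordK 𝕂 i‖ + ‖coordK 𝕂 i‖ := norm_add_le _ _
            _ ≤ 2 := by linarith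
        have c2 : ‖(fderiv ℝ (fi i).1 y - coordK 𝕂 i) u‖ ≤ ε * ‖u‖ :=
          (ContinuousLinearMap.le_opNorm _ _).trans
            (mul_le_mul_of_nonneg_right (hfider i y hy) (norm_nonneg _))
        have c3 : ‖fderiv ℝ f0.1 y u‖ ≤ ε * ‖u‖ :=
          (ContinuousLinearMap.le_opNorm _ _).trans
            (mul_le_mul_of_nonneg_right (hf0der y hy) (norm_nonneg _))
        have c4 := hf0val y hy
        have c5 := hfiup i y hy
        rw [e]
        calc ‖-((f0.1 y - 1) * (fderiv ℝ (fi i).1 y u))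
            - ((fderiv ℝ (fi i).1 y - coordK 𝕂 i) u) + (fi i).1 y * fderiv ℝ f0.1 y u‖
            ≤ ‖(f0.1 y - 1) * (fderiv ℝ (fi i).1 y u)‖
              + ‖(fderiv ℝ (fi i).1 y - coordK 𝕂 i) u‖ + ‖(fi i).1 y * fderiv ℝ f0.1 y u‖ := by
              refine (norm_add_le _ _).trans ?_
              gcongr
              refine (norm_sub_le _ _).trans ?_
              rw [norm_neg]
          _ ≤ ε * (2 * ‖u‖) + ε * ‖u‖ + (R + 1) * (ε * ‖u‖) := by
            rw [norm_mul, norm_mul]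
            gcongr
          _ = ε * (R + 4) * ‖u‖ := by ring
      rw [← norm_coordK_apply (𝕂 := 𝕂) i u]
      calc ‖coordK 𝕂 i u‖ = ‖X + (coordK 𝕂 i u - X)‖ := by rw [add_sub_cancel]
        _ ≤ ‖X‖ + ‖coordK 𝕂 i u - X‖ := norm_add_le _ _
        _ ≤ _ := add_le_add hXle herr
    have hun : ‖u‖ ≤ d * (D * ‖v‖ + ε * (R + 4) * ‖u‖) := by
      calc ‖u‖ ≤ ∑ i, |u i| := norm_le_sum_coord u
        _ ≤ ∑ _i : Fin d, (D * ‖v‖ + ε * (R + 4) * ‖u‖) := Finset.sum_le_sum fun i _ => hcoord i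
        _ = d * (D * ‖v‖ + ε * (R + 4) * ‖u‖) := by
          rw [Finset.sum_const, Finset.card_univ, Fintype.card_fin, nsmul_eq_mul]
    have h5 : d * (ε * (R + 4)) * ‖u‖ ≤ 1 / 2 * ‖u‖ :=
      mul_le_mul_of_nonneg_right hεd (norm_nonneg _)
    nlinarith
  refine ⟨2 * B0 + 2 * (d * D), ?_, fun n z hz hy => ⟨?_, ?_⟩⟩
  · have hd0 : (0 : ℝ) ≤ d := Nat.cast_nonneg d
    positivity
  · have hd0 : (0 : ℝ) ≤ 2 * (d * D) := by positivity
    have := hwup n z hz hy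
    linarith
  · have hd0 : (0 : ℝ) ≤ 2 * (d * D) := by positivity
    have := ContinuousLinearMap.opNorm_le_bound _ hd0 (hMv n z hz hy)
    linarith

end Pool.Agent.H88.WCO
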