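import Mathlib
import Pool.Agent.H88.WCOBounds

/-!
# Run-away maps with bounded derivatives at return times are strongly run-away
-/

namespace Pool.Agent.H88.WCO

open Set Filter Topology
open scoped ContDiff

variable {d : ℕ} {Ω : Set (E d)} {ψ : E d → E d}

/-- The bound on the derivatives of the iterates at the points of `K` returning to `K`. -/
def DerivBound (Ω : Set (E d)) (ψ : E d → E d) : Prop :=
  ∀ K : Set (E d), IsCompact K → K ⊆ Ω →
    ∃ C : ℝ, 0 < C ∧ ∀ n, ∀ z ∈ K, ψ^[n] z ∈ K → ‖fderiv ℝ (ψ^[n]) z‖ ≤ C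

/-- `ψ` is run-away. -/
def RunAway (Ω : Set (E d)) (ψ : E d → E d) : Prop :=
  ∀ K : Set (E d), IsCompact K → K ⊆ Ω → ∃ n : ℕ, Disjoint (ψ^[n] '' K) K

/-- `ψ` is strongly run-away. -/
def StronglyRunAway (Ω : Set (E d)) (ψ : E d → E d) : Prop :=
  ∀ K : Set (E d), IsCompact K → K ⊆ Ω → ∃ N : ℕ, ∀ n, N ≤ n → Disjoint (ψ^[n] '' K) K

/-- Local equicontinuity of the iterates at return times. -/
lemma equicont (hψ : ContDiffOn ℝ ∞ ψ Ω) (hm : MapsTo ψ Ω Ω) (hΩ : IsOpen Ω)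
    (hb : DerivBound Ω ψ) {x y : E d} (hx : x ∈ Ω) (hy : y ∈ Ω) :
    ∃ δ : ℝ, 0 < δ ∧ ∃ C : ℝ, 0 < C ∧ ∀ n a z, dist a x ≤ δ → dist z x ≤ δ →
      dist (ψ^[n] a) y ≤ δ → dist (ψ^[n] z) (ψ^[n] a) ≤ C * dist z a := by
  obtain ⟨r1, hr1, hb1⟩ := Metric.isOpen_iff.mp hΩ x hx
  obtain ⟨r2, hr2, hb2⟩ := Metric.isOpen_iff.mp hΩ y hy
  set ρ : ℝ := min r1 r2 / 2 with hρ
  have hρpos : 0 < ρ := by have := lt_min hr1 hr2; positivity
  have hsub1 : Metric.closedBall x ρ ⊆ Ω := by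
    refine (Metric.closedBall_subset_ball ?_).trans hb1
    have h1 : min r1 r2 ≤ r1 := min_le_left _ _
    have h2 := lt_min hr1 hr2
    rw [hρ]; linarith
  have hsub2 : Metric.closedBall y ρ ⊆ Ω := by
    refine (Metric.closedBall_subset_ball ?_).trans hb2
    have h1 : min r1 r2 ≤ r2 := min_le_right _ _
    have h2 := lt_min hr1 hr2
    rw [hρ]; linarith
  set K : Set (E d) := Metric.closedBall x ρ ∪ Metric.closedBall y ρ with hKdef
  obtain ⟨C, hC, hbd⟩ := hb K ((isCompact_closedBall x ρ).union (isCompact_closedBall y ρ))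
    (union_subset hsub1 hsub2)
  have hδpos : 0 < min (ρ / 2) (ρ / (4 * (C + 1))) := lt_min (by positivity) (by positivity)
  refine ⟨min (ρ / 2) (ρ / (4 * (C + 1))), hδpos, C + 1, by linarith, ?_⟩
  intro n a z ha hz hna
  set δ := min (ρ / 2) (ρ / (4 * (C + 1))) with hδ
  have hδ1 : δ ≤ ρ / 2 := min_le_left _ _
  have hδ2 : (C + 1) * (2 * δ) ≤ ρ / 2 := by
    have h3 : δ ≤ ρ / (4 * (C + 1)) := min_le_right _ _
    calc (C + 1) * (2 * δ) ≤ (C + 1) * (2 * (ρ / (4 * (C + 1)))) := by gcongr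
      _ = ρ / 2 := by field_simp; ring
  rcases eq_or_ne z a with rfl | hza
  · simp
  have hdpos : 0 < dist z a := dist_pos.mpr hza
  have hza2 : dist z a ≤ 2 * δ := by
    calc dist z a ≤ dist z x + dist a x := dist_triangle_right z a x
      _ ≤ 2 * δ := by linarith
  -- the segment
  set γ : ℝ → E d := fun t => a + t • (z - a) with hγ
  have hγK : ∀ t ∈ Icc (0 : ℝ) 1, γ t ∈ Metric.closedBall x ρ := by
    intro t ht
    rw [Metric.mem_closedBall, dist_eq_norm]
    have e : γ t - x = (1 - t) • (a - x) + t • (z - x) := by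
      simp only [hγ, sub_smul, one_smul, smul_sub]; abel
    rw [e]
    rw [dist_eq_norm] at ha hz
    calc ‖(1 - t) • (a - x) + t • (z - x)‖ ≤ ‖(1 - t) • (a - x)‖ + ‖t • (z - x)‖ :=
          norm_add_le _ _
      _ = (1 - t) * ‖a - x‖ + t * ‖z - x‖ := by
        rw [norm_smul, norm_smul, Real.norm_eq_abs, Real.norm_eq_abs,
          abs_of_nonneg (by linarith [ht.2]), abs_of_nonneg ht.1]
      _ ≤ (1 - t) * δ + t * δ := by
        have := ht.1; have := ht.2
        gcongr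
      _ ≤ ρ := by linarith
  have hγΩ : ∀ t ∈ Icc (0 : ℝ) 1, γ t ∈ Ω := fun t ht => hsub1 (hγK t ht)
  have hγd : ∀ t : ℝ, HasDerivAt γ (z - a) t := by
    intro t
    have h1 : HasDerivAt (fun t : ℝ => t • (z - a)) ((1 : ℝ) • (z - a)) t :=
      (hasDerivAt_id t).smul_const (z - a)
    rw [one_smul] at h1
    exact h1.const_add a
  have hdiff : ∀ t ∈ Icc (0 : ℝ) 1, HasFDerivAt (ψ^[n]) (fderiv ℝ (ψ^[n]) (γ t)) (γ t) := by
    intro t ht
    exact (((contDiffOn_iterate hψ hm n).contDiffAt (hΩ.mem_nhds (hγΩ t ht))).differentiableAt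
      (by simp)).hasFDerivAt
  have hfd : ∀ t ∈ Icc (0 : ℝ) 1, HasDerivAt (fun t => ψ^[n] (γ t) - ψ^[n] a)
      (fderiv ℝ (ψ^[n]) (γ t) (z - a)) t := by
    intro t ht
    exact ((hdiff t ht).comp_hasDerivAt t (hγd t)).sub_const _
  have hmain := image_norm_le_of_norm_deriv_right_lt_deriv_boundary
    (f := fun t => ψ^[n] (γ t) - ψ^[n] a) (f' := fun t => fderiv ℝ (ψ^[n]) (γ t) (z - a))
    (a := 0) (b := 1) (B := fun t => (C + 1) * dist z a * t) (B' := fun _ => (C + 1) * dist z a)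
    (fun t ht => (hfd t ht).continuousAt.continuousWithinAt)
    (fun t ht => (hfd t ⟨ht.1, ht.2.le⟩).hasDerivWithinAt)
    (by simp [hγ])
    (fun t => by simpa using (hasDerivAt_id t).const_mul ((C + 1) * dist z a))
    (by
      intro t ht heq
      have ht' : t ∈ Icc (0 : ℝ) 1 := ⟨ht.1, ht.2.le⟩
      have hle : ‖ψ^[n] (γ t) - ψ^[n] a‖ ≤ ρ / 2 := by
        have heq' : ‖ψ^[n] (γ t) - ψ^[n] a‖ = (C + 1) * dist z a * t := heq
        rw [heq']
        calc (C + 1) * dist z a * t ≤ (C + 1) * dist z a * 1 := by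
              have := ht.2.le
              gcongr
          _ ≤ (C + 1) * (2 * δ) := by rw [mul_one]; gcongr
          _ ≤ ρ / 2 := hδ2
      have hin : ψ^[n] (γ t) ∈ K := by
        right
        rw [Metric.mem_closedBall]
        calc dist (ψ^[n] (γ t)) y ≤ dist (ψ^[n] (γ t)) (ψ^[n] a) + dist (ψ^[n] a) y :=
              dist_triangle _ _ _
          _ ≤ ρ / 2 + ρ / 2 := by
            rw [dist_eq_norm (ψ^[n] (γ t))]
            linarith
          _ = ρ := by ring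
      have hder := hbd n (γ t) (Or.inl (hγK t ht')) hin
      calc ‖fderiv ℝ (ψ^[n]) (γ t) (z - a)‖ ≤ ‖fderiv ℝ (ψ^[n]) (γ t)‖ * ‖z - a‖ :=
            ContinuousLinearMap.le_opNorm _ _
        _ ≤ C * ‖z - a‖ := by gcongr
        _ < (C + 1) * dist z a := by
          rw [dist_eq_norm] at hdpos ⊢
          linarith)
  have := hmain (x := 1) ⟨zero_le_one, le_rfl⟩
  have hγ1 : γ 1 = z := by simp [hγ]
  simp only [hγ1, mul_one] at this
  rw [dist_eq_norm (ψ^[n] z)]
  exact this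

/-- Under the derivative bound, a run-away map is strongly run-away. -/
lemma stronglyRunAway_of_runAway (hψ : ContDiffOn ℝ ∞ ψ Ω) (hm : MapsTo ψ Ω Ω) (hΩ : IsOpen Ω)
    (hb : DerivBound Ω ψ) (hr : RunAway Ω ψ) : StronglyRunAway Ω ψ := by
  intro K hK hKΩ
  by_contra hcon
  push Not at hcon
  -- times n_k ≥ k and points x_k
  have h1 : ∀ N : ℕ, ∃ n, N ≤ n ∧ ∃ x ∈ K, ψ^[n] x ∈ K := by
    intro N
    obtain ⟨n, hn, hnd⟩ := hcon N
    rw [Set.not_disjoint_iff] at hnd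
    obtain ⟨_, ⟨x, hx, rfl⟩, hx2⟩ := hnd
    exact ⟨n, hn, x, hx, hx2⟩
  choose n hn xs hxs hys using h1
  -- subsequences
  obtain ⟨p, hp, φ, hφ, hlim⟩ := (hK.prod hK).tendsto_subseq
    (x := fun k => (xs k, ψ^[n k] (xs k))) (fun k => ⟨hxs k, hys k⟩)
  obtain ⟨x, y⟩ := p
  have hxK : x ∈ K := hp.1
  have hyK : y ∈ K := hp.2
  have hx : x ∈ Ω := hKΩ hxK
  have hy : y ∈ Ω := hKΩ hyK
  have hlx : Tendsto (fun k => xs (φ k)) atTop (𝓝 x) := (continuous_fst.tendsto _).comp hlim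
  have hly : Tendsto (fun k => ψ^[n (φ k)] (xs (φ k))) atTop (𝓝 y) :=
    (continuous_snd.tendsto _).comp hlim
  -- the orbit of x accumulates at y
  obtain ⟨δ, hδ, C, hC, hec⟩ := equicont hψ hm hΩ hb hx hy
  have hw : Tendsto (fun k => ψ^[n (φ k)] x) atTop (𝓝 y) := by
    rw [tendsto_iff_dist_tendsto_zero]
    have hbound : ∀ᶠ k in atTop, dist (ψ^[n (φ k)] x) y
        ≤ C * dist x (xs (φ k)) + dist (ψ^[n (φ k)] (xs (φ k))) y := by
      filter_upwards [Metric.tendsto_nhds.mp hlx δ hδ, Metric.tendsto_nhds.mp hly δ hδ] with k h1 h2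
      have := hec (n (φ k)) (xs (φ k)) x h1.le (by simpa using hδ.le) h2.le
      calc dist (ψ^[n (φ k)] x) y ≤ dist (ψ^[n (φ k)] x) (ψ^[n (φ k)] (xs (φ k)))
            + dist (ψ^[n (φ k)] (xs (φ k))) y := dist_triangle _ _ _
        _ ≤ _ := by linarith
    have hz : Tendsto (fun k => C * dist x (xs (φ k)) + dist (ψ^[n (φ k)] (xs (φ k))) y) atTop
        (𝓝 0) := by
      have e1 : Tendsto (fun k => dist x (xs (φ k))) atTop (𝓝 0) := by
        have := tendsto_iff_dist_tendsto_zero.mp hlx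
        simpa [dist_comm] using this
      have e2 := tendsto_iff_dist_tendsto_zero.mp hly
      simpa using (e1.const_mul C).add e2
    exact squeeze_zero' (Eventually.of_forall fun _ => dist_nonneg) hbound hz
  -- n (φ k) → ∞
  have hninf : Tendsto (fun k => n (φ k)) atTop atTop :=
    tendsto_atTop_mono (fun k => (hφ.id_le k).trans (hn (φ k))) tendsto_id
  -- y is recurrent
  have hrec : ∀ ε : ℝ, 0 < ε → ∀ N : ℕ, ∃ m, N ≤ m ∧ dist (ψ^[m] y) y < ε := by
    intro ε hε N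
    obtain ⟨δ', hδ', C', hC', hec'⟩ := equicont hψ hm hΩ hb hy hy
    have hη : 0 < min δ' (ε / (2 * C' + 2)) := lt_min hδ' (by positivity)
    obtain ⟨j, hj⟩ := (Metric.tendsto_nhds.mp hw _ hη).exists
    have hev : ∀ᶠ k in atTop, n (φ j) + N ≤ n (φ k) ∧ dist (ψ^[n (φ k)] x) y < min δ' (ε / 2) :=
      (hninf.eventually_ge_atTop _).and (Metric.tendsto_nhds.mp hw _ (lt_min hδ' (by positivity)))
    obtain ⟨k, hk1, hk2⟩ := hev.exists
    refine ⟨n (φ k) - n (φ j), by omega, ?_⟩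
    have e : ψ^[n (φ k) - n (φ j)] (ψ^[n (φ j)] x) = ψ^[n (φ k)] x := by
      rw [← Function.iterate_add_apply]; congr 2; omega
    have h3 := hec' (n (φ k) - n (φ j)) (ψ^[n (φ j)] x) y (hj.le.trans (min_le_left _ _))
      (by simpa using hδ'.le) (by rw [e]; exact hk2.le.trans (min_le_left _ _))
    rw [e] at h3
    have h4 : dist y (ψ^[n (φ j)] x) < ε / (2 * C' + 2) := by
      rw [dist_comm]; exact hj.trans_le (min_le_right _ _)
    have h5 : C' * dist y (ψ^[n (φ j)] x) < ε / 2 := by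
      calc C' * dist y (ψ^[n (φ j)] x) < C' * (ε / (2 * C' + 2)) := by gcongr
        _ ≤ ε / 2 := by
          rw [← mul_div_assoc, div_le_div_iff₀ (by positivity) (by norm_num)]
          nlinarith
    have h6 : dist (ψ^[n (φ k)] x) y < ε / 2 := hk2.trans_le (min_le_right _ _)
    calc dist (ψ^[n (φ k) - n (φ j)] y) y
        ≤ dist (ψ^[n (φ k) - n (φ j)] y) (ψ^[n (φ k)] x) + dist (ψ^[n (φ k)] x) y :=
          dist_triangle _ _ _
      _ < ε := by linarith
  -- the compact piece V of the orbit closure of y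
  obtain ⟨r, hr0, hball⟩ := Metric.isOpen_iff.mp hΩ y hy
  set ε : ℝ := r / 2 with hε
  have hεpos : 0 < ε := by positivity
  have hcbΩ : Metric.closedBall y ε ⊆ Ω :=
    (Metric.closedBall_subset_ball (by rw [hε]; linarith)).trans hball
  set O : Set (E d) := range fun m : ℕ => ψ^[m] y with hO
  set V : Set (E d) := Metric.closedBall y ε ∩ closure O with hV
  have hVc : IsCompact V := (isCompact_closedBall y ε).inter_right isClosed_closure
  have hVΩ : V ⊆ Ω := fun z hz => hcbΩ hz.1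
  -- every point of V comes back to the open ball
  have hback : ∀ z ∈ V, ∃ m : ℕ, 1 ≤ m ∧ dist (ψ^[m] z) y < ε := by
    intro z hz
    obtain ⟨δ', hδ', C', hC', hec'⟩ := equicont hψ hm hΩ hb (hVΩ hz) hy
    have hη : 0 < min δ' (ε / (2 * C')) := lt_min hδ' (by positivity)
    obtain ⟨_, ⟨l, rfl⟩, hl⟩ := Metric.mem_closure_iff.mp hz.2 _ hη
    obtain ⟨m, hm1, hm2⟩ := hrec (min δ' (ε / 2)) (lt_min hδ' (by positivity)) (l + 1)
    refine ⟨m - l, by omega, ?_⟩
    have e : ψ^[m - l] (ψ^[l] y) = ψ^[m] y := by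
      rw [← Function.iterate_add_apply]; congr 2; omega
    have h3 := hec' (m - l) (ψ^[l] y) z
      (by rw [dist_comm]; exact hl.le.trans (min_le_left _ _))
      (by simpa using hδ'.le) (by rw [e]; exact hm2.le.trans (min_le_left _ _))
    rw [e] at h3
    have h4 : C' * dist z (ψ^[l] y) < ε / 2 := by
      calc C' * dist z (ψ^[l] y) < C' * (ε / (2 * C')) := by
            gcongr
            exact hl.trans_le (min_le_right _ _)
        _ = ε / 2 := by field_simp
    have h6 : dist (ψ^[m] y) y < ε / 2 := hm2.trans_le (min_le_right _ _)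
    calc dist (ψ^[m - l] z) y ≤ dist (ψ^[m - l] z) (ψ^[m] y) + dist (ψ^[m] y) y :=
          dist_triangle _ _ _
      _ < ε := by linarith
  -- forward invariance of the orbit closure
  have hinv : ∀ m : ℕ, ∀ z ∈ V, ψ^[m] z ∈ closure O := by
    intro m z hz
    have hc : ContinuousAt (ψ^[m]) z :=
      ((contDiffOn_iterate hψ hm m).continuousOn).continuousAt (hΩ.mem_nhds (hVΩ hz))
    refine closure_mono ?_ (mem_closure_image hc hz.2)
    rintro _ ⟨_, ⟨l, rfl⟩, rfl⟩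
    exact ⟨m + l, Function.iterate_add_apply ψ m l y⟩
  -- bounded return times
  have hfin : ∃ N : ℕ, ∀ z ∈ V, ∃ m : ℕ, 1 ≤ m ∧ m ≤ N ∧ dist (ψ^[m] z) y < ε := by
    choose! M hM1 hM2 using hback
    have hnhds : ∀ z ∈ V, {z' | dist (ψ^[M z] z') y < ε} ∈ 𝓝 z := by
      intro z hz
      have hc : ContinuousAt (ψ^[M z]) z :=
        ((contDiffOn_iterate hψ hm (M z)).continuousOn).continuousAt (hΩ.mem_nhds (hVΩ hz))
      have : ContinuousAt (fun z' => dist (ψ^[M z] z') y) z := hc.dist continuousAt_const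
      exact this.eventually (gt_mem_nhds (hM2 z hz))
    obtain ⟨t, ht, hcov⟩ := hVc.elim_nhds_subcover (fun z => {z' | dist (ψ^[M z] z') y < ε}) hnhds
    refine ⟨t.sup M, fun z hz => ?_⟩
    obtain ⟨z0, hz0, hz0'⟩ := mem_iUnion₂.mp (hcov hz)
    exact ⟨M z0, hM1 z0 (ht z0 hz0), Finset.le_sup hz0, hz0'⟩
  obtain ⟨N, hN⟩ := hfin
  have hyV : y ∈ V := ⟨Metric.mem_closedBall_self hεpos.le, subset_closure ⟨0, rfl⟩⟩
  -- the whole orbit of y stays within N steps of V
  have horb : ∀ t : ℕ, ∃ s, s ≤ t ∧ t - s ≤ N ∧ ψ^[s] y ∈ V := by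
    intro t
    induction t with
    | zero => exact ⟨0, le_rfl, by omega, hyV⟩
    | succ t ih =>
      obtain ⟨s, hs1, hs2, hs3⟩ := ih
      by_cases hcase : t + 1 - s ≤ N
      · exact ⟨s, by omega, hcase, hs3⟩
      · obtain ⟨m, hm1, hm2, hm3⟩ := hN _ hs3
        refine ⟨m + s, by omega, by omega, ?_⟩
        rw [Function.iterate_add_apply]
        exact ⟨hm3.le, hinv m _ hs3⟩
  -- the compact set W
  set W : Set (E d) := ⋃ i ∈ Finset.range (N + 1), ψ^[i] '' V with hW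
  have hWc : IsCompact W := by
    refine (Finset.range (N + 1)).isCompact_biUnion fun i _ => ?_
    exact hVc.image_of_continuousOn ((contDiffOn_iterate hψ hm i).continuousOn.mono hVΩ)
  have hWΩ : W ⊆ Ω := by
    refine iUnion₂_subset fun i _ => ?_
    rintro _ ⟨z, hz, rfl⟩
    exact hm.iterate i (hVΩ hz)
  have hyW : ∀ t : ℕ, ψ^[t] y ∈ W := by
    intro t
    obtain ⟨s, hs1, hs2, hs3⟩ := horb t
    refine mem_iUnion₂.mpr ⟨t - s, Finset.mem_range.mpr (by omega), ψ^[s] y, hs3, ?_⟩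
    rw [← Function.iterate_add_apply]; congr 2; omega
  obtain ⟨m, hmd⟩ := hr W hWc hWΩ
  exact Set.disjoint_left.mp hmd ⟨y, hyW 0, rfl⟩ (hyW m)

end Pool.Agent.H88.WCO
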