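import Mathlib
import Pool.Agent.H88.WCODyn

/-!
# Strongly run-away symbols give mixing operators; the main theorem
-/

namespace Pool.Agent.H88.WCO

open Set Filter Topology
open scoped ContDiff Manifold

variable {𝕂 : Type} [RCLike 𝕂] {d : ℕ} {Ω : Set (E d)}
variable {w : E d → 𝕂} {ψ : E d → E d}

/-- Smooth cutoff functions. -/
lemma exists_cutoff {K U : Set (E d)} (hK : IsCompact K) (hU : IsOpen U) (hKU : K ⊆ U) :
    ∃ χ : E d → ℝ, ContDiff ℝ ∞ χ ∧ ∃ L : Set (E d), IsCompact L ∧ L ⊆ U ∧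
      (∀ x, x ∉ L → χ x = 0) ∧ ∀ x ∈ K, ∀ᶠ y in 𝓝 x, χ y = 1 := by
  obtain ⟨L, hL, hKL, hLU⟩ := exists_compact_between hK hU hKU
  obtain ⟨f, hf1, hf0, -⟩ := exists_contMDiffMap_one_nhds_of_subset_interior (n := ⊤)
    (𝓘(ℝ, E d)) hK.isClosed hKL
  refine ⟨f, f.contMDiff.contDiff, L, hL, hLU, hf0, ?_⟩
  intro x hx
  exact (Filter.Eventually.filter_mono (nhds_le_nhdsSet hx) hf1)

/-- Pushing forward a compactly supported smooth function by an injective local diffeomorphism. -/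
lemma exists_pushforward (hΩ : IsOpen Ω) {Ψ : E d → E d} (hΨ : ContDiffOn ℝ ∞ Ψ Ω)
    (hinj : InjOn Ψ Ω) (hder : ∀ x ∈ Ω, ∀ v, fderiv ℝ Ψ x v = 0 → v = 0)
    {u : E d → 𝕂} (hu : ContDiffOn ℝ ∞ u Ω) {L : Set (E d)} (hL : IsCompact L) (hLΩ : L ⊆ Ω)
    (hu0 : ∀ x, x ∉ L → u x = 0) :
    ∃ h : E d → 𝕂, ContDiff ℝ ∞ h ∧ (∀ x ∈ Ω, h (Ψ x) = u x) ∧ ∀ y, y ∉ Ψ '' L → h y = 0 := by
  classical
  set h : E d → 𝕂 := fun y => if y ∈ Ψ '' Ω then u (Function.invFunOn Ψ Ω y) else 0 with hh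
  have hval : ∀ x ∈ Ω, h (Ψ x) = u x := by
    intro x hx
    have hmem : Ψ x ∈ Ψ '' Ω := mem_image_of_mem Ψ hx
    simp only [hh, if_pos hmem]
    rw [hinj.leftInvOn_invFunOn hx]
  have hzero : ∀ y, y ∉ Ψ '' L → h y = 0 := by
    intro y hy
    by_cases hy2 : y ∈ Ψ '' Ω
    · obtain ⟨x, hx, rfl⟩ := hy2
      rw [hval x hx]
      exact hu0 x fun hxL => hy ⟨x, hxL, rfl⟩
    · simp only [hh, if_neg hy2]
  refine ⟨h, ?_, hval, hzero⟩
  rw [contDiff_iff_contDiffAt]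
  intro y
  by_cases hy : y ∈ Ψ '' L
  · obtain ⟨x, hxL, rfl⟩ := hy
    have hx : x ∈ Ω := hLΩ hxL
    have hΨx : ContDiffAt ℝ ∞ Ψ x := hΨ.contDiffAt (hΩ.mem_nhds hx)
    -- the derivative as a continuous linear equivalence
    have hinjd : Function.Injective (fderiv ℝ Ψ x) := by
      rw [injective_iff_map_eq_zero]
      exact fun v hv => hder x hx v hv
    have hker : LinearMap.ker (fderiv ℝ Ψ x : E d →ₗ[ℝ] E d) = ⊥ := LinearMap.ker_eq_bot.mpr hinjd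
    set e : E d ≃L[ℝ] E d :=
      (LinearEquiv.ofInjectiveEndo (fderiv ℝ Ψ x : E d →ₗ[ℝ] E d) hinjd).toContinuousLinearEquiv
      with he
    have hefd : HasFDerivAt Ψ (e : E d →L[ℝ] E d) x := by
      have h1 : (e : E d →L[ℝ] E d) = fderiv ℝ Ψ x := by
        ext v
        rfl
      rw [h1]
      exact (hΨx.differentiableAt (by simp)).hasFDerivAt
    set F := hΨx.toOpenPartialHomeomorph Ψ hefd (by simp) with hF
    have hFx : x ∈ F.source := hΨx.mem_toOpenPartialHomeomorph_source hefd (by simp)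
    have hFy : Ψ x ∈ F.target := hΨx.image_mem_toOpenPartialHomeomorph_target hefd (by simp)
    have hsymm : ContDiffAt ℝ ∞ F.symm (Ψ x) := by
      have := hΨx.to_localInverse hefd (by simp)
      exact this
    have hFcoe : (F : E d → E d) = Ψ := hΨx.toOpenPartialHomeomorph_coe hefd (by simp)
    have hsymmx : F.symm (Ψ x) = x := by
      have := F.left_inv hFx
      rwa [hFcoe] at this
    have hev : h =ᶠ[𝓝 (Ψ x)] u ∘ F.symm := by
      have h1 : ∀ᶠ y in 𝓝 (Ψ x), y ∈ F.target := F.open_target.mem_nhds hFy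
      have h2 : ∀ᶠ y in 𝓝 (Ψ x), F.symm y ∈ Ω := by
        apply hsymm.continuousAt.eventually
        rw [hsymmx]
        exact hΩ.mem_nhds hx
      filter_upwards [h1, h2] with y hy1 hy2
      have h3 : Ψ (F.symm y) = y := by
        have := F.right_inv hy1
        rwa [hFcoe] at this
      rw [Function.comp_apply, ← hval _ hy2, h3]
    refine ContDiffAt.congr_of_eventuallyEq ?_ hev
    refine ContDiffAt.comp _ ?_ hsymm
    rw [hsymmx]
    exact hu.contDiffAt (hΩ.mem_nhds hx)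
  · have hclosed : IsClosed (Ψ '' L) :=
      (hL.image_of_continuousOn (hΨ.continuousOn.mono hLΩ)).isClosed
    have hev : h =ᶠ[𝓝 y] fun _ => 0 := by
      filter_upwards [hclosed.isOpen_compl.mem_nhds hy] with z hz using hzero z hz
    exact contDiffAt_const.congr_of_eventuallyEq hev

lemma iteratedFDeriv_sub_eq_zero {f g : E d → 𝕂} {x : E d} (h : f =ᶠ[𝓝 x] g) (i : ℕ) :
    iteratedFDeriv ℝ i (fun y => f y - g y) x = 0 := by
  have h1 : (fun y => f y - g y) =ᶠ[𝓝 x] fun _ => (0 : 𝕂) := by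
    filter_upwards [h] with y hy
    rw [hy, sub_self]
  have h2 := (h1.iteratedFDeriv (𝕜 := ℝ) i).eq_of_nhds
  rw [h2]
  have h0 : iteratedFDeriv ℝ i (fun _ : E d => (0 : 𝕂)) = 0 := iteratedFDeriv_fun_zero
  rw [h0]
  rfl

/-- The sufficient condition for mixing. -/
lemma mixing_of_stronglyRunAway (hΩ : IsOpen Ω) (hw : ContDiffOn ℝ ∞ w Ω)
    (hψ : ContDiffOn ℝ ∞ ψ Ω) (hm : MapsTo ψ Ω Ω) (hw0 : ∀ x ∈ Ω, w x ≠ 0) (hinj : InjOn ψ Ω)
    (hder : ∀ x ∈ Ω, ∀ v, fderiv ℝ ψ x v = 0 → v = 0) (hr : StronglyRunAway Ω ψ) :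
    IsMixing (wco hw hψ hm) := by
  intro U V hU hV hUne hVne
  obtain ⟨u, huU⟩ := hUne
  obtain ⟨v, hvV⟩ := hVne
  obtain ⟨K₁, hK₁, hK₁Ω, n₁, ε₁, hε₁, hU'⟩ := (isOpen_def U).mp hU u huU
  obtain ⟨K₂, hK₂, hK₂Ω, n₂, ε₂, hε₂, hV'⟩ := (isOpen_def V).mp hV v hvV
  obtain ⟨χ, hχ, L, hL, hLΩ, hχ0, hχ1⟩ := exists_cutoff (hK₁.union hK₂) hΩ
    (union_subset hK₁Ω hK₂Ω)
  obtain ⟨N, hN⟩ := hr L hL hLΩ
  refine ⟨N, fun n hn => ?_⟩
  have hdisj := hN n hn
  have hKL : ∀ x ∈ K₁ ∪ K₂, x ∈ L := by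
    intro x hx
    by_contra hxL
    have h1 := (hχ1 x hx).self_of_nhds
    rw [hχ0 x hxL] at h1
    exact zero_ne_one h1
  -- properties of the iterate
  have hΨ := contDiffOn_iterate hψ hm n
  have hΨinj : InjOn (ψ^[n]) Ω := hinj.iterate hm n
  have hΨder : ∀ x ∈ Ω, ∀ v, fderiv ℝ (ψ^[n]) x v = 0 → v = 0 := by
    intro x hx
    induction n generalizing x with
    | zero =>
      intro v hv
      simpa using hv
    | succ k ih =>
      intro v hv
      have e1 : fderiv ℝ (ψ^[k + 1]) x = (fderiv ℝ (ψ^[k]) (ψ x)).comp (fderiv ℝ ψ x) := by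
        rw [Function.iterate_succ]
        exact fderiv_comp x
          (((contDiffOn_iterate hψ hm k).contDiffAt (hΩ.mem_nhds (hm hx))).differentiableAt
            (by simp))
          ((hψ.contDiffAt (hΩ.mem_nhds hx)).differentiableAt (by simp))
      rw [e1, ContinuousLinearMap.comp_apply] at hv
      have hsub : ∀ k : ℕ, ∀ x ∈ Ω, ∀ v, fderiv ℝ (ψ^[k]) x v = 0 → v = 0 := by
        intro k
        induction k with
        | zero => intro x _ v hv; simpa using hv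
        | succ k ih =>
          intro x hx v hv
          have e1 : fderiv ℝ (ψ^[k + 1]) x = (fderiv ℝ (ψ^[k]) (ψ x)).comp (fderiv ℝ ψ x) := by
            rw [Function.iterate_succ]
            exact fderiv_comp x
              (((contDiffOn_iterate hψ hm k).contDiffAt (hΩ.mem_nhds (hm hx))).differentiableAt
                (by simp))
              ((hψ.contDiffAt (hΩ.mem_nhds hx)).differentiableAt (by simp))
          rw [e1, ContinuousLinearMap.comp_apply] at hv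
          exact hder x hx v (ih (ψ x) (hm hx) _ hv)
      exact hder x hx v (hsub k (ψ x) (hm hx) _ hv)
  -- the function to push forward
  set q : E d → 𝕂 := fun x => (χ x : 𝕂) * v.1 x / wn w ψ n x with hq
  have hwn0 : ∀ x ∈ Ω, wn w ψ n x ≠ 0 := fun x hx => wn_ne_zero hm hw0 n hx
  have hχK : ContDiff ℝ ∞ (fun x => (χ x : 𝕂)) := (RCLike.ofRealCLM (K := 𝕂)).contDiff.comp hχ
  have hqs : ContDiffOn ℝ ∞ q Ω := by
    have h1 : ContDiffOn ℝ ∞ (fun x => (χ x : 𝕂) * v.1 x) Ω := hχK.contDiffOn.mul v.2.1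
    have h2 : ContDiffOn ℝ ∞ (fun x => (wn w ψ n x)⁻¹) Ω :=
      (contDiffOn_wn hw hψ hm n).inv hwn0
    have h3 := h1.mul h2
    refine h3.congr fun x _ => ?_
    simp only [hq, div_eq_mul_inv]
  have hq0 : ∀ x, x ∉ L → q x = 0 := by
    intro x hx
    simp only [hq, hχ0 x hx]
    simp
  obtain ⟨h2, hh2s, hh2v, hh20⟩ := exists_pushforward hΩ hΨ hΨinj hΨder hqs hL hLΩ hq0
  -- the vector
  have hHs : ContDiffOn ℝ ∞ (fun y => (χ y : 𝕂) * u.1 y + h2 y) Ω :=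
    (hχK.contDiffOn.mul u.2.1).add hh2s.contDiffOn
  set H : SmoothFun 𝕂 Ω := mkSmooth (fun y => (χ y : 𝕂) * u.1 y + h2 y) hHs with hH
  have hclosed : IsClosed (ψ^[n] '' L) :=
    (hL.image_of_continuousOn (hΨ.continuousOn.mono hLΩ)).isClosed
  have hHU : H ∈ U := by
    refine hU' H fun i _ x hx => ?_
    have hev : H.1 =ᶠ[𝓝 x] u.1 := by
      have h1 := hχ1 x (Or.inl hx)
      have h3 : ∀ᶠ y in 𝓝 x, y ∉ ψ^[n] '' L := by
        refine hclosed.isOpen_compl.mem_nhds ?_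
        intro hmem
        exact Set.disjoint_left.mp hdisj hmem (hKL x (Or.inl hx))
      filter_upwards [h1, h3, hΩ.mem_nhds (hK₁Ω hx)] with y hy1 hy3 hy4
      rw [hH, mkSmooth_apply hy4, hy1, hh20 y hy3]
      simp
    rw [iteratedFDeriv_sub_eq_zero hev i, norm_zero]
    exact hε₁
  have hHV : (wco hw hψ hm)^[n] H ∈ V := by
    refine hV' _ fun i _ x hx => ?_
    have hev : ((wco hw hψ hm)^[n] H).1 =ᶠ[𝓝 x] v.1 := by
      have h1 := hχ1 x (Or.inr hx)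
      filter_upwards [h1, hΩ.mem_nhds (hK₂Ω hx)] with y hy1 hy4
      have hyL : y ∈ L := by
        by_contra hyL
        rw [hχ0 y hyL] at hy1
        exact zero_ne_one hy1
      have hny : ψ^[n] y ∉ L := fun hmem => Set.disjoint_left.mp hdisj ⟨y, hyL, rfl⟩ hmem
      rw [iterate_apply hw hψ hm n H hy4, hH, mkSmooth_apply (hm.iterate n hy4), hχ0 _ hny,
        hh2v y hy4]
      simp only [hq, hy1]
      have := hwn0 y hy4
      simp only [map_one, map_zero, zero_mul, zero_add, one_mul]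
      field_simp
    rw [iteratedFDeriv_sub_eq_zero hev i, norm_zero]
    exact hε₂
  exact ⟨_, ⟨H, hHU, rfl⟩, hHV⟩

/-- Run-away from transitivity and the bound on the weights. -/
lemma runAway_of_transitive (hw : ContDiffOn ℝ ∞ w Ω) (hψ : ContDiffOn ℝ ∞ ψ Ω)
    (hm : MapsTo ψ Ω Ω) (htr : IsTransitive (wco hw hψ hm))
    (hb : ∀ K : Set (E d), IsCompact K → K ⊆ Ω →
      ∃ C : ℝ, 0 < C ∧ ∀ n, ∀ z ∈ K, ψ^[n] z ∈ K → ‖wn w ψ n z‖ ≤ C) : RunAway Ω ψ := by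
  intro K hK hKΩ
  obtain ⟨C, hC, hbd⟩ := hb K hK hKΩ
  have h1 : ({f : SmoothFun 𝕂 Ω | ∀ x ∈ K, ‖f.1 x‖ < 1}).Nonempty := by
    refine ⟨mkSmooth (fun _ => 0) contDiffOn_const, fun x hx => ?_⟩
    rw [mkSmooth_apply (hKΩ hx)]; simp
  have h2 : ({f : SmoothFun 𝕂 Ω | ∀ x ∈ K, C < ‖f.1 x‖}).Nonempty := by
    refine ⟨mkSmooth (fun _ => ((C + 1 : ℝ) : 𝕂)) contDiffOn_const, fun x hx => ?_⟩
    rw [mkSmooth_apply (hKΩ hx), RCLike.norm_ofReal, abs_of_pos (by linarith)]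
    linarith
  obtain ⟨n, _, ⟨f, hf, rfl⟩, hV⟩ := htr _ _ (isOpen_norm_lt hK hKΩ 1) (isOpen_lt_norm hK hKΩ C)
    h1 h2
  refine ⟨n, ?_⟩
  rw [Set.disjoint_left]
  rintro _ ⟨z, hz, rfl⟩ hz2
  have h3 := hV z hz
  rw [iterate_apply hw hψ hm n f (hKΩ hz), norm_mul] at h3
  have h4 := hbd n z hz hz2
  have h5 := hf _ hz2
  have h6 := norm_nonneg (wn w ψ n z)
  have h7 := norm_nonneg (f.1 (ψ^[n] z))
  nlinarith

/-- **Main theorem**: a chaotic weighted composition operator is mixing. -/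
theorem mixing_of_chaotic (hΩ : IsOpen Ω) (hw : ContDiffOn ℝ ∞ w Ω)
    (hψ : ContDiffOn ℝ ∞ ψ Ω) (hm : MapsTo ψ Ω Ω) (hch : IsChaotic (wco hw hψ hm)) :
    IsMixing (wco hw hψ hm) := by
  obtain ⟨htr, hdense⟩ := hch
  have hbounds := fun K hK hKΩ => uniform_bounds hw hψ hm hΩ hdense (K := K) hK hKΩ
  have hrun : RunAway Ω ψ := by
    refine runAway_of_transitive hw hψ hm htr fun K hK hKΩ => ?_
    obtain ⟨C, hC, h⟩ := hbounds K hK hKΩ
    exact ⟨C, hC, fun n z hz hz2 => (h n z hz hz2).1⟩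
  have hder : DerivBound Ω ψ := by
    intro K hK hKΩ
    obtain ⟨C, hC, h⟩ := hbounds K hK hKΩ
    exact ⟨C, hC, fun n z hz hz2 => (h n z hz hz2).2⟩
  exact mixing_of_stronglyRunAway hΩ hw hψ hm (weight_ne_zero hw hψ hm htr)
    (symbol_injOn hw hψ hm htr) (symbol_fderiv_ne hw hψ hm hΩ htr)
    (stronglyRunAway_of_runAway hψ hm hΩ hder hrun)

end Pool.Agent.H88.WCO
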